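import Pool.Agent.NH.Defs

/-!
# The negation hierarchy: basic lemmas on means over cubes
-/

set_option autoImplicit false

namespace Pool.Agent.NH

open Finset

section Bits

theorem bv_true : bv true = 1 := rfl

theorem bv_false : bv false = 0 := rfl

theorem bv_nonneg (b : Bool) : 0 ≤ bv b := by cases b <;> simp [bv]

theorem bv_le_one (b : Bool) : bv b ≤ 1 := by cases b <;> simp [bv]

theorem abs_bv_le (b : Bool) : |bv b| ≤ 1 := by cases b <;> simp [bv]

theorem bv_and (a b : Bool) : bv (a && b) = bv a * bv b := by cases a <;> cases b <;> simp [bv]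

theorem bv_not (a : Bool) : bv (!a) = 1 - bv a := by cases a <;> simp [bv]

theorem sgn_eq (b : Bool) : sgn b = 1 - 2 * bv b := by cases b <;> norm_num [bv, sgn]

theorem abs_sgn (b : Bool) : |sgn b| = 1 := by cases b <;> norm_num [sgn]

theorem sgn_xor (a b : Bool) : sgn (xor a b) = sgn a * sgn b := by
  cases a <;> cases b <;> norm_num [sgn]

theorem sgn_mul_self (a : Bool) : sgn a * sgn a = 1 := by cases a <;> norm_num [sgn]

theorem abs_two_bv (b : Bool) : |2 * bv b - 1| ≤ 1 := by cases b <;> norm_num [bv]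

end Bits

section Graph

variable {K : Type} [Fintype K]

theorem abs_Sg (σ : Fin 3 → Equiv.Perm K) (L : Finset (Fin 3)) (y : Vx K → Bool) :
    |Sg σ L y| = 1 := by
  rw [Sg, Finset.abs_prod]
  exact Finset.prod_eq_one fun c _ => abs_sgn _

theorem abs_Sg_le (σ : Fin 3 → Equiv.Perm K) (L : Finset (Fin 3)) (y : Vx K → Bool) :
    |Sg σ L y| ≤ 1 := (abs_Sg σ L y).le

/-- the fundamental identity -/
theorem two_bv_nae (σ : Fin 3 → Equiv.Perm K) (y : Vx K → Bool) :
    2 * bv (nae σ y) - 1 = 1 / 2 - (Sg σ {0, 1} y + Sg σ {1, 2} y + Sg σ {0, 2} y) / 2 := by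
  have h1 : Sg σ {0, 1} y = sgn (par σ 0 y) * sgn (par σ 1 y) := by
    rw [Sg, Finset.prod_pair (by decide)]
  have h2 : Sg σ {1, 2} y = sgn (par σ 1 y) * sgn (par σ 2 y) := by
    rw [Sg, Finset.prod_pair (by decide)]
  have h3 : Sg σ {0, 2} y = sgn (par σ 0 y) * sgn (par σ 2 y) := by
    rw [Sg, Finset.prod_pair (by decide)]
  rw [h1, h2, h3, nae]
  cases par σ 0 y <;> cases par σ 1 y <;> cases par σ 2 y <;> norm_num [bv, sgn]

end Graph

section Dep

variable {V β γ : Type}

theorem DepOn.mono {f : (V → Bool) → β} {S T : Finset V} (h : DepOn f S) (hST : S ⊆ T) :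
    DepOn f T := fun x y hxy => h x y fun v hv => hxy v (hST hv)

theorem depOn_const (b : β) (S : Finset V) : DepOn (fun _ => b) S := fun _ _ _ => rfl

theorem DepOn.comp {f : (V → Bool) → β} {S : Finset V} (h : DepOn f S) (g : β → γ) :
    DepOn (fun x => g (f x)) S := fun x y hxy => congrArg g (h x y hxy)

theorem DepOn.comp₂ {δ : Type} {f : (V → Bool) → β} {f' : (V → Bool) → γ} {S : Finset V}
    (h : DepOn f S) (h' : DepOn f' S) (g : β → γ → δ) : DepOn (fun x => g (f x) (f' x)) S :=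
  fun x y hxy => by
    show g (f x) (f' x) = g (f y) (f' y)
    rw [h x y hxy, h' x y hxy]

variable [DecidableEq V]

theorem mix_mem {S : Finset V} {x z : V → Bool} {v : V} (h : v ∈ S) : mix S x z v = x v := by
  simp [mix, h]

theorem mix_not_mem {S : Finset V} {x z : V → Bool} {v : V} (h : v ∉ S) : mix S x z v = z v := by
  simp [mix, h]

theorem DepOn.mix_left {f : (V → Bool) → β} {S T : Finset V} (h : DepOn f S) (hST : S ⊆ T)
    (x z : V → Bool) : f (mix T x z) = f x := h _ _ fun _ hv => mix_mem (hST hv)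

theorem DepOn.mix_right {f : (V → Bool) → β} {S T : Finset V} (h : DepOn f S)
    (hST : Disjoint S T) (x z : V → Bool) : f (mix T x z) = f z :=
  h _ _ fun _ hv => mix_not_mem (Finset.disjoint_left.1 hST hv)

/-- fixing the variables outside `T` -/
theorem DepOn.fix {f : (V → Bool) → β} {S : Finset V} (h : DepOn f S) (T : Finset V)
    (z : V → Bool) : DepOn (fun x => f (mix T x z)) (S ∩ T) := by
  intro x y hxy
  apply h
  intro v hv
  by_cases hT : v ∈ T
  · rw [mix_mem hT, mix_mem hT]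
    exact hxy v (Finset.mem_inter.2 ⟨hv, hT⟩)
  · rw [mix_not_mem hT, mix_not_mem hT]

theorem mix_mix_compl (S : Finset V) (x z : V → Bool) :
    mix S (mix S x z) (mix S z x) = x := by
  funext v
  by_cases h : v ∈ S
  · rw [mix_mem h, mix_mem h]
  · rw [mix_not_mem h, mix_not_mem h]

end Dep

section Mean

variable {V : Type} [Fintype V] [DecidableEq V]

theorem Ex_const (c : ℝ) : Ex (fun _ : V → Bool => c) = c := by
  have h : (2 : ℝ) ^ Fintype.card V ≠ 0 := by positivity
  rw [Ex, Finset.sum_const, Finset.card_univ, Fintype.card_fun, Fintype.card_bool, nsmul_eq_mul]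
  push_cast
  field_simp

theorem Ex_add (F G : (V → Bool) → ℝ) : Ex (fun x => F x + G x) = Ex F + Ex G := by
  rw [Ex, Ex, Ex, Finset.sum_add_distrib, add_div]

theorem Ex_sub (F G : (V → Bool) → ℝ) : Ex (fun x => F x - G x) = Ex F - Ex G := by
  rw [Ex, Ex, Ex, Finset.sum_sub_distrib, sub_div]

theorem Ex_neg (F : (V → Bool) → ℝ) : Ex (fun x => -F x) = -Ex F := by
  rw [Ex, Ex, Finset.sum_neg_distrib, neg_div]

theorem Ex_mul_left (c : ℝ) (F : (V → Bool) → ℝ) : Ex (fun x => c * F x) = c * Ex F := by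
  rw [Ex, Ex, ← Finset.mul_sum, mul_div_assoc]

theorem Ex_mul_right (F : (V → Bool) → ℝ) (c : ℝ) : Ex (fun x => F x * c) = Ex F * c := by
  rw [Ex, Ex, ← Finset.sum_mul, div_mul_eq_mul_div]

theorem Ex_div (F : (V → Bool) → ℝ) (c : ℝ) : Ex (fun x => F x / c) = Ex F / c := by
  simp only [div_eq_mul_inv, Ex_mul_right]

theorem Ex_sum {ι : Type} (s : Finset ι) (F : ι → (V → Bool) → ℝ) :
    Ex (fun x => ∑ i ∈ s, F i x) = ∑ i ∈ s, Ex (F i) := by
  simp only [Ex]
  rw [Finset.sum_comm, Finset.sum_div]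

theorem Ex_list_sum {ι : Type} (l : List ι) (F : ι → (V → Bool) → ℝ) :
    Ex (fun x => (l.map fun i => F i x).sum) = (l.map fun i => Ex (F i)).sum := by
  induction l with
  | nil => simp [Ex_const]
  | cons a l ih =>
    simp only [List.map_cons, List.sum_cons]
    rw [Ex_add, ih]

theorem Ex_mono {F G : (V → Bool) → ℝ} (h : ∀ x, F x ≤ G x) : Ex F ≤ Ex G := by
  rw [Ex, Ex]
  exact div_le_div_of_nonneg_right (Finset.sum_le_sum fun x _ => h x) (by positivity)

theorem Ex_congr {F G : (V → Bool) → ℝ} (h : ∀ x, F x = G x) : Ex F = Ex G := by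
  rw [show F = G from funext h]

theorem Ex_nonneg {F : (V → Bool) → ℝ} (h : ∀ x, 0 ≤ F x) : 0 ≤ Ex F := by
  have := Ex_mono (F := fun _ => 0) (G := F) h
  rwa [Ex_const] at this

theorem Ex_le_const {F : (V → Bool) → ℝ} {c : ℝ} (h : ∀ x, F x ≤ c) : Ex F ≤ c := by
  have := Ex_mono (F := F) (G := fun _ => c) h
  rwa [Ex_const] at this

theorem const_le_Ex {F : (V → Bool) → ℝ} {c : ℝ} (h : ∀ x, c ≤ F x) : c ≤ Ex F := by
  have := Ex_mono (F := fun _ => c) (G := F) h
  rwa [Ex_const] at this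

theorem abs_Ex_le (F : (V → Bool) → ℝ) : |Ex F| ≤ Ex fun x => |F x| := by
  rw [Ex, Ex, abs_div, abs_of_nonneg (by positivity : (0 : ℝ) ≤ 2 ^ Fintype.card V)]
  exact div_le_div_of_nonneg_right (Finset.abs_sum_le_sum_abs _ _) (by positivity)

theorem abs_Ex_le_const {F : (V → Bool) → ℝ} {c : ℝ} (h : ∀ x, |F x| ≤ c) : |Ex F| ≤ c :=
  (abs_Ex_le F).trans (Ex_le_const h)

/-- resampling the variables in `S` -/
theorem Ex_mix (S : Finset V) (F : (V → Bool) → ℝ) :
    Ex F = Ex fun z => Ex fun x => F (mix S x z) := by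
  have h2 : (2 : ℝ) ^ Fintype.card V ≠ 0 := by positivity
  have key : ∑ z : V → Bool, ∑ x : V → Bool, F (mix S x z) =
      2 ^ Fintype.card V * ∑ x, F x := by
    rw [← Fintype.sum_prod_type' (f := fun (z x : V → Bool) => F (mix S x z))]
    have e : ∑ p : (V → Bool) × (V → Bool), F (mix S p.2 p.1) =
        ∑ p : (V → Bool) × (V → Bool), F p.2 := by
      refine Finset.sum_bij' (fun p _ => (mix S p.1 p.2, mix S p.2 p.1))
        (fun p _ => (mix S p.1 p.2, mix S p.2 p.1)) (fun _ _ => Finset.mem_univ _)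
        (fun _ _ => Finset.mem_univ _) ?_ ?_ ?_
      · rintro ⟨a, b⟩ _
        simp only [mix_mix_compl]
      · rintro ⟨a, b⟩ _
        simp only [mix_mix_compl]
      · rintro ⟨a, b⟩ _
        rfl
    rw [e, Fintype.sum_prod_type]
    show ∑ x : V → Bool, ∑ y : V → Bool, F y = _
    rw [Finset.sum_const, Finset.card_univ, Fintype.card_fun, Fintype.card_bool, nsmul_eq_mul]
    push_cast
    ring
  simp only [Ex]
  rw [← Finset.sum_div, key]
  field_simp

/-- independent functions -/
theorem Ex_mul {F G : (V → Bool) → ℝ} {S T : Finset V} (hF : DepOn F S) (hG : DepOn G T)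
    (h : Disjoint S T) : Ex (fun x => F x * G x) = Ex F * Ex G := by
  rw [Ex_mix S]
  have : ∀ z x : V → Bool, F (mix S x z) * G (mix S x z) = F x * G z := by
    intro z x
    rw [hF.mix_left (Finset.Subset.refl S), hG.mix_right h.symm]
  simp only [this, Ex_mul_right, Ex_mul_left]

omit [Fintype V] in
theorem depOn_prod {ι : Type} (Q : Finset ι) (F : ι → (V → Bool) → ℝ) (S : ι → Finset V)
    (hF : ∀ i ∈ Q, DepOn (F i) (S i)) : DepOn (fun x => ∏ i ∈ Q, F i x) (Q.biUnion S) := by
  intro x y hxy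
  apply Finset.prod_congr rfl
  intro i hi
  exact hF i hi x y fun v hv => hxy v (Finset.mem_biUnion.2 ⟨i, hi, hv⟩)

theorem Ex_prod {ι : Type} [DecidableEq ι] (Q : Finset ι) (F : ι → (V → Bool) → ℝ)
    (S : ι → Finset V) (hF : ∀ i ∈ Q, DepOn (F i) (S i))
    (hd : ∀ i ∈ Q, ∀ j ∈ Q, i ≠ j → Disjoint (S i) (S j)) :
    Ex (fun x => ∏ i ∈ Q, F i x) = ∏ i ∈ Q, Ex (F i) := by
  induction Q using Finset.induction_on with
  | empty => simp [Ex_const]
  | insert a Q ha ih =>
    simp only [Finset.prod_insert ha]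
    rw [Ex_mul (S := S a) (T := Q.biUnion S) (hF a (Finset.mem_insert_self _ _))
      (depOn_prod Q F S fun i hi => hF i (Finset.mem_insert_of_mem hi))]
    · rw [ih (fun i hi => hF i (Finset.mem_insert_of_mem hi))
        fun i hi j hj => hd i (Finset.mem_insert_of_mem hi) j (Finset.mem_insert_of_mem hj)]
    · rw [Finset.disjoint_biUnion_right]
      intro i hi
      exact hd a (Finset.mem_insert_self _ _) i (Finset.mem_insert_of_mem hi)
        fun h => ha (h ▸ hi)

/-- transport along an equivalence -/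
theorem Ex_equiv {W : Type} [Fintype W] [DecidableEq W] (e : V ≃ W) (F : (V → Bool) → ℝ) :
    Ex (fun x : W → Bool => F fun v => x (e v)) = Ex F := by
  rw [Ex, Ex, Fintype.card_congr e]
  congr 1
  exact Fintype.sum_equiv (e.arrowCongr (Equiv.refl Bool)).symm _ _ fun x => rfl

/-- functions of a subset of the variables -/
theorem Ex_inj {U : Type} [Fintype U] [DecidableEq U] (e : U → V) (he : Function.Injective e)
    (F : (U → Bool) → ℝ) : Ex (fun x : V → Bool => F fun u => x (e u)) = Ex F := by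
  classical
  let p : V → Prop := fun v => v ∈ Set.range e
  let e₁ : U ≃ {v // p v} := Equiv.ofInjective e he
  have h1 : ∑ x : V → Bool, F (fun u => x (e u)) =
      ∑ q : ({v // p v} → Bool) × ({v // ¬ p v} → Bool), F (fun u => q.1 (e₁ u)) :=
    Fintype.sum_equiv (Equiv.piEquivPiSubtypeProd p fun _ => Bool) _ _ fun x => rfl
  have h2 : ∑ y : {v // p v} → Bool, F (fun u => y (e₁ u)) = ∑ y : U → Bool, F y :=
    Fintype.sum_equiv (e₁.arrowCongr (Equiv.refl Bool)).symm _ _ fun x => rfl
  have h3 : (2 : ℝ) ^ Fintype.card V = 2 ^ Fintype.card {v // ¬ p v} * 2 ^ Fintype.card U := by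
    rw [← pow_add, Fintype.card_congr e₁, add_comm, ← Fintype.card_sum,
      Fintype.card_congr (Equiv.sumCompl p)]
  rw [Ex, Ex, h1, Fintype.sum_prod_type]
  simp only [Finset.sum_const, Finset.card_univ, Fintype.card_fun, Fintype.card_bool,
    nsmul_eq_mul]
  rw [← Finset.mul_sum, h2, h3]
  push_cast
  have h4 : (2 : ℝ) ^ Fintype.card {v // ¬ p v} ≠ 0 := by positivity
  have h5 : (2 : ℝ) ^ Fintype.card U ≠ 0 := by positivity
  field_simp

/-- resampling a block -/
theorem Ex_extend {U : Type} [Fintype U] [DecidableEq U] (e : U → V) (he : Function.Injective e)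
    (F : (V → Bool) → ℝ) :
    Ex F = Ex fun z => Ex fun y : U → Bool => F (Function.extend e y z) := by
  rw [Ex_mix (univ.image e)]
  apply Ex_congr
  intro z
  rw [← Ex_inj e he (fun y : U → Bool => F (Function.extend e y z))]
  apply Ex_congr
  intro x
  congr 1
  funext v
  by_cases hv : ∃ u, e u = v
  · obtain ⟨u, rfl⟩ := hv
    rw [mix_mem (Finset.mem_image_of_mem e (Finset.mem_univ u)), he.extend_apply]
  · rw [mix_not_mem (by simpa using hv), Function.extend_apply' _ _ _ hv]

/-- one variable -/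
theorem Ex_bit (v : V) (G : Bool → ℝ) :
    Ex (fun x : V → Bool => G (x v)) = (G true + G false) / 2 := by
  have h := Ex_inj (fun _ : Unit => v) (fun _ _ _ => rfl) (fun y : Unit → Bool => G (y ()))
  rw [h, Ex]
  have : ∑ x : Unit → Bool, G (x ()) = G true + G false := by
    rw [Fintype.sum_equiv (Equiv.funUnique Unit Bool) (fun x : Unit → Bool => G (x ())) G
      fun x => rfl]
    simp
  rw [this]
  simp

/-- a mean of squares -/
theorem sq_Ex_le (F : (V → Bool) → ℝ) : (Ex F) ^ 2 ≤ Ex fun x => (F x) ^ 2 := by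
  have h := Ex_nonneg (F := fun x => (F x - Ex F) ^ 2) fun x => sq_nonneg _
  have e : (fun x => (F x - Ex F) ^ 2) =
      fun x => (F x ^ 2 - (2 * Ex F) * F x) + (Ex F) ^ 2 := by
    funext x; ring
  rw [e, Ex_add, Ex_sub, Ex_mul_left, Ex_const] at h
  nlinarith [h]

end Mean

end Pool.Agent.NH
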