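import Pool.Agent.NH.Defs
import Pool.Agent.NH.Base

/-!
# The negation hierarchy, module Avg: the number of vertices with an odd number of true neighbours
-/

set_option autoImplicit false

namespace Pool.Agent.NH

open Finset

private theorem avg_ne {K : Type} (σ : Fin 3 → Equiv.Perm K) (hs : Simple σ) {c d : Fin 3}
    (hcd : c ≠ d) (v : Vx K) : nb σ c v ≠ nb σ d v := by
  rcases v with i | j
  · intro h
    exact hs c d hcd i (Sum.inr.inj h)
  · intro h
    have h1 : (σ c).symm j = (σ d).symm j := Sum.inl.inj h
    apply hs c d hcd ((σ c).symm j)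
    rw [Equiv.apply_symm_apply, h1, Equiv.apply_symm_apply]

/-- the parity at a vertex -/
private def pty {K : Type} (σ : Fin 3 → Equiv.Perm K) (L : Finset (Fin 3)) (i : Vx K)
    (y : Vx K → Bool) : Bool := Nat.bodd (L.filter fun c => y (nb σ c i) = true).card

/-- the inversion of one bit -/
private def flip1 {V : Type} [DecidableEq V] (v : V) : Equiv.Perm (V → Bool) :=
  Function.Involutive.toPerm (fun y => Function.update y v (!y v)) (by
    intro y
    funext w
    by_cases h : w = v
    · subst h
      simp
    · simp [Function.update_of_ne h])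

private theorem pty_flip {K : Type} [DecidableEq K] (σ : Fin 3 → Equiv.Perm K) (hs : Simple σ)
    (L : Finset (Fin 3)) (c : Fin 3) (hc : c ∈ L) (i : Vx K) (y : Vx K → Bool) :
    pty σ L i (flip1 (nb σ c i) y) = !pty σ L i y := by
  have e1 : ∀ x : Vx K → Bool, pty σ L i x =
      xor (Nat.bodd ((L.erase c).filter fun d => x (nb σ d i) = true).card) (x (nb σ c i)) := by
    intro x
    unfold pty
    have h1 : L.filter (fun d => x (nb σ d i) = true) =
        (insert c (L.erase c)).filter (fun d => x (nb σ d i) = true) := by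
      rw [Finset.insert_erase hc]
    rw [h1, Finset.filter_insert]
    have h2 : c ∉ (L.erase c).filter fun d => x (nb σ d i) = true := by
      simp
    by_cases h3 : x (nb σ c i) = true
    · rw [if_pos h3, Finset.card_insert_of_notMem h2, Nat.bodd_succ, h3]
      cases Nat.bodd ((L.erase c).filter fun d => x (nb σ d i) = true).card <;> rfl
    · rw [if_neg h3]
      have h4 : x (nb σ c i) = false := by simpa using h3
      rw [h4]
      cases Nat.bodd ((L.erase c).filter fun d => x (nb σ d i) = true).card <;> rfl
  have e2 : (L.erase c).filter (fun d => flip1 (nb σ c i) y (nb σ d i) = true) =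
      (L.erase c).filter fun d => y (nb σ d i) = true := by
    apply Finset.filter_congr
    intro d hd
    have h1 : flip1 (nb σ c i) y (nb σ d i) = y (nb σ d i) :=
      Function.update_of_ne (avg_ne σ hs (Finset.ne_of_mem_erase hd) i) _ _
    rw [h1]
  have e3 : flip1 (nb σ c i) y (nb σ c i) = !y (nb σ c i) := Function.update_self _ _ _
  rw [e1, e1 y, e2, e3]
  cases Nat.bodd ((L.erase c).filter fun d => y (nb σ d i) = true).card <;>
    cases y (nb σ c i) <;> rfl

/-- [Avg] -/
theorem thm_Avg : St_Avg := by
  classical
  intro K _ _ σ I hs hI L hL q hq0 hq1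
  obtain ⟨c, hc⟩ := hL
  let F : Vx K → (Vx K → Bool) → ℝ := fun i y => if pty σ L i y = true then q else 1
  have e1 : ∀ y : Vx K → Bool, q ^ (odds σ L I y).card = ∏ i ∈ I, F i y := by
    intro y
    show _ = ∏ i ∈ I, if pty σ L i y = true then q else 1
    rw [Finset.prod_ite, Finset.prod_const, Finset.prod_const_one, mul_one]
    rfl
  have e2 : ∀ i ∈ I, DepOn (F i) (L.image fun d => nb σ d i) := by
    intro i _ y y' hyy
    have h1 : pty σ L i y = pty σ L i y' := by
      unfold pty
      congr 2
      apply Finset.filter_congr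
      intro d hd
      rw [hyy _ (Finset.mem_image_of_mem _ hd)]
    show (if pty σ L i y = true then q else 1) = if pty σ L i y' = true then q else 1
    rw [h1]
  have e3 : ∀ i ∈ I, ∀ j ∈ I, i ≠ j →
      Disjoint (L.image fun d => nb σ d i) (L.image fun d => nb σ d j) := by
    intro i hi j hj hij
    rw [Finset.disjoint_left]
    intro v hv hv'
    obtain ⟨d, -, rfl⟩ := Finset.mem_image.1 hv
    obtain ⟨d', -, h1⟩ := Finset.mem_image.1 hv'
    exact (hI i hi j hj hij d d').1 h1.symm
  have e4 : ∀ i ∈ I, Ex (F i) = (1 + q) / 2 := by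
    intro i _
    have h1 : ∑ y, F i (flip1 (nb σ c i) y) = ∑ y, F i y :=
      Equiv.sum_comp (flip1 (nb σ c i)) (F i)
    have h2 : ∀ y, F i y + F i (flip1 (nb σ c i) y) = 1 + q := by
      intro y
      show (if pty σ L i y = true then q else 1) +
        (if pty σ L i (flip1 (nb σ c i) y) = true then q else 1) = 1 + q
      rw [pty_flip σ hs L c hc]
      cases pty σ L i y
      · simp
      · simp [add_comm]
    have h3 : ∑ y, F i y + ∑ y, F i y = 2 ^ Fintype.card (Vx K) * (1 + q) := by
      nth_rewrite 2 [← h1]
      rw [← Finset.sum_add_distrib, Finset.sum_congr rfl fun y _ => h2 y, Finset.sum_const,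
        Finset.card_univ, Fintype.card_fun, Fintype.card_bool, nsmul_eq_mul]
      push_cast
      rfl
    have h4 : (2 : ℝ) ^ Fintype.card (Vx K) ≠ 0 := by positivity
    rw [Ex, div_eq_iff h4]
    linarith
  rw [Ex_congr e1, Ex_prod I F _ e2 e3, Finset.prod_congr rfl e4, Finset.prod_const]

end Pool.Agent.NH
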