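import Pool.Agent.NH.Defs
import Pool.Agent.NH.Base

/-!
# The negation hierarchy: the properties of a block of the next level
-/

set_option autoImplicit false

namespace Pool.Agent.NH

open Finset

private lemma blk_colours {K : Type} [Fintype K] (σ : Fin 3 → Equiv.Perm K) (c : Fin 3) :
    ∃ c' c'' : Fin 3, (∀ y, 2 * bv (nae σ y) - 1 =
      1 / 2 - (Sg σ {c, c'} y + Sg σ {c, c''} y + Sg σ {c', c''} y) / 2) ∧
      ∀ y, (1 - Sg σ {c', c''} y) / 2 ≤ bv (nae σ y) := by
  have hP : ∀ (a b : Fin 3), a ≠ b → ∀ y, Sg σ {a, b} y = sgn (par σ a y) * sgn (par σ b y) :=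
    fun a b hab y => by rw [Sg, Finset.prod_pair hab]
  fin_cases c
  · refine ⟨1, 2, fun y => ?_, fun y => ?_⟩
    · rw [two_bv_nae]
      show _ = 1 / 2 - (Sg σ {0, 1} y + Sg σ {0, 2} y + Sg σ {1, 2} y) / 2
      ring
    · rw [hP 1 2 (by decide), nae]
      cases par σ 0 y <;> cases par σ 1 y <;> cases par σ 2 y <;> norm_num [bv, sgn]
  · refine ⟨0, 2, fun y => ?_, fun y => ?_⟩
    · rw [two_bv_nae]
      show _ = 1 / 2 - (Sg σ {1, 0} y + Sg σ {1, 2} y + Sg σ {0, 2} y) / 2
      rw [Finset.pair_comm 1 0]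
    · rw [hP 0 2 (by decide), nae]
      cases par σ 0 y <;> cases par σ 1 y <;> cases par σ 2 y <;> norm_num [bv, sgn]
  · refine ⟨0, 1, fun y => ?_, fun y => ?_⟩
    · rw [two_bv_nae]
      show _ = 1 / 2 - (Sg σ {2, 0} y + Sg σ {2, 1} y + Sg σ {0, 1} y) / 2
      rw [Finset.pair_comm 2 0, Finset.pair_comm 2 1]
      ring
    · rw [hP 0 1 (by decide), nae]
      cases par σ 0 y <;> cases par σ 1 y <;> cases par σ 2 y <;> norm_num [bv, sgn]

private lemma blk_top_card (K U : Type) [Fintype K] [DecidableEq K] [DecidableEq U] :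
    (top K U).card = 2 * Fintype.card K := by
  rw [top, card_image_of_injective _ Sum.inl_injective, card_univ, Fintype.card_sum, two_mul]

theorem thm_Blk (h1 : St_Fix) (h2 : St_RS) : St_Blk := by
  intro K _ _ σ hσ hK k hk U _ _ h
  refine ⟨?_, ?_⟩
  · intro F hF z
    rw [blk_top_card] at hF
    have hF' : 2 * (top K U ∩ F).card ≤ Fintype.card K := by omega
    have hpow : ((9 : ℝ) / 10) ^ (Fintype.card K / 10) ≤ 1 / 100 := by
      calc ((9 : ℝ) / 10) ^ (Fintype.card K / 10) ≤ (9 / 10) ^ 100 :=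
            pow_le_pow_of_le_one (by norm_num) (by norm_num) (by omega)
        _ ≤ 1 / 100 := by norm_num
    have hE : ∀ L : Finset (Fin 3), L.Nonempty →
        |Ex fun x => Sg σ L (vals h (mix F z x))| ≤ 1 / 100 := fun L hL =>
      (h1 K σ hσ U h F hF' z L hL).trans hpow
    have h01 := abs_le.mp (hE {0, 1} (by decide))
    have h12 := abs_le.mp (hE {1, 2} (by decide))
    have h02 := abs_le.mp (hE {0, 2} (by decide))
    have hid : (fun x => bv (up σ h (mix F z x))) = fun x => (3 : ℝ) / 4 -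
        (Sg σ {0, 1} (vals h (mix F z x)) + Sg σ {1, 2} (vals h (mix F z x)) +
          Sg σ {0, 2} (vals h (mix F z x))) / 4 := by
      funext x
      have := two_bv_nae σ (vals h (mix F z x))
      show bv (nae σ (vals h (mix F z x))) = _
      linarith
    rw [hid, Ex_sub, Ex_const, Ex_div, Ex_add, Ex_add]
    constructor <;> linarith [h01.1, h01.2, h12.1, h12.2, h02.1, h02.2]
  · intro X hX1 hX2
    obtain ⟨c, hc⟩ := h2 K σ hσ k hk U h X hX1 hX2
    obtain ⟨c', c'', hid, hle⟩ := blk_colours σ c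
    refine ⟨fun x => (1 - Sg σ {c', c''} (vals h x)) / 2,
      fun x => -(Sg σ {c, c'} (vals h x) + Sg σ {c, c''} (vals h x)) / 2, ?_, ?_, ?_⟩
    · intro x
      show 2 * bv (nae σ (vals h x)) - 1 = _
      rw [hid]
      ring
    · intro x
      refine ⟨?_, hle _⟩
      have := abs_le.mp (abs_Sg_le σ {c', c''} (vals h x))
      show 0 ≤ (1 - Sg σ {c', c''} (vals h x)) / 2
      linarith [this.2]
    · intro a b ha hb hda hdb
      have e1 := abs_le.mp (hc {c, c'} (by simp) a b ha hb hda hdb)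
      have e2 := abs_le.mp (hc {c, c''} (by simp) a b ha hb hda hdb)
      have hid2 : (fun x => a x * b x * (-(Sg σ {c, c'} (vals h x) + Sg σ {c, c''} (vals h x)) / 2)) =
          fun x => -((a x * b x * Sg σ {c, c'} (vals h x) +
            a x * b x * Sg σ {c, c''} (vals h x)) / 2) := by
        funext x
        ring
      rw [hid2, Ex_neg, Ex_div, Ex_add, abs_neg, abs_le]
      constructor <;> linarith [e1.1, e1.2, e2.1, e2.2]

end Pool.Agent.NH
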