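import Mathlib

/-!
# Deterministic decomposable circuits with negation (MP_4ed1f9_lc)
-/

set_option autoImplicit false

namespace Pool.Agent.NH

/-- A gate of a circuit in the variables `V`. -/
structure Gate (V : Type) where
  /-- the variables below the gate -/
  vars : Finset V
  /-- the number of nested negations: the greatest number of NOT gates on a path which ends at the
  gate -/
  negs : ℕ
  /-- the gate is deterministic if no OR gate below it (and the gate itself if it is an OR gate)
  has two inputs which are true for the same assignment -/
  det : Bool
  /-- the function computed by the gate -/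
  f : (V → Bool) → Bool

/-- The circuits, as lists of gates; the inputs of a gate are gates further down the list.
* A leaf computes an arbitrary function of at most `k` variables (`k = 1`: literals and constants).
* The inputs of an AND gate have disjoint sets of variables (the circuit is decomposable).
* An OR gate can be declared to be deterministic if its inputs are deterministic and never both
  true.
* Only deterministic gates can be negated. -/
inductive IsCircuit {V : Type} [DecidableEq V] (k : ℕ) : List (Gate V) → Prop
  | nil : IsCircuit k []
  | leaf (L : List (Gate V)) (S : Finset V) (f : (V → Bool) → Bool) : IsCircuit k L →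
      S.card ≤ k → (∀ x y, (∀ v ∈ S, x v = y v) → f x = f y) →
      IsCircuit k (⟨S, 0, true, f⟩ :: L)
  | and (L : List (Gate V)) (a b : Gate V) : IsCircuit k L → a ∈ L → b ∈ L →
      Disjoint a.vars b.vars →
      IsCircuit k (⟨a.vars ∪ b.vars, max a.negs b.negs, a.det && b.det,
        fun x => a.f x && b.f x⟩ :: L)
  | or (L : List (Gate V)) (a b : Gate V) : IsCircuit k L → a ∈ L → b ∈ L →
      IsCircuit k (⟨a.vars ∪ b.vars, max a.negs b.negs, false, fun x => a.f x || b.f x⟩ :: L)
  | detOr (L : List (Gate V)) (a b : Gate V) : IsCircuit k L → a ∈ L → b ∈ L →
      a.det = true → b.det = true → (∀ x, ¬ (a.f x = true ∧ b.f x = true)) →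
      IsCircuit k (⟨a.vars ∪ b.vars, max a.negs b.negs, true, fun x => a.f x || b.f x⟩ :: L)
  | not (L : List (Gate V)) (a : Gate V) : IsCircuit k L → a ∈ L → a.det = true →
      IsCircuit k (⟨a.vars, a.negs + 1, true, fun x => !a.f x⟩ :: L)

/-- A CNF formula in the variables `V`: a list of clauses, a clause being a list of literals; the
literal `(v, b)` is true for the assignment `x` if `x v = b`. -/
abbrev CNF (V : Type) := List (List (V × Bool))

/-- The assignment `x` satisfies `φ`. -/
def Sat {V : Type} (φ : CNF V) (x : V → Bool) : Prop := ∀ K ∈ φ, ∃ l ∈ K, x l.1 = l.2

end Pool.Agent.NH
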