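import Pool.Agent.NH.Defs
import Pool.Agent.NH.Base
import Pool.Agent.NH.Circ

/-!
# The negation hierarchy: conversion between circuits and programs
-/

set_option autoImplicit false

namespace Pool.Agent.NH

open Finset

section

variable {V : Type} [DecidableEq V]

/-- the gate as a gate of a program -/
def Gate.toGt (g : Gate V) : Gt V := ⟨g.f, g.vars, g.negs⟩

/-- the deterministic gates with less than `t` nested negations are a program -/
theorem IsCircuit.prog {k : ℕ} {L : List (Gate V)} (h : IsCircuit k L) (t : ℕ) :
    Prog k ((L.filter fun g => g.det && decide (g.negs < t)).map Gate.toGt) := by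
  have key : ∀ (L : List (Gate V)) (a : Gate V), a ∈ L → a.det = true → a.negs < t →
      a.toGt ∈ (L.filter fun g => g.det && decide (g.negs < t)).map Gate.toGt := by
    intro L a ha h1 h2
    exact List.mem_map_of_mem (List.mem_filter.2 ⟨ha, by simp [h1, h2]⟩)
  induction h with
  | nil => exact Prog.nil
  | leaf L S f _ hS hf ih =>
    rw [List.filter_cons]
    split_ifs with hc
    · rw [List.map_cons]
      exact Prog.cons ih (Or.inl ⟨S, Finset.Subset.refl _, hS, hf⟩)
    · exact ih
  | and L a b _ ha hb hd ih =>
    rw [List.filter_cons]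
    split_ifs with hc
    · rw [List.map_cons]
      simp only [Bool.and_eq_true, decide_eq_true_eq, max_lt_iff] at hc
      refine Prog.cons ih (Or.inr (Or.inl ⟨a.toGt, key L a ha hc.1.1 hc.2.1, b.toGt,
        key L b hb hc.1.2 hc.2.2, hd, Finset.subset_union_left, Finset.subset_union_right,
        le_max_left _ _, le_max_right _ _, rfl⟩))
    · exact ih
  | or L a b _ ha hb ih =>
    rw [List.filter_cons]
    simpa using ih
  | detOr L a b _ ha hb h1 h2 hd ih =>
    rw [List.filter_cons]
    split_ifs with hc
    · rw [List.map_cons]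
      simp only [Bool.true_and, decide_eq_true_eq, max_lt_iff] at hc
      refine Prog.cons ih (Or.inr (Or.inr (Or.inl ⟨a.toGt, key L a ha h1 hc.1, b.toGt,
        key L b hb h2 hc.2, hd, Finset.subset_union_left, Finset.subset_union_right,
        le_max_left _ _, le_max_right _ _, rfl⟩)))
    · exact ih
  | not L a _ ha h1 ih =>
    rw [List.filter_cons]
    split_ifs with hc
    · rw [List.map_cons]
      simp only [Bool.true_and, decide_eq_true_eq] at hc
      refine Prog.cons ih (Or.inr (Or.inr (Or.inr ⟨a.toGt, key L a ha h1 (by omega),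
        Finset.Subset.refl _, Nat.lt_succ_self _, rfl⟩)))
    · exact ih

/-- a deterministic gate with less than `t` nested negations -/
theorem IsCircuit.kc {k : ℕ} {L : List (Gate V)} (h : IsCircuit k L) {s t : ℕ}
    (hs : L.length ≤ s) {a : Gate V} (ha : a ∈ L) (h1 : a.det = true) (h2 : a.negs < t) :
    Kc k t s a.f a.vars := by
  refine ⟨_, h.prog t, ?_, ?_, a.toGt, List.mem_map_of_mem (List.mem_filter.2 ⟨ha, ?_⟩), rfl,
    Finset.Subset.refl _⟩
  · rw [List.length_map]
    exact (List.length_filter_le _ _).trans hs
  · intro g hg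
    obtain ⟨b, hb, rfl⟩ := List.mem_map.1 hg
    have := (List.mem_filter.1 hb).2
    simp only [Bool.and_eq_true, decide_eq_true_eq] at this
    exact this.2
  · simp [h1, h2]

/-- the gates with at most `t` nested negations are a program of the outermost layer -/
theorem IsCircuit.oprog {k : ℕ} {L : List (Gate V)} (h : IsCircuit k L) (t s : ℕ)
    (hs : L.length ≤ s) :
    OProg k t s ((L.filter fun g => decide (g.negs ≤ t)).map Gate.toGt) := by
  have key : ∀ (L : List (Gate V)) (a : Gate V), a ∈ L → a.negs ≤ t →
      a.toGt ∈ (L.filter fun g => decide (g.negs ≤ t)).map Gate.toGt := by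
    intro L a ha h2
    exact List.mem_map_of_mem (List.mem_filter.2 ⟨ha, by simp [h2]⟩)
  induction h with
  | nil => exact OProg.nil
  | leaf L S f _ hS hf ih =>
    have ih := ih (by simp only [List.length_cons] at hs; omega)
    rw [List.filter_cons]
    split_ifs with hc
    · rw [List.map_cons]
      exact OProg.cons ih (Or.inl ⟨S, Finset.Subset.refl _, hS, hf⟩)
    · exact ih
  | and L a b _ ha hb hd ih =>
    have ih := ih (by simp only [List.length_cons] at hs; omega)
    rw [List.filter_cons]
    split_ifs with hc
    · rw [List.map_cons]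
      simp only [decide_eq_true_eq, max_le_iff] at hc
      exact OProg.cons ih (Or.inr (Or.inl ⟨a.toGt, key L a ha hc.1, b.toGt,
        key L b hb hc.2, hd, Finset.subset_union_left, Finset.subset_union_right, rfl⟩))
    · exact ih
  | or L a b _ ha hb ih =>
    have ih := ih (by simp only [List.length_cons] at hs; omega)
    rw [List.filter_cons]
    split_ifs with hc
    · rw [List.map_cons]
      simp only [decide_eq_true_eq, max_le_iff] at hc
      exact OProg.cons ih (Or.inr (Or.inr (Or.inl ⟨a.toGt, key L a ha hc.1, b.toGt,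
        key L b hb hc.2, Finset.subset_union_left, Finset.subset_union_right, rfl⟩)))
    · exact ih
  | detOr L a b _ ha hb h1 h2 hd ih =>
    have ih := ih (by simp only [List.length_cons] at hs; omega)
    rw [List.filter_cons]
    split_ifs with hc
    · rw [List.map_cons]
      simp only [decide_eq_true_eq, max_le_iff] at hc
      exact OProg.cons ih (Or.inr (Or.inr (Or.inl ⟨a.toGt, key L a ha hc.1, b.toGt,
        key L b hb hc.2, Finset.subset_union_left, Finset.subset_union_right, rfl⟩)))
    · exact ih
  | not L a hL ha h1 ih =>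
    have hs' : L.length ≤ s := by simp only [List.length_cons] at hs; omega
    have ih := ih hs'
    rw [List.filter_cons]
    split_ifs with hc
    · rw [List.map_cons]
      simp only [decide_eq_true_eq] at hc
      exact OProg.cons ih (Or.inr (Or.inr (Or.inr ⟨a.f, hL.kc hs' ha h1 (by omega), rfl⟩)))
    · exact ih

/-- a program as a circuit, with the variables renamed -/
theorem Prog.circuit {U : Type} [DecidableEq U] {k : ℕ} {L : List (Gt U)} (h : Prog k L)
    (e : U → V) (he : Function.Injective e) :
    ∃ M : List (Gate V), IsCircuit k M ∧ M.length ≤ L.length ∧ ∀ g ∈ L, ∃ g' ∈ M,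
      g'.vars ⊆ g.S.image e ∧ g'.negs ≤ g.l ∧ g'.det = true ∧
      g'.f = fun x => g.f fun u => x (e u) := by
  induction h with
  | nil => exact ⟨[], IsCircuit.nil, le_refl _, fun g hg => by simp at hg⟩
  | @cons L g _ hg ih =>
    obtain ⟨M, hM, hlen, hall⟩ := ih
    -- it is enough to find a new gate
    have fin : ∀ g' : Gate V, IsCircuit k (g' :: M) → g'.vars ⊆ g.S.image e → g'.negs ≤ g.l →
        g'.det = true → (g'.f = fun x => g.f fun u => x (e u)) →
        ∃ M : List (Gate V), IsCircuit k M ∧ M.length ≤ (g :: L).length ∧ ∀ p ∈ g :: L, ∃ g' ∈ M,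
          g'.vars ⊆ p.S.image e ∧ g'.negs ≤ p.l ∧ g'.det = true ∧
          g'.f = fun x => p.f fun u => x (e u) := by
      intro g' h1 h2 h3 h4 h5
      refine ⟨g' :: M, h1, by simpa using hlen, ?_⟩
      intro p hp
      rcases List.mem_cons.1 hp with rfl | hp
      · exact ⟨g', List.mem_cons_self, h2, h3, h4, h5⟩
      · obtain ⟨p', hp', hr⟩ := hall p hp
        exact ⟨p', List.mem_cons_of_mem _ hp', hr⟩
    rcases hg with ⟨S, hS, hk, hdep⟩ | ⟨p, hp, q, hq, hd, hpS, hqS, hpl, hql, hf⟩ |
      ⟨p, hp, q, hq, hd, hpS, hqS, hpl, hql, hf⟩ | ⟨p, hp, hpS, hpl, hf⟩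
    · refine fin ⟨S.image e, 0, true, fun x => g.f fun u => x (e u)⟩ ?_ ?_ (Nat.zero_le _) rfl rfl
      · refine IsCircuit.leaf M _ _ hM (card_image_le.trans hk) ?_
        intro x y hxy
        exact hdep _ _ fun v hv => hxy (e v) (mem_image_of_mem e hv)
      · exact image_subset_image hS
    · obtain ⟨p', hp', a1, a2, a3, a4⟩ := hall p hp
      obtain ⟨q', hq', b1, b2, b3, b4⟩ := hall q hq
      refine fin _ (IsCircuit.and M p' q' hM hp' hq' ?_) ?_ ?_ ?_ ?_
      · have : Disjoint (p.S.image e) (q.S.image e) := (disjoint_image he).2 hd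
        exact disjoint_of_subset_left a1 (disjoint_of_subset_right b1 this)
      · exact union_subset (a1.trans (image_subset_image hpS)) (b1.trans (image_subset_image hqS))
      · exact max_le (a2.trans hpl) (b2.trans hql)
      · simp [a3, b3]
      · funext x
        simp only [a4, b4, hf]
    · obtain ⟨p', hp', a1, a2, a3, a4⟩ := hall p hp
      obtain ⟨q', hq', b1, b2, b3, b4⟩ := hall q hq
      refine fin _ (IsCircuit.detOr M p' q' hM hp' hq' a3 b3 ?_) ?_ ?_ rfl ?_
      · intro x hx
        rw [a4, b4] at hx
        exact hd _ hx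
      · exact union_subset (a1.trans (image_subset_image hpS)) (b1.trans (image_subset_image hqS))
      · exact max_le (a2.trans hpl) (b2.trans hql)
      · funext x
        simp only [a4, b4, hf]
    · obtain ⟨p', hp', a1, a2, a3, a4⟩ := hall p hp
      refine fin _ (IsCircuit.not M p' hM hp' a3) ?_ ?_ rfl ?_
      · exact a1.trans (image_subset_image hpS)
      · show p'.negs + 1 ≤ g.l
        omega
      · funext x
        simp only [a4, hf]

end

end Pool.Agent.NH
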