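import Pool.Agent.NH.Base

/-!
# The negation hierarchy: composition of branching programs with programs for the blocks
-/

set_option autoImplicit false
set_option linter.unusedSectionVars false

namespace Pool.Agent.NH

open Finset

section General

variable {W : Type} [DecidableEq W]

private theorem Comp_ok_mono {w : ℕ} {L L' : List (Gt W)} {g : Gt W} (h : Ok w L g)
    (hL : ∀ g ∈ L, g ∈ L') : Ok w L' g := by
  rcases h with h | ⟨p, hp, q, hq, h⟩ | ⟨p, hp, q, hq, h⟩ | ⟨p, hp, h⟩
  · exact Or.inl h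
  · exact Or.inr (Or.inl ⟨p, hL p hp, q, hL q hq, h⟩)
  · exact Or.inr (Or.inr (Or.inl ⟨p, hL p hp, q, hL q hq, h⟩))
  · exact Or.inr (Or.inr (Or.inr ⟨p, hL p hp, h⟩))

private theorem Comp_append {w : ℕ} {L : List (Gt W)} (h : Prog w L) (M : List (Gt W))
    (hM : ∀ g ∈ M, Ok w L g) : Prog w (M ++ L) := by
  induction M with
  | nil => exact h
  | cons g M ih =>
    refine Prog.cons (ih fun g' hg' => hM g' (List.mem_cons_of_mem _ hg')) ?_
    exact Comp_ok_mono (hM g List.mem_cons_self) fun g' hg' => List.mem_append_right _ hg'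

/-- copy of a gate -/
private def cp {U : Type} (e : U → W) (g : Gt U) : Gt W :=
  ⟨fun x => g.f fun u => x (e u), g.S.image e, g.l⟩

private theorem Comp_ok_cp {U : Type} [DecidableEq U] {e : U → W} (he : Function.Injective e)
    {w : ℕ} {L : List (Gt U)} {g : Gt U} (h : Ok w L g) : Ok w (L.map (cp e)) (cp e g) := by
  rcases h with ⟨S, hS, hw, hd⟩ | ⟨p, hp, q, hq, h1, h2, h3, h4, h5, h6⟩ |
    ⟨p, hp, q, hq, h1, h2, h3, h4, h5, h6⟩ | ⟨p, hp, h1, h2, h3⟩
  · refine Or.inl ⟨S.image e, Finset.image_subset_image hS, Finset.card_image_le.trans hw, ?_⟩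
    intro x y hxy
    exact hd _ _ fun v hv => hxy _ (Finset.mem_image_of_mem e hv)
  · refine Or.inr (Or.inl ⟨cp e p, List.mem_map_of_mem hp, cp e q, List.mem_map_of_mem hq,
      (Finset.disjoint_image he).2 h1, Finset.image_subset_image h2,
      Finset.image_subset_image h3, h4, h5, ?_⟩)
    funext x
    exact congrFun h6 _
  · refine Or.inr (Or.inr (Or.inl ⟨cp e p, List.mem_map_of_mem hp, cp e q,
      List.mem_map_of_mem hq, fun x => h1 _, Finset.image_subset_image h2,
      Finset.image_subset_image h3, h4, h5, ?_⟩))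
    funext x
    exact congrFun h6 _
  · refine Or.inr (Or.inr (Or.inr ⟨cp e p, List.mem_map_of_mem hp,
      Finset.image_subset_image h1, h2, ?_⟩))
    funext x
    exact congrFun h3 _

private theorem Comp_cp_append {U : Type} [DecidableEq U] {e : U → W}
    (he : Function.Injective e) {w : ℕ} {M : List (Gt W)} (hM : Prog w M) {L : List (Gt U)}
    (h : Prog w L) : Prog w (L.map (cp e) ++ M) := by
  induction h with
  | nil => exact hM
  | cons _ hg ih =>
    exact Prog.cons ih (Comp_ok_mono (Comp_ok_cp he hg) fun g' hg' =>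
      List.mem_append_left _ hg')

/-- a conjunction -/
private theorem Comp_and {w : ℕ} {L : List (Gt W)} {p q g : Gt W} (hp : p ∈ L) (hq : q ∈ L)
    (hd : Disjoint p.S q.S) (h1 : p.S ⊆ g.S) (h2 : q.S ⊆ g.S) (h3 : p.l ≤ g.l) (h4 : q.l ≤ g.l)
    (h : ∀ x, g.f x = (p.f x && q.f x)) : Ok w L g :=
  Or.inr (Or.inl ⟨p, hp, q, hq, hd, h1, h2, h3, h4, funext h⟩)

/-- a disjunction -/
private theorem Comp_or {w : ℕ} {L : List (Gt W)} {p q g : Gt W} (hp : p ∈ L) (hq : q ∈ L)
    (hd : ∀ x, ¬ (p.f x = true ∧ q.f x = true)) (h1 : p.S ⊆ g.S) (h2 : q.S ⊆ g.S)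
    (h3 : p.l ≤ g.l) (h4 : q.l ≤ g.l) (h : ∀ x, g.f x = (p.f x || q.f x)) : Ok w L g :=
  Or.inr (Or.inr (Or.inl ⟨p, hp, q, hq, hd, h1, h2, h3, h4, funext h⟩))

end General

section Vertex

variable {K U : Type} [Fintype K] [DecidableEq K] [Fintype U] [DecidableEq U]

/-- the variables of the vertex `v` -/
private def sc (v : Vx K) : Finset (Bk K U) :=
  insert (Sum.inl v) (univ.image fun u => Sum.inr (v, u))

private theorem mem_sc {v : Vx K} {b : Bk K U} : b ∈ sc v ↔ Sum.elim id Prod.fst b = v := by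
  rcases b with b | ⟨b, u⟩
  · simp [sc]
  · simp only [sc, mem_insert, mem_image, mem_univ, true_and, Sum.elim_inr, reduceCtorEq,
      false_or]
    constructor
    · rintro ⟨u', h⟩
      have := Sum.inr.inj h
      exact (Prod.ext_iff.1 this).1.symm
    · rintro rfl
      exact ⟨u, rfl⟩

private theorem sc_disjoint {v v' : Vx K} (h : v ≠ v') :
    Disjoint (sc v : Finset (Bk K U)) (sc v') := by
  rw [Finset.disjoint_left]
  intro b hb hb'
  exact h ((mem_sc.1 hb).symm.trans (mem_sc.1 hb'))

/-- the list computes the value on the vertex `v` and its negation -/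
private def Has (h : (U → Bool) → Bool) (b : ℕ) (L : List (Gt (Bk K U))) (v : Vx K) : Prop :=
  (∃ g ∈ L, g.f = (fun x => vals h x v) ∧ g.S ⊆ sc v ∧ g.l ≤ b) ∧
    ∃ g ∈ L, g.f = (fun x => !vals h x v) ∧ g.S ⊆ sc v ∧ g.l ≤ b

private theorem Has.mono {h : (U → Bool) → Bool} {b : ℕ} {L L' : List (Gt (Bk K U))} {v : Vx K}
    (hL : Has h b L v) (hLL : ∀ g ∈ L, g ∈ L') : Has h b L' v := by
  obtain ⟨⟨g, hg, h1⟩, ⟨g', hg', h2⟩⟩ := hL
  exact ⟨⟨g, hLL g hg, h1⟩, ⟨g', hLL g' hg', h2⟩⟩

private theorem Comp_vertex (h : (U → Bool) → Bool) (a b s : ℕ) (hab : a ≤ b)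
    (hU : UpP h a b s) (v : Vx K) (M : List (Gt (Bk K U))) (hM : Prog 1 M)
    (hb : ∀ g ∈ M, g.l ≤ b) :
    ∃ N : List (Gt (Bk K U)), Prog 1 (N ++ M) ∧ N.length ≤ s + 8 ∧ (∀ g ∈ N ++ M, g.l ≤ b) ∧
      Has h b (N ++ M) v := by
  obtain ⟨L, hL, hs, hlb, ⟨g₁, hg₁, hf₁, hl₁⟩, ⟨g₂, hg₂, hf₂⟩⟩ := hU
  have hl₂ := hlb g₂ hg₂
  let e : U → Bk K U := fun u => Sum.inr (v, u)
  have he : Function.Injective e := fun u u' huu => by
    have := Sum.inr.inj huu
    exact (Prod.ext_iff.1 this).2
  let C := L.map (cp e)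
  have hC : Prog 1 (C ++ M) := Comp_cp_append he hM hL
  let lv : Gt (Bk K U) := ⟨fun x => x (Sum.inl v), {Sum.inl v}, 0⟩
  let nlv : Gt (Bk K U) := ⟨fun x => !x (Sum.inl v), {Sum.inl v}, 0⟩
  have h1 : Prog 1 ([lv, nlv] ++ (C ++ M)) := by
    refine Comp_append hC _ ?_
    intro g hg
    rcases List.mem_pair.1 hg with rfl | rfl
    · refine Or.inl ⟨{Sum.inl v}, Finset.Subset.refl _, (Finset.card_singleton _).le, ?_⟩
      intro x y hxy
      exact hxy _ (Finset.mem_singleton_self _)
    · refine Or.inl ⟨{Sum.inl v}, Finset.Subset.refl _, (Finset.card_singleton _).le, ?_⟩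
      intro x y hxy
      exact congrArg not (hxy _ (Finset.mem_singleton_self _))
  have hp1 : cp e g₁ ∈ [lv, nlv] ++ (C ++ M) :=
    List.mem_append_right _ (List.mem_append_left _ (List.mem_map_of_mem hg₁))
  have hp2 : cp e g₂ ∈ [lv, nlv] ++ (C ++ M) :=
    List.mem_append_right _ (List.mem_append_left _ (List.mem_map_of_mem hg₂))
  have hlv : lv ∈ [lv, nlv] ++ (C ++ M) := List.mem_append_left _ (by simp)
  have hnlv : nlv ∈ [lv, nlv] ++ (C ++ M) := List.mem_append_left _ (by simp)
  have hsv : ({Sum.inl v} : Finset (Bk K U)) ⊆ sc v := by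
    intro x hx
    rw [Finset.mem_singleton.1 hx]
    exact mem_sc.2 rfl
  have hsc : ∀ S : Finset U, S.image e ⊆ sc v := by
    intro S x hx
    obtain ⟨u, _, rfl⟩ := Finset.mem_image.1 hx
    exact mem_sc.2 rfl
  have hdis : ∀ S : Finset U, Disjoint ({Sum.inl v} : Finset (Bk K U)) (S.image e) := by
    intro S
    rw [Finset.disjoint_left]
    intro x hx hx'
    rw [Finset.mem_singleton.1 hx] at hx'
    obtain ⟨u, _, hu⟩ := Finset.mem_image.1 hx'
    cases hu
  have hc1 : ∀ x, (cp e g₁).f x = h fun u => x (Sum.inr (v, u)) := fun x => congrFun hf₁ _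
  have hc2 : ∀ x, (cp e g₂).f x = !h fun u => x (Sum.inr (v, u)) := fun x => congrFun hf₂ _
  let a₁ : Gt (Bk K U) := ⟨fun x => x (Sum.inl v) && !h fun u => x (Sum.inr (v, u)), sc v, b⟩
  let a₂ : Gt (Bk K U) := ⟨fun x => !x (Sum.inl v) && h fun u => x (Sum.inr (v, u)), sc v, b⟩
  let a₃ : Gt (Bk K U) := ⟨fun x => x (Sum.inl v) && h fun u => x (Sum.inr (v, u)), sc v, b⟩
  let a₄ : Gt (Bk K U) := ⟨fun x => !x (Sum.inl v) && !h fun u => x (Sum.inr (v, u)), sc v, b⟩
  have h2 : Prog 1 ([a₁, a₂, a₃, a₄] ++ ([lv, nlv] ++ (C ++ M))) := by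
    refine Comp_append h1 _ ?_
    intro g hg
    simp only [List.mem_cons, List.not_mem_nil, or_false] at hg
    rcases hg with rfl | rfl | rfl | rfl
    · exact Comp_and hlv hp2 (hdis _) hsv (hsc _) (Nat.zero_le _) hl₂
        fun x => by rw [hc2]
    · exact Comp_and hnlv hp1 (hdis _) hsv (hsc _) (Nat.zero_le _) (hl₁.trans hab)
        fun x => by rw [hc1]
    · exact Comp_and hlv hp1 (hdis _) hsv (hsc _) (Nat.zero_le _) (hl₁.trans hab)
        fun x => by rw [hc1]
    · exact Comp_and hnlv hp2 (hdis _) hsv (hsc _) (Nat.zero_le _) hl₂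
        fun x => by rw [hc2]
  let z : Gt (Bk K U) := ⟨fun x => vals h x v, sc v, b⟩
  let nz : Gt (Bk K U) := ⟨fun x => !vals h x v, sc v, b⟩
  have hm : ∀ g ∈ [a₁, a₂, a₃, a₄], g ∈ [a₁, a₂, a₃, a₄] ++ ([lv, nlv] ++ (C ++ M)) :=
    fun g hg => List.mem_append_left _ hg
  have h3 : Prog 1 ([z, nz] ++ ([a₁, a₂, a₃, a₄] ++ ([lv, nlv] ++ (C ++ M)))) := by
    refine Comp_append h2 _ ?_
    intro g hg
    rcases List.mem_pair.1 hg with rfl | rfl
    · refine Comp_or (hm a₁ (by simp)) (hm a₂ (by simp)) ?_ (Finset.Subset.refl _)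
        (Finset.Subset.refl _) le_rfl le_rfl ?_
      · intro x
        show ¬ ((x (Sum.inl v) && !h fun u => x (Sum.inr (v, u))) = true ∧
          (!x (Sum.inl v) && h fun u => x (Sum.inr (v, u))) = true)
        cases x (Sum.inl v) <;> simp
      · intro x
        show xor (x (Sum.inl v)) (h fun u => x (Sum.inr (v, u))) =
          ((x (Sum.inl v) && !h fun u => x (Sum.inr (v, u))) ||
          (!x (Sum.inl v) && h fun u => x (Sum.inr (v, u))))
        cases x (Sum.inl v) <;> cases (h fun u => x (Sum.inr (v, u))) <;> rfl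
    · refine Comp_or (hm a₃ (by simp)) (hm a₄ (by simp)) ?_ (Finset.Subset.refl _)
        (Finset.Subset.refl _) le_rfl le_rfl ?_
      · intro x
        show ¬ ((x (Sum.inl v) && h fun u => x (Sum.inr (v, u))) = true ∧
          (!x (Sum.inl v) && !h fun u => x (Sum.inr (v, u))) = true)
        cases x (Sum.inl v) <;> simp
      · intro x
        show (!xor (x (Sum.inl v)) (h fun u => x (Sum.inr (v, u)))) =
          ((x (Sum.inl v) && h fun u => x (Sum.inr (v, u))) ||
          (!x (Sum.inl v) && !h fun u => x (Sum.inr (v, u))))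
        cases x (Sum.inl v) <;> cases (h fun u => x (Sum.inr (v, u))) <;> rfl
  have e3 : [z, nz] ++ ([a₁, a₂, a₃, a₄] ++ ([lv, nlv] ++ (C ++ M))) =
      ([z, nz] ++ ([a₁, a₂, a₃, a₄] ++ ([lv, nlv] ++ C))) ++ M := by
    simp only [List.append_assoc]
  refine ⟨[z, nz] ++ ([a₁, a₂, a₃, a₄] ++ ([lv, nlv] ++ C)), e3 ▸ h3, ?_, ?_, ?_⟩
  · have : C.length = L.length := List.length_map _
    simp only [List.length_append, List.length_cons, List.length_nil, this]
    omega
  · intro g hg
    rw [← e3] at hg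
    rcases List.mem_append.1 hg with hg | hg
    · rcases List.mem_pair.1 hg with rfl | rfl
      · exact le_rfl
      · exact le_rfl
    rcases List.mem_append.1 hg with hg | hg
    · simp only [List.mem_cons, List.not_mem_nil, or_false] at hg
      rcases hg with rfl | rfl | rfl | rfl
      · exact le_rfl
      · exact le_rfl
      · exact le_rfl
      · exact le_rfl
    rcases List.mem_append.1 hg with hg | hg
    · rcases List.mem_pair.1 hg with rfl | rfl
      · exact Nat.zero_le _
      · exact Nat.zero_le _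
    rcases List.mem_append.1 hg with hg | hg
    · obtain ⟨g', hg', rfl⟩ := List.mem_map.1 hg
      exact hlb g' hg'
    · exact hb g hg
  · rw [← e3]
    exact ⟨⟨z, by simp, rfl, Finset.Subset.refl _, le_rfl⟩,
      ⟨nz, by simp, rfl, Finset.Subset.refl _, le_rfl⟩⟩

private theorem Comp_vertices (h : (U → Bool) → Bool) (a b s : ℕ) (hab : a ≤ b)
    (hU : UpP h a b s) (vs : List (Vx K)) :
    ∃ L : List (Gt (Bk K U)), Prog 1 L ∧ L.length ≤ vs.length * (s + 8) ∧ (∀ g ∈ L, g.l ≤ b) ∧
      ∀ v ∈ vs, Has h b L v := by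
  induction vs with
  | nil => exact ⟨[], Prog.nil, by simp, by simp, by simp⟩
  | cons v vs ih =>
    obtain ⟨M, hM, hs, hb, hv⟩ := ih
    obtain ⟨N, hN, hNs, hNb, hNv⟩ := Comp_vertex h a b s hab hU v M hM hb
    refine ⟨N ++ M, hN, ?_, hNb, ?_⟩
    · rw [List.length_append, List.length_cons, Nat.add_mul, one_mul]
      omega
    · intro v' hv'
      rcases List.mem_cons.1 hv' with rfl | hv'
      · exact hNv
      · exact (hv v' hv').mono fun g hg => List.mem_append_right _ hg

private theorem Comp_run (h : (U → Bool) → Bool) (b : ℕ) (B : List (Gt (Bk K U)))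
    (hB : Prog 1 B) (hv : ∀ v, Has h b B v) (n : ℕ) (acc : Fin n → Bool)
    (l : List (Vx K × (Bool → Fin n → Fin n))) (hl : (l.map Prod.fst).Nodup) :
    ∃ L : List (Gt (Bk K U)), Prog 1 (L ++ B) ∧ L.length ≤ 3 * n * l.length + n ∧
      (∀ g ∈ L, g.l ≤ b) ∧ ∀ q, ∃ g ∈ L, g.f = (fun x => acc (run (vals h x) l q)) ∧
        g.S ⊆ (l.map Prod.fst).toFinset.biUnion sc := by
  induction l with
  | nil =>
    let G : Fin n → Gt (Bk K U) := fun q => ⟨fun _ => acc q, ∅, 0⟩
    refine ⟨(List.finRange n).map G, Comp_append hB _ ?_, ?_, ?_, ?_⟩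
    · intro g hg
      obtain ⟨q, _, rfl⟩ := List.mem_map.1 hg
      exact Or.inl ⟨∅, Finset.Subset.refl _, by simp, fun _ _ _ => rfl⟩
    · rw [List.length_map, List.length_finRange]
      simp
    · intro g hg
      obtain ⟨q, _, rfl⟩ := List.mem_map.1 hg
      exact Nat.zero_le _
    · intro q
      exact ⟨G q, List.mem_map_of_mem (List.mem_finRange q), rfl, Finset.empty_subset _⟩
  | cons p l ih =>
    obtain ⟨v, δ⟩ := p
    rw [List.map_cons, List.nodup_cons] at hl
    obtain ⟨L, hL, hLn, hLb, hq⟩ := ih hl.2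
    obtain ⟨⟨z, hz, hzf, hzS, hzl⟩, ⟨y, hy, hyf, hyS, hyl⟩⟩ := hv v
    set T : Finset (Bk K U) := (l.map Prod.fst).toFinset.biUnion sc with hT
    have hdis : Disjoint (sc v : Finset (Bk K U)) T := by
      rw [hT, Finset.disjoint_biUnion_right]
      intro v' hv'
      refine sc_disjoint fun hvv => ?_
      subst hvv
      exact hl.1 (List.mem_toFinset.1 hv')
    choose G hG hGf hGS using hq
    let A₁ : Fin n → Gt (Bk K U) := fun q =>
      ⟨fun x => vals h x v && acc (run (vals h x) l (δ true q)), sc v ∪ T, b⟩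
    let A₀ : Fin n → Gt (Bk K U) := fun q =>
      ⟨fun x => (!vals h x v) && acc (run (vals h x) l (δ false q)), sc v ∪ T, b⟩
    let O : Fin n → Gt (Bk K U) := fun q =>
      ⟨fun x => acc (run (vals h x) ((v, δ) :: l) q), sc v ∪ T, b⟩
    have h1 : Prog 1 ((List.finRange n).map A₁ ++ (L ++ B)) := by
      refine Comp_append hL _ ?_
      intro g hg
      obtain ⟨q, _, rfl⟩ := List.mem_map.1 hg
      exact Comp_and (p := z) (q := G (δ true q)) (List.mem_append_right _ hz)
        (List.mem_append_left _ (hG _)) (Finset.disjoint_of_subset_left hzS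
          (Finset.disjoint_of_subset_right (hGS _) hdis))
        (hzS.trans Finset.subset_union_left) ((hGS _).trans Finset.subset_union_right)
        hzl (hLb _ (hG _)) fun x => by rw [hzf, hGf]
    have h2 : Prog 1 ((List.finRange n).map A₀ ++ ((List.finRange n).map A₁ ++ (L ++ B))) := by
      refine Comp_append h1 _ ?_
      intro g hg
      obtain ⟨q, _, rfl⟩ := List.mem_map.1 hg
      exact Comp_and (p := y) (q := G (δ false q))
        (List.mem_append_right _ (List.mem_append_right _ hy))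
        (List.mem_append_right _ (List.mem_append_left _ (hG _)))
        (Finset.disjoint_of_subset_left hyS
          (Finset.disjoint_of_subset_right (hGS _) hdis))
        (hyS.trans Finset.subset_union_left) ((hGS _).trans Finset.subset_union_right)
        hyl (hLb _ (hG _)) fun x => by rw [hyf, hGf]
    have h3 : Prog 1 ((List.finRange n).map O ++ ((List.finRange n).map A₀ ++
        ((List.finRange n).map A₁ ++ (L ++ B)))) := by
      refine Comp_append h2 _ ?_
      intro g hg
      obtain ⟨q, _, rfl⟩ := List.mem_map.1 hg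
      refine Comp_or (p := A₁ q) (q := A₀ q)
        (List.mem_append_right _ (List.mem_append_left _
          (List.mem_map_of_mem (List.mem_finRange q))))
        (List.mem_append_left _ (List.mem_map_of_mem (List.mem_finRange q))) ?_
        (Finset.Subset.refl _) (Finset.Subset.refl _) le_rfl le_rfl ?_
      · intro x
        show ¬ ((vals h x v && acc (run (vals h x) l (δ true q))) = true ∧
          ((!vals h x v) && acc (run (vals h x) l (δ false q))) = true)
        cases vals h x v <;> simp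
      · intro x
        show acc (run (vals h x) l (δ (vals h x v) q)) =
          ((vals h x v && acc (run (vals h x) l (δ true q))) ||
          ((!vals h x v) && acc (run (vals h x) l (δ false q))))
        cases vals h x v <;> simp
    refine ⟨(List.finRange n).map O ++ ((List.finRange n).map A₀ ++
        ((List.finRange n).map A₁ ++ L)), ?_, ?_, ?_, ?_⟩
    · have e3 : ((List.finRange n).map O ++ ((List.finRange n).map A₀ ++
        ((List.finRange n).map A₁ ++ L))) ++ B = (List.finRange n).map O ++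
          ((List.finRange n).map A₀ ++ ((List.finRange n).map A₁ ++ (L ++ B))) := by
        simp only [List.append_assoc]
      rw [e3]
      exact h3
    · simp only [List.length_append, List.length_map, List.length_finRange, List.length_cons]
      rw [Nat.mul_add]
      omega
    · intro g hg
      rcases List.mem_append.1 hg with hg | hg
      · obtain ⟨q, _, rfl⟩ := List.mem_map.1 hg
        exact le_rfl
      rcases List.mem_append.1 hg with hg | hg
      · obtain ⟨q, _, rfl⟩ := List.mem_map.1 hg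
        exact le_rfl
      rcases List.mem_append.1 hg with hg | hg
      · obtain ⟨q, _, rfl⟩ := List.mem_map.1 hg
        exact le_rfl
      · exact hLb g hg
    · intro q
      refine ⟨O q, List.mem_append_left _ (List.mem_map_of_mem (List.mem_finRange q)), rfl, ?_⟩
      rw [List.map_cons, List.toFinset_cons, Finset.biUnion_insert]

end Vertex

theorem thm_Comp : St_Comp := by
  intro K _ _ U _ _ h a b s hab hU
  obtain ⟨L₀, h0, hn, hb, hv⟩ := Comp_vertices h a b s hab hU
    (Finset.univ : Finset (Vx K)).toList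
  refine ⟨L₀, h0, ?_, hb, ?_⟩
  · rw [Finset.length_toList, Finset.card_univ, Fintype.card_sum, ← two_mul] at hn
    exact hn
  · intro L₂ h2 hb2 n l q₀ acc hl
    obtain ⟨L₁, h1, hn1, hb1, hq⟩ := Comp_run h b (L₂ ++ L₀) h2 (fun v =>
      (hv v (by simp)).mono fun g hg => List.mem_append_right _ hg) n acc l hl
    obtain ⟨g, hg, hgf, _⟩ := hq q₀
    refine ⟨L₁, ?_, hn1.trans (Nat.le_succ _), hb1, g, hg, hgf⟩
    rw [List.append_assoc]
    exact h1

end Pool.Agent.NH
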