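import Pool.Agent.NH.Base

/-!
# The negation hierarchy: crossing edges [Crs]
-/

set_option autoImplicit false

namespace Pool.Agent.NH

open Finset

namespace Crs

/-! ### Functions of two arguments -/

/-- a function of two arguments which is a product of bounded functions of one argument -/
def Sep {X Y : Type} (F : X → Y → ℝ) : Prop :=
  ∃ (f : X → ℝ) (g : Y → ℝ), (∀ x, |f x| ≤ 1) ∧ (∀ y, |g y| ≤ 1) ∧ ∀ x y, F x y = f x * g y

theorem Sep.mul {X Y : Type} {F G : X → Y → ℝ} (hF : Sep F) (hG : Sep G) :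
    Sep fun x y => F x y * G x y := by
  obtain ⟨f, g, hf, hg, h⟩ := hF
  obtain ⟨f', g', hf', hg', h'⟩ := hG
  refine ⟨fun x => f x * f' x, fun y => g y * g' y, fun x => ?_, fun y => ?_, fun x y => ?_⟩
  · rw [abs_mul]
    exact mul_le_one₀ (hf x) (abs_nonneg _) (hf' x)
  · rw [abs_mul]
    exact mul_le_one₀ (hg y) (abs_nonneg _) (hg' y)
  · show F x y * G x y = _
    rw [h, h']
    ring

theorem Sep.one {X Y : Type} : Sep fun (_ : X) (_ : Y) => (1 : ℝ) :=
  ⟨fun _ => 1, fun _ => 1, fun _ => by simp, fun _ => by simp, fun _ _ => by simp⟩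

theorem Sep.prod {X Y ι : Type} [DecidableEq ι] (S : Finset ι) (F : ι → X → Y → ℝ)
    (h : ∀ i ∈ S, Sep (F i)) : Sep fun x y => ∏ i ∈ S, F i x y := by
  induction S using Finset.induction_on with
  | empty =>
    simp only [Finset.prod_empty]
    exact Sep.one
  | insert a S ha ih =>
    simp only [Finset.prod_insert ha]
    exact (h a (mem_insert_self _ _)).mul (ih fun i hi => h i (mem_insert_of_mem hi))

/-! ### Parities as products -/

theorem sgn_bodd (n : ℕ) : sgn (Nat.bodd n) = (-1) ^ n := by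
  induction n with
  | zero => simp [sgn]
  | succ n ih =>
    rw [Nat.bodd_succ, pow_succ, ← ih]
    cases Nat.bodd n <;> simp [sgn]

theorem sgn_par {K : Type} [Fintype K] (σ : Fin 3 → Equiv.Perm K) (c : Fin 3)
    (y : Vx K → Bool) :
    sgn (par σ c y) = ∏ i : K, sgn (y (Sum.inl i) && y (Sum.inr (σ c i))) := by
  rw [par, sgn_bodd, ← Finset.prod_const, Finset.prod_filter]
  apply Finset.prod_congr rfl
  intro i _
  cases y (Sum.inl i) <;> cases y (Sum.inr (σ c i)) <;> simp [sgn]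

/-! ### The sign as a product -/

section Sign

variable {K : Type} [Fintype K] [DecidableEq K] {σ : Fin 3 → Equiv.Perm K} {c : Fin 3}
  {Q : Finset K} {p q : K → Vx K}

omit [Fintype K] [DecidableEq K] in
theorem p_ne_q
    (hpq : ∀ i ∈ Q, (p i = Sum.inl i ∧ q i = Sum.inr (σ c i)) ∨
      (q i = Sum.inl i ∧ p i = Sum.inr (σ c i))) :
    ∀ i ∈ Q, ∀ j ∈ Q, p i ≠ q j := by
  intro i hi j hj h
  rcases hpq i hi with ⟨h1, h2⟩ | ⟨h1, h2⟩ <;> rcases hpq j hj with ⟨h3, h4⟩ | ⟨h3, h4⟩
  · rw [h1, h4] at h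
    exact absurd h (by simp)
  · rw [h1, h3] at h
    have := Sum.inl.inj h
    subst this
    rw [h1] at h4
    exact absurd h4 (by simp)
  · rw [h2, h4] at h
    have := (σ c).injective (Sum.inr.inj h)
    subst this
    rw [h1] at h4
    exact absurd h4 (by simp)
  · rw [h2, h3] at h
    exact absurd h (by simp)

omit [Fintype K] in
theorem edge (hQ : FarE σ c Q)
    (hpq : ∀ i ∈ Q, (p i = Sum.inl i ∧ q i = Sum.inr (σ c i)) ∨
      (q i = Sum.inl i ∧ p i = Sum.inr (σ c i)))
    {X Y : Type} (Z : X → Y → Vx K → Bool) (u : X → Vx K → Bool) (t : Y → Vx K → Bool)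
    (hu : ∀ v, (∀ i ∈ Q, v ≠ q i) → ∀ x y, Z x y v = u x v)
    (ht : ∀ v, (∀ i ∈ Q, v ≠ p i) → ∀ x y, Z x y v = t y v)
    (d : Fin 3) (i : K) (hdi : ¬ (d = c ∧ i ∈ Q)) :
    Sep fun x y => sgn (Z x y (Sum.inl i) && Z x y (Sum.inr (σ d i))) := by
  -- an element `i` of `Q` has no neighbour of other colours
  have far : i ∈ Q → ∀ j ∈ Q, σ d i ≠ σ c j := by
    intro hi j hj
    by_cases hd : d = c
    · exact absurd ⟨hd, hi⟩ hdi
    · exact hQ i hi j hj d hd
  by_cases h1 : (∃ j ∈ Q, Sum.inl i = q j) ∨ ∃ j ∈ Q, Sum.inr (σ d i) = q j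
  · have h2 : (∀ k ∈ Q, (Sum.inl i : Vx K) ≠ p k) ∧ ∀ k ∈ Q, (Sum.inr (σ d i) : Vx K) ≠ p k := by
      rcases h1 with ⟨j, hj, h⟩ | ⟨j, hj, h⟩
      · have hij : i = j ∧ p j = Sum.inr (σ c j) := by
          rcases hpq j hj with ⟨h3, h4⟩ | ⟨h3, h4⟩
          · rw [h4] at h
            exact absurd h (by simp)
          · rw [h3] at h
            exact ⟨Sum.inl.inj h, h4⟩
        obtain ⟨rfl, hp⟩ := hij
        constructor
        · intro k hk h5
          rw [h] at h5
          exact p_ne_q hpq k hk i hj h5.symm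
        · intro k hk h5
          rcases hpq k hk with ⟨h6, h7⟩ | ⟨h6, h7⟩
          · rw [h6] at h5
            exact absurd h5 (by simp)
          · rw [h7] at h5
            exact far hj k hk (Sum.inr.inj h5)
      · have hij : σ d i = σ c j ∧ p j = Sum.inl j := by
          rcases hpq j hj with ⟨h3, h4⟩ | ⟨h3, h4⟩
          · rw [h4] at h
            exact ⟨Sum.inr.inj h, h3⟩
          · rw [h3] at h
            exact absurd h (by simp)
        obtain ⟨h8, hp⟩ := hij
        constructor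
        · intro k hk h5
          rcases hpq k hk with ⟨h6, h7⟩ | ⟨h6, h7⟩
          · rw [h6] at h5
            have hk' := Sum.inl.inj h5
            subst hk'
            exact far hk j hj h8
          · rw [h7] at h5
            exact absurd h5 (by simp)
        · intro k hk h5
          rw [h] at h5
          exact p_ne_q hpq k hk j hj h5.symm
    refine ⟨fun _ => 1, fun y => sgn (t y (Sum.inl i) && t y (Sum.inr (σ d i))),
      fun _ => by simp, fun y => (abs_sgn _).le, fun x y => ?_⟩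
    show sgn (Z x y (Sum.inl i) && Z x y (Sum.inr (σ d i))) =
      1 * sgn (t y (Sum.inl i) && t y (Sum.inr (σ d i)))
    rw [ht _ h2.1, ht _ h2.2, one_mul]
  · push Not at h1
    refine ⟨fun x => sgn (u x (Sum.inl i) && u x (Sum.inr (σ d i))), fun _ => 1,
      fun y => (abs_sgn _).le, fun _ => by simp, fun x y => ?_⟩
    show sgn (Z x y (Sum.inl i) && Z x y (Sum.inr (σ d i))) =
      sgn (u x (Sum.inl i) && u x (Sum.inr (σ d i))) * 1
    rw [hu _ h1.1, hu _ h1.2, mul_one]

theorem sepSg (hQ : FarE σ c Q)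
    (hpq : ∀ i ∈ Q, (p i = Sum.inl i ∧ q i = Sum.inr (σ c i)) ∨
      (q i = Sum.inl i ∧ p i = Sum.inr (σ c i)))
    {X Y : Type} (Z : X → Y → Vx K → Bool) (u : X → Vx K → Bool) (t : Y → Vx K → Bool)
    (hu : ∀ v, (∀ i ∈ Q, v ≠ q i) → ∀ x y, Z x y v = u x v)
    (ht : ∀ v, (∀ i ∈ Q, v ≠ p i) → ∀ x y, Z x y v = t y v)
    (L : Finset (Fin 3)) (hc : c ∈ L) :
    ∃ (f : X → ℝ) (g : Y → ℝ), (∀ x, |f x| ≤ 1) ∧ (∀ y, |g y| ≤ 1) ∧
      ∀ x y, Sg σ L (Z x y) = f x * g y * ∏ i ∈ Q, sgn (u x (p i) && t y (q i)) := by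
  have h1 : Sep fun x y => ∏ d ∈ L.erase c, ∏ i : K,
      sgn (Z x y (Sum.inl i) && Z x y (Sum.inr (σ d i))) := by
    apply Sep.prod (L.erase c)
      (fun d x y => ∏ i : K, sgn (Z x y (Sum.inl i) && Z x y (Sum.inr (σ d i))))
    intro d hd
    apply Sep.prod univ (fun i x y => sgn (Z x y (Sum.inl i) && Z x y (Sum.inr (σ d i))))
    intro i _
    exact edge hQ hpq Z u t hu ht d i fun h => (Finset.ne_of_mem_erase hd) h.1
  have h2 : Sep fun x y => ∏ i ∈ Qᶜ,
      sgn (Z x y (Sum.inl i) && Z x y (Sum.inr (σ c i))) := by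
    apply Sep.prod Qᶜ (fun i x y => sgn (Z x y (Sum.inl i) && Z x y (Sum.inr (σ c i))))
    intro i hi
    exact edge hQ hpq Z u t hu ht c i fun h => (Finset.mem_compl.1 hi) h.2
  obtain ⟨f, g, hf, hg, h⟩ := h2.mul h1
  refine ⟨f, g, hf, hg, fun x y => ?_⟩
  rw [← h x y, Sg, ← Finset.mul_prod_erase L _ hc]
  simp only [sgn_par]
  rw [← Finset.prod_mul_prod_compl Q fun i => sgn (Z x y (Sum.inl i) && Z x y (Sum.inr (σ c i)))]
  have h3 : ∏ i ∈ Q, sgn (Z x y (Sum.inl i) && Z x y (Sum.inr (σ c i))) =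
      ∏ i ∈ Q, sgn (u x (p i) && t y (q i)) := by
    apply Finset.prod_congr rfl
    intro i hi
    have e1 : Z x y (p i) = u x (p i) := hu _ (fun j hj => p_ne_q hpq i hi j hj) x y
    have e2 : Z x y (q i) = t y (q i) := ht _ (fun j hj => (p_ne_q hpq j hj i hi).symm) x y
    rw [← e1, ← e2]
    rcases hpq i hi with ⟨h3, h4⟩ | ⟨h3, h4⟩
    · rw [h3, h4]
    · rw [h3, h4, Bool.and_comm]
  rw [h3]
  ring

end Sign

/-! ### Orthogonality -/

section Mean

variable {V : Type} [Fintype V] [DecidableEq V]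

theorem bessel {ι : Type} [DecidableEq ι] (S : Finset ι) (χ : ι → (V → Bool) → ℝ)
    (h : ∀ i ∈ S, ∀ j ∈ S, Ex (fun x => χ i x * χ j x) = if i = j then 1 else 0)
    (A : (V → Bool) → ℝ) (hA : ∀ x, |A x| ≤ 1) :
    ∑ i ∈ S, (Ex fun x => A x * χ i x) ^ 2 ≤ 1 := by
  set γ : ι → ℝ := fun i => Ex fun x => A x * χ i x with hγ
  have h0 : 0 ≤ Ex fun x => (A x - ∑ i ∈ S, γ i * χ i x) ^ 2 := Ex_nonneg fun x => sq_nonneg _
  have e1 : (fun x => (A x - ∑ i ∈ S, γ i * χ i x) ^ 2) =
      fun x => ((A x) ^ 2 - ∑ i ∈ S, (2 * γ i) * (A x * χ i x)) +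
        ∑ i ∈ S, ∑ j ∈ S, (γ i * γ j) * (χ i x * χ j x) := by
    funext x
    have e2 : ∑ i ∈ S, (2 * γ i) * (A x * χ i x) = 2 * A x * ∑ i ∈ S, γ i * χ i x := by
      rw [Finset.mul_sum]
      exact Finset.sum_congr rfl fun i _ => by ring
    have e3 : ∑ i ∈ S, ∑ j ∈ S, (γ i * γ j) * (χ i x * χ j x) =
        (∑ i ∈ S, γ i * χ i x) * ∑ i ∈ S, γ i * χ i x := by
      rw [Finset.sum_mul_sum]
      exact Finset.sum_congr rfl fun i _ => Finset.sum_congr rfl fun j _ => by ring
    rw [e2, e3]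
    ring
  rw [e1, Ex_add, Ex_sub, Ex_sum, Ex_sum] at h0
  have e4 : ∑ i ∈ S, Ex (fun x => (2 * γ i) * (A x * χ i x)) = 2 * ∑ i ∈ S, γ i ^ 2 := by
    rw [Finset.mul_sum]
    refine Finset.sum_congr rfl fun i _ => ?_
    rw [Ex_mul_left]
    show 2 * γ i * γ i = _
    ring
  have e5 : ∑ i ∈ S, Ex (fun x => ∑ j ∈ S, (γ i * γ j) * (χ i x * χ j x)) =
      ∑ i ∈ S, γ i ^ 2 := by
    refine Finset.sum_congr rfl fun i hi => ?_
    rw [Ex_sum]
    rw [Finset.sum_eq_single i]
    · rw [Ex_mul_left, h i hi i hi, if_pos rfl]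
      ring
    · intro j hj hji
      rw [Ex_mul_left, h i hi j hj, if_neg (Ne.symm hji), mul_zero]
    · intro hi'
      exact absurd hi hi'
  rw [e4, e5] at h0
  have e6 : Ex (fun x => (A x) ^ 2) ≤ 1 := by
    apply Ex_le_const
    intro x
    rw [← sq_abs]
    exact pow_le_one₀ (abs_nonneg _) (hA x)
  show ∑ i ∈ S, γ i ^ 2 ≤ 1
  linarith

/-- the characters -/
noncomputable def ch {K : Type} [DecidableEq K] (Q : Finset K) (P : (V → Bool) → K → Bool)
    (T : Finset K) (x : V → Bool) : ℝ :=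
  ∏ i ∈ Q, if i ∈ T then sgn (P x i) else 1

theorem orth {K : Type} [DecidableEq K] (Q : Finset K) (P : (V → Bool) → K → Bool)
    (w : K → V) (hw : ∀ i ∈ Q, ∀ j ∈ Q, w i = w j → i = j) (m : K → Bool)
    (hP : ∀ i ∈ Q, ∀ x, P x i = xor (x (w i)) (m i)) (T T' : Finset K) (hT : T ⊆ Q)
    (hT' : T' ⊆ Q) :
    Ex (fun x => ch Q P T x * ch Q P T' x) = if T = T' then 1 else 0 := by
  have e1 : (fun x => ch Q P T x * ch Q P T' x) = fun x => ∏ i ∈ Q,
      ((if i ∈ T then sgn (P x i) else 1) * if i ∈ T' then sgn (P x i) else 1) := by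
    funext x
    rw [ch, ch, ← Finset.prod_mul_distrib]
  rw [e1, Ex_prod Q (fun i x => (if i ∈ T then sgn (P x i) else 1) *
    if i ∈ T' then sgn (P x i) else 1) fun i => {w i}]
  · split_ifs with h
    · subst h
      apply Finset.prod_eq_one
      intro i _
      have : ∀ x : V → Bool, ((if i ∈ T then sgn (P x i) else 1) *
          if i ∈ T then sgn (P x i) else 1) = (1 : ℝ) := by
        intro x
        split_ifs
        · exact sgn_mul_self _
        · norm_num
      simp only [this]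
      exact Ex_const 1
    · have h2 : ∃ i ∈ Q, ¬ (i ∈ T ↔ i ∈ T') := by
        by_contra h3
        push Not at h3
        apply h
        ext i
        constructor
        · intro hi
          exact (h3 i (hT hi)).1 hi
        · intro hi
          exact (h3 i (hT' hi)).2 hi
      obtain ⟨i, hi, h4⟩ := h2
      apply Finset.prod_eq_zero hi
      have h5 : ∀ x : V → Bool, ((if i ∈ T then sgn (P x i) else 1) *
          if i ∈ T' then sgn (P x i) else 1) = sgn (xor (x (w i)) (m i)) := by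
        intro x
        rw [hP i hi x]
        by_cases h6 : i ∈ T
        · have h7 : i ∉ T' := fun h7 => h4 ⟨fun _ => h7, fun _ => h6⟩
          rw [if_pos h6, if_neg h7, mul_one]
        · have h7 : i ∈ T' := by
            by_contra h7
            exact h4 ⟨fun h8 => absurd h8 h6, fun h8 => absurd h8 h7⟩
          rw [if_neg h6, if_pos h7, one_mul]
      simp only [h5]
      rw [Ex_bit (w i) fun b => sgn (xor b (m i))]
      cases m i <;> norm_num [sgn]
  · intro i hi x y hxy
    have : P x i = P y i := by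
      rw [hP i hi, hP i hi, hxy (w i) (Finset.mem_singleton_self _)]
    simp only [this]
  · intro i hi j hj hij
    rw [Finset.disjoint_singleton]
    exact fun h => hij (hw i hi j hj h)

theorem core {K : Type} [Fintype K] [DecidableEq K] (Q : Finset K)
    (P S : (V → Bool) → K → Bool)
    (w : K → V) (hw : ∀ i ∈ Q, ∀ j ∈ Q, w i = w j → i = j) (m : K → Bool)
    (hP : ∀ i ∈ Q, ∀ x, P x i = xor (x (w i)) (m i)) (r : ℝ)
    (hS : ∀ s : K → Bool, Ex (fun y => if ∀ i ∈ Q, S y i = s i then 1 else 0) ≤ r)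
    (A B : (V → Bool) → ℝ) (hA : ∀ x, |A x| ≤ 1) (hB : ∀ x, |B x| ≤ 1) :
    |Ex fun y => Ex fun x => A x * B y * ∏ i ∈ Q, sgn (P x i && S y i)| ≤ Real.sqrt r := by
  -- the pattern
  set T : (V → Bool) → Finset K := fun y => Q.filter fun i => S y i = true with hT
  have hTQ : ∀ y, T y ∈ Q.powerset := fun y => Finset.mem_powerset.2 (Finset.filter_subset _ _)
  set G : Finset K → ℝ := fun T => Ex fun x => A x * ch Q P T x with hG
  have e1 : ∀ y, Ex (fun x => A x * B y * ∏ i ∈ Q, sgn (P x i && S y i)) = B y * G (T y) := by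
    intro y
    rw [hG, ← Ex_mul_left]
    apply Ex_congr
    intro x
    have : ∏ i ∈ Q, sgn (P x i && S y i) = ch Q P (T y) x := by
      rw [ch]
      apply Finset.prod_congr rfl
      intro i hi
      by_cases h : S y i = true
      · have h1 : i ∈ T y := Finset.mem_filter.2 ⟨hi, h⟩
        rw [if_pos h1, h, Bool.and_true]
      · have h1 : i ∉ T y := fun h' => h (Finset.mem_filter.1 h').2
        rw [if_neg h1]
        rw [Bool.not_eq_true] at h
        rw [h, Bool.and_false]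
        rfl
    rw [this]
    ring
  simp only [e1]
  apply Real.abs_le_sqrt
  have e2 : (Ex fun y => B y * G (T y)) ^ 2 ≤ Ex fun y => (G (T y)) ^ 2 := by
    refine (sq_Ex_le _).trans (Ex_mono fun y => ?_)
    rw [mul_pow]
    have : (B y) ^ 2 ≤ 1 := by
      rw [← sq_abs]
      exact pow_le_one₀ (abs_nonneg _) (hB y)
    nlinarith [sq_nonneg (G (T y))]
  refine e2.trans ?_
  have e3 : (Ex fun y => (G (T y)) ^ 2) =
      ∑ T' ∈ Q.powerset, Ex fun y => (if T y = T' then 1 else 0) * (G T') ^ 2 := by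
    rw [← Ex_sum]
    apply Ex_congr
    intro y
    rw [Finset.sum_eq_single (T y)]
    · rw [if_pos rfl, one_mul]
    · intro T' _ hne
      rw [if_neg (Ne.symm hne), zero_mul]
    · intro h
      exact absurd (hTQ y) h
  rw [e3]
  have e4 : ∀ T' ∈ Q.powerset, (Ex fun y => (if T y = T' then 1 else 0) * (G T') ^ 2) ≤
      r * (G T') ^ 2 := by
    intro T' hT'
    rw [Ex_mul_right]
    apply mul_le_mul_of_nonneg_right _ (sq_nonneg _)
    refine le_trans (Ex_mono fun y => ?_) (hS fun i => decide (i ∈ T'))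
    by_cases h : T y = T'
    · rw [if_pos h, if_pos]
      intro i hi
      by_cases h' : S y i = true
      · have : i ∈ T' := by
          rw [← h]
          exact Finset.mem_filter.2 ⟨hi, h'⟩
        simp [h', this]
      · have : i ∉ T' := by
          rw [← h]
          exact fun h2 => h' (Finset.mem_filter.1 h2).2
        simp [h', this]
    · rw [if_neg h]
      split_ifs <;> norm_num
  refine (Finset.sum_le_sum e4).trans ?_
  rw [← Finset.mul_sum]
  have hr : 0 ≤ r := by
    refine le_trans (Ex_nonneg fun y => ?_) (hS fun _ => true)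
    split_ifs <;> norm_num
  have e5 : ∑ T' ∈ Q.powerset, (G T') ^ 2 ≤ 1 := by
    apply bessel Q.powerset (ch Q P) _ A hA
    intro i hi j hj
    exact orth Q P w hw m hP i j (Finset.mem_powerset.1 hi) (Finset.mem_powerset.1 hj)
  nlinarith

end Mean

end Crs

theorem thm_Crs : St_Crs := by
  intro K _ _ σ c V _ _ z Q hQ p q w R r hpq hw hwR hm hp hq hr L hc a b ha hb haR hbW
  set W : Finset V := Q.image w with hW
  have hWmem : ∀ u, u ∉ W → ∀ j ∈ Q, u ≠ w j := by
    intro u hu j hj h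
    exact hu (h ▸ Finset.mem_image_of_mem w hj)
  have hmemW : ∀ j ∈ Q, w j ∈ W := fun j hj => Finset.mem_image_of_mem w hj
  -- resampling
  rw [Ex_mix W, Ex_mix R]
  apply abs_Ex_le_const
  intro x₀
  -- the values
  have hu : ∀ v, (∀ i ∈ Q, v ≠ q i) → ∀ x y : V → Bool,
      z (mix W x (mix R y x₀)) v = z (mix W x x₀) v := by
    intro v hv x y
    apply hq v hv
    intro u hu
    by_cases h : u ∈ W
    · rw [mix_mem h, mix_mem h]
    · rw [mix_not_mem h, mix_not_mem h, mix_not_mem hu]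
  have ht : ∀ v, (∀ i ∈ Q, v ≠ p i) → ∀ x y : V → Bool,
      z (mix W x (mix R y x₀)) v = z (mix R y x₀) v := by
    intro v hv x y
    apply hp v hv
    intro u hu
    rw [mix_not_mem]
    intro h
    obtain ⟨j, hj, rfl⟩ := Finset.mem_image.1 h
    exact hu j hj rfl
  obtain ⟨f, g, hf, hg, h⟩ := Crs.sepSg hQ hpq
    (fun x y : V → Bool => z (mix W x (mix R y x₀))) (fun x => z (mix W x x₀))
    (fun y => z (mix R y x₀)) hu ht L hc
  have h' : ∀ x y : V → Bool, Sg σ L (z (mix W x (mix R y x₀))) = f x * g y *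
      ∏ i ∈ Q, sgn (z (mix W x x₀) (p i) && z (mix R y x₀) (q i)) := h
  have hA : ∀ x y : V → Bool, a (mix W x (mix R y x₀)) = a (mix W x x₀) := by
    intro x y
    apply haR
    intro u hu
    by_cases h : u ∈ W
    · rw [mix_mem h, mix_mem h]
    · rw [mix_not_mem h, mix_not_mem h, mix_not_mem hu]
  have hB : ∀ x y : V → Bool, b (mix W x (mix R y x₀)) = b (mix R y x₀) := by
    intro x y
    apply hbW
    intro u hu
    rw [mix_not_mem]
    intro h
    obtain ⟨j, hj, rfl⟩ := Finset.mem_image.1 h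
    exact hu j hj rfl
  have e : (Ex fun y : V → Bool => Ex fun x : V → Bool =>
      a (mix W x (mix R y x₀)) * b (mix W x (mix R y x₀)) *
        Sg σ L (z (mix W x (mix R y x₀)))) =
      Ex fun y : V → Bool => Ex fun x : V → Bool =>
        (a (mix W x x₀) * f x) * (b (mix R y x₀) * g y) *
          ∏ i ∈ Q, sgn (z (mix W x x₀) (p i) && z (mix R y x₀) (q i)) := by
    apply Ex_congr
    intro y
    apply Ex_congr
    intro x
    rw [h', hA, hB]
    ring
  rw [e]
  apply Crs.core Q (fun x i => z (mix W x x₀) (p i)) (fun y i => z (mix R y x₀) (q i)) w hw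
    (fun i => xor (z x₀ (p i)) (x₀ (w i)))
  · intro i hi x
    have h1 := hm i hi (mix W x x₀) x₀ fun v hv => by
      rw [mix_not_mem]
      intro h
      obtain ⟨j, hj, rfl⟩ := Finset.mem_image.1 h
      exact hv j hj rfl
    rw [mix_mem (hmemW i hi)] at h1
    show z (mix W x x₀) (p i) = _
    rw [← h1]
    cases z (mix W x x₀) (p i) <;> cases x (w i) <;> rfl
  · exact fun s => hr x₀ s
  · intro x
    rw [abs_mul]
    exact mul_le_one₀ (ha _) (abs_nonneg _) (hf x)
  · intro y
    rw [abs_mul]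
    exact mul_le_one₀ (hb _) (abs_nonneg _) (hg y)

end Pool.Agent.NH
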