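import Pool.Agent.NH.Defs

/-!
# The negation hierarchy: decomposition of a program with respect to a set of variables
-/

namespace Pool.Agent.NH

open Finset

section Dec

variable {W : Type} [DecidableEq W]

set_option linter.unusedSectionVars false

private lemma Dec_okMono {w : ℕ} {L L' : List (Gt W)} {g : Gt W} (h : Ok w L g)
    (hL : ∀ p ∈ L, p ∈ L') : Ok w L' g := by
  rcases h with h | ⟨p, hp, q, hq, h⟩ | ⟨p, hp, q, hq, h⟩ | ⟨p, hp, h⟩
  · exact Or.inl h
  · exact Or.inr (Or.inl ⟨p, hL p hp, q, hL q hq, h⟩)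
  · exact Or.inr (Or.inr (Or.inl ⟨p, hL p hp, q, hL q hq, h⟩))
  · exact Or.inr (Or.inr (Or.inr ⟨p, hL p hp, h⟩))

private lemma Dec_tail {w : ℕ} {L M : List (Gt W)} (h : Prog w (L ++ M)) : Prog w M := by
  induction L with
  | nil => exact h
  | cons g L ih =>
    cases h with
    | cons h1 _ => exact ih h1

private lemma Dec_filter {w : ℕ} {L : List (Gt W)} (h : Prog w L) (t : ℕ) :
    Prog w (L.filter fun g => decide (g.l < t)) := by
  induction h with
  | nil => exact Prog.nil
  | cons h1 h2 ih =>
    rename_i L g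
    by_cases hg : g.l < t
    · rw [List.filter_cons_of_pos (by simpa using hg)]
      refine Prog.cons ih ?_
      have key : ∀ p ∈ L, p.l ≤ g.l → p ∈ L.filter fun g => decide (g.l < t) := fun p hp hl =>
        List.mem_filter.2 ⟨hp, by simpa using lt_of_le_of_lt hl hg⟩
      rcases h2 with h | ⟨p, hp, q, hq, h3, h4, h5, h6, h7, h8⟩ |
        ⟨p, hp, q, hq, h3, h4, h5, h6, h7, h8⟩ | ⟨p, hp, h3, h4, h5⟩
      · exact Or.inl h
      · exact Or.inr (Or.inl ⟨p, key p hp h6, q, key q hq h7, h3, h4, h5, h6, h7, h8⟩)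
      · exact Or.inr (Or.inr (Or.inl ⟨p, key p hp h6, q, key q hq h7, h3, h4, h5, h6, h7, h8⟩))
      · exact Or.inr (Or.inr (Or.inr ⟨p, key p hp h4.le, h3, h4, h5⟩))
    · rw [List.filter_cons_of_neg (by simpa using hg)]
      exact ih

private lemma Dec_mono {f : (W → Bool) → Bool} {S S' : Finset W} (h : DepOn f S) (hS : S ⊆ S') :
    DepOn f S' := fun x y hxy => h x y fun v hv => hxy v (hS hv)

private lemma Dec_and {f g : (W → Bool) → Bool} {S : Finset W} (h : DepOn f S) (h' : DepOn g S) :
    DepOn (fun x => f x && g x) S := fun x y hxy => by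
  show (f x && g x) = (f y && g y)
  rw [h x y hxy, h' x y hxy]

private lemma Dec_dep {w : ℕ} {L : List (Gt W)} (h : Prog w L) : ∀ g ∈ L, DepOn g.f g.S := by
  induction h with
  | nil => intro g hg; exact absurd hg (by simp)
  | cons h1 h2 ih =>
    rename_i L g
    intro g' hg'
    rcases List.mem_cons.1 hg' with rfl | hg'
    · rcases h2 with ⟨S, hS, -, h⟩ | ⟨p, hp, q, hq, h3, h4, h5, h6, h7, h8⟩ |
        ⟨p, hp, q, hq, h3, h4, h5, h6, h7, h8⟩ | ⟨p, hp, h3, h4, h5⟩
      · exact Dec_mono h hS
      · rw [h8]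
        exact Dec_and (Dec_mono (ih p hp) h4) (Dec_mono (ih q hq) h5)
      · rw [h8]
        intro x y hxy
        show (p.f x || q.f x) = (p.f y || q.f y)
        rw [Dec_mono (ih p hp) h4 x y hxy, Dec_mono (ih q hq) h5 x y hxy]
      · rw [h5]
        intro x y hxy
        show (!p.f x) = !p.f y
        rw [Dec_mono (ih p hp) h3 x y hxy]
    · exact ih g' hg'

private lemma Dec_or {f g : (W → Bool) → Bool} {S : Finset W} (h : DepOn f S) (h' : DepOn g S) :
    DepOn (fun x => f x || g x) S := fun x y hxy => by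
  show (f x || g x) = (f y || g y)
  rw [h x y hxy, h' x y hxy]

/-- independence: disjointness where `f` is true implies disjointness -/
private lemma Dec_ind {f a b : (W → Bool) → Bool} {D S : Finset W} (hf : DepOn f D)
    (ha : DepOn a (S \ D)) (hb : DepOn b (S \ D)) (hne : ∃ x, f x = true)
    (h : ∀ x, f x = true → ¬ (a x = true ∧ b x = true)) (x : W → Bool) :
    ¬ (a x = true ∧ b x = true) := by
  obtain ⟨x₀, hx₀⟩ := hne
  have h1 : f (fun v => if v ∈ D then x₀ v else x v) = true := by
    rw [← hx₀]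
    exact hf _ _ fun v hv => by simp [hv]
  have h2 : ∀ c : (W → Bool) → Bool, DepOn c (S \ D) →
      c (fun v => if v ∈ D then x₀ v else x v) = c x := fun c hc =>
    hc _ _ fun v hv => by simp [(mem_sdiff.1 hv).2]
  have h3 := h _ h1
  rw [h2 a ha, h2 b hb] at h3
  exact h3

open Classical in
/-- the weighted sum of the frontier -/
private noncomputable def dA (N : Gt W → (W → Bool) → Bool) (M : List (Gt W)) (x : W → Bool) : ℕ :=
  ∑ v ∈ M.toFinset, (N v x).toNat * (v.f x).toNat

/-- the state of the decomposition -/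
private structure DSt (w t : ℕ) (L : List (Gt W)) (S B : Finset W) (M E : List (Gt W))
    (N : Gt W → (W → Bool) → Bool) : Prop where
  prog : Prog w (E ++ L)
  lev : ∀ g ∈ E ++ L, g.l ≤ t
  ctx : ∀ v ∈ M, (∀ x, N v x = false) ∨ (16 * (B \ v.S).card < B.card ∧ v.S ⊆ S ∧
    ∃ n ∈ E ++ L, n.f = N v ∧ n.S ⊆ S \ v.S)

private lemma DSt.sub {w t : ℕ} {L : List (Gt W)} {S B : Finset W} {M M' E : List (Gt W)}
    {N : Gt W → (W → Bool) → Bool} (h : DSt w t L S B M E N) (hM : ∀ v ∈ M', v ∈ M) :
    DSt w t L S B M' E N := ⟨h.prog, h.lev, fun v hv => h.ctx v (hM v hv)⟩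

private lemma DSt.ext {w t : ℕ} {L : List (Gt W)} {S B : Finset W} {M E : List (Gt W)}
    {N : Gt W → (W → Bool) → Bool} (h : DSt w t L S B M E N) (n : Gt W) (hn : Ok w (E ++ L) n)
    (hl : n.l ≤ t) : DSt w t L S B M (n :: E) N := by
  refine ⟨Prog.cons h.prog hn, ?_, ?_⟩
  · intro g hg
    rcases List.mem_cons.1 hg with rfl | hg
    · exact hl
    · exact h.lev g hg
  · intro v hv
    rcases h.ctx v hv with h1 | ⟨h1, h2, n', hn', h3⟩
    · exact Or.inl h1
    · exact Or.inr ⟨h1, h2, n', List.mem_cons_of_mem _ hn', h3⟩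

/-- the pending term `n p` with `p` heavy goes to the frontier -/
private lemma Dec_push {w t : ℕ} {L : List (Gt W)} {S B : Finset W} {M E : List (Gt W)}
    {N : Gt W → (W → Bool) → Bool} (h : DSt w t L S B M E N) {p n : Gt W} (hp : p ∈ M)
    (hpL : p ∈ L) (hpB : 16 * (B \ p.S).card < B.card) (hpS : p.S ⊆ S) (hn : n ∈ E ++ L)
    (hnS : n.S ⊆ S \ p.S) (hle : ∀ x, dA N M x + (n.f x).toNat * (p.f x).toNat ≤ 1) :
    ∃ (E' : List (Gt W)) (N' : Gt W → (W → Bool) → Bool), DSt w t L S B M E' N' ∧
      (∀ g ∈ E, g ∈ E') ∧ E'.length ≤ E.length + 1 ∧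
      ∀ x, dA N' M x = dA N M x + (n.f x).toNat * (p.f x).toNat := by
  classical
  have hdep := Dec_dep h.prog
  have hpd : DepOn p.f p.S := hdep p (List.mem_append_right _ hpL)
  by_cases hp0 : ∃ x, p.f x = true
  swap
  · push Not at hp0
    refine ⟨E, N, h, fun _ hg => hg, Nat.le_succ _, fun x => ?_⟩
    have h1 : p.f x = false := by simpa using hp0 x
    simp [h1]
  have hsum : ∀ (N' : Gt W → (W → Bool) → Bool), (∀ v, v ≠ p → N' v = N v) → ∀ x,
      dA N' M x + (N p x).toNat * (p.f x).toNat = dA N M x + (N' p x).toNat * (p.f x).toNat := by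
    intro N' hN' x
    unfold dA
    have hpM : p ∈ M.toFinset := List.mem_toFinset.2 hp
    rw [← Finset.add_sum_erase _ _ hpM, ← Finset.add_sum_erase _ _ hpM]
    have h1 : ∑ v ∈ M.toFinset.erase p, (N' v x).toNat * (v.f x).toNat =
        ∑ v ∈ M.toFinset.erase p, (N v x).toNat * (v.f x).toNat :=
      Finset.sum_congr rfl fun v hv => by rw [hN' v (Finset.ne_of_mem_erase hv)]
    rw [h1]
    ring
  rcases h.ctx p hp with h0 | ⟨-, -, n', hn', hnf, hnS'⟩
  · -- the first contribution
    refine ⟨E, Function.update N p n.f, ⟨h.prog, h.lev, ?_⟩, fun _ hg => hg, Nat.le_succ _, ?_⟩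
    · intro v hv
      by_cases hvp : v = p
      · subst hvp
        exact Or.inr ⟨hpB, hpS, n, hn, by rw [Function.update_self], hnS⟩
      · rw [Function.update_of_ne hvp]
        exact h.ctx v hv
    · intro x
      have h1 := hsum (Function.update N p n.f) (fun v hv => Function.update_of_ne hv _ _) x
      rw [Function.update_self, h0 x] at h1
      simpa using h1
  · -- a further contribution
    have hdis : ∀ x, ¬ (n'.f x = true ∧ n.f x = true) := by
      refine Dec_ind hpd (Dec_mono (hdep n' hn') hnS') (Dec_mono (hdep n hn) hnS) hp0 ?_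
      rintro x hx ⟨h1, h2⟩
      have h3 := hle x
      have h4 : 1 ≤ dA N M x := by
        unfold dA
        rw [← Finset.add_sum_erase _ _ (List.mem_toFinset.2 hp), ← hnf, h1, hx]
        simp
      rw [h2, hx] at h3
      simp only [Bool.toNat_true, mul_one] at h3
      omega
    refine ⟨⟨fun x => n'.f x || n.f x, S \ p.S, t⟩ :: E,
      Function.update N p fun x => n'.f x || n.f x, ⟨?_, ?_, ?_⟩,
      fun _ hg => List.mem_cons_of_mem _ hg, le_rfl, ?_⟩
    · exact Prog.cons h.prog (Or.inr (Or.inr (Or.inl ⟨n', hn', n, hn, hdis, hnS', hnS,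
        h.lev n' hn', h.lev n hn, rfl⟩)))
    · intro g hg
      rcases List.mem_cons.1 hg with rfl | hg
      · exact le_rfl
      · exact h.lev g hg
    · intro v hv
      by_cases hvp : v = p
      · subst hvp
        exact Or.inr ⟨hpB, hpS, _, List.mem_cons_self, by rw [Function.update_self],
          subset_refl _⟩
      · rw [Function.update_of_ne hvp]
        rcases h.ctx v hv with h1 | ⟨h1, h2, m, hm, h3⟩
        · exact Or.inl h1
        · exact Or.inr ⟨h1, h2, m, List.mem_cons_of_mem _ hm, h3⟩
    · intro x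
      have h1 := hsum (Function.update N p fun x => n'.f x || n.f x)
        (fun v hv => Function.update_of_ne hv _ _) x
      rw [Function.update_self, ← hnf] at h1
      have h2 := hdis x
      revert h1 h2
      cases n'.f x <;> cases n.f x <;> cases p.f x <;> simp

/-- the conjunction of two gates with disjoint scopes is computed by a program -/
private lemma Dec_kc {w t s : ℕ} {L E : List (Gt W)} {S : Finset W} (hp : Prog w (E ++ L))
    (hl : ∀ g ∈ E ++ L, g.l ≤ t) (hlen : E.length + L.length + 1 ≤ s) {a b : Gt W}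
    (ha : a ∈ E ++ L) (hb : b ∈ E ++ L) (hd : Disjoint a.S b.S) (haS : a.S ⊆ S) (hbS : b.S ⊆ S) :
    Kc w (t + 1) s (fun x => a.f x && b.f x) S := by
  refine ⟨⟨fun x => a.f x && b.f x, S, t⟩ :: (E ++ L), ?_, ?_, ?_, _, List.mem_cons_self, rfl,
    subset_refl _⟩
  · exact Prog.cons hp (Or.inr (Or.inl ⟨a, ha, b, hb, hd, haS, hbS, hl a ha, hl b hb, rfl⟩))
  · rw [List.length_cons, List.length_append]
    omega
  · intro g hg
    rcases List.mem_cons.1 hg with rfl | hg
    · exact Nat.lt_succ_self _
    · exact Nat.lt_succ_of_le (hl g hg)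

private lemma Dec_card {A B C : Finset W} {n : ℕ} (h : A ⊆ B ∪ C) (hn : B.card + C.card ≤ n) :
    A.card ≤ n := ((card_le_card h).trans (card_union_le _ _)).trans hn

/-- the pending term `n p` for a child `p` of a heavy gate with the scope `D` -/
private lemma Dec_child {w t s : ℕ} {L : List (Gt W)} {S B D : Finset W} {M E : List (Gt W)}
    {N : Gt W → (W → Bool) → Bool} (h : DSt w t L S B M E N) {p n : Gt W} (hp : p ∈ M)
    (hpL : p ∈ L) (hpD : p.S ⊆ D) (hDS : D ⊆ S) (hDB : 16 * (B \ D).card < B.card)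
    (hn : n ∈ E ++ L) (hnS : n.S ⊆ S \ D) (hlen : E.length + L.length + 1 ≤ 7 * s)
    (hle : ∀ x, dA N M x + (n.f x).toNat * (p.f x).toNat ≤ 1) :
    ∃ (E' : List (Gt W)) (N' : Gt W → (W → Bool) → Bool) (Ts : List ((W → Bool) → Bool)),
      DSt w t L S B M E' N' ∧ (∀ g ∈ E, g ∈ E') ∧ E'.length ≤ E.length + 1 ∧ Ts.length ≤ 1 ∧
      (∀ T ∈ Ts, Kc w (t + 1) (7 * s) T S ∧ TermTy w t s B S T) ∧
      ∀ x, dA N' M x + (Ts.map fun T => (T x).toNat).sum =
        dA N M x + (n.f x).toNat * (p.f x).toNat := by
  have hdep := Dec_dep h.prog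
  have hpS : p.S ⊆ S := hpD.trans hDS
  have hnS' : n.S ⊆ S \ p.S := hnS.trans (sdiff_subset_sdiff (subset_refl _) hpD)
  by_cases hpB : 16 * (B \ p.S).card < B.card
  · obtain ⟨E', N', h1, h2, h3, h4⟩ := Dec_push h hp hpL hpB hpS hn hnS' hle
    exact ⟨E', N', [], h1, h2, h3, by simp, by simp, fun x => by simpa using h4 x⟩
  · have hpd := hdep p (List.mem_append_right _ hpL)
    have hnd := hdep n hn
    have hdis : Disjoint p.S n.S := disjoint_of_subset_right hnS' disjoint_sdiff
    refine ⟨E, N, [fun x => p.f x && n.f x], h, fun _ hg => hg, Nat.le_succ _, by simp, ?_, ?_⟩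
    · intro T hT
      rw [List.mem_singleton] at hT
      subst hT
      refine ⟨Dec_kc h.prog h.lev hlen (List.mem_append_right _ hpL) hn hdis hpS
        (hnS'.trans sdiff_subset), ?_⟩
      by_cases hpB' : B.card ≤ 16 * (B ∩ p.S).card
      · exact Or.inl ⟨p.S, hpS, hpB', by omega, p.f, n.f, hpd, Dec_mono hnd hnS', rfl⟩
      · refine Or.inr (Or.inr ⟨p.S ∪ (S \ D), union_subset hpS sdiff_subset, ?_,
          Dec_and (Dec_mono hpd subset_union_left)
            (Dec_mono hnd (hnS.trans subset_union_right))⟩)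
        have h1 : (B ∩ (p.S ∪ (S \ D))).card ≤ (B ∩ p.S).card + (B \ D).card := by
          refine Dec_card (C := B \ D) ?_ le_rfl
          intro v hv
          simp only [mem_inter, mem_union, mem_sdiff] at hv ⊢
          tauto
        omega
    · intro x
      simp only [List.map_cons, List.map_nil, List.sum_cons, List.sum_nil, add_zero]
      cases p.f x <;> cases n.f x <;> simp

private lemma Dec_main {w t s : ℕ} {L : List (Gt W)} {S B : Finset W} (_ : 1 ≤ s)
    (hL : L.length ≤ s) (hw : 8 * w ≤ B.card) : ∀ (M : List (Gt W)), M <:+ L →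
    ∀ (E : List (Gt W)) (N : Gt W → (W → Bool) → Bool), DSt w t L S B M E N →
      E.length + 2 * M.length ≤ 2 * s + 1 → (∀ x, dA N M x ≤ 1) →
      ∃ Ts : List ((W → Bool) → Bool), Ts.length ≤ 2 * M.length ∧
        (∀ T ∈ Ts, Kc w (t + 1) (7 * s) T S ∧ TermTy w t s B S T) ∧
        ∀ x, dA N M x = (Ts.map fun T => (T x).toNat).sum := by
  classical
  intro M
  induction M with
  | nil =>
    intro _ E N _ _ _
    exact ⟨[], by simp, by simp, fun x => by simp [dA]⟩
  | cons g M ih =>
    intro hML E N h hE hle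
    have hML' : M <:+ L := (List.suffix_cons g M).trans hML
    have hmem : ∀ v ∈ M, v ∈ L := fun v hv => hML'.subset hv
    have hgL : g ∈ L := hML.subset List.mem_cons_self
    rw [List.length_cons] at hE ⊢
    have hsub : DSt w t L S B M E N := h.sub fun v hv => List.mem_cons_of_mem _ hv
    by_cases hgM : g ∈ M
    · -- a repeated gate
      have h1 : ∀ x, dA N (g :: M) x = dA N M x := fun x => by
        unfold dA
        rw [List.toFinset_cons, Finset.insert_eq_self.2 (List.mem_toFinset.2 hgM)]
      obtain ⟨Ts, h2, h3, h4⟩ := ih hML' E N hsub (by omega) fun x => by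
        rw [← h1]
        exact hle x
      exact ⟨Ts, by omega, h3, fun x => by rw [h1]; exact h4 x⟩
    have hcons : ∀ x, dA N (g :: M) x = (N g x).toNat * (g.f x).toNat + dA N M x := fun x => by
      unfold dA
      rw [List.toFinset_cons, Finset.sum_insert (by rwa [List.mem_toFinset])]
    rcases h.ctx g List.mem_cons_self with h0 | ⟨hgB, hgS, n, hn, hnf, hnS⟩
    · -- not in the frontier
      have h1 : ∀ x, dA N (g :: M) x = dA N M x := fun x => by rw [hcons, h0 x]; simp
      obtain ⟨Ts, h2, h3, h4⟩ := ih hML' E N hsub (by omega) fun x => by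
        rw [← h1]
        exact hle x
      exact ⟨Ts, by omega, h3, fun x => by rw [h1]; exact h4 x⟩
    have hdep := Dec_dep h.prog
    have hnd : DepOn n.f (S \ g.S) := Dec_mono (hdep n hn) hnS
    have hok : Ok w M g := by
      obtain ⟨M', hM'⟩ := hML
      have h1 : Prog w (g :: M) := Dec_tail (L := E ++ M') (by
        rw [List.append_assoc, hM']
        exact h.prog)
      cases h1 with
      | cons _ h2 => exact h2
    -- one exit term, the state does not change
    have hexit : ∀ T : (W → Bool) → Bool, Kc w (t + 1) (7 * s) T S → TermTy w t s B S T →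
        (∀ x, (T x).toNat = (N g x).toNat * (g.f x).toNat) →
        ∃ Ts : List ((W → Bool) → Bool), Ts.length ≤ 2 * (M.length + 1) ∧
        (∀ T ∈ Ts, Kc w (t + 1) (7 * s) T S ∧ TermTy w t s B S T) ∧
        ∀ x, dA N (g :: M) x = (Ts.map fun T => (T x).toNat).sum := by
      intro T hT1 hT2 hT3
      obtain ⟨Ts, h2, h3, h4⟩ := ih hML' E N hsub (by omega) fun x => by
        have h1 := hle x
        rw [hcons] at h1
        omega
      refine ⟨T :: Ts, by rw [List.length_cons]; omega, ?_, fun x => ?_⟩
      · intro T' hT'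
        rcases List.mem_cons.1 hT' with rfl | hT'
        · exact ⟨hT1, hT2⟩
        · exact h3 T' hT'
      · rw [hcons, List.map_cons, List.sum_cons, ← h4 x, hT3 x]
    have hdis : Disjoint n.S g.S := disjoint_of_subset_left hnS sdiff_disjoint
    have hnSS : n.S ⊆ S := hnS.trans sdiff_subset
    have hng : Kc w (t + 1) (7 * s) (fun x => n.f x && g.f x) S :=
      Dec_kc h.prog h.lev (by omega) hn (List.mem_append_right _ hgL) hdis hnSS hgS
    have hngx : ∀ x, ((n.f x && g.f x).toNat) = (N g x).toNat * (g.f x).toNat := fun x => by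
      rw [← hnf]
      cases n.f x <;> cases g.f x <;> simp
    rcases hok with ⟨S₀, hS₀, hS₀w, hgf⟩ | ⟨p, hp, q, hq, h3, h4, h5, h6, h7, h8⟩ |
      ⟨p, hp, q, hq, h3, h4, h5, h6, h7, h8⟩ | ⟨p, hp, h3, h4, h5⟩
    · -- a leaf
      refine hexit _ hng (Or.inr (Or.inr ⟨(S \ g.S) ∪ S₀, union_subset sdiff_subset
        (hS₀.trans hgS), ?_, Dec_and (Dec_mono hnd subset_union_left)
          (Dec_mono hgf subset_union_right)⟩)) hngx
      have h1 : (B ∩ ((S \ g.S) ∪ S₀)).card ≤ (B \ g.S).card + S₀.card := by
        refine Dec_card (B := B \ g.S) (C := S₀) ?_ le_rfl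
        intro v hv
        simp only [mem_inter, mem_union, mem_sdiff] at hv ⊢
        tauto
      omega
    · -- AND
      have hpS : p.S ⊆ S := h4.trans hgS
      have hqS : q.S ⊆ S := h5.trans hgS
      have hpd : DepOn p.f p.S := hdep p (List.mem_append_right _ (hmem p hp))
      have hqd : DepOn q.f q.S := hdep q (List.mem_append_right _ (hmem q hq))
      have hnp : n.S ⊆ S \ p.S := hnS.trans (sdiff_subset_sdiff (subset_refl _) h4)
      have hnq : n.S ⊆ S \ q.S := hnS.trans (sdiff_subset_sdiff (subset_refl _) h5)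
      have hqp : q.S ⊆ S \ p.S := fun v hv =>
        mem_sdiff.2 ⟨hqS hv, fun h' => disjoint_left.1 h3 h' hv⟩
      have hpq : p.S ⊆ S \ q.S := fun v hv =>
        mem_sdiff.2 ⟨hpS hv, fun h' => disjoint_left.1 h3 hv h'⟩
      have hprod : ∀ x, (N g x).toNat * (g.f x).toNat =
          (n.f x).toNat * (p.f x).toNat * (q.f x).toNat := fun x => by
        rw [← hnf, h8]
        dsimp only
        cases n.f x <;> cases p.f x <;> cases q.f x <;> simp
      have hn₁ : ∀ a ∈ L, Disjoint n.S a.S → ∀ S₁, n.S ⊆ S₁ → a.S ⊆ S₁ →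
          DSt w t L S B M (⟨fun x => n.f x && a.f x, S₁, t⟩ :: E) N := by
        intro a ha hna S₁ h1 h2
        exact hsub.ext _ (Or.inr (Or.inl ⟨n, hn, a, List.mem_append_right _ ha, hna, h1, h2,
          h.lev n hn, h.lev a (List.mem_append_right _ ha), rfl⟩)) le_rfl
      -- one of the inputs is heavy
      have hheavy : ∀ a ∈ M, ∀ b ∈ M, a.S ⊆ S → 16 * (B \ a.S).card < B.card →
          Disjoint n.S b.S → n.S ⊆ S \ a.S → b.S ⊆ S \ a.S →
          (∀ x, (N g x).toNat * (g.f x).toNat =
            ((n.f x && b.f x).toNat) * (a.f x).toNat) →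
          ∃ Ts : List ((W → Bool) → Bool), Ts.length ≤ 2 * (M.length + 1) ∧
          (∀ T ∈ Ts, Kc w (t + 1) (7 * s) T S ∧ TermTy w t s B S T) ∧
          ∀ x, dA N (g :: M) x = (Ts.map fun T => (T x).toNat).sum := by
        intro a ha b hb haS haB hnb hna hba hx
        obtain ⟨E', N', a1, a2, a3, a4⟩ := Dec_push (hn₁ b (hmem b hb) hnb _ hna hba) ha
          (hmem a ha) haB haS (n := ⟨fun x => n.f x && b.f x, S \ a.S, t⟩)
          (List.mem_append_left _ List.mem_cons_self) (subset_refl _) fun x => by
            have h1 := hle x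
            rw [hcons, hx] at h1
            rw [add_comm]
            exact h1
        rw [List.length_cons] at a3
        obtain ⟨Ts, c1, c2, c3⟩ := ih hML' E' N' a1 (by omega) fun x => by
          have h1 := hle x
          rw [hcons, hx] at h1
          rw [a4 x, add_comm]
          exact h1
        refine ⟨Ts, by omega, c2, fun x => ?_⟩
        rw [hcons, hx, ← c3 x, a4 x, add_comm]
      have hnpd : Disjoint n.S p.S := disjoint_of_subset_left hnp sdiff_disjoint
      have hnqd : Disjoint n.S q.S := disjoint_of_subset_left hnq sdiff_disjoint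
      by_cases hpB : 16 * (B \ p.S).card < B.card
      · exact hheavy p hp q hq hpS hpB hnqd hnp hqp fun x => by
          rw [hprod]
          cases n.f x <;> cases p.f x <;> cases q.f x <;> simp
      by_cases hqB : 16 * (B \ q.S).card < B.card
      · exact hheavy q hq p hp hqS hqB hnpd hnq hpq fun x => by
          rw [hprod]
          cases n.f x <;> cases p.f x <;> cases q.f x <;> simp
      -- no input is heavy
      have hst := hn₁ q (hmem q hq) hnqd _ hnp hqp
      have hkc : Kc w (t + 1) (7 * s) (fun x => p.f x && (n.f x && q.f x)) S :=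
        Dec_kc hst.prog hst.lev (by rw [List.length_cons]; omega)
          (List.mem_append_right _ (hmem p hp))
          (List.mem_append_left _ List.mem_cons_self) disjoint_sdiff hpS sdiff_subset
      refine hexit _ hkc ?_ fun x => by
        rw [hprod]
        cases n.f x <;> cases p.f x <;> cases q.f x <;> simp
      by_cases hpB' : B.card ≤ 16 * (B ∩ p.S).card
      · exact Or.inl ⟨p.S, hpS, hpB', by omega, p.f, fun x => n.f x && q.f x, hpd,
          Dec_and (Dec_mono (hdep n hn) hnp) (Dec_mono hqd hqp), rfl⟩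
      by_cases hqB' : B.card ≤ 16 * (B ∩ q.S).card
      · refine Or.inl ⟨q.S, hqS, hqB', by omega, q.f, fun x => n.f x && p.f x, hqd,
          Dec_and (Dec_mono (hdep n hn) hnq) (Dec_mono hpd hpq), ?_⟩
        funext x
        dsimp only
        cases n.f x <;> cases p.f x <;> cases q.f x <;> rfl
      refine Or.inr (Or.inr ⟨p.S ∪ ((S \ g.S) ∪ q.S), union_subset hpS (union_subset
        sdiff_subset hqS), ?_, Dec_and (Dec_mono hpd subset_union_left) (Dec_and
        (Dec_mono hnd (subset_union_left.trans subset_union_right))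
        (Dec_mono hqd (subset_union_right.trans subset_union_right)))⟩)
      have h1 : (B ∩ (p.S ∪ ((S \ g.S) ∪ q.S))).card ≤
          (B ∩ p.S).card + ((B \ g.S) ∪ (B ∩ q.S)).card := by
        refine Dec_card ?_ le_rfl
        intro v hv
        simp only [mem_inter, mem_union, mem_sdiff] at hv ⊢
        tauto
      have h2 : ((B \ g.S) ∪ (B ∩ q.S)).card ≤ (B \ g.S).card + (B ∩ q.S).card :=
        card_union_le _ _
      omega
    · -- OR
      have hsplit : ∀ x, (N g x).toNat * (g.f x).toNat =
          (n.f x).toNat * (p.f x).toNat + (n.f x).toNat * (q.f x).toNat := fun x => by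
        rw [← hnf, h8]
        dsimp only
        have h1 := h3 x
        revert h1
        cases n.f x <;> cases p.f x <;> cases q.f x <;> simp
      obtain ⟨E₁, N₁, T₁, a1, a2, a3, a4, a5, a6⟩ := Dec_child (s := s) hsub hp (hmem p hp) h4 hgS
        hgB hn hnS (by omega) fun x => by
          have h1 := hle x
          rw [hcons, hsplit] at h1
          omega
      have hn₁ : n ∈ E₁ ++ L := by
        rcases List.mem_append.1 hn with hn' | hn'
        · exact List.mem_append_left _ (a2 n hn')
        · exact List.mem_append_right _ hn'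
      obtain ⟨E₂, N₂, T₂, b1, b2, b3, b4, b5, b6⟩ := Dec_child (s := s) a1 hq (hmem q hq) h5 hgS
        hgB hn₁ hnS (by omega) fun x => by
          have h1 := hle x
          have h2 := a6 x
          rw [hcons, hsplit] at h1
          omega
      obtain ⟨Ts, c1, c2, c3⟩ := ih hML' E₂ N₂ b1 (by omega) fun x => by
        have h1 := hle x
        have h2 := a6 x
        have h9 := b6 x
        rw [hcons, hsplit] at h1
        omega
      refine ⟨T₁ ++ T₂ ++ Ts, by simp only [List.length_append]; omega, ?_, fun x => ?_⟩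
      · intro T hT
        rcases List.mem_append.1 hT with hT | hT
        · rcases List.mem_append.1 hT with hT | hT
          · exact a5 T hT
          · exact b5 T hT
        · exact c2 T hT
      · have h1 := a6 x
        have h2 := b6 x
        have h9 := c3 x
        rw [hcons, hsplit]
        simp only [List.map_append, List.sum_append]
        omega
    · -- NOT
      refine hexit _ hng (Or.inr (Or.inl ⟨g.S, hgS, hgB, n.f, p.f, hnd, ?_, ?_⟩)) hngx
      · refine ⟨M.filter fun v => decide (v.l < t), ?_, ?_, ?_, p, ?_, rfl, h3⟩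
        · refine Dec_filter ?_ t
          obtain ⟨M', hM'⟩ := hML'
          exact Dec_tail (L := E ++ M') (by
            rw [List.append_assoc, hM']
            exact h.prog)
        · exact (List.length_filter_le _ _).trans (hML'.length_le.trans hL)
        · intro v hv
          simpa using (List.mem_filter.1 hv).2
        · refine List.mem_filter.2 ⟨hp, ?_⟩
          have h1 := h.lev g (List.mem_append_right _ hgL)
          simpa using lt_of_lt_of_le h4 h1
      · rw [h5]

private lemma Dec_bv (b : Bool) : bv b = (b.toNat : ℝ) := by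
  cases b <;> simp [bv]

theorem thm_Dec : St_Dec := by
  classical
  intro W _ w t s f S B hB hw hf
  obtain ⟨L, hL, hLs, hLt, r, hr, hrf, hrS⟩ := hf
  have hs : 1 ≤ s := le_trans (List.length_pos_of_mem hr) hLs
  have hdep := Dec_dep hL
  suffices hmain : ∃ Ts : List ((W → Bool) → Bool), Ts.length ≤ 2 * s ∧
      (∀ T ∈ Ts, Kc w (t + 1) (7 * s) T S ∧ TermTy w t s B S T) ∧
      ∀ x, (f x).toNat = (Ts.map fun T => (T x).toNat).sum by
    obtain ⟨Ts, h1, h2, h3⟩ := hmain
    refine ⟨Ts, h1, h2, fun x => ?_⟩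
    rw [Dec_bv, h3 x]
    simp only [Dec_bv]
    rw [Nat.cast_list_sum, List.map_map]
    rfl
  by_cases hrB : 16 * (B \ r.S).card < B.card
  · -- the output gate is heavy
    have hst : DSt w t L S B L [⟨fun _ => true, ∅, 0⟩]
        (fun v => if v = r then fun _ => true else fun _ => false) := by
      refine ⟨Prog.cons hL (Or.inl ⟨∅, subset_refl _, by simp, fun _ _ _ => rfl⟩), ?_, ?_⟩
      · intro g hg
        rcases List.mem_cons.1 hg with rfl | hg
        · exact Nat.zero_le _
        · exact Nat.lt_succ_iff.1 (hLt g hg)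
      · intro v hv
        by_cases hvr : v = r
        · subst hvr
          refine Or.inr ⟨hrB, hrS, ⟨fun _ => true, ∅, 0⟩, List.mem_cons_self, ?_, by simp⟩
          simp
        · left
          intro x
          simp [hvr]
    have hA : ∀ x, dA (fun v => if v = r then fun _ => true else fun _ => false) L x =
        (f x).toNat := fun x => by
      unfold dA
      rw [Finset.sum_eq_single_of_mem r (List.mem_toFinset.2 hr) fun v _ hvr => by simp [hvr]]
      simp [hrf]
    obtain ⟨Ts, h1, h2, h3⟩ := Dec_main hs hLs hw L (List.suffix_refl L) _ _ hst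
      (by simp only [List.length_cons, List.length_nil]; omega) fun x => by
        rw [hA]
        exact Bool.toNat_le _
    exact ⟨Ts, h1.trans (by omega), h2, fun x => by rw [← hA x]; exact h3 x⟩
  · -- the output gate is not heavy
    refine ⟨[f], by simp only [List.length_singleton]; omega, ?_, fun x => by simp⟩
    intro T hT
    rw [List.mem_singleton] at hT
    subst hT
    refine ⟨⟨L, hL, hLs.trans (by omega), hLt, r, hr, hrf, hrS⟩, ?_⟩
    have hfd : DepOn T r.S := by
      rw [← hrf]
      exact hdep r hr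
    by_cases hrB' : B.card ≤ 16 * (B ∩ r.S).card
    · refine Or.inl ⟨r.S, hrS, hrB', by omega, T, fun _ => true, hfd, fun _ _ _ => rfl, ?_⟩
      funext x
      rw [Bool.and_true]
    · exact Or.inr (Or.inr ⟨r.S, hrS, by omega, hfd⟩)

end Dec

end Pool.Agent.NH
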