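import Mathlib

/-!
# The negation hierarchy (MP_4ed1f9_lc): definitions and statements of the modules

Masked form (helper64's simplification of the paper proof of helper95).
-/

namespace Pool.Agent.NH

open Finset

/-! ### Cubes -/

section Cube

variable {V : Type} [Fintype V] [DecidableEq V]

/-- the mean of a function on the cube -/
noncomputable def Ex (F : (V → Bool) → ℝ) : ℝ := (∑ x, F x) / 2 ^ Fintype.card V

/-- `x` on `S` and `z` outside `S` -/
def mix (S : Finset V) (x z : V → Bool) : V → Bool := fun v => if v ∈ S then x v else z v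

/-- `f` depends only on the variables in `S` -/
def DepOn {V β : Type} (f : (V → Bool) → β) (S : Finset V) : Prop :=
  ∀ x y, (∀ v ∈ S, x v = y v) → f x = f y

end Cube

/-- the value `0` or `1` -/
def bv (b : Bool) : ℝ := if b = true then 1 else 0

/-- the sign -/
def sgn (b : Bool) : ℝ := if b = true then -1 else 1

/-! ### The graph -/

/-- the vertices -/
abbrev Vx (K : Type) := K ⊕ K

/-- the neighbour by the edge of colour `c`; the edge number `i` of colour `c` joins `inl i` and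
`inr (σ c i)` -/
def nb {K : Type} (σ : Fin 3 → Equiv.Perm K) (c : Fin 3) : Vx K → Vx K
  | Sum.inl i => Sum.inr (σ c i)
  | Sum.inr j => Sum.inl ((σ c).symm j)

section Graph

variable {K : Type} [Fintype K] [DecidableEq K]

/-- parity of the number of edges of colour `c` with both ends `true` -/
def par (σ : Fin 3 → Equiv.Perm K) (c : Fin 3) (y : Vx K → Bool) : Bool :=
  Nat.bodd (univ.filter fun i : K => y (Sum.inl i) = true ∧ y (Sum.inr (σ c i)) = true).card

/-- the three parities are not all equal -/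
def nae (σ : Fin 3 → Equiv.Perm K) (y : Vx K → Bool) : Bool :=
  !((par σ 0 y == par σ 1 y) && (par σ 1 y == par σ 2 y))

/-- product of the signs of the parities of the colours in `L` -/
def Sg (σ : Fin 3 → Equiv.Perm K) (L : Finset (Fin 3)) (y : Vx K → Bool) : ℝ :=
  ∏ c ∈ L, sgn (par σ c y)

/-- no parallel edges -/
def Simple {K : Type} (σ : Fin 3 → Equiv.Perm K) : Prop := ∀ c d, c ≠ d → ∀ i, σ c i ≠ σ d i

/-- every set of vertices with share between `1/16` and `15/16` is crossed by at least `k` edges of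
one colour -/
def Expd (σ : Fin 3 → Equiv.Perm K) (k : ℕ) : Prop :=
  ∀ S : Finset (Vx K), Fintype.card (Vx K) ≤ 16 * S.card → 16 * S.card ≤ 15 * Fintype.card (Vx K) →
    ∃ c, k ≤ (univ.filter fun i : K => ¬ (Sum.inl i ∈ S ↔ Sum.inr (σ c i) ∈ S)).card

/-- edges of colour `c` whose ends are not joined by edges of other colours -/
def FarE {K : Type} (σ : Fin 3 → Equiv.Perm K) (c : Fin 3) (P : Finset K) : Prop :=
  ∀ i ∈ P, ∀ j ∈ P, ∀ d, d ≠ c → σ d i ≠ σ c j

/-- vertices without common neighbours and not adjacent -/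
def FarV {K : Type} (σ : Fin 3 → Equiv.Perm K) (I : Finset (Vx K)) : Prop :=
  ∀ i ∈ I, ∀ j ∈ I, i ≠ j → ∀ c d, nb σ c i ≠ nb σ d j ∧ nb σ c i ≠ j

/-- the elements `i` of `I` such that `y` is `true` on an odd number of the neighbours by the
colours in `L` -/
def odds (σ : Fin 3 → Equiv.Perm K) (L : Finset (Fin 3)) (I : Finset (Vx K)) (y : Vx K → Bool) :
    Finset (Vx K) :=
  I.filter fun i => Nat.bodd (L.filter fun c => y (nb σ c i) = true).card = true

end Graph

/-- [Hex] graphs with expansion `k` and size `O(k ^ 2)` (honeycomb) -/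
def St_Hex : Prop :=
  ∃ C : ℕ, ∀ k : ℕ, ∃ (K : Type) (_ : Fintype K) (_ : DecidableEq K) (σ : Fin 3 → Equiv.Perm K),
    k ≤ Fintype.card K ∧ Fintype.card K ≤ C * (k + 1) ^ 2 ∧ Simple σ ∧ Expd σ k

/-- [Far] -/
def St_Far : Prop :=
  ∀ (K : Type) [Fintype K] [DecidableEq K] (σ : Fin 3 → Equiv.Perm K), Simple σ →
    (∀ (c : Fin 3) (P : Finset K), ∃ Q ⊆ P, FarE σ c Q ∧ P.card ≤ 5 * Q.card) ∧
    ∀ P : Finset (Vx K), ∃ I ⊆ P, FarV σ I ∧ P.card ≤ 10 * I.card

/-- [Red] `S` as a product over the vertices of a far apart set -/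
def St_Red : Prop :=
  ∀ (K : Type) [Fintype K] [DecidableEq K] (σ : Fin 3 → Equiv.Perm K) (I : Finset (Vx K)),
    FarV σ I → ∀ (L : Finset (Fin 3)) (y : Vx K → Bool),
      Sg σ L y = Sg σ L (mix I (fun _ => false) y) * ∏ i ∈ odds σ L I y, sgn (y i)

/-- [Avg] the number of vertices of `I` with an odd number of `true` neighbours is binomial -/
def St_Avg : Prop :=
  ∀ (K : Type) [Fintype K] [DecidableEq K] (σ : Fin 3 → Equiv.Perm K) (I : Finset (Vx K)),
    Simple σ → FarV σ I → ∀ (L : Finset (Fin 3)), L.Nonempty → ∀ q : ℝ, 0 ≤ q → q ≤ 1 →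
      Ex (fun y : Vx K → Bool => q ^ (odds σ L I y).card) ≤ ((1 + q) / 2) ^ I.card

/-! ### Blocks

The next level of a block `U` with the function `h` is the block `Bk K U` with a top bit `inl v` and
a copy `inr (v, u)`, `u : U`, of `U` for every vertex `v`. -/

/-- the variables of the next level -/
abbrev Bk (K U : Type) := Vx K ⊕ (Vx K × U)

/-- the values on the vertices: top bit plus the value of `h` on the copy of `U` -/
def vals {K U : Type} (h : (U → Bool) → Bool) (x : Bk K U → Bool) : Vx K → Bool :=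
  fun v => xor (x (Sum.inl v)) (h fun u => x (Sum.inr (v, u)))

/-- the function of the next level -/
def up {K U : Type} [Fintype K] [DecidableEq K] (σ : Fin 3 → Equiv.Perm K)
    (h : (U → Bool) → Bool) (x : Bk K U → Bool) : Bool := nae σ (vals h x)

/-- the top bits -/
def top (K U : Type) [Fintype K] [DecidableEq K] [DecidableEq U] : Finset (Bk K U) :=
  univ.image Sum.inl

section Block

variable {U : Type} [Fintype U] [DecidableEq U]

/-- `h` is close to unbiased if all variables except most bits of `T` are fixed -/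
def Fair (h : (U → Bool) → Bool) (T : Finset U) : Prop :=
  ∀ F : Finset U, 16 * (T ∩ F).card ≤ T.card → ∀ z,
    1 / 2 ≤ Ex (fun x => bv (h (mix F z x))) ∧ Ex (fun x => bv (h (mix F z x))) ≤ 4 / 5

/-- against rectangles of a partition which is balanced on `T`, `2 h - 1` is a non-negative function
`P ≤ h` plus an error -/
def RS1 (h : (U → Bool) → Bool) (T : Finset U) (η : ℝ) : Prop :=
  ∀ X : Finset U, T.card ≤ 16 * (T ∩ X).card → T.card ≤ 16 * (T \ X).card →
    ∃ P E : (U → Bool) → ℝ, (∀ x, 2 * bv (h x) - 1 = P x + E x) ∧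
      (∀ x, 0 ≤ P x ∧ P x ≤ bv (h x)) ∧
      ∀ a b : (U → Bool) → ℝ, (∀ x, |a x| ≤ 1) → (∀ x, |b x| ≤ 1) → DepOn a X → DepOn b Xᶜ →
        |Ex fun x => a x * b x * E x| ≤ η

end Block

/-- [Crs] `z x` are the values on the vertices. The edges `i ∈ Q` of colour `c` have the ends `p i`
and `q i`. The variables in `R` influence only the values on the `q i`. The variables `w i`, `i ∈ Q`,
influence only the values on the `p i`, `w i` being a mask of the value on `p i`. Given all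
variables outside `R`, no pattern of values on the `q i` has probability larger than `r`. -/
def St_Crs : Prop :=
  ∀ (K : Type) [Fintype K] [DecidableEq K] (σ : Fin 3 → Equiv.Perm K) (c : Fin 3)
    (V : Type) [Fintype V] [DecidableEq V] (z : (V → Bool) → Vx K → Bool) (Q : Finset K),
    FarE σ c Q → ∀ (p q : K → Vx K) (w : K → V) (R : Finset V) (r : ℝ),
    (∀ i ∈ Q, (p i = Sum.inl i ∧ q i = Sum.inr (σ c i)) ∨
      (q i = Sum.inl i ∧ p i = Sum.inr (σ c i))) →
    (∀ i ∈ Q, ∀ j ∈ Q, w i = w j → i = j) → (∀ i ∈ Q, w i ∉ R) →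
    (∀ i ∈ Q, ∀ x y, (∀ v, (∀ j ∈ Q, v ≠ w j) → x v = y v) →
      xor (z x (p i)) (x (w i)) = xor (z y (p i)) (y (w i))) →
    (∀ v, (∀ i ∈ Q, v ≠ p i) → ∀ x y, (∀ u, (∀ j ∈ Q, u ≠ w j) → x u = y u) → z x v = z y v) →
    (∀ v, (∀ i ∈ Q, v ≠ q i) → ∀ x y, (∀ u, u ∉ R → x u = y u) → z x v = z y v) →
    (∀ x, ∀ s : K → Bool, Ex (fun y => if ∀ i ∈ Q, z (mix R y x) (q i) = s i then 1 else 0) ≤ r) →
    ∀ L : Finset (Fin 3), c ∈ L → ∀ a b : (V → Bool) → ℝ, (∀ x, |a x| ≤ 1) → (∀ x, |b x| ≤ 1) →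
      (∀ x y, (∀ u, u ∉ R → x u = y u) → a x = a y) →
      (∀ x y, (∀ u, (∀ j ∈ Q, u ≠ w j) → x u = y u) → b x = b y) →
      |Ex fun x => a x * b x * Sg σ L (z x)| ≤ Real.sqrt r

/-- [Fix] the functions `S` are unbiased even if all variables except three quarters of the top
bits are fixed -/
def St_Fix : Prop :=
  ∀ (K : Type) [Fintype K] [DecidableEq K] (σ : Fin 3 → Equiv.Perm K), Simple σ →
    ∀ (U : Type) [Fintype U] [DecidableEq U] (h : (U → Bool) → Bool)
    (F : Finset (Bk K U)), 2 * (top K U ∩ F).card ≤ Fintype.card K → ∀ z,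
    ∀ L : Finset (Fin 3), L.Nonempty →
      |Ex fun x => Sg σ L (vals h (mix F z x))| ≤ (9 / 10) ^ (Fintype.card K / 10)

/-- [RS] discrepancy of rectangles which are balanced on the top bits -/
def St_RS : Prop :=
  ∀ (K : Type) [Fintype K] [DecidableEq K] (σ : Fin 3 → Equiv.Perm K), Simple σ →
    ∀ k : ℕ, Expd σ k → ∀ (U : Type) [Fintype U] [DecidableEq U]
    (h : (U → Bool) → Bool) (X : Finset (Bk K U)),
      (top K U).card ≤ 16 * (top K U ∩ X).card → (top K U).card ≤ 16 * (top K U \ X).card →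
      ∃ c : Fin 3, ∀ L : Finset (Fin 3), c ∈ L → ∀ a b : (Bk K U → Bool) → ℝ,
        (∀ x, |a x| ≤ 1) → (∀ x, |b x| ≤ 1) → DepOn a X → DepOn b Xᶜ →
          |Ex fun x => a x * b x * Sg σ L (vals h x)| ≤ (9 / 10) ^ (k / 5)

/-- [Blk] the properties of a block of the next level -/
def St_Blk : Prop :=
  ∀ (K : Type) [Fintype K] [DecidableEq K] (σ : Fin 3 → Equiv.Perm K), Simple σ →
    1000 ≤ Fintype.card K → ∀ k : ℕ, Expd σ k →
    ∀ (U : Type) [Fintype U] [DecidableEq U] (h : (U → Bool) → Bool),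
      Fair (up σ h) (top K U) ∧ RS1 (up σ h) (top K U) ((9 / 10) ^ (k / 5))

/-! ### Programs -/

/-- a gate: its function, a set of variables, its level -/
structure Gt (W : Type) where
  f : (W → Bool) → Bool
  S : Finset W
  l : ℕ

/-- the gate `g` is an arbitrary function of at most `w` variables, a decomposable AND, a
deterministic OR, or a NOT (which raises the level) of gates of `L` -/
def Ok {W : Type} [DecidableEq W] (w : ℕ) (L : List (Gt W)) (g : Gt W) : Prop :=
  (∃ S ⊆ g.S, S.card ≤ w ∧ DepOn g.f S) ∨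
  (∃ p ∈ L, ∃ q ∈ L, Disjoint p.S q.S ∧ p.S ⊆ g.S ∧ q.S ⊆ g.S ∧ p.l ≤ g.l ∧ q.l ≤ g.l ∧
    g.f = fun x => p.f x && q.f x) ∨
  (∃ p ∈ L, ∃ q ∈ L, (∀ x, ¬ (p.f x = true ∧ q.f x = true)) ∧ p.S ⊆ g.S ∧ q.S ⊆ g.S ∧
    p.l ≤ g.l ∧ q.l ≤ g.l ∧ g.f = fun x => p.f x || q.f x) ∨
  (∃ p ∈ L, p.S ⊆ g.S ∧ p.l < g.l ∧ g.f = fun x => !p.f x)

/-- programs, the last gate first -/
inductive Prog {W : Type} [DecidableEq W] (w : ℕ) : List (Gt W) → Prop
  | nil : Prog w []
  | cons {L : List (Gt W)} {g : Gt W} : Prog w L → Ok w L g → Prog w (g :: L)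

/-- `f` is computed by a program with leaves of at most `w` variables and at most `s` gates, all of
level less than `t`, with variables in `S` -/
def Kc {W : Type} [DecidableEq W] (w t s : ℕ) (f : (W → Bool) → Bool) (S : Finset W) : Prop :=
  ∃ L : List (Gt W), Prog w L ∧ L.length ≤ s ∧ (∀ g ∈ L, g.l < t) ∧ ∃ g ∈ L, g.f = f ∧ g.S ⊆ S

/-- [Sub] programs are closed under fixing variables -/
def St_Sub : Prop :=
  ∀ (W : Type) [DecidableEq W] (w t s : ℕ) (f : (W → Bool) → Bool) (S : Finset W), Kc w t s f S →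
    DepOn f S ∧
    ∀ φ : (W → Bool) → W → Bool,
      (∀ v, (∃ b, ∀ x, φ x v = b) ∨ ∀ x, φ x v = x v) → Kc w t s (fun x => f (φ x)) S

/-- the types of the terms of the decomposition, for a set `B` of variables -/
def TermTy {W : Type} [DecidableEq W] (w t s : ℕ) (B S : Finset W) (T : (W → Bool) → Bool) : Prop :=
  (∃ S' ⊆ S, B.card ≤ 16 * (B ∩ S').card ∧ B.card ≤ 16 * (B \ S').card ∧
    ∃ p q : (W → Bool) → Bool, DepOn p S' ∧ DepOn q (S \ S') ∧ T = fun x => p x && q x) ∨
  (∃ S' ⊆ S, 16 * (B \ S').card < B.card ∧ ∃ q g : (W → Bool) → Bool,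
    DepOn q (S \ S') ∧ Kc w t s g S' ∧ T = fun x => q x && !g x) ∨
  (∃ S' ⊆ S, 16 * (B ∩ S').card < 3 * B.card ∧ DepOn T S')

/-- [Dec] decomposition of a function with respect to a set of variables -/
def St_Dec : Prop :=
  ∀ (W : Type) [DecidableEq W] (w t s : ℕ) (f : (W → Bool) → Bool) (S B : Finset W),
    0 < B.card → 8 * w ≤ B.card → Kc w (t + 1) s f S →
    ∃ Ts : List ((W → Bool) → Bool), Ts.length ≤ 2 * s ∧
      (∀ T ∈ Ts, Kc w (t + 1) (7 * s) T S ∧ TermTy w t s B S T) ∧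
      ∀ x, bv (f x) = (Ts.map fun T => bv (T x)).sum

/-! ### The two inductive properties -/

/-- [N] for the functions `S` of a block -/
def NP {K U : Type} [Fintype K] [DecidableEq K] [Fintype U] [DecidableEq U] (w : ℕ)
    (σ : Fin 3 → Equiv.Perm K) (h : (U → Bool) → Bool) (t s : ℕ) (δ : ℝ) : Prop :=
  ∀ (W : Type) [Fintype W] [DecidableEq W] (e : Bk K U → W), Function.Injective e →
    ∀ (A g : (W → Bool) → Bool) (SA SG : Finset W), DepOn A SA → Disjoint SA SG →
    2 * (univ.filter fun v : Vx K => e (Sum.inl v) ∈ SA).card ≤ Fintype.card K →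
    ((∀ x, g x = true) ∨ Kc w t s g SG) →
    ∀ L : Finset (Fin 3), L.Nonempty →
      |Ex fun x => bv (A x) * bv (g x) * Sg σ L (vals h fun v => x (e v))| ≤ δ

/-- [M] for at most `J` blocks `U` with the top bits `T` -/
def MP {U : Type} [Fintype U] [DecidableEq U] (w : ℕ) (h : (U → Bool) → Bool) (T : Finset U)
    (t s J : ℕ) (ω : ℝ) : Prop :=
  ∀ (W : Type) [Fintype W] [DecidableEq W] (ι : Type) [DecidableEq ι] (e : ι × U → W),
    Function.Injective e → ∀ (Q : Finset ι), Q.card ≤ J →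
    ∀ (A g : (W → Bool) → Bool) (SA SG : Finset W), DepOn A SA → Disjoint SA SG →
    (∀ i ∈ Q, 16 * (T.filter fun u => e (i, u) ∈ SA).card ≤ 15 * T.card) →
    Kc w t s g SG →
    -ω ≤ Ex (fun x => bv (A x) * bv (g x) * ∏ i ∈ Q, (2 * bv (h fun u => x (e (i, u))) - 1)) ∧
      Ex (fun x => bv (A x) * bv (g x) * ∏ i ∈ Q, (2 * bv (h fun u => x (e (i, u))) - 1)) ≤
        (9 / 10) ^ Q.card + ω

/-- [N1] the case of a constant `g`, from [Fix] -/
def St_N1 : Prop :=
  ∀ (K : Type) [Fintype K] [DecidableEq K] (σ : Fin 3 → Equiv.Perm K), Simple σ →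
    ∀ (U : Type) [Fintype U] [DecidableEq U] (h : (U → Bool) → Bool) (w s : ℕ),
      NP w σ h 0 s ((9 / 10) ^ (Fintype.card K / 10))

/-- [N] from [M] for the copies of `U` -/
def St_N : Prop :=
  ∀ (U : Type) [Fintype U] [DecidableEq U] (h : (U → Bool) → Bool) (T : Finset U) (ω : ℝ)
    (w t s J : ℕ), T.Nonempty → 0 ≤ ω → 1 ≤ s → MP w h T (t + 1) s J ω → Fair h T →
    ∀ (K : Type) [Fintype K] [DecidableEq K] (σ : Fin 3 → Equiv.Perm K), Simple σ →
      20 * J ≤ Fintype.card K → NP w σ h (t + 1) s ((19 / 20) ^ J + ω)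

/-- [M] from [N] for the same block -/
def St_M : Prop :=
  ∀ (K : Type) [Fintype K] [DecidableEq K] (σ : Fin 3 → Equiv.Perm K) (w : ℕ),
    0 < Fintype.card K → 4 * w ≤ Fintype.card K →
    ∀ (U : Type) [Fintype U] [DecidableEq U] (h : (U → Bool) → Bool) (δ η : ℝ) (t s₀ : ℕ),
    0 ≤ δ → 0 ≤ η →
    NP w σ h t s₀ δ → RS1 (up σ h) (top K U) η → Ex (fun x => bv (up σ h x)) ≤ 4 / 5 →
    ∀ J s : ℕ, 1 ≤ s → 7 ^ J * s ≤ s₀ →
      MP w (up σ h) (top K U) (t + 1) s J ((η + 3 * δ) * (8 * 7 ^ J * s) ^ J)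

/-! ### Upper bound -/

/-- `h` is computed at level `a` and its negation at level `b` by a program of size `s` with
literals and constants as leaves -/
def UpP {U : Type} [DecidableEq U] (h : (U → Bool) → Bool) (a b s : ℕ) : Prop :=
  ∃ L : List (Gt U), Prog 1 L ∧ L.length ≤ s ∧ (∀ g ∈ L, g.l ≤ b) ∧
    (∃ g ∈ L, g.f = h ∧ g.l ≤ a) ∧ ∃ g ∈ L, g.f = fun x => !h x

/-- running an ordered branching program with states in `Q` -/
def run {α Q : Type} (y : α → Bool) (l : List (α × (Bool → Q → Q))) (q : Q) : Q :=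
  l.foldl (fun q s => s.2 (y s.1) q) q

/-- [Diag] an ordered branching program with 16 states for parity `c` odd and parity `d` even -/
def St_Diag : Prop :=
  ∀ (K : Type) [Fintype K] [DecidableEq K] (σ : Fin 3 → Equiv.Perm K) (c d : Fin 3),
    ∃ (l : List (Vx K × (Bool → Fin 16 → Fin 16))) (q₀ : Fin 16) (acc : Fin 16 → Bool),
      l.length = 2 * Fintype.card K ∧ (l.map Prod.fst).Nodup ∧
      ∀ y, acc (run y l q₀) = (par σ c y && !par σ d y)

/-- [Comp] composition of branching programs with programs for the copies of `U` -/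
def St_Comp : Prop :=
  ∀ (K : Type) [Fintype K] [DecidableEq K] (U : Type) [Fintype U] [DecidableEq U]
    (h : (U → Bool) → Bool) (a b s : ℕ), a ≤ b → UpP h a b s →
    ∃ L₀ : List (Gt (Bk K U)), Prog 1 L₀ ∧ L₀.length ≤ 2 * Fintype.card K * (s + 8) ∧
      (∀ g ∈ L₀, g.l ≤ b) ∧
      ∀ L₂ : List (Gt (Bk K U)), Prog 1 (L₂ ++ L₀) → (∀ g ∈ L₂, g.l ≤ b) →
      ∀ (n : ℕ) (l : List (Vx K × (Bool → Fin n → Fin n))) (q₀ : Fin n) (acc : Fin n → Bool),
        (l.map Prod.fst).Nodup →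
        ∃ L₁ : List (Gt (Bk K U)), Prog 1 (L₁ ++ L₂ ++ L₀) ∧
          L₁.length ≤ 3 * n * l.length + n + 1 ∧ (∀ g ∈ L₁, g.l ≤ b) ∧
          ∃ g ∈ L₁, g.f = fun x => acc (run (vals h x) l q₀)

/-- [Up] from one level to the next -/
def St_Up : Prop :=
  ∀ (K : Type) [Fintype K] [DecidableEq K] (σ : Fin 3 → Equiv.Perm K) (U : Type) [Fintype U]
    [DecidableEq U] (h : (U → Bool) → Bool) (a b s : ℕ), a ≤ b → UpP h a b s →
    UpP (up σ h) b (b + 1) (2 * Fintype.card K * s + 320 * Fintype.card K + 60)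

/-! ### The outermost layer -/

/-- a gate of the outermost layer: a function of at most `w` variables, a decomposable AND, an OR,
or the negation of a function computed by a program of size `s` and levels less than `t` -/
def OOk {W : Type} [DecidableEq W] (w t s : ℕ) (L : List (Gt W)) (g : Gt W) : Prop :=
  (∃ S ⊆ g.S, S.card ≤ w ∧ DepOn g.f S) ∨
  (∃ p ∈ L, ∃ q ∈ L, Disjoint p.S q.S ∧ p.S ⊆ g.S ∧ q.S ⊆ g.S ∧ g.f = fun x => p.f x && q.f x) ∨
  (∃ p ∈ L, ∃ q ∈ L, p.S ⊆ g.S ∧ q.S ⊆ g.S ∧ g.f = fun x => p.f x || q.f x) ∨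
  (∃ f : (W → Bool) → Bool, Kc w t s f g.S ∧ g.f = fun x => !f x)

/-- programs for the outermost layer, the last gate first -/
inductive OProg {W : Type} [DecidableEq W] (w t s : ℕ) : List (Gt W) → Prop
  | nil : OProg w t s []
  | cons {L : List (Gt W)} {g : Gt W} : OProg w t s L → OOk w t s L g → OProg w t s (g :: L)

/-- [Outer] the final bound -/
def St_Outer : Prop :=
  ∀ (K : Type) [Fintype K] [DecidableEq K] (σ : Fin 3 → Equiv.Perm K) (w : ℕ),
    0 < Fintype.card K → 4 * w ≤ Fintype.card K →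
    ∀ (U : Type) [Fintype U] [DecidableEq U] (h : (U → Bool) → Bool) (δ η : ℝ) (t s : ℕ),
    0 ≤ δ → 0 ≤ η → NP w σ h t s δ → RS1 (up σ h) (top K U) η →
    ∀ (W : Type) [Fintype W] [DecidableEq W] (e : Bk K U → W), Function.Injective e →
      ∀ L : List (Gt W), OProg w t s L → L.length ≤ s →
      ∀ g ∈ L, (∀ x, g.f x = true → up σ h (fun v => x (e v)) = false) →
        Ex (fun x => bv (g.f x)) ≤ 2 * s * (η + 3 * δ)

/-! ### Parameters -/

/-- [Par] for every number `t` of nested negations there are blocks with all the properties, of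
size polynomial in `r` -/
def St_Par : Prop :=
  ∀ t : ℕ, ∃ C : ℕ, ∀ r : ℕ, ∃ (K U : Type) (_ : Fintype K) (_ : DecidableEq K) (_ : Fintype U)
    (_ : DecidableEq U) (σ : Fin 3 → Equiv.Perm K) (h : (U → Bool) → Bool),
    0 < Fintype.card K ∧ 4 * r ≤ Fintype.card K ∧
    Fintype.card (Bk K U) ≤ C * (r + 1) ^ (2 ^ (t + 2)) ∧
    UpP (up σ h) t (t + 1) (C * Fintype.card (Bk K U)) ∧
    Fair (up σ h) (top K U) ∧
    NP r σ h t (2 ^ r) ((1 / 2) ^ (4 * r + 4)) ∧ RS1 (up σ h) (top K U) ((1 / 2) ^ (4 * r + 4))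

end Pool.Agent.NH
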