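import Pool.Agent.NH.Base
import Pool.Agent.NG.Cyc

/-!
[Diag] ordered branching program with 16 states for two parities.

Put `τ i = (σ d)⁻¹ (σ c i)`. The variables are read along the cycles of `τ`: for a cycle
`i₀, i₁, …` we read `inl i₀`, `inr (σ c i₀)`, `inl i₁`, `inr (σ c i₁)`, … . In the state
`(pc, pd, f, p)` the bits `pc`, `pd` are the parities of the edges of colour `c` and `d` seen so far,
`f` is the value of `inl i₀` and `p` the last value. The edge of colour `d` which closes the cycle
is counted by the next step (or by the acceptance function).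
-/

set_option autoImplicit false

namespace Pool.Agent.NH

namespace Diag

/-- the states -/
private abbrev Q := Bool × Bool × Bool × Bool

/-- first step of a cycle -/
private def dS (b : Bool) : Q → Q := fun q => (q.1, xor q.2.1 (q.2.2.2 && q.2.2.1), b, b)

/-- later left steps -/
private def dL (b : Bool) : Q → Q := fun q => (q.1, xor q.2.1 (q.2.2.2 && b), q.2.2.1, b)

/-- right steps -/
private def dR (b : Bool) : Q → Q := fun q => (xor q.1 (q.2.2.2 && b), q.2.1, q.2.2.1, b)

/-- closing a cycle -/
private def cl : Q → Bool × Bool := fun q => (q.1, xor q.2.1 (q.2.2.2 && q.2.2.1))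

variable {K : Type}

/-- the left and the right step for `i` -/
private def blk (s : K → K) (i : K) : List (Vx K × (Bool → Q → Q)) :=
  [(Sum.inl i, dL), (Sum.inr (s i), dR)]

/-- the steps for a cycle -/
private def cyc (s : K → K) : List K → List (Vx K × (Bool → Q → Q))
  | [] => []
  | a :: t => (Sum.inl a, dS) :: (Sum.inr (s a), dR) :: t.flatMap (blk s)

/-- parity of the edges of colour `c` -/
private def PC (y : Vx K → Bool) (s : K → K) (l : List K) : Bool :=
  Nat.bodd (l.countP fun i => y (Sum.inl i) && y (Sum.inr (s i)))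

/-- parity of the edges of colour `d` -/
private def PD (y : Vx K → Bool) (s τ : K → K) (l : List K) : Bool :=
  Nat.bodd (l.countP fun i => y (Sum.inr (s i)) && y (Sum.inl (τ i)))

private theorem bodd_cons {α : Type} (p : α → Bool) (a : α) (l : List α) :
    Nat.bodd ((a :: l).countP p) = xor (p a) (Nat.bodd (l.countP p)) := by
  rw [List.countP_cons]
  cases h : p a
  · simp
  · simp [Nat.bodd_succ]

private theorem bodd_append {α : Type} (p : α → Bool) (l l' : List α) :
    Nat.bodd ((l ++ l').countP p) = xor (Nat.bodd (l.countP p)) (Nat.bodd (l'.countP p)) := by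
  rw [List.countP_append, Nat.bodd_add]

private theorem run_app (y : Vx K → Bool) (l l' : List (Vx K × (Bool → Q → Q))) (q : Q) :
    run y (l ++ l') q = run y l' (run y l q) := by
  simp [run, List.foldl_append]

private theorem run_tail (y : Vx K → Bool) (s τ : K → K) (i₀ : K) (t : List K) :
    ∀ (a : K) (pc pd : Bool), List.IsChain (fun x y => τ x = y) (a :: t) →
    τ ((a :: t).getLast?.getD i₀) = i₀ →
    cl (run y (t.flatMap (blk s)) (pc, pd, y (Sum.inl i₀), y (Sum.inr (s a)))) =
      (xor pc (PC y s t), xor pd (PD y s τ (a :: t))) := by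
  induction t with
  | nil =>
    intro a pc pd _ h
    have h' : τ a = i₀ := by simpa using h
    have h1 : PD y s τ [a] = (y (Sum.inr (s a)) && y (Sum.inl i₀)) := by
      rw [PD, bodd_cons, h']
      simp
    rw [h1]
    simp [run, cl, PC]
  | cons b t ih =>
    intro a pc pd hc h
    rw [List.isChain_cons_cons] at hc
    have hb : τ a = b := hc.1
    have h' : τ ((b :: t).getLast?.getD i₀) = i₀ := by
      rw [List.getLast?_cons_cons] at h
      exact h
    rw [List.flatMap_cons, run_app]
    have h1 : run y (blk s b) (pc, pd, y (Sum.inl i₀), y (Sum.inr (s a))) =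
        (xor pc (y (Sum.inl b) && y (Sum.inr (s b))),
          xor pd (y (Sum.inr (s a)) && y (Sum.inl b)), y (Sum.inl i₀), y (Sum.inr (s b))) := rfl
    rw [h1, ih b _ _ hc.2 h']
    have h2 : PC y s (b :: t) = xor (y (Sum.inl b) && y (Sum.inr (s b))) (PC y s t) :=
      bodd_cons _ b t
    have h3 : PD y s τ (a :: b :: t) =
        xor (y (Sum.inr (s a)) && y (Sum.inl (τ a))) (PD y s τ (b :: t)) := bodd_cons _ a (b :: t)
    rw [h2, h3, hb, Bool.xor_assoc, Bool.xor_assoc]

private theorem run_cyc (y : Vx K → Bool) (s τ : K → K) (a : K) (t : List K)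
    (hc : List.IsChain (fun x y => τ x = y) (a :: t)) (h : τ ((a :: t).getLast?.getD a) = a)
    (q : Q) : cl (run y (cyc s (a :: t)) q) =
      (xor (cl q).1 (PC y s (a :: t)), xor (cl q).2 (PD y s τ (a :: t))) := by
  have e : run y (cyc s (a :: t)) q = run y (t.flatMap (blk s))
      (xor q.1 (y (Sum.inl a) && y (Sum.inr (s a))), xor q.2.1 (q.2.2.2 && q.2.2.1),
        y (Sum.inl a), y (Sum.inr (s a))) := rfl
  rw [e, run_tail y s τ a t a _ _ hc h]
  have h2 : PC y s (a :: t) = xor (y (Sum.inl a) && y (Sum.inr (s a))) (PC y s t) :=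
    bodd_cons _ a t
  rw [h2, ← Bool.xor_assoc]
  rfl

private theorem run_all (y : Vx K → Bool) (s τ : K → K) (L : List (List K))
    (hL : ∀ l ∈ L, ∃ (a : K) (t : List K), l = a :: t ∧
      List.IsChain (fun x y => τ x = y) l ∧ τ (l.getLast?.getD a) = a) : ∀ q : Q,
    cl (run y (L.flatMap (cyc s)) q) =
      (xor (cl q).1 (PC y s L.flatten), xor (cl q).2 (PD y s τ L.flatten)) := by
  induction L with
  | nil =>
    intro q
    simp [run, PC, PD]
  | cons l L ih =>
    intro q
    obtain ⟨a, t, rfl, hc, ht⟩ := hL l (List.mem_cons_self ..)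
    rw [List.flatMap_cons, run_app, ih (fun l' hl' => hL l' (List.mem_cons_of_mem _ hl')),
      run_cyc y s τ a t hc ht, List.flatten_cons]
    have h1 : PC y s (a :: t ++ L.flatten) = xor (PC y s (a :: t)) (PC y s L.flatten) :=
      bodd_append _ _ _
    have h2 : PD y s τ (a :: t ++ L.flatten) =
        xor (PD y s τ (a :: t)) (PD y s τ L.flatten) := bodd_append _ _ _
    rw [h1, h2, Bool.xor_assoc, Bool.xor_assoc]

private theorem fst_cyc (s : K → K) (l : List K) :
    (cyc s l).map Prod.fst = l.flatMap fun i => [Sum.inl i, Sum.inr (s i)] := by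
  cases l with
  | nil => rfl
  | cons a t =>
    have : (t.flatMap (blk s)).map Prod.fst = t.flatMap fun i => [Sum.inl i, Sum.inr (s i)] := by
      rw [List.map_flatMap]
      rfl
    rw [cyc, List.map_cons, List.map_cons, this, List.flatMap_cons]
    rfl

private theorem fst_all (s : K → K) (L : List (List K)) :
    (L.flatMap (cyc s)).map Prod.fst = L.flatten.flatMap fun i => [Sum.inl i, Sum.inr (s i)] := by
  induction L with
  | nil => rfl
  | cons l L ih =>
    rw [List.flatMap_cons, List.map_append, ih, fst_cyc, List.flatten_cons, List.flatMap_append]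

private theorem length_all (s : K → K) (l : List K) :
    (l.flatMap fun i => [(Sum.inl i : Vx K), Sum.inr (s i)]).length = 2 * l.length := by
  induction l with
  | nil => rfl
  | cons a t ih =>
    rw [List.flatMap_cons, List.length_append, ih, List.length_cons]
    simp
    omega

private theorem nodup_all (s : K → K) (hs : Function.Injective s) (l : List K)
    (hl : l.Nodup) : (l.flatMap fun i => [(Sum.inl i : Vx K), Sum.inr (s i)]).Nodup := by
  induction l with
  | nil => exact List.nodup_nil
  | cons a t ih =>
    rw [List.nodup_cons] at hl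
    rw [List.flatMap_cons, List.nodup_append]
    refine ⟨by simp, ih hl.2, ?_⟩
    intro y hy z hz hyz
    subst hyz
    rw [List.mem_flatMap] at hz
    obtain ⟨j, hj, hz⟩ := hz
    have hja : j ≠ a := fun e => hl.1 (e ▸ hj)
    simp only [List.mem_cons, List.not_mem_nil, or_false] at hy hz
    rcases hy with rfl | rfl <;> rcases hz with hz | hz
    · exact hja (Sum.inl_injective hz).symm
    · simp at hz
    · simp at hz
    · exact hja (hs (Sum.inr_injective hz)).symm

/-- the cycles of a permutation -/
private theorem cycles [Fintype K] (τ : Equiv.Perm K) : ∃ L : List (List K),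
    L.flatten.Nodup ∧ (∀ a, a ∈ L.flatten) ∧ ∀ l ∈ L, ∃ (a : K) (t : List K), l = a :: t ∧
      List.IsChain (fun x y => τ x = y) l ∧ τ (l.getLast?.getD a) = a := by
  classical
  let e : K ≃ Fin (Fintype.card K) := Fintype.equivFin K
  obtain ⟨L, h1, h2, h3⟩ := Pool.Agent.NG.thm_Cyc (Fintype.card K) ((e.symm.trans τ).trans e)
  refine ⟨L.map (List.map e.symm), ?_, ?_, ?_⟩
  · rw [← List.map_flatten]
    exact h1.map e.symm.injective
  · intro a
    rw [← List.map_flatten, List.mem_map]
    exact ⟨e a, h2 _, e.symm_apply_apply a⟩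
  · intro l hl
    rw [List.mem_map] at hl
    obtain ⟨l', hl', rfl⟩ := hl
    obtain ⟨a, t, rfl, hc, ht⟩ := h3 l' hl'
    refine ⟨e.symm a, t.map e.symm, rfl, ?_, ?_⟩
    · rw [List.isChain_map]
      refine hc.imp ?_
      rintro x y rfl
      simp
    · rw [List.getLast?_map]
      have h5 : (((a :: t).getLast?).map e.symm).getD (e.symm a) =
          e.symm ((a :: t).getLast?.getD a) := by
        cases (a :: t).getLast? <;> rfl
      rw [h5]
      have h6 := congrArg e.symm ht
      simpa using h6

private theorem count_all [Fintype K] [DecidableEq K] (p : K → Bool) (l : List K)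
    (hnd : l.Nodup) (hmem : ∀ a, a ∈ l) :
    l.countP p = (Finset.univ.filter fun i => p i = true).card := by
  rw [List.countP_eq_length_filter, ← List.toFinset_card_of_nodup (hnd.filter _)]
  congr 1
  ext a
  simp [hmem a]

end Diag

open Diag

theorem thm_Diag : St_Diag := by
  intro K _ _ σ c d
  obtain ⟨L, hnd, hmem, hL⟩ := cycles ((σ c).trans (σ d).symm)
  have e : Q ≃ Fin 16 := Fintype.equivFinOfCardEq (by decide)
  have hfst := fst_all (σ c) L
  have hlen : L.flatten.length = Fintype.card K := by
    have h1 : L.flatten.toFinset = Finset.univ := by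
      ext a
      simp only [List.mem_toFinset, Finset.mem_univ, iff_true]
      exact hmem a
    have h2 := List.toFinset_card_of_nodup hnd
    rw [h1, Finset.card_univ] at h2
    exact h2.symm
  let lift : Vx K × (Bool → Q → Q) → Vx K × (Bool → Fin 16 → Fin 16) :=
    fun p => (p.1, fun b q => e (p.2 b (e.symm q)))
  have hl : ∀ l : List (Vx K × (Bool → Q → Q)), (l.map lift).map Prod.fst = l.map Prod.fst := by
    intro l
    rw [List.map_map]
    rfl
  have hrun : ∀ (y : Vx K → Bool) (l : List (Vx K × (Bool → Q → Q))) (q : Q),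
      run y (l.map lift) (e q) = e (run y l q) := by
    intro y l
    induction l with
    | nil => intro q; rfl
    | cons p l ih =>
      intro q
      have h1 : run y ((p :: l).map lift) (e q) =
        run y (l.map lift) ((lift p).2 (y (lift p).1) (e q)) := rfl
      have h2 : (lift p).2 (y (lift p).1) (e q) = e (p.2 (y p.1) q) := by
        simp [lift]
      rw [h1, h2, ih]
      rfl
  refine ⟨(L.flatMap (cyc (σ c))).map lift, e (false, false, false, false),
    fun q => (cl (e.symm q)).1 && !(cl (e.symm q)).2, ?_, ?_, ?_⟩
  · have h1 : ((L.flatMap (cyc (σ c))).map lift).length =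
        ((L.flatMap (cyc (σ c))).map Prod.fst).length := by
      rw [List.length_map, List.length_map]
    rw [h1, hfst, length_all, hlen]
  · rw [hl, hfst]
    exact nodup_all _ (σ c).injective _ hnd
  · intro y
    have h0 := run_all y (σ c) ((σ c).trans (σ d).symm) L hL (false, false, false, false)
    rw [hrun]
    show ((cl (e.symm (e _))).1 && !(cl (e.symm (e _))).2) = _
    rw [Equiv.symm_apply_apply, h0]
    have h1 : PC y (σ c) L.flatten = par σ c y := by
      rw [PC, par, count_all _ _ hnd hmem]
      congr 2
      ext i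
      simp
    have h2 : PD y (σ c) ((σ c).trans (σ d).symm) L.flatten = par σ d y := by
      rw [PD, par, count_all _ _ hnd hmem]
      congr 1
      refine Finset.card_bij (fun i _ => (σ d).symm (σ c i)) ?_ ?_ ?_
      · intro i hi
        simp only [Finset.mem_filter, Finset.mem_univ, true_and, Bool.and_eq_true,
          Equiv.trans_apply] at hi ⊢
        rw [Equiv.apply_symm_apply]
        exact ⟨hi.2, hi.1⟩
      · intro i _ j _ hij
        exact (σ c).injective ((σ d).symm.injective hij)
      · intro j hj
        simp only [Finset.mem_filter, Finset.mem_univ, true_and] at hj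
        refine ⟨(σ c).symm (σ d j), ?_, by simp⟩
        simp only [Finset.mem_filter, Finset.mem_univ, true_and, Bool.and_eq_true,
          Equiv.trans_apply, Equiv.apply_symm_apply, Equiv.symm_apply_apply]
        exact ⟨hj.2, hj.1⟩
    rw [h1, h2]
    simp [cl]

end Pool.Agent.NH
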