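import Pool.Agent.NH.Base

/-!
# [Far] greedy choice of far apart edges and vertices
-/

set_option autoImplicit false

namespace Pool.Agent.NH

open Finset

/-- greedy choice -/
private lemma far_greedy {α : Type} [DecidableEq α] (C : α → α → Prop)
    (hs : ∀ i j, C i j → C j i) (T : α → Finset α) (d : ℕ) (hT : ∀ j, (T j).card ≤ d)
    (hC : ∀ i j, i ≠ j → C i j → i ∈ T j) (P : Finset α) :
    ∃ Q ⊆ P, (∀ i ∈ Q, ∀ j ∈ Q, i ≠ j → ¬ C i j) ∧ P.card ≤ (d + 1) * Q.card := by
  classical
  set G : Finset (Finset α) := P.powerset.filter fun Q =>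
    ∀ i ∈ Q, ∀ j ∈ Q, i ≠ j → ¬ C i j with hG
  have hne : G.Nonempty := ⟨∅, by simp [hG]⟩
  obtain ⟨Q, hQ, hmax⟩ := G.exists_max_image card hne
  rw [hG, mem_filter, mem_powerset] at hQ
  obtain ⟨hQP, hQd⟩ := hQ
  refine ⟨Q, hQP, hQd, ?_⟩
  have hcov : P ⊆ Q ∪ Q.biUnion T := by
    intro i hi
    by_cases hiQ : i ∈ Q
    · exact mem_union_left _ hiQ
    · by_contra hcon
      have hno : ∀ j ∈ Q, ¬ C i j := fun j hj h =>
        hcon (mem_union_right _ (mem_biUnion.2 ⟨j, hj, hC i j (fun e => hiQ (e ▸ hj)) h⟩))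
      have hin : insert i Q ∈ G := by
        rw [hG, mem_filter, mem_powerset]
        refine ⟨insert_subset hi hQP, ?_⟩
        intro a ha b hb hab
        rw [mem_insert] at ha hb
        rcases ha with rfl | ha <;> rcases hb with rfl | hb
        · exact absurd rfl hab
        · exact hno b hb
        · exact fun h => hno a ha (hs _ _ h)
        · exact hQd a ha b hb hab
      have := hmax _ hin
      rw [card_insert_of_notMem hiQ] at this
      omega
  calc P.card ≤ (Q ∪ Q.biUnion T).card := card_le_card hcov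
    _ ≤ Q.card + (Q.biUnion T).card := card_union_le _ _
    _ ≤ Q.card + Q.card * d :=
        Nat.add_le_add_left (card_biUnion_le_card_mul _ _ _ fun j _ => hT j) _
    _ = (d + 1) * Q.card := by ring

private lemma far_nb {K : Type} (σ : Fin 3 → Equiv.Perm K) (c : Fin 3) (v : Vx K) :
    nb σ c (nb σ c v) = v := by
  rcases v with i | i
  · show Sum.inl ((σ c).symm (σ c i)) = Sum.inl i
    rw [Equiv.symm_apply_apply]
  · show Sum.inr (σ c ((σ c).symm i)) = Sum.inr i
    rw [Equiv.apply_symm_apply]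

private lemma far_two (c : Fin 3) : (univ.filter fun d : Fin 3 => d ≠ c).card = 2 := by
  revert c; decide

theorem thm_Far : St_Far := by
  classical
  intro K _ _ σ hσ
  constructor
  · intro c P
    obtain ⟨Q, hQP, hQ, hcard⟩ := far_greedy
      (fun i j => ∃ d, d ≠ c ∧ (σ d i = σ c j ∨ σ d j = σ c i))
      (fun i j ⟨d, hd, h⟩ => ⟨d, hd, h.symm⟩)
      (fun j => ((univ.filter fun d : Fin 3 => d ≠ c).image fun d => (σ d).symm (σ c j)) ∪
        (univ.filter fun d : Fin 3 => d ≠ c).image fun d => (σ c).symm (σ d j)) 4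
      (fun j => by
        refine (card_union_le _ _).trans ?_
        have h1 := card_image_le (s := univ.filter fun d : Fin 3 => d ≠ c)
          (f := fun d => (σ d).symm (σ c j))
        have h2 := card_image_le (s := univ.filter fun d : Fin 3 => d ≠ c)
          (f := fun d => (σ c).symm (σ d j))
        rw [far_two] at h1 h2
        omega)
      (fun i j _ ⟨d, hd, h⟩ => by
        rw [mem_union, mem_image, mem_image]
        rcases h with h | h
        · exact Or.inl ⟨d, mem_filter.2 ⟨mem_univ _, hd⟩, by rw [← h, Equiv.symm_apply_apply]⟩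
        · exact Or.inr ⟨d, mem_filter.2 ⟨mem_univ _, hd⟩, by rw [h, Equiv.symm_apply_apply]⟩) P
    refine ⟨Q, hQP, ?_, hcard⟩
    intro i hi j hj d hd h
    by_cases hij : i = j
    · subst hij
      exact hσ d c hd i h
    · exact hQ i hi j hj hij ⟨d, hd, Or.inl h⟩
  · intro P
    obtain ⟨Q, hQP, hQ, hcard⟩ := far_greedy
      (fun i j => (∃ c d, nb σ c i = nb σ d j) ∨ ∃ c, nb σ c i = j)
      (fun i j h => by
        rcases h with ⟨c, d, h⟩ | ⟨c, h⟩
        · exact Or.inl ⟨d, c, h.symm⟩
        · exact Or.inr ⟨c, by rw [← h, far_nb]⟩)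
      (fun j => ((univ.filter fun p : Fin 3 × Fin 3 => p.1 ≠ p.2).image
          fun p => nb σ p.1 (nb σ p.2 j)) ∪ univ.image fun c : Fin 3 => nb σ c j) 9
      (fun j => by
        refine (card_union_le _ _).trans ?_
        have h1 := card_image_le (s := univ.filter fun p : Fin 3 × Fin 3 => p.1 ≠ p.2)
          (f := fun p => nb σ p.1 (nb σ p.2 j))
        have h2 := card_image_le (s := (univ : Finset (Fin 3))) (f := fun c => nb σ c j)
        have h3 : (univ.filter fun p : Fin 3 × Fin 3 => p.1 ≠ p.2).card = 6 := by decide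
        rw [h3] at h1
        rw [card_univ, Fintype.card_fin] at h2
        omega)
      (fun i j hij h => by
        rw [mem_union, mem_image, mem_image]
        rcases h with ⟨c, d, h⟩ | ⟨c, h⟩
        · refine Or.inl ⟨(c, d), mem_filter.2 ⟨mem_univ _, ?_⟩, by rw [← h, far_nb]⟩
          intro hcd
          obtain rfl : c = d := hcd
          apply hij
          rw [← far_nb σ c i, h, far_nb]
        · exact Or.inr ⟨c, mem_univ _, by rw [← h, far_nb]⟩) P
    refine ⟨Q, hQP, ?_, hcard⟩
    intro i hi j hj hij c d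
    exact ⟨fun h => hQ i hi j hj hij (Or.inl ⟨c, d, h⟩),
      fun h => hQ i hi j hj hij (Or.inr ⟨c, h⟩)⟩

end Pool.Agent.NH
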