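import Pool.Agent.NH.Cnv

/-!
# The negation hierarchy: the final theorem from [Par] and [Outer]
-/

set_option autoImplicit false

namespace Pool.Agent.NH

open Finset

theorem IsCircuit.mono {V : Type} [DecidableEq V] {k l : ℕ} {L : List (Gate V)}
    (h : IsCircuit k L) (hkl : k ≤ l) : IsCircuit l L := by
  induction h with
  | nil => exact IsCircuit.nil
  | leaf L S f _ hS hf ih => exact IsCircuit.leaf L S f ih (hS.trans hkl) hf
  | and L a b _ ha hb hd ih => exact IsCircuit.and L a b ih ha hb hd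
  | or L a b _ ha hb ih => exact IsCircuit.or L a b ih ha hb
  | detOr L a b _ ha hb h1 h2 hd ih => exact IsCircuit.detOr L a b ih ha hb h1 h2 hd
  | not L a _ ha h1 ih => exact IsCircuit.not L a ih ha h1

/-- the final statement -/
def St_Result : Prop :=
  ∀ t : ℕ, ∃ C n₀ : ℕ, ∀ n ≥ n₀, ∃ F : (Fin n → Bool) → Bool,
    (∃ L : List (Gate (Fin n)), IsCircuit 1 L ∧ L.length ≤ C * n ∧
      ∃ g ∈ L, g.negs ≤ t ∧ g.det = true ∧ ∀ x, g.f x = !F x) ∧
    2 ^ n ≤ 5 * (univ.filter fun x => F x = true).card ∧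
    ∀ (k : ℕ) (L : List (Gate (Fin n))), (k : ℝ) ≤ (n : ℝ) ^ (1 / 2 ^ (t + 3) : ℝ) →
      IsCircuit k L → ∀ g ∈ L, g.negs ≤ t → (∀ x, g.f x = true → F x = true) →
      (2 : ℝ) ^ ((n : ℝ) ^ (1 / 2 ^ (t + 3) : ℝ)) * (univ.filter fun x => g.f x = true).card ≤
        L.length * 2 ^ n

private lemma fin_Ex_card {n : ℕ} (f : (Fin n → Bool) → Bool) :
    Ex (fun x => bv (f x)) = ((univ.filter fun x => f x = true).card : ℝ) / 2 ^ n := by
  rw [Ex, Fintype.card_fin]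
  congr 1
  rw [Finset.card_filter]
  push_cast
  apply Finset.sum_congr rfl
  intro x _
  cases f x <;> simp [bv]

private lemma fin_num (C₀ t n : ℕ) (hn : (C₀ * 3 ^ 2 ^ (t + 2)) ^ 2 + 1 ≤ n) :
    C₀ * (⌈(n : ℝ) ^ (1 / 2 ^ (t + 3) : ℝ)⌉₊ + 1) ^ (2 ^ (t + 2)) ≤ n := by
  set c : ℝ := 1 / 2 ^ (t + 3) with hc
  have hn1 : (1 : ℝ) ≤ n := by exact_mod_cast (by omega : 1 ≤ n)
  have hc0 : 0 ≤ c := by positivity
  have ha1 : (1 : ℝ) ≤ (n : ℝ) ^ c := Real.one_le_rpow hn1 hc0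
  have hr : (⌈(n : ℝ) ^ c⌉₊ : ℝ) < (n : ℝ) ^ c + 1 := Nat.ceil_lt_add_one (by positivity)
  have h1 : ((⌈(n : ℝ) ^ c⌉₊ + 1 : ℕ) : ℝ) ≤ 3 * (n : ℝ) ^ c := by
    push_cast; linarith
  have h2 : ((n : ℝ) ^ c) ^ (2 ^ (t + 2)) = Real.sqrt n := by
    rw [← Real.rpow_natCast, ← Real.rpow_mul (by positivity), Real.sqrt_eq_rpow, hc]
    congr 1
    push_cast
    rw [pow_succ (2 : ℝ) (t + 2)]
    field_simp
  have h3 : ((C₀ * (⌈(n : ℝ) ^ c⌉₊ + 1) ^ (2 ^ (t + 2)) : ℕ) : ℝ) ≤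
      (C₀ * 3 ^ 2 ^ (t + 2) : ℕ) * Real.sqrt n := by
    rw [← h2]
    push_cast
    have : ((⌈(n : ℝ) ^ c⌉₊ : ℝ) + 1) ^ (2 ^ (t + 2)) ≤ (3 * (n : ℝ) ^ c) ^ (2 ^ (t + 2)) := by
      apply pow_le_pow_left₀ (by positivity)
      exact_mod_cast h1
    rw [mul_pow] at this
    calc (C₀ : ℝ) * (⌈(n : ℝ) ^ c⌉₊ + 1) ^ (2 ^ (t + 2)) ≤
          C₀ * (3 ^ 2 ^ (t + 2) * ((n : ℝ) ^ c) ^ (2 ^ (t + 2))) := by gcongr
      _ = _ := by ring
  have h4 : ((C₀ * 3 ^ 2 ^ (t + 2) : ℕ) : ℝ) ≤ Real.sqrt n := by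
    apply Real.le_sqrt_of_sq_le
    exact_mod_cast (by omega : (C₀ * 3 ^ 2 ^ (t + 2)) ^ 2 ≤ n)
  have h5 : ((C₀ * (⌈(n : ℝ) ^ c⌉₊ + 1) ^ (2 ^ (t + 2)) : ℕ) : ℝ) ≤ n := by
    calc _ ≤ _ := h3
      _ ≤ Real.sqrt n * Real.sqrt n := by gcongr
      _ = n := Real.mul_self_sqrt (by positivity)
  exact_mod_cast h5

theorem thm_Final (h1 : St_Par) (h2 : St_Outer) : St_Result := by
  intro t
  obtain ⟨C₀, hC⟩ := h1 t
  refine ⟨C₀, (C₀ * 3 ^ 2 ^ (t + 2)) ^ 2 + 1, fun n hn => ?_⟩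
  set α : ℝ := (n : ℝ) ^ (1 / 2 ^ (t + 3) : ℝ) with hα
  obtain ⟨K, U, i1, i2, i3, i4, σ, h, hK0, hKr, hcard, hUp, hFair, hNP, hRS⟩ := hC ⌈α⌉₊
  have hcn : Fintype.card (Bk K U) ≤ n := hcard.trans (fin_num C₀ t n hn)
  obtain ⟨e⟩ : Nonempty (Bk K U ↪ Fin n) :=
    Function.Embedding.nonempty_of_card_le (by rwa [Fintype.card_fin])
  have he := e.injective
  have hαr : α ≤ ⌈α⌉₊ := Nat.le_ceil α
  refine ⟨fun x => !(up σ h fun v => x (e v)), ?_, ?_, ?_⟩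
  · obtain ⟨L, hL, hlen, _, ⟨g, hg, hgf, hgl⟩, _⟩ := hUp
    obtain ⟨M, hM, hMlen, hall⟩ := hL.circuit e he
    obtain ⟨g', hg', _, a2, a3, a4⟩ := hall g hg
    refine ⟨M, hM, ?_, g', hg', a2.trans hgl, a3, ?_⟩
    · calc M.length ≤ L.length := hMlen
        _ ≤ C₀ * Fintype.card (Bk K U) := hlen
        _ ≤ C₀ * n := Nat.mul_le_mul_left _ hcn
    · intro x
      rw [a4, hgf, Bool.not_not]
  · have f1 := (hFair ∅ (by simp) fun _ => false).2
    have f2 : Ex (fun x => bv (up σ h x)) ≤ 4 / 5 := by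
      refine le_trans (le_of_eq ?_) f1
      apply Ex_congr
      intro x
      congr 2
    have f3 : Ex (fun x : Fin n → Bool => bv (up σ h fun v => x (e v))) ≤ 4 / 5 := by
      rw [Ex_inj e he (fun y => bv (up σ h y))]
      exact f2
    have f4 : Ex (fun x : Fin n → Bool => bv (!(up σ h fun v => x (e v)))) ≥ 1 / 5 := by
      simp only [bv_not]
      rw [Ex_sub, Ex_const]
      linarith
    rw [fin_Ex_card, ge_iff_le, le_div_iff₀ (by positivity)] at f4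
    have f5 : (2 : ℝ) ^ n ≤ 5 * ((univ.filter fun x : Fin n → Bool =>
        (!(up σ h fun v => x (e v))) = true).card : ℝ) := by linarith
    exact_mod_cast f5
  · intro k L hk hL g hg hgt hgF
    have hL1 : (1 : ℝ) ≤ L.length := by
      exact_mod_cast List.length_pos_of_mem hg
    have hp : (2 : ℝ) ^ α ≤ 2 ^ ⌈α⌉₊ := by
      rw [← Real.rpow_natCast]
      exact Real.rpow_le_rpow_of_exponent_le (by norm_num) hαr
    rcases Nat.lt_or_ge (2 ^ ⌈α⌉₊) L.length with hlt | hle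
    · have c1 : ((univ.filter fun x => g.f x = true).card : ℝ) ≤ 2 ^ n := by
        have : (univ.filter fun x => g.f x = true).card ≤ 2 ^ n := by
          refine (card_le_univ _).trans (le_of_eq ?_)
          rw [Fintype.card_fun, Fintype.card_bool, Fintype.card_fin]
        exact_mod_cast this
      have c2 : (2 : ℝ) ^ ⌈α⌉₊ ≤ L.length := by exact_mod_cast hlt.le
      calc (2 : ℝ) ^ α * ((univ.filter fun x => g.f x = true).card : ℝ) ≤
            2 ^ ⌈α⌉₊ * 2 ^ n := by gcongr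
        _ ≤ _ := by gcongr
    · have hkr : k ≤ ⌈α⌉₊ := by exact_mod_cast hk.trans hαr
      have hL' := hL.mono hkr
      have ho := hL'.oprog t (2 ^ ⌈α⌉₊) hle
      have hb := h2 K σ ⌈α⌉₊ hK0 hKr U h _ _ t (2 ^ ⌈α⌉₊) (by positivity) (by positivity) hNP hRS
        (Fin n) e he _ ho (by
          rw [List.length_map]
          exact (List.length_filter_le _ _).trans hle) g.toGt
        (List.mem_map_of_mem (List.mem_filter.2 ⟨hg, by simp [hgt]⟩)) (fun x hx => by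
          have := hgF x hx
          simpa using this)
      have hb' : Ex (fun x => bv (g.f x)) ≤ 1 / 2 ^ ⌈α⌉₊ := by
        refine hb.trans ?_
        have e1 : ((1 : ℝ) / 2) ^ (4 * ⌈α⌉₊ + 4) = 1 / (2 ^ ⌈α⌉₊) ^ 4 / 16 := by
          rw [pow_add, pow_mul', one_div_pow, one_div_pow]
          norm_num [div_eq_mul_inv]
        rw [e1]
        push_cast
        set X : ℝ := 2 ^ ⌈α⌉₊ with hX
        have hX1 : 1 ≤ X := one_le_pow₀ (by norm_num)
        have hX0 : 0 < X := by linarith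
        have e2 : 2 * X * (1 / X ^ 4 / 16 + 3 * (1 / X ^ 4 / 16)) = 1 / (2 * X ^ 3) := by
          field_simp; ring
        rw [e2]
        apply one_div_le_one_div_of_le hX0
        nlinarith [pow_pos hX0 2, mul_le_mul hX1 hX1 (by norm_num) hX0.le]
      rw [fin_Ex_card, div_le_div_iff₀ (by positivity) (by positivity)] at hb'
      calc (2 : ℝ) ^ α * ((univ.filter fun x => g.f x = true).card : ℝ) ≤
            2 ^ ⌈α⌉₊ * ((univ.filter fun x => g.f x = true).card : ℝ) := by gcongr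
        _ ≤ 1 * 2 ^ n := by rw [mul_comm]; exact hb'
        _ ≤ _ := by gcongr

end Pool.Agent.NH
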