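import Pool.Agent.NH.Base

/-!
# The negation hierarchy: module Par2 (parameters, uniform in the number of negations)
-/

set_option autoImplicit false

namespace Pool.Agent.NH

open Finset

private lemma Pr2_910 (k n : ℕ) (h : 7 * n ≤ k) : (9 / 10 : ℝ) ^ k ≤ (1 / 2) ^ n := by
  calc (9 / 10 : ℝ) ^ k ≤ (9 / 10) ^ (7 * n) :=
        pow_le_pow_of_le_one (by norm_num) (by norm_num) h
    _ = ((9 / 10) ^ 7) ^ n := by rw [pow_mul]
    _ ≤ (1 / 2) ^ n := pow_le_pow_left₀ (by norm_num) (by norm_num) _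

private lemma Pr2_1920 (k n : ℕ) (h : 14 * n ≤ k) : (19 / 20 : ℝ) ^ k ≤ (1 / 2) ^ n := by
  calc (19 / 20 : ℝ) ^ k ≤ (19 / 20) ^ (14 * n) :=
        pow_le_pow_of_le_one (by norm_num) (by norm_num) h
    _ = ((19 / 20) ^ 14) ^ n := by rw [pow_mul]
    _ ≤ (1 / 2) ^ n := pow_le_pow_left₀ (by norm_num) (by norm_num) _

private lemma Pr2_rs1 {U : Type} [Fintype U] [DecidableEq U] {h : (U → Bool) → Bool}
    {T : Finset U} {η η' : ℝ} (H : RS1 h T η) (hη : η ≤ η') : RS1 h T η' := by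
  intro X h1 h2
  obtain ⟨P, E, hPE, hP, hab⟩ := H X h1 h2
  exact ⟨P, E, hPE, hP, fun a b ha hb hda hdb => (hab a b ha hb hda hdb).trans hη⟩

private lemma Pr2_np {K U : Type} [Fintype K] [DecidableEq K] [Fintype U] [DecidableEq U] {w : ℕ}
    {σ : Fin 3 → Equiv.Perm K} {h : (U → Bool) → Bool} {t s : ℕ} {δ δ' : ℝ}
    (H : NP w σ h t s δ) (hδ : δ ≤ δ') : NP w σ h t s δ' := by
  intro W _ _ e he A g SA SG hA hd hc hg L hL
  exact (H W e he A g SA SG hA hd hc hg L hL).trans hδ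

private lemma Pr2_upp {U : Type} [DecidableEq U] {h : (U → Bool) → Bool} {a b s s' : ℕ}
    (H : UpP h a b s) (hs : s ≤ s') : UpP h a b s' := by
  obtain ⟨L, h1, h2, h3, h4, h5⟩ := H
  exact ⟨L, h1, h2.trans hs, h3, h4, h5⟩

private lemma Pr2_card {K U : Type} [Fintype K] [DecidableEq K] [Fintype U] [DecidableEq U] :
    Fintype.card (Bk K U) = 2 * Fintype.card K + 2 * Fintype.card K * Fintype.card U := by
  rw [Fintype.card_sum, Fintype.card_prod, Fintype.card_sum]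
  ring

private lemma Pr2_mean {U : Type} [Fintype U] [DecidableEq U] {h : (U → Bool) → Bool}
    {T : Finset U} (H : Fair h T) : Ex (fun x => bv (h x)) ≤ 4 / 5 := by
  have h1 := (H ∅ (by simp) (fun _ => false)).2
  refine le_trans (le_of_eq (Ex_congr fun x => ?_)) h1
  congr 2

private lemma Pr2_base : UpP (U := Empty) (fun _ => false) 0 0 2 := by
  refine ⟨[⟨fun _ => true, ∅, 0⟩, ⟨fun _ => false, ∅, 0⟩], ?_, le_rfl, ?_, ?_, ?_⟩
  · refine Prog.cons (Prog.cons Prog.nil ?_) ?_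
    · exact Or.inl ⟨∅, le_rfl, by simp, fun _ _ _ => rfl⟩
    · exact Or.inl ⟨∅, le_rfl, by simp, fun _ _ _ => rfl⟩
  · intro g hg
    simp only [List.mem_cons, List.not_mem_nil, or_false] at hg
    rcases hg with rfl | rfl <;> exact le_rfl
  · exact ⟨⟨fun _ => false, ∅, 0⟩, by simp, rfl, le_rfl⟩
  · exact ⟨⟨fun _ => true, ∅, 0⟩, by simp, rfl⟩

/-- a graph for the parameter `ρ` -/
private lemma Pr2_graph (hHex : St_Hex) : ∃ C : ℕ, ∀ ρ : ℕ, ∃ (K : Type) (_ : Fintype K)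
    (_ : DecidableEq K) (σ : Fin 3 → Equiv.Perm K), 1400 * (ρ + 1) ≤ Fintype.card K ∧
    Fintype.card K ≤ C * (ρ + 1) ^ 2 ∧ Simple σ ∧ Expd σ (1400 * (ρ + 1)) := by
  obtain ⟨C, hC⟩ := hHex
  refine ⟨C * 1401 ^ 2, fun ρ => ?_⟩
  obtain ⟨K, i1, i2, σ, h1, h2, h3, h4⟩ := hC (1400 * (ρ + 1))
  refine ⟨K, i1, i2, σ, h1, h2.trans ?_, h3, h4⟩
  rw [mul_assoc, ← mul_pow]
  exact Nat.mul_le_mul_left _ (Nat.pow_le_pow_left (by omega) _)

/-- [Par2] blocks with all the properties, uniformly in the number `t` of nested negations -/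
def St_Par2 : Prop :=
  ∃ D : ℕ, ∀ t ρ w : ℕ, w ≤ ρ → ∃ (K U : Type) (_ : Fintype K) (_ : DecidableEq K) (_ : Fintype U)
    (_ : DecidableEq U) (σ : Fin 3 → Equiv.Perm K) (h : (U → Bool) → Bool),
    0 < Fintype.card K ∧ 4 * ρ ≤ Fintype.card K ∧
    Fintype.card (Bk K U) ≤ (D * (ρ + 1)) ^ (2 ^ (t + 2)) ∧
    UpP (up σ h) t (t + 1) (192 * Fintype.card (Bk K U)) ∧
    Fair (up σ h) (top K U) ∧
    NP w σ h t (2 ^ ρ) ((1 / 2) ^ (4 * ρ + 4)) ∧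
    RS1 (up σ h) (top K U) ((1 / 2) ^ (4 * ρ + 4))

private def PQ2 (D t : ℕ) : Prop :=
  ∀ ρ w : ℕ, w ≤ ρ → ∃ (K U : Type) (_ : Fintype K) (_ : DecidableEq K) (_ : Fintype U)
    (_ : DecidableEq U) (σ : Fin 3 → Equiv.Perm K) (h : (U → Bool) → Bool),
    0 < Fintype.card K ∧ 4 * ρ ≤ Fintype.card K ∧
    Fintype.card (Bk K U) * (D * (ρ + 1)) ^ 2 ≤ (D * (ρ + 1)) ^ (2 ^ (t + 2)) ∧
    UpP (up σ h) t (t + 1) (192 * Fintype.card (Bk K U)) ∧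
    Fair (up σ h) (top K U) ∧
    NP w σ h t (2 ^ ρ) ((1 / 2) ^ (4 * ρ + 4)) ∧
    RS1 (up σ h) (top K U) ((1 / 2) ^ (4 * ρ + 4))

/-- the property of the constant of `Pr2_graph` -/
private def GC (C : ℕ) : Prop :=
  ∀ ρ : ℕ, ∃ (K : Type) (_ : Fintype K)
    (_ : DecidableEq K) (σ : Fin 3 → Equiv.Perm K), 1400 * (ρ + 1) ≤ Fintype.card K ∧
    Fintype.card K ≤ C * (ρ + 1) ^ 2 ∧ Simple σ ∧ Expd σ (1400 * (ρ + 1))

private lemma Pr2_zero (C : ℕ) (hC : GC C) (hBlk : St_Blk) (hN1 : St_N1) (hUp : St_Up) :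
    PQ2 (15001 + C) 0 := by
  intro ρ w _
  obtain ⟨K, i1, i2, σ, h1, h2, h3, h4⟩ := hC ρ
  have hcard : Fintype.card (Bk K Empty) = 2 * Fintype.card K := by
    rw [Pr2_card, Fintype.card_empty]
    ring
  have hb := hBlk K σ h3 (by omega) _ h4 Empty (fun _ => false)
  refine ⟨K, Empty, i1, i2, inferInstance, inferInstance, σ, fun _ => false, by omega, by omega,
    ?_, ?_, hb.1, ?_, ?_⟩
  · rw [hcard]
    have e : ((15001 + C) * (ρ + 1)) ^ (2 ^ (0 + 2)) =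
        ((15001 + C) * (ρ + 1)) ^ 2 * ((15001 + C) * (ρ + 1)) ^ 2 := by
      rw [← pow_add]
      norm_num
    rw [e]
    apply Nat.mul_le_mul_right
    calc 2 * Fintype.card K ≤ 2 * (C * (ρ + 1) ^ 2) := Nat.mul_le_mul_left _ h2
      _ = 2 * C * (ρ + 1) ^ 2 := by ring
      _ ≤ (15001 + C) ^ 2 * (ρ + 1) ^ 2 := Nat.mul_le_mul_right _ (by nlinarith)
      _ = _ := by rw [mul_pow]
  · refine Pr2_upp (hUp K σ Empty (fun _ => false) 0 0 2 le_rfl Pr2_base) ?_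
    rw [hcard]
    have : 1 ≤ Fintype.card K := by omega
    omega
  · refine Pr2_np (hN1 K σ h3 Empty (fun _ => false) w (2 ^ ρ)) (Pr2_910 _ _ ?_)
    omega
  · exact Pr2_rs1 hb.2 (Pr2_910 _ _ (by omega))

private lemma Pr2_om (ρ ρ' J : ℕ) (hρ : (3 + 3 * J + ρ) * J + 4 * ρ + 5 ≤ ρ') :
    ((1 / 2 : ℝ) ^ (4 * ρ' + 4) + 3 * (1 / 2) ^ (4 * ρ' + 4)) *
      (8 * 7 ^ J * ((2 ^ ρ : ℕ) : ℝ)) ^ J ≤ (1 / 2) ^ (4 * ρ + 5) := by
  have h1 : (8 * 7 ^ J * ((2 ^ ρ : ℕ) : ℝ)) ≤ 2 ^ (3 + 3 * J + ρ) := by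
    have h7 : (7 : ℝ) ^ J ≤ (2 ^ 3) ^ J := pow_le_pow_left₀ (by norm_num) (by norm_num) _
    rw [pow_add, pow_add, pow_mul]
    push_cast
    have h2 : (0 : ℝ) ≤ 2 ^ ρ := by positivity
    have h3 : (8 : ℝ) * 7 ^ J ≤ 2 ^ 3 * (2 ^ 3) ^ J := by linarith
    exact mul_le_mul_of_nonneg_right h3 h2
  have h2 : (8 * 7 ^ J * ((2 ^ ρ : ℕ) : ℝ)) ^ J ≤ 2 ^ ((3 + 3 * J + ρ) * J) := by
    rw [pow_mul]
    exact pow_le_pow_left₀ (by positivity) h1 _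
  have h3 : ((1 / 2 : ℝ) ^ (4 * ρ' + 4) + 3 * (1 / 2) ^ (4 * ρ' + 4)) =
      (1 / 2) ^ (4 * ρ' + 2) := by
    have : 4 * ρ' + 4 = (4 * ρ' + 2) + 2 := by ring
    rw [this, pow_add]
    ring
  rw [h3]
  calc (1 / 2 : ℝ) ^ (4 * ρ' + 2) * (8 * 7 ^ J * ((2 ^ ρ : ℕ) : ℝ)) ^ J
      ≤ (1 / 2) ^ (4 * ρ' + 2) * 2 ^ ((3 + 3 * J + ρ) * J) :=
        mul_le_mul_of_nonneg_left h2 (by positivity)
    _ ≤ (1 / 2) ^ ((3 + 3 * J + ρ) * J + (4 * ρ + 5)) * 2 ^ ((3 + 3 * J + ρ) * J) := by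
        apply mul_le_mul_of_nonneg_right _ (by positivity)
        apply pow_le_pow_of_le_one (by norm_num) (by norm_num)
        omega
    _ = (1 / 2) ^ (4 * ρ + 5) := by
        rw [pow_add, mul_right_comm, ← mul_pow]
        norm_num

private lemma Pr2_succ (C₁ : ℕ) (hC₁ : GC C₁) (hBlk : St_Blk) (hN : St_N) (hM : St_M)
    (hUp : St_Up) (t : ℕ) (hC : PQ2 (15001 + C₁) t) : PQ2 (15001 + C₁) (t + 1) := by
  intro ρ w hw
  set J : ℕ := 14 * (4 * ρ + 5) with hJ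
  set ρ' : ℕ := (15000 + C₁) * (ρ + 1) ^ 2 with hρ'
  have hρ'0 : 15000 * (ρ + 1) ^ 2 ≤ ρ' := Nat.mul_le_mul_right _ (by omega)
  have hJ' : J ≤ 70 * (ρ + 1) := by omega
  have hsq : (ρ + 1) ≤ (ρ + 1) ^ 2 := by nlinarith
  have hkey : (3 + 3 * J + ρ) * J + 4 * ρ + 5 ≤ ρ' := by
    have h1 : (3 + 3 * J + ρ) * J ≤ (214 * (ρ + 1)) * (70 * (ρ + 1)) :=
      Nat.mul_le_mul (by omega) hJ'
    have h2 : (214 * (ρ + 1)) * (70 * (ρ + 1)) = 14980 * (ρ + 1) ^ 2 := by ring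
    omega
  have hkey2 : 3 * J + ρ ≤ ρ' := by omega
  have hwρ' : w ≤ ρ' := by omega
  obtain ⟨K, U, i1, i2, i3, i4, σ, h, hK0, hK4, hcard, hup, hfair, hNP, hRS⟩ := hC ρ' w hwρ'
  obtain ⟨K₁, j1, j2, σ₁, g1, g2, g3, g4⟩ := hC₁ ρ
  have hmean := Pr2_mean hfair
  have hs : 7 ^ J * 2 ^ ρ ≤ 2 ^ ρ' := by
    calc 7 ^ J * 2 ^ ρ ≤ (2 ^ 3) ^ J * 2 ^ ρ :=
          Nat.mul_le_mul_right _ (Nat.pow_le_pow_left (by norm_num) _)
      _ = 2 ^ (3 * J + ρ) := by rw [← pow_mul, ← pow_add]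
      _ ≤ 2 ^ ρ' := Nat.pow_le_pow_right (by norm_num) hkey2
  have hMP := hM K σ w hK0 (by omega) U h ((1 / 2) ^ (4 * ρ' + 4)) ((1 / 2) ^ (4 * ρ' + 4)) t
    (2 ^ ρ') (by positivity) (by positivity) hNP hRS hmean J (2 ^ ρ) Nat.one_le_two_pow hs
  have hT : (top K U).Nonempty := by
    have : 0 < Fintype.card (Vx K) := by
      rw [Fintype.card_sum]
      omega
    obtain ⟨v⟩ := Fintype.card_pos_iff.1 this
    exact ⟨Sum.inl v, Finset.mem_image_of_mem _ (Finset.mem_univ _)⟩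
  have hNP' := hN (Bk K U) (up σ h) (top K U) _ w t (2 ^ ρ) J hT (by positivity)
    Nat.one_le_two_pow hMP hfair K₁ σ₁ g3 (by omega)
  have hb := hBlk K₁ σ₁ g3 (by omega) _ g4 (Bk K U) (up σ h)
  have hcardU : 1 ≤ Fintype.card (Bk K U) := by
    rw [Pr2_card]
    omega
  have hcard' : Fintype.card (Bk K₁ (Bk K U)) =
      2 * Fintype.card K₁ + 2 * Fintype.card K₁ * Fintype.card (Bk K U) := Pr2_card
  refine ⟨K₁, Bk K U, j1, j2, inferInstance, inferInstance, σ₁, up σ h, by omega, by omega, ?_, ?_,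
    hb.1, ?_, ?_⟩
  · have h1 : Fintype.card (Bk K₁ (Bk K U)) ≤
        4 * C₁ * (ρ + 1) ^ 2 * Fintype.card (Bk K U) := by
      rw [hcard']
      calc 2 * Fintype.card K₁ + 2 * Fintype.card K₁ * Fintype.card (Bk K U)
          ≤ 2 * Fintype.card K₁ * Fintype.card (Bk K U) +
            2 * Fintype.card K₁ * Fintype.card (Bk K U) :=
            Nat.add_le_add_right (Nat.le_mul_of_pos_right _ hcardU) _
        _ = 4 * Fintype.card K₁ * Fintype.card (Bk K U) := by ring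
        _ ≤ 4 * (C₁ * (ρ + 1) ^ 2) * Fintype.card (Bk K U) := by
            apply Nat.mul_le_mul_right
            exact Nat.mul_le_mul_left _ g2
        _ = _ := by ring
    have h2 : 4 * C₁ * (((ρ + 1) ^ 2) * (ρ + 1) ^ 2) ≤ (ρ' + 1) ^ 2 := by
      calc 4 * C₁ * (((ρ + 1) ^ 2) * (ρ + 1) ^ 2) ≤
            (15000 + C₁) ^ 2 * (((ρ + 1) ^ 2) * (ρ + 1) ^ 2) :=
            Nat.mul_le_mul_right _ (by nlinarith)
        _ = ρ' ^ 2 := by rw [hρ']; ring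
        _ ≤ _ := Nat.pow_le_pow_left (by omega) _
    have h3 : (15001 + C₁) * (ρ' + 1) ≤ ((15001 + C₁) * (ρ + 1)) ^ 2 := by
      have : 1 ≤ (ρ + 1) ^ 2 := Nat.one_le_pow _ _ (by omega)
      have h5 : ρ' + 1 ≤ (15001 + C₁) * (ρ + 1) ^ 2 := by
        have e5 : (15001 + C₁) * (ρ + 1) ^ 2 = (15000 + C₁) * (ρ + 1) ^ 2 + (ρ + 1) ^ 2 := by
          ring
        omega
      calc (15001 + C₁) * (ρ' + 1) ≤ (15001 + C₁) * ((15001 + C₁) * (ρ + 1) ^ 2) :=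
            Nat.mul_le_mul_left _ h5
        _ = _ := by ring
    calc Fintype.card (Bk K₁ (Bk K U)) * ((15001 + C₁) * (ρ + 1)) ^ 2
        ≤ (4 * C₁ * (ρ + 1) ^ 2 * Fintype.card (Bk K U)) * ((15001 + C₁) * (ρ + 1)) ^ 2 :=
          Nat.mul_le_mul_right _ h1
      _ = Fintype.card (Bk K U) * (15001 + C₁) ^ 2 *
            (4 * C₁ * ((ρ + 1) ^ 2 * (ρ + 1) ^ 2)) := by ring
      _ ≤ Fintype.card (Bk K U) * (15001 + C₁) ^ 2 * (ρ' + 1) ^ 2 := Nat.mul_le_mul_left _ h2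
      _ = Fintype.card (Bk K U) * ((15001 + C₁) * (ρ' + 1)) ^ 2 := by ring
      _ ≤ ((15001 + C₁) * (ρ' + 1)) ^ (2 ^ (t + 2)) := hcard
      _ ≤ (((15001 + C₁) * (ρ + 1)) ^ 2) ^ (2 ^ (t + 2)) := Nat.pow_le_pow_left h3 _
      _ = _ := by
          rw [← pow_mul]
          congr 1
          rw [← pow_succ']
  · refine Pr2_upp (hUp K₁ σ₁ (Bk K U) (up σ h) t (t + 1) _ (by omega) hup) ?_
    rw [hcard']
    have h4 : 1 ≤ Fintype.card K₁ := by omega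
    have h2 : 2 * Fintype.card K₁ * (192 * Fintype.card (Bk K U)) =
        384 * (Fintype.card K₁ * Fintype.card (Bk K U)) := by ring
    have h3 : 192 * (2 * Fintype.card K₁ + 2 * Fintype.card K₁ * Fintype.card (Bk K U)) =
        384 * Fintype.card K₁ + 384 * (Fintype.card K₁ * Fintype.card (Bk K U)) := by ring
    rw [h2, h3]
    omega
  · refine Pr2_np hNP' ?_
    have h1 := Pr2_1920 J (4 * ρ + 5) (by omega)
    have h2 := Pr2_om ρ ρ' J hkey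
    have h3 : (1 / 2 : ℝ) ^ (4 * ρ + 4) = (1 / 2) ^ (4 * ρ + 5) + (1 / 2) ^ (4 * ρ + 5) := by
      rw [pow_succ (1 / 2 : ℝ) (4 * ρ + 4)]
      ring
    rw [h3]
    exact add_le_add h1 h2
  · exact Pr2_rs1 hb.2 (Pr2_910 _ _ (by omega))

theorem thm_Par2 (hHex : St_Hex) (hBlk : St_Blk) (hN1 : St_N1) (hN : St_N) (hM : St_M)
    (hUp : St_Up) : St_Par2 := by
  obtain ⟨C₁, hC₁⟩ := Pr2_graph hHex
  have key : ∀ t, PQ2 (15001 + C₁) t := by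
    intro t
    induction t with
    | zero => exact Pr2_zero C₁ hC₁ hBlk hN1 hUp
    | succ t ih => exact Pr2_succ C₁ hC₁ hBlk hN hM hUp t ih
  refine ⟨15001 + C₁, fun t ρ w hw => ?_⟩
  obtain ⟨K, U, i1, i2, i3, i4, σ, h, h1, h2, h3, h4, h5, h6, h7⟩ := key t ρ w hw
  refine ⟨K, U, i1, i2, i3, i4, σ, h, h1, h2, ?_, h4, h5, h6, h7⟩
  refine le_trans ?_ h3
  exact Nat.le_mul_of_pos_right _ (by positivity)

end Pool.Agent.NH
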