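import Pool.Agent.NH.Cnv
import Pool.Agent.NH.Par2

/-!
# The negation hierarchy: the final theorem, uniform in the number of negations, with the bound on
the average
-/

set_option autoImplicit false

namespace Pool.Agent.NH

open Finset

private lemma f2_mono {V : Type} [DecidableEq V] {k l : ℕ} {L : List (Gate V)}
    (h : IsCircuit k L) (hkl : k ≤ l) : IsCircuit l L := by
  induction h with
  | nil => exact IsCircuit.nil
  | leaf L S f _ hS hf ih => exact IsCircuit.leaf L S f ih (hS.trans hkl) hf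
  | and L a b _ ha hb hd ih => exact IsCircuit.and L a b ih ha hb hd
  | or L a b _ ha hb ih => exact IsCircuit.or L a b ih ha hb
  | detOr L a b _ ha hb h1 h2 hd ih => exact IsCircuit.detOr L a b ih ha hb h1 h2 hd
  | not L a _ ha h1 ih => exact IsCircuit.not L a ih ha h1

/-- the final statement -/
def St_Result2 : Prop :=
  ∃ C : ℕ, ∀ t n : ℕ, C ^ 2 ^ t ≤ n → ∃ F : (Fin n → Bool) → Bool,
    (∃ L : List (Gate (Fin n)), IsCircuit 1 L ∧ L.length ≤ C * n ∧
      ∃ g ∈ L, g.negs ≤ t ∧ g.det = true ∧ ∀ x, g.f x = !F x) ∧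
    (2 ^ n ≤ 5 * (univ.filter fun x => F x = true).card ∧
      2 * (univ.filter fun x => F x = true).card ≤ 2 ^ n) ∧
    ∀ (k : ℕ) (L : List (Gate (Fin n))), (k : ℝ) ≤ (n : ℝ) ^ (1 / 2 ^ (t + 3) : ℝ) →
      IsCircuit k L → ∀ g ∈ L, g.negs ≤ t →
      (g.det = true →
        (2 : ℝ) ^ ((n : ℝ) ^ (1 / 2 ^ (t + 3) : ℝ)) *
          ((univ.filter fun x => g.f x = F x).card - (univ.filter fun x => F x = false).card) ≤
          L.length * 2 ^ n) ∧
      ((∀ x, g.f x = true → F x = true) →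
        (2 : ℝ) ^ ((n : ℝ) ^ (1 / 2 ^ (t + 3) : ℝ)) * (univ.filter fun x => g.f x = true).card ≤
          L.length * 2 ^ n)

private lemma f2_Ex_card {n : ℕ} (f : (Fin n → Bool) → Bool) :
    Ex (fun x => bv (f x)) = ((univ.filter fun x => f x = true).card : ℝ) / 2 ^ n := by
  rw [Ex, Fintype.card_fin]
  congr 1
  rw [Finset.card_filter]
  push_cast
  apply Finset.sum_congr rfl
  intro x _
  cases f x <;> simp [bv]

private lemma f2_card_le {n : ℕ} (p : (Fin n → Bool) → Prop) [DecidablePred p] :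
    ((univ.filter p).card : ℝ) ≤ 2 ^ n := by
  have : (univ.filter p).card ≤ 2 ^ n := by
    refine (card_le_univ _).trans (le_of_eq ?_)
    rw [Fintype.card_fun, Fintype.card_bool, Fintype.card_fin]
  exact_mod_cast this

private lemma f2_num (D t n : ℕ) (hn : ((6 * D) ^ 8) ^ 2 ^ t ≤ n) (hn1 : 1 ≤ n) :
    (D * ((⌈(n : ℝ) ^ (1 / 2 ^ (t + 3) : ℝ)⌉₊ + 3) + 1)) ^ (2 ^ (t + 2)) ≤ n := by
  set c : ℝ := 1 / 2 ^ (t + 3) with hc
  have hn1 : (1 : ℝ) ≤ n := by exact_mod_cast hn1
  have hc0 : 0 ≤ c := by positivity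
  have ha1 : (1 : ℝ) ≤ (n : ℝ) ^ c := Real.one_le_rpow hn1 hc0
  have hr : (⌈(n : ℝ) ^ c⌉₊ : ℝ) < (n : ℝ) ^ c + 1 := Nat.ceil_lt_add_one (by positivity)
  have h1 : (⌈(n : ℝ) ^ c⌉₊ : ℝ) + 3 + 1 ≤ 6 * (n : ℝ) ^ c := by linarith
  have h2 : ((n : ℝ) ^ c) ^ (2 ^ (t + 2)) = Real.sqrt n := by
    rw [← Real.rpow_natCast, ← Real.rpow_mul (by positivity), Real.sqrt_eq_rpow, hc]
    congr 1
    push_cast
    rw [pow_succ (2 : ℝ) (t + 2)]
    field_simp
  have h3 : (((D * ((⌈(n : ℝ) ^ c⌉₊ + 3) + 1)) ^ (2 ^ (t + 2)) : ℕ) : ℝ) ≤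
      ((6 * D) ^ 2 ^ (t + 2) : ℕ) * Real.sqrt n := by
    rw [← h2]
    push_cast
    rw [← mul_pow]
    apply pow_le_pow_left₀ (by positivity)
    calc (D : ℝ) * (⌈(n : ℝ) ^ c⌉₊ + 3 + 1) ≤ D * (6 * (n : ℝ) ^ c) := by gcongr
      _ = _ := by ring
  have h4 : (((6 * D) ^ 2 ^ (t + 2) : ℕ) : ℝ) ≤ Real.sqrt n := by
    apply Real.le_sqrt_of_sq_le
    have : ((6 * D) ^ 2 ^ (t + 2)) ^ 2 ≤ n := by
      refine le_trans (le_of_eq ?_) hn
      rw [← pow_mul, ← pow_mul]
      congr 1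
      ring
    exact_mod_cast this
  have h5 : (((D * ((⌈(n : ℝ) ^ c⌉₊ + 3) + 1)) ^ (2 ^ (t + 2)) : ℕ) : ℝ) ≤ n := by
    calc _ ≤ _ := h3
      _ ≤ Real.sqrt n * Real.sqrt n := by gcongr
      _ = n := Real.mul_self_sqrt (by positivity)
  exact_mod_cast h5

theorem thm_Final2 (h1 : St_Par2) (h2 : St_Outer) (h3 : St_M) : St_Result2 := by
  obtain ⟨D, hD⟩ := h1
  refine ⟨(6 * D) ^ 8 + 192, fun t n hn => ?_⟩
  have hpos : 1 ≤ (((6 * D) ^ 8 + 192) ^ 2 ^ t : ℕ) := Nat.one_le_pow _ _ (by omega)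
  have hn1 : 1 ≤ n := hpos.trans hn
  have hn' : ((6 * D) ^ 8) ^ 2 ^ t ≤ n :=
    (Nat.pow_le_pow_left (Nat.le_add_right _ _) _).trans hn
  set α : ℝ := (n : ℝ) ^ (1 / 2 ^ (t + 3) : ℝ) with hα
  obtain ⟨K, U, i1, i2, i3, i4, σ, h, hK0, hKr, hcard, hUp, hFair, hNP, hRS⟩ :=
    hD t (⌈α⌉₊ + 3) (⌈α⌉₊ + 3) le_rfl
  have hcn : Fintype.card (Bk K U) ≤ n := hcard.trans (f2_num D t n hn' hn1)
  obtain ⟨e⟩ : Nonempty (Bk K U ↪ Fin n) :=
    Function.Embedding.nonempty_of_card_le (by rwa [Fintype.card_fin])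
  have he := e.injective
  have hαr : α ≤ ⌈α⌉₊ := Nat.le_ceil α
  have hmean : 1 / 2 ≤ Ex (fun x => bv (up σ h x)) ∧ Ex (fun x => bv (up σ h x)) ≤ 4 / 5 := by
    have f1 := hFair ∅ (by simp) fun _ => false
    have f2 : Ex (fun x => bv (up σ h x)) =
        Ex (fun x => bv (up σ h (mix ∅ (fun _ => false) x))) := by
      apply Ex_congr
      intro x
      congr 2
    rw [f2]
    exact f1
  have hmean' : 1 / 2 ≤ Ex (fun x : Fin n → Bool => bv (up σ h fun v => x (e v))) ∧
      Ex (fun x : Fin n → Bool => bv (up σ h fun v => x (e v))) ≤ 4 / 5 := by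
    rw [Ex_inj e he (fun y => bv (up σ h y))]
    exact hmean
  have hXr : ((1 : ℝ) / 2) ^ (4 * (⌈α⌉₊ + 3) + 4) = 1 / (2 ^ ⌈α⌉₊) ^ 4 / 65536 := by
    rw [mul_add, pow_add, pow_add, pow_mul', one_div_pow, one_div_pow]
    norm_num [div_eq_mul_inv]
    ring
  refine ⟨fun x => !(up σ h fun v => x (e v)), ?_, ?_, ?_⟩
  · obtain ⟨L, hL, hlen, _, ⟨g, hg, hgf, hgl⟩, _⟩ := hUp
    obtain ⟨M, hM, hMlen, hall⟩ := hL.circuit e he
    obtain ⟨g', hg', _, a2, a3, a4⟩ := hall g hg
    refine ⟨M, hM, ?_, g', hg', a2.trans hgl, a3, ?_⟩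
    · calc M.length ≤ L.length := hMlen
        _ ≤ 192 * Fintype.card (Bk K U) := hlen
        _ ≤ ((6 * D) ^ 8 + 192) * n := Nat.mul_le_mul (Nat.le_add_left _ _) hcn
    · intro x
      rw [a4, hgf, Bool.not_not]
  · have f4 : Ex (fun x : Fin n → Bool => bv (!(up σ h fun v => x (e v)))) =
        1 - Ex (fun x : Fin n → Bool => bv (up σ h fun v => x (e v))) := by
      simp only [bv_not]
      rw [Ex_sub, Ex_const]
    constructor
    · have f5 : 1 / 5 ≤ Ex (fun x : Fin n → Bool => bv (!(up σ h fun v => x (e v)))) := by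
        rw [f4]; linarith [hmean'.2]
      rw [f2_Ex_card, le_div_iff₀ (by positivity)] at f5
      have f6 : (2 : ℝ) ^ n ≤ 5 * ((univ.filter fun x : Fin n → Bool =>
          (!(up σ h fun v => x (e v))) = true).card : ℝ) := by linarith
      exact_mod_cast f6
    · have f5 : Ex (fun x : Fin n → Bool => bv (!(up σ h fun v => x (e v)))) ≤ 1 / 2 := by
        rw [f4]; linarith [hmean'.1]
      rw [f2_Ex_card, div_le_iff₀ (by positivity)] at f5
      have f6 : 2 * ((univ.filter fun x : Fin n → Bool =>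
          (!(up σ h fun v => x (e v))) = true).card : ℝ) ≤ (2 : ℝ) ^ n := by linarith
      exact_mod_cast f6
  · intro k L hk hL g hg hgt
    have hL1 : (1 : ℝ) ≤ L.length := by
      exact_mod_cast List.length_pos_of_mem hg
    have hp : (2 : ℝ) ^ α ≤ 2 ^ ⌈α⌉₊ := by
      rw [← Real.rpow_natCast]
      exact Real.rpow_le_rpow_of_exponent_le (by norm_num) hαr
    have hp0 : (0 : ℝ) < 2 ^ α := by positivity
    rcases Nat.lt_or_ge (2 ^ ⌈α⌉₊) L.length with hlt | hle
    · have c2 : (2 : ℝ) ^ ⌈α⌉₊ ≤ L.length := by exact_mod_cast hlt.le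
      have big : ∀ X : ℝ, X ≤ 2 ^ n → (2 : ℝ) ^ α * X ≤ L.length * 2 ^ n := by
        intro X hX
        calc (2 : ℝ) ^ α * X ≤ (2 : ℝ) ^ α * 2 ^ n := by gcongr
          _ ≤ 2 ^ ⌈α⌉₊ * 2 ^ n := by gcongr
          _ ≤ _ := by gcongr
      constructor
      · intro _
        apply big
        have a1 := f2_card_le fun x => g.f x = !(up σ h fun v => x (e v))
        have a2 : (0 : ℝ) ≤ ((univ.filter fun x : Fin n → Bool =>
          (!(up σ h fun v => x (e v))) = false).card : ℝ) := by positivity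
        linarith
      · intro _
        apply big
        exact f2_card_le _
    · have hkr : k ≤ ⌈α⌉₊ := by exact_mod_cast hk.trans hαr
      have hL' := f2_mono hL (hkr.trans (Nat.le_add_right _ 3))
      set X : ℝ := 2 ^ ⌈α⌉₊ with hX
      have hX1 : 1 ≤ X := one_le_pow₀ (by norm_num)
      have hX0 : 0 < X := by linarith
      have hXX : X ≤ X ^ 4 := by
        calc X = X ^ 1 := (pow_one X).symm
          _ ≤ X ^ 4 := pow_le_pow_right₀ hX1 (by norm_num)
      have hXX3 : X ≤ X ^ 3 := by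
        calc X = X ^ 1 := (pow_one X).symm
          _ ≤ X ^ 3 := pow_le_pow_right₀ hX1 (by norm_num)
      have fin : ∀ Y : ℝ, Y / 2 ^ n ≤ 1 / X → (2 : ℝ) ^ α * Y ≤ L.length * 2 ^ n := by
        intro Y hY
        rw [div_le_div_iff₀ (by positivity) hX0] at hY
        rcases le_or_gt 0 Y with hY0 | hY0
        · calc (2 : ℝ) ^ α * Y ≤ X * Y := by gcongr
            _ ≤ 1 * 2 ^ n := by linarith
            _ ≤ _ := by gcongr
        · have : (2 : ℝ) ^ α * Y ≤ 0 := mul_nonpos_of_nonneg_of_nonpos hp0.le hY0.le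
          have h0 : (0 : ℝ) ≤ L.length * 2 ^ n := by positivity
          linarith
      constructor
      · intro hgd
        have hkc : Kc (⌈α⌉₊ + 3) (t + 1) (2 ^ ⌈α⌉₊) g.f g.vars :=
          hL'.kc hle hg hgd (by omega)
        have hMP := h3 K σ (⌈α⌉₊ + 3) hK0 hKr U h _ _ t (2 ^ (⌈α⌉₊ + 3)) (by positivity)
          (by positivity) hNP hRS hmean.2 1 (2 ^ ⌈α⌉₊) Nat.one_le_two_pow (by
            rw [pow_one, pow_add]; omega)
        have hb := (hMP (Fin n) Unit (fun p => e p.2) (by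
            rintro ⟨⟨⟩, u⟩ ⟨⟨⟩, v⟩ huv
            have huv' : u = v := he huv
            rw [huv']) {()} (by simp) (fun _ => true) g.f ∅ g.vars (fun _ _ _ => rfl)
            (Finset.disjoint_empty_left _) (by simp) hkc).1
        simp only [Finset.prod_singleton, bv_true, one_mul] at hb
        rw [hXr] at hb
        -- the agreement
        have key : (((univ.filter fun x => g.f x = !(up σ h fun v => x (e v))).card : ℝ) -
            (univ.filter fun x : Fin n → Bool => (!(up σ h fun v => x (e v))) = false).card) /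
              2 ^ n = -Ex (fun x => bv (g.f x) * (2 * bv (up σ h fun v => x (e v)) - 1)) := by
          have b1 := f2_Ex_card (fun x => decide (g.f x = !(up σ h fun v => x (e v))))
          have b2 := f2_Ex_card (fun x : Fin n → Bool =>
            decide ((!(up σ h fun v => x (e v))) = false))
          simp only [decide_eq_true_eq] at b1 b2
          rw [sub_div, ← b1, ← b2, ← Ex_sub, ← Ex_neg]
          apply Ex_congr
          intro x
          cases g.f x <;> cases up σ h (fun v => x (e v)) <;> norm_num [bv]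
        apply fin
        rw [key]
        have b3 : (1 / X ^ 4 / 65536 + 3 * (1 / X ^ 4 / 65536)) * (8 * 7 ^ 1 * ((2 ^ ⌈α⌉₊ : ℕ) : ℝ)) ^ 1
            ≤ 1 / X := by
          push_cast
          rw [← hX]
          have e2 : (1 / X ^ 4 / 65536 + 3 * (1 / X ^ 4 / 65536)) * (8 * 7 ^ 1 * X) ^ 1 =
              224 / (65536 * X ^ 3) := by
            field_simp; ring
          rw [e2, div_le_div_iff₀ (by positivity) hX0]
          nlinarith
        have b4 : -Ex (fun x => bv (g.f x) * (2 * bv (up σ h fun v => x (e v)) - 1)) ≤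
            (1 / X ^ 4 / 65536 + 3 * (1 / X ^ 4 / 65536)) *
              (8 * 7 ^ 1 * ((2 ^ ⌈α⌉₊ : ℕ) : ℝ)) ^ 1 := by linarith
        exact b4.trans b3
      · intro hgF
        have ho := hL'.oprog t (2 ^ (⌈α⌉₊ + 3)) (hle.trans (Nat.pow_le_pow_right (by norm_num)
          (by omega)))
        have hb := h2 K σ (⌈α⌉₊ + 3) hK0 hKr U h _ _ t (2 ^ (⌈α⌉₊ + 3)) (by positivity)
          (by positivity) hNP hRS
          (Fin n) e he _ ho (by
            rw [List.length_map]
            exact (List.length_filter_le _ _).trans (hle.trans (Nat.pow_le_pow_right (by norm_num)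
              (by omega)))) g.toGt
          (List.mem_map_of_mem (List.mem_filter.2 ⟨hg, by simp [hgt]⟩)) (fun x hx => by
            have := hgF x hx
            simpa using this)
        apply fin
        rw [← f2_Ex_card]
        refine hb.trans ?_
        rw [hXr]
        push_cast
        rw [pow_add, ← hX]
        have e2 : 2 * (X * 2 ^ 3) * (1 / X ^ 4 / 65536 + 3 * (1 / X ^ 4 / 65536)) =
            1 / (1024 * X ^ 3) := by
          field_simp; ring
        rw [e2]
        apply one_div_le_one_div_of_le hX0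
        nlinarith

end Pool.Agent.NH
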