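import Pool.Agent.NH.ParL

/-!
# The negation hierarchy: uniform parameters for linear expanders
-/

set_option autoImplicit false

namespace Pool.Agent.NH

open Finset

/-- [Par] uniform in the number `t` of negations, with linear expanders -/
def St_ParU : Prop :=
  ∃ A C : ℕ, ∀ t r : ℕ, ∃ (K U : Type) (_ : Fintype K) (_ : DecidableEq K) (_ : Fintype U)
    (_ : DecidableEq U) (σ : Fin 3 → Equiv.Perm K) (h : (U → Bool) → Bool),
    0 < Fintype.card K ∧ 4 * r ≤ Fintype.card K ∧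
    Fintype.card (Bk K U) * (r + 1) ≤ (A * (r + 1)) ^ (2 ^ (t + 1)) ∧
    UpP (up σ h) t (t + 1) (C * Fintype.card (Bk K U)) ∧
    Fair (up σ h) (top K U) ∧
    NP r σ h t (2 ^ r) ((1 / 2) ^ (4 * r + 4)) ∧ RS1 (up σ h) (top K U) ((1 / 2) ^ (4 * r + 4))

private lemma Pau_910 (k n : ℕ) (h : 7 * n ≤ k) : (9 / 10 : ℝ) ^ k ≤ (1 / 2) ^ n := by
  calc (9 / 10 : ℝ) ^ k ≤ (9 / 10) ^ (7 * n) :=
        pow_le_pow_of_le_one (by norm_num) (by norm_num) h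
    _ = ((9 / 10) ^ 7) ^ n := by rw [pow_mul]
    _ ≤ (1 / 2) ^ n := pow_le_pow_left₀ (by norm_num) (by norm_num) _

private lemma Pau_1920 (k n : ℕ) (h : 14 * n ≤ k) : (19 / 20 : ℝ) ^ k ≤ (1 / 2) ^ n := by
  calc (19 / 20 : ℝ) ^ k ≤ (19 / 20) ^ (14 * n) :=
        pow_le_pow_of_le_one (by norm_num) (by norm_num) h
    _ = ((19 / 20) ^ 14) ^ n := by rw [pow_mul]
    _ ≤ (1 / 2) ^ n := pow_le_pow_left₀ (by norm_num) (by norm_num) _

private lemma Pau_rs1 {U : Type} [Fintype U] [DecidableEq U] {h : (U → Bool) → Bool}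
    {T : Finset U} {η η' : ℝ} (H : RS1 h T η) (hη : η ≤ η') : RS1 h T η' := by
  intro X h1 h2
  obtain ⟨P, E, hPE, hP, hab⟩ := H X h1 h2
  exact ⟨P, E, hPE, hP, fun a b ha hb hda hdb => (hab a b ha hb hda hdb).trans hη⟩

private lemma Pau_np {K U : Type} [Fintype K] [DecidableEq K] [Fintype U] [DecidableEq U] {w : ℕ}
    {σ : Fin 3 → Equiv.Perm K} {h : (U → Bool) → Bool} {t s : ℕ} {δ δ' : ℝ}
    (H : NP w σ h t s δ) (hδ : δ ≤ δ') : NP w σ h t s δ' := by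
  intro W _ _ e he A g SA SG hA hd hc hg L hL
  exact (H W e he A g SA SG hA hd hc hg L hL).trans hδ

private lemma Pau_upp {U : Type} [DecidableEq U] {h : (U → Bool) → Bool} {a b s s' : ℕ}
    (H : UpP h a b s) (hs : s ≤ s') : UpP h a b s' := by
  obtain ⟨L, h1, h2, h3, h4, h5⟩ := H
  exact ⟨L, h1, h2.trans hs, h3, h4, h5⟩

private lemma Pau_card {K U : Type} [Fintype K] [DecidableEq K] [Fintype U] [DecidableEq U] :
    Fintype.card (Bk K U) = 2 * Fintype.card K + 2 * Fintype.card K * Fintype.card U := by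
  rw [Fintype.card_sum, Fintype.card_prod, Fintype.card_sum]
  ring

private lemma Pau_mean {U : Type} [Fintype U] [DecidableEq U] {h : (U → Bool) → Bool}
    {T : Finset U} (H : Fair h T) : Ex (fun x => bv (h x)) ≤ 4 / 5 := by
  have h1 := (H ∅ (by simp) (fun _ => false)).2
  refine le_trans (le_of_eq (Ex_congr fun x => ?_)) h1
  congr 2

private lemma Pau_base : UpP (U := Empty) (fun _ => false) 0 0 2 := by
  refine ⟨[⟨fun _ => true, ∅, 0⟩, ⟨fun _ => false, ∅, 0⟩], ?_, le_rfl, ?_, ?_, ?_⟩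
  · refine Prog.cons (Prog.cons Prog.nil ?_) ?_
    · exact Or.inl ⟨∅, le_rfl, by simp, fun _ _ _ => rfl⟩
    · exact Or.inl ⟨∅, le_rfl, by simp, fun _ _ _ => rfl⟩
  · intro g hg
    simp only [List.mem_cons, List.not_mem_nil, or_false] at hg
    rcases hg with rfl | rfl <;> exact le_rfl
  · exact ⟨⟨fun _ => false, ∅, 0⟩, by simp, rfl, le_rfl⟩
  · exact ⟨⟨fun _ => true, ∅, 0⟩, by simp, rfl⟩

/-- a graph for the parameter `ρ` -/
private lemma Pau_graph (hHex : St_Lin) : ∃ C : ℕ, ∀ ρ : ℕ, ∃ (K : Type) (_ : Fintype K)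
    (_ : DecidableEq K) (σ : Fin 3 → Equiv.Perm K), 1400 * (ρ + 1) ≤ Fintype.card K ∧
    Fintype.card K ≤ C * (ρ + 1) ∧ Simple σ ∧ Expd σ (1400 * (ρ + 1)) := by
  obtain ⟨C, hC⟩ := hHex
  refine ⟨C * 1401, fun ρ => ?_⟩
  obtain ⟨K, i1, i2, σ, h1, h2, h3, h4⟩ := hC (1400 * (ρ + 1))
  refine ⟨K, i1, i2, σ, h1, h2.trans ?_, h3, h4⟩
  rw [mul_assoc]
  exact Nat.mul_le_mul_left _ (by omega)

private def PU (A t : ℕ) : Prop :=
  ∀ ρ w : ℕ, w ≤ ρ → ∃ (K U : Type) (_ : Fintype K) (_ : DecidableEq K) (_ : Fintype U)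
    (_ : DecidableEq U) (σ : Fin 3 → Equiv.Perm K) (h : (U → Bool) → Bool),
    0 < Fintype.card K ∧ 4 * ρ ≤ Fintype.card K ∧
    Fintype.card (Bk K U) * (ρ + 1) ≤ (A * (ρ + 1)) ^ (2 ^ (t + 1)) ∧
    UpP (up σ h) t (t + 1) (200 * Fintype.card (Bk K U)) ∧
    Fair (up σ h) (top K U) ∧
    NP w σ h t (2 ^ ρ) ((1 / 2) ^ (4 * ρ + 4)) ∧
    RS1 (up σ h) (top K U) ((1 / 2) ^ (4 * ρ + 4))

private lemma Pau_zero (C : ℕ) (hC : ∀ ρ : ℕ, ∃ (K : Type) (_ : Fintype K)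
    (_ : DecidableEq K) (σ : Fin 3 → Equiv.Perm K), 1400 * (ρ + 1) ≤ Fintype.card K ∧
    Fintype.card K ≤ C * (ρ + 1) ∧ Simple σ ∧ Expd σ (1400 * (ρ + 1)))
    (hBlk : St_Blk) (hN1 : St_N1) (hUp : St_Up) (A : ℕ) (hA : 2 * C ≤ A) (hA1 : 1 ≤ A) :
    PU A 0 := by
  intro ρ w _
  obtain ⟨K, i1, i2, σ, h1, h2, h3, h4⟩ := hC ρ
  have hcard : Fintype.card (Bk K Empty) = 2 * Fintype.card K := by
    rw [Pau_card, Fintype.card_empty]
    ring
  have hb := hBlk K σ h3 (by omega) _ h4 Empty (fun _ => false)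
  refine ⟨K, Empty, i1, i2, inferInstance, inferInstance, σ, fun _ => false, by omega, by omega,
    ?_, ?_, hb.1, ?_, ?_⟩
  · rw [hcard]
    have e : (A * (ρ + 1)) ^ (2 ^ (0 + 1)) = (A * (ρ + 1)) * (A * (ρ + 1)) := by
      rw [← pow_two]
      norm_num
    rw [e]
    apply Nat.mul_le_mul
    · calc 2 * Fintype.card K ≤ 2 * (C * (ρ + 1)) := Nat.mul_le_mul_left _ h2
        _ ≤ A * (ρ + 1) := by
          rw [← mul_assoc]
          exact Nat.mul_le_mul_right _ hA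
    · exact Nat.le_mul_of_pos_left _ hA1
  · refine Pau_upp (hUp K σ Empty (fun _ => false) 0 0 2 le_rfl Pau_base) ?_
    rw [hcard]
    omega
  · refine Pau_np (hN1 K σ h3 Empty (fun _ => false) w (2 ^ ρ)) (Pau_910 _ _ ?_)
    omega
  · exact Pau_rs1 hb.2 (Pau_910 _ _ (by omega))

private lemma Pau_om (ρ ρ' J : ℕ) (hρ : (3 + 3 * J + ρ) * J + 4 * ρ + 5 ≤ ρ') :
    ((1 / 2 : ℝ) ^ (4 * ρ' + 4) + 3 * (1 / 2) ^ (4 * ρ' + 4)) *
      (8 * 7 ^ J * ((2 ^ ρ : ℕ) : ℝ)) ^ J ≤ (1 / 2) ^ (4 * ρ + 5) := by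
  have h1 : (8 * 7 ^ J * ((2 ^ ρ : ℕ) : ℝ)) ≤ 2 ^ (3 + 3 * J + ρ) := by
    have h7 : (7 : ℝ) ^ J ≤ (2 ^ 3) ^ J := pow_le_pow_left₀ (by norm_num) (by norm_num) _
    rw [pow_add, pow_add, pow_mul]
    push_cast
    have h2 : (0 : ℝ) ≤ 2 ^ ρ := by positivity
    have h3 : (8 : ℝ) * 7 ^ J ≤ 2 ^ 3 * (2 ^ 3) ^ J := by linarith
    exact mul_le_mul_of_nonneg_right h3 h2
  have h2 : (8 * 7 ^ J * ((2 ^ ρ : ℕ) : ℝ)) ^ J ≤ 2 ^ ((3 + 3 * J + ρ) * J) := by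
    rw [pow_mul]
    exact pow_le_pow_left₀ (by positivity) h1 _
  have h3 : ((1 / 2 : ℝ) ^ (4 * ρ' + 4) + 3 * (1 / 2) ^ (4 * ρ' + 4)) =
      (1 / 2) ^ (4 * ρ' + 2) := by
    have : 4 * ρ' + 4 = (4 * ρ' + 2) + 2 := by ring
    rw [this, pow_add]
    ring
  rw [h3]
  calc (1 / 2 : ℝ) ^ (4 * ρ' + 2) * (8 * 7 ^ J * ((2 ^ ρ : ℕ) : ℝ)) ^ J
      ≤ (1 / 2) ^ (4 * ρ' + 2) * 2 ^ ((3 + 3 * J + ρ) * J) :=
        mul_le_mul_of_nonneg_left h2 (by positivity)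
    _ ≤ (1 / 2) ^ ((3 + 3 * J + ρ) * J + (4 * ρ + 5)) * 2 ^ ((3 + 3 * J + ρ) * J) := by
        apply mul_le_mul_of_nonneg_right _ (by positivity)
        apply pow_le_pow_of_le_one (by norm_num) (by norm_num)
        omega
    _ = (1 / 2) ^ (4 * ρ + 5) := by
        rw [pow_add, mul_right_comm, ← mul_pow]
        norm_num

private lemma Pau_succ (C₁ : ℕ) (hC₁ : ∀ ρ : ℕ, ∃ (K : Type) (_ : Fintype K)
    (_ : DecidableEq K) (σ : Fin 3 → Equiv.Perm K), 1400 * (ρ + 1) ≤ Fintype.card K ∧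
    Fintype.card K ≤ C₁ * (ρ + 1) ∧ Simple σ ∧ Expd σ (1400 * (ρ + 1)))
    (hBlk : St_Blk) (hN : St_N) (hM : St_M) (hUp : St_Up) (A : ℕ)
    (hA : 4 * C₁ * 15001 ≤ A) (hC1 : 1 ≤ C₁) (t : ℕ) (hC : PU A t) : PU A (t + 1) := by
  intro ρ w hw
  set J : ℕ := 14 * (4 * ρ + 5) with hJ
  set ρ' : ℕ := 15000 * (ρ + 1) ^ 2 with hρ'
  have hJ' : J ≤ 70 * (ρ + 1) := by omega
  have hsq : (ρ + 1) ≤ (ρ + 1) ^ 2 := by nlinarith
  have hkey : (3 + 3 * J + ρ) * J + 4 * ρ + 5 ≤ ρ' := by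
    have h1 : (3 + 3 * J + ρ) * J ≤ (214 * (ρ + 1)) * (70 * (ρ + 1)) :=
      Nat.mul_le_mul (by omega) hJ'
    have h2 : (214 * (ρ + 1)) * (70 * (ρ + 1)) = 14980 * (ρ + 1) ^ 2 := by ring
    omega
  have hkey2 : 3 * J + ρ ≤ ρ' := by omega
  have hwρ' : w ≤ ρ' := by omega
  obtain ⟨K, U, i1, i2, i3, i4, σ, h, hK0, hK4, hcard, hup, hfair, hNP, hRS⟩ := hC ρ' w hwρ'
  obtain ⟨K₁, j1, j2, σ₁, g1, g2, g3, g4⟩ := hC₁ ρ
  have hmean := Pau_mean hfair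
  have hs : 7 ^ J * 2 ^ ρ ≤ 2 ^ ρ' := by
    calc 7 ^ J * 2 ^ ρ ≤ (2 ^ 3) ^ J * 2 ^ ρ :=
          Nat.mul_le_mul_right _ (Nat.pow_le_pow_left (by norm_num) _)
      _ = 2 ^ (3 * J + ρ) := by rw [← pow_mul, ← pow_add]
      _ ≤ 2 ^ ρ' := Nat.pow_le_pow_right (by norm_num) hkey2
  have hMP := hM K σ w hK0 (by omega) U h ((1 / 2) ^ (4 * ρ' + 4)) ((1 / 2) ^ (4 * ρ' + 4)) t
    (2 ^ ρ') (by positivity) (by positivity) hNP hRS hmean J (2 ^ ρ) Nat.one_le_two_pow hs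
  have hT : (top K U).Nonempty := by
    have : 0 < Fintype.card (Vx K) := by
      rw [Fintype.card_sum]
      omega
    obtain ⟨v⟩ := Fintype.card_pos_iff.1 this
    exact ⟨Sum.inl v, Finset.mem_image_of_mem _ (Finset.mem_univ _)⟩
  have hNP' := hN (Bk K U) (up σ h) (top K U) _ w t (2 ^ ρ) J hT (by positivity)
    Nat.one_le_two_pow hMP hfair K₁ σ₁ g3 (by omega)
  have hb := hBlk K₁ σ₁ g3 (by omega) _ g4 (Bk K U) (up σ h)
  have hcardU : 1 ≤ Fintype.card (Bk K U) := by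
    rw [Pau_card]
    omega
  have hcard' : Fintype.card (Bk K₁ (Bk K U)) =
      2 * Fintype.card K₁ + 2 * Fintype.card K₁ * Fintype.card (Bk K U) := Pau_card
  refine ⟨K₁, Bk K U, j1, j2, inferInstance, inferInstance, σ₁, up σ h, by omega, by omega, ?_, ?_,
    hb.1, ?_, ?_⟩
  · have h1 : Fintype.card (Bk K₁ (Bk K U)) ≤
        4 * C₁ * (ρ + 1) * Fintype.card (Bk K U) := by
      rw [hcard']
      calc 2 * Fintype.card K₁ + 2 * Fintype.card K₁ * Fintype.card (Bk K U)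
          ≤ 2 * Fintype.card K₁ * Fintype.card (Bk K U) +
            2 * Fintype.card K₁ * Fintype.card (Bk K U) :=
            Nat.add_le_add_right (Nat.le_mul_of_pos_right _ hcardU) _
        _ = 4 * Fintype.card K₁ * Fintype.card (Bk K U) := by ring
        _ ≤ 4 * (C₁ * (ρ + 1)) * Fintype.card (Bk K U) := by
            apply Nat.mul_le_mul_right
            exact Nat.mul_le_mul_left _ g2
        _ = _ := by ring
    have h2 : (ρ + 1) * (ρ + 1) ≤ ρ' + 1 := by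
      rw [← pow_two]
      omega
    have h3 : ρ' + 1 ≤ 15001 * (ρ + 1) ^ 2 := by
      have : 1 ≤ (ρ + 1) ^ 2 := Nat.one_le_pow _ _ (by omega)
      omega
    have h4 : 4 * C₁ ≤ (4 * C₁) ^ (2 ^ (t + 1)) :=
      Nat.le_self_pow (by positivity) _
    calc Fintype.card (Bk K₁ (Bk K U)) * (ρ + 1)
        ≤ (4 * C₁ * (ρ + 1) * Fintype.card (Bk K U)) * (ρ + 1) :=
          Nat.mul_le_mul_right _ h1
      _ = 4 * C₁ * Fintype.card (Bk K U) * ((ρ + 1) * (ρ + 1)) := by ring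
      _ ≤ 4 * C₁ * Fintype.card (Bk K U) * (ρ' + 1) := Nat.mul_le_mul_left _ h2
      _ = 4 * C₁ * (Fintype.card (Bk K U) * (ρ' + 1)) := by ring
      _ ≤ (4 * C₁) ^ (2 ^ (t + 1)) * (A * (ρ' + 1)) ^ (2 ^ (t + 1)) :=
          Nat.mul_le_mul h4 hcard
      _ ≤ (4 * C₁) ^ (2 ^ (t + 1)) * (A * (15001 * (ρ + 1) ^ 2)) ^ (2 ^ (t + 1)) := by
          apply Nat.mul_le_mul_left
          exact Nat.pow_le_pow_left (Nat.mul_le_mul_left _ h3) _
      _ = ((4 * C₁ * 15001) * (A * (ρ + 1) ^ 2)) ^ (2 ^ (t + 1)) := by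
          rw [← mul_pow]
          congr 1
          ring
      _ ≤ (A * (A * (ρ + 1) ^ 2)) ^ (2 ^ (t + 1)) :=
          Nat.pow_le_pow_left (Nat.mul_le_mul_right _ hA) _
      _ = (A * (ρ + 1)) ^ (2 ^ (t + 1 + 1)) := by
          have e1 : 2 ^ (t + 1 + 1) = 2 * 2 ^ (t + 1) := by
            rw [← pow_succ']
          rw [e1, pow_mul (A * (ρ + 1)) 2]
          congr 1
          ring
  · refine Pau_upp (hUp K₁ σ₁ (Bk K U) (up σ h) t (t + 1) _ (by omega) hup) ?_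
    rw [hcard']
    have h3 : 200 * (2 * Fintype.card K₁ + 2 * Fintype.card K₁ * Fintype.card (Bk K U)) =
        2 * Fintype.card K₁ * (200 * Fintype.card (Bk K U)) + 400 * Fintype.card K₁ := by ring
    rw [h3]
    omega
  · refine Pau_np hNP' ?_
    have h1 := Pau_1920 J (4 * ρ + 5) (by omega)
    have h2 := Pau_om ρ ρ' J hkey
    have h3 : (1 / 2 : ℝ) ^ (4 * ρ + 4) = (1 / 2) ^ (4 * ρ + 5) + (1 / 2) ^ (4 * ρ + 5) := by
      rw [pow_succ (1 / 2 : ℝ) (4 * ρ + 4)]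
      ring
    rw [h3]
    exact add_le_add h1 h2
  · exact Pau_rs1 hb.2 (Pau_910 _ _ (by omega))

theorem thm_ParU (hLin : St_Lin) (hBlk : St_Blk) (hN1 : St_N1) (hN : St_N) (hM : St_M)
    (hUp : St_Up) : St_ParU := by
  obtain ⟨C, hC⟩ := Pau_graph hLin
  have hC1 : 1 ≤ C := by
    obtain ⟨K, _, _, _, h1, h2, _⟩ := hC 0
    by_contra h
    have : C = 0 := by omega
    subst this
    omega
  have key : ∀ t, PU (4 * C * 15001) t := by
    intro t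
    induction t with
    | zero => exact Pau_zero C hC hBlk hN1 hUp _ (by omega) (by omega)
    | succ t ih => exact Pau_succ C hC hBlk hN hM hUp _ le_rfl hC1 t ih
  refine ⟨4 * C * 15001, 200, fun t r => ?_⟩
  exact key t r r le_rfl

end Pool.Agent.NH
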