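import Pool.Agent.NH.Circ
import Pool.Agent.NG.Defs

/-!
# The negation hierarchy: 3-CNF formulas for circuits (Tseitin)
-/

set_option autoImplicit false

namespace Pool.Agent.NH

open Pool.Agent.NG (CNF Sat)

/-- the values of the gates, numbered from the end of the list -/
private def vl {V : Type} : List (Gate V) → (V → Bool) → ℕ → Bool
  | [], _, _ => false
  | g :: L, x, i => if i = L.length then g.f x else vl L x i

private lemma vl_mem {V : Type} (L : List (Gate V)) (a : Gate V) (ha : a ∈ L) :
    ∃ i < L.length, ∀ x, vl L x i = a.f x := by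
  induction L with
  | nil => simp at ha
  | cons g L ih =>
    rcases List.mem_cons.1 ha with rfl | h
    · exact ⟨L.length, by simp, fun x => by simp [vl]⟩
    · obtain ⟨i, hi, hx⟩ := ih h
      refine ⟨i, by simp; omega, fun x => ?_⟩
      rw [vl, if_neg (by omega)]
      exact hx x

private lemma sat_append {W : Type} (φ ψ : CNF W) (z : W → Bool) :
    Sat (φ ++ ψ) z ↔ Sat φ z ∧ Sat ψ z := by
  constructor
  · intro h
    exact ⟨fun K hK => h K (List.mem_append_left _ hK), fun K hK => h K (List.mem_append_right _ hK)⟩
  · rintro ⟨h1, h2⟩ K hK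
    rcases List.mem_append.1 hK with h | h
    · exact h1 K h
    · exact h2 K h

private def TP {V : Type} (L : List (Gate V)) : Prop :=
  ∃ φ : CNF (V ⊕ ℕ), φ.length ≤ 3 * L.length ∧ (∀ K ∈ φ, K.length ≤ 3) ∧
    (∀ K ∈ φ, ∀ l ∈ K, ∀ j, l.1 = Sum.inr j → j < L.length) ∧
    ∀ x y, Sat φ (Sum.elim x y) ↔ ∀ i < L.length, y i = vl L x i

private lemma TP_cons {V : Type} (L : List (Gate V)) (hL : TP L) (g : Gate V)
    (ψ : CNF (V ⊕ ℕ)) (h1 : ψ.length ≤ 3) (h2 : ∀ K ∈ ψ, K.length ≤ 3)
    (h3 : ∀ K ∈ ψ, ∀ l ∈ K, ∀ j, l.1 = Sum.inr j → j ≤ L.length)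
    (h4 : ∀ x y, (∀ i < L.length, y i = vl L x i) →
      (Sat ψ (Sum.elim x y) ↔ y L.length = g.f x)) : TP (g :: L) := by
  obtain ⟨φ, k1, k2, k3, k4⟩ := hL
  refine ⟨ψ ++ φ, ?_, ?_, ?_, ?_⟩
  · rw [List.length_append, List.length_cons]
    omega
  · intro K hK
    rcases List.mem_append.1 hK with h | h
    · exact h2 K h
    · exact k2 K h
  · intro K hK l hl j hj
    rw [List.length_cons]
    rcases List.mem_append.1 hK with h | h
    · have := h3 K h l hl j hj
      omega
    · have := k3 K h l hl j hj
      omega
  · intro x y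
    rw [sat_append, k4]
    constructor
    · rintro ⟨h5, h6⟩ i hi
      rw [List.length_cons] at hi
      by_cases hi' : i = L.length
      · subst hi'
        rw [vl, if_pos rfl]
        exact (h4 x y h6).1 h5
      · rw [vl, if_neg hi']
        exact h6 i (by omega)
    · intro h
      have h6 : ∀ i < L.length, y i = vl L x i := by
        intro i hi
        have := h i (by rw [List.length_cons]; omega)
        rwa [vl, if_neg (by omega)] at this
      refine ⟨(h4 x y h6).2 ?_, h6⟩
      have := h L.length (by simp)
      rwa [vl, if_pos rfl] at this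

private lemma sat_nil {W : Type} (z : W → Bool) : Sat [] z := fun _ hK => by simp at hK

private lemma sat_cons {W : Type} (K : List (W × Bool)) (φ : CNF W) (z : W → Bool) :
    Sat (K :: φ) z ↔ (∃ l ∈ K, z l.1 = l.2) ∧ Sat φ z := by
  constructor
  · intro h
    exact ⟨h K List.mem_cons_self, fun K' hK' => h K' (List.mem_cons_of_mem _ hK')⟩
  · rintro ⟨h1, h2⟩ K' hK'
    rcases List.mem_cons.1 hK' with rfl | h
    · exact h1
    · exact h2 K' h

private lemma TP_all {V : Type} [DecidableEq V] (L : List (Gate V)) (hL : IsCircuit 1 L) :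
    TP L := by
  induction hL with
  | nil => exact ⟨[], by simp, by simp, by simp, fun x y => by simp [sat_nil]⟩
  | leaf L S f _ hS hf ih =>
    rcases Nat.lt_or_ge S.card 1 with h | h
    · have hS0 : S = ∅ := Finset.card_eq_zero.1 (by omega)
      subst hS0
      refine TP_cons L ih _ [[(Sum.inr L.length, f fun _ => true)]] (by simp) ?_ ?_ ?_
      · intro K hK
        simp only [List.mem_singleton] at hK
        subst hK
        simp
      · intro K hK l hl j hj
        simp only [List.mem_singleton] at hK
        subst hK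
        simp only [List.mem_singleton] at hl
        subst hl
        simp only [Sum.inr.injEq] at hj
        omega
      · intro x y _
        have : f x = f fun _ => true := hf _ _ (by simp)
        simp [sat_cons, sat_nil, this]
    · obtain ⟨v, hv⟩ := Finset.card_eq_one.1 (le_antisymm hS h)
      subst hv
      refine TP_cons L ih _ [[(Sum.inl v, false), (Sum.inr L.length, f fun _ => true)],
        [(Sum.inl v, true), (Sum.inr L.length, f fun _ => false)]] (by simp) ?_ ?_ ?_
      · intro K hK
        simp only [List.mem_cons, List.not_mem_nil, or_false] at hK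
        rcases hK with rfl | rfl <;> simp
      · intro K hK l hl j hj
        simp only [List.mem_cons, List.not_mem_nil, or_false] at hK
        rcases hK with rfl | rfl <;> simp only [List.mem_cons, List.not_mem_nil, or_false] at hl <;>
          rcases hl with rfl | rfl <;> simp at hj <;> omega
      · intro x y _
        have h1 : f x = f fun _ => x v := hf _ _ (by simp)
        rcases hx : x v with _ | _ <;> rw [hx] at h1 <;> simp [sat_cons, sat_nil, hx, h1]
  | and L a b _ ha hb _ ih =>
    obtain ⟨i, hi, hix⟩ := vl_mem L a ha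
    obtain ⟨j, hj, hjx⟩ := vl_mem L b hb
    refine TP_cons L ih _ [[(Sum.inr L.length, false), (Sum.inr i, true)],
      [(Sum.inr L.length, false), (Sum.inr j, true)],
      [(Sum.inr L.length, true), (Sum.inr i, false), (Sum.inr j, false)]] (by simp) ?_ ?_ ?_
    · intro K hK
      simp only [List.mem_cons, List.not_mem_nil, or_false] at hK
      rcases hK with rfl | rfl | rfl <;> simp
    · intro K hK l hl j' hj'
      simp only [List.mem_cons, List.not_mem_nil, or_false] at hK
      rcases hK with rfl | rfl | rfl <;>
        simp only [List.mem_cons, List.not_mem_nil, or_false] at hl <;>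
        rcases hl with rfl | rfl | rfl <;> simp at hj' <;> omega
    · intro x y hy
      have e1 := (hy i hi).trans (hix x)
      have e2 := (hy j hj).trans (hjx x)
      simp only [sat_cons, sat_nil, List.mem_cons, List.not_mem_nil, or_false, and_true,
        exists_eq_or_imp, exists_eq_left, Sum.elim_inr, e1, e2]
      cases y L.length <;> cases a.f x <;> cases b.f x <;> simp
  | or L a b _ ha hb ih =>
    obtain ⟨i, hi, hix⟩ := vl_mem L a ha
    obtain ⟨j, hj, hjx⟩ := vl_mem L b hb
    refine TP_cons L ih _ [[(Sum.inr L.length, true), (Sum.inr i, false)],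
      [(Sum.inr L.length, true), (Sum.inr j, false)],
      [(Sum.inr L.length, false), (Sum.inr i, true), (Sum.inr j, true)]] (by simp) ?_ ?_ ?_
    · intro K hK
      simp only [List.mem_cons, List.not_mem_nil, or_false] at hK
      rcases hK with rfl | rfl | rfl <;> simp
    · intro K hK l hl j' hj'
      simp only [List.mem_cons, List.not_mem_nil, or_false] at hK
      rcases hK with rfl | rfl | rfl <;>
        simp only [List.mem_cons, List.not_mem_nil, or_false] at hl <;>
        rcases hl with rfl | rfl | rfl <;> simp at hj' <;> omega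
    · intro x y hy
      have e1 := (hy i hi).trans (hix x)
      have e2 := (hy j hj).trans (hjx x)
      simp only [sat_cons, sat_nil, List.mem_cons, List.not_mem_nil, or_false, and_true,
        exists_eq_or_imp, exists_eq_left, Sum.elim_inr, e1, e2]
      cases y L.length <;> cases a.f x <;> cases b.f x <;> simp
  | detOr L a b _ ha hb _ _ _ ih =>
    obtain ⟨i, hi, hix⟩ := vl_mem L a ha
    obtain ⟨j, hj, hjx⟩ := vl_mem L b hb
    refine TP_cons L ih _ [[(Sum.inr L.length, true), (Sum.inr i, false)],
      [(Sum.inr L.length, true), (Sum.inr j, false)],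
      [(Sum.inr L.length, false), (Sum.inr i, true), (Sum.inr j, true)]] (by simp) ?_ ?_ ?_
    · intro K hK
      simp only [List.mem_cons, List.not_mem_nil, or_false] at hK
      rcases hK with rfl | rfl | rfl <;> simp
    · intro K hK l hl j' hj'
      simp only [List.mem_cons, List.not_mem_nil, or_false] at hK
      rcases hK with rfl | rfl | rfl <;>
        simp only [List.mem_cons, List.not_mem_nil, or_false] at hl <;>
        rcases hl with rfl | rfl | rfl <;> simp at hj' <;> omega
    · intro x y hy
      have e1 := (hy i hi).trans (hix x)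
      have e2 := (hy j hj).trans (hjx x)
      simp only [sat_cons, sat_nil, List.mem_cons, List.not_mem_nil, or_false, and_true,
        exists_eq_or_imp, exists_eq_left, Sum.elim_inr, e1, e2]
      cases y L.length <;> cases a.f x <;> cases b.f x <;> simp
  | not L a _ ha _ ih =>
    obtain ⟨i, hi, hix⟩ := vl_mem L a ha
    refine TP_cons L ih _ [[(Sum.inr L.length, true), (Sum.inr i, true)],
      [(Sum.inr L.length, false), (Sum.inr i, false)]] (by simp) ?_ ?_ ?_
    · intro K hK
      simp only [List.mem_cons, List.not_mem_nil, or_false] at hK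
      rcases hK with rfl | rfl <;> simp
    · intro K hK l hl j' hj'
      simp only [List.mem_cons, List.not_mem_nil, or_false] at hK
      rcases hK with rfl | rfl <;>
        simp only [List.mem_cons, List.not_mem_nil, or_false] at hl <;>
        rcases hl with rfl | rfl <;> simp at hj' <;> omega
    · intro x y hy
      have e1 := (hy i hi).trans (hix x)
      simp only [sat_cons, sat_nil, List.mem_cons, List.not_mem_nil, or_false, and_true,
        exists_eq_or_imp, exists_eq_left, Sum.elim_inr, e1]
      cases y L.length <;> cases a.f x <;> simp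

/-- Tseitin's formula of a circuit with literals and constants as leaves -/
theorem tseitin {V : Type} [DecidableEq V] (L : List (Gate V)) (hL : IsCircuit 1 L) (g : Gate V)
    (hg : g ∈ L) : ∃ φ : CNF (V ⊕ Fin L.length), φ.length ≤ 3 * L.length + 1 ∧
      (∀ K ∈ φ, K.length ≤ 3) ∧
      (∀ x, g.f x = true → ∃! y : Fin L.length → Bool, Sat φ (Sum.elim x y)) ∧
      ∀ x, g.f x = false → ∀ y : Fin L.length → Bool, ¬ Sat φ (Sum.elim x y) := by
  obtain ⟨φ, k1, k2, k3, k4⟩ := TP_all L hL
  obtain ⟨i, hi, hix⟩ := vl_mem L g hg
  have hpos : 0 < L.length := by omega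
  let cv : V ⊕ ℕ → V ⊕ Fin L.length := fun w =>
    match w with
    | Sum.inl v => Sum.inl v
    | Sum.inr j => Sum.inr (if h : j < L.length then ⟨j, h⟩ else ⟨0, hpos⟩)
  let ex : (Fin L.length → Bool) → ℕ → Bool := fun y j =>
    if h : j < L.length then y ⟨j, h⟩ else false
  let φ' : CNF (V ⊕ Fin L.length) :=
    [(Sum.inr ⟨i, hi⟩, true)] :: φ.map fun K => K.map fun l => (cv l.1, l.2)
  have hcv : ∀ (x : V → Bool) (y : Fin L.length → Bool), ∀ K ∈ φ, ∀ l ∈ K,
      Sum.elim x y (cv l.1) = Sum.elim x (ex y) l.1 := by
    intro x y K hK l hl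
    rcases hl1 : l.1 with v | j
    · rfl
    · have hj := k3 K hK l hl j hl1
      simp only [cv, ex, Sum.elim_inr]
      rw [dif_pos hj, dif_pos hj]
  have hsat : ∀ (x : V → Bool) (y : Fin L.length → Bool), Sat φ' (Sum.elim x y) ↔
      y ⟨i, hi⟩ = true ∧ ∀ j < L.length, ex y j = vl L x j := by
    intro x y
    simp only [φ']
    rw [sat_cons, ← k4]
    constructor
    · rintro ⟨⟨l, hl, h1⟩, h2⟩
      rw [List.mem_singleton] at hl
      subst hl
      refine ⟨h1, fun K hK => ?_⟩
      obtain ⟨l, hl, h3⟩ := h2 _ (List.mem_map_of_mem hK)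
      obtain ⟨l', hl', rfl⟩ := List.mem_map.1 hl
      exact ⟨l', hl', (hcv x y K hK l' hl').symm.trans h3⟩
    · rintro ⟨h1, h2⟩
      refine ⟨⟨_, List.mem_singleton.2 rfl, h1⟩, fun K hK => ?_⟩
      obtain ⟨K', hK', rfl⟩ := List.mem_map.1 hK
      obtain ⟨l, hl, h3⟩ := h2 K' hK'
      exact ⟨_, List.mem_map_of_mem hl, (hcv x y K' hK' l hl).trans h3⟩
  refine ⟨φ', ?_, ?_, ?_, ?_⟩
  · simp only [φ', List.length_cons, List.length_map]
    omega
  · intro K hK
    simp only [φ', List.mem_cons, List.mem_map] at hK
    rcases hK with rfl | ⟨K', hK', rfl⟩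
    · simp
    · rw [List.length_map]
      exact k2 K' hK'
  · intro x hx
    refine ⟨fun j => vl L x j, ?_, ?_⟩
    · show Sat φ' _
      rw [hsat]
      refine ⟨(hix x).trans hx, fun j hj => ?_⟩
      simp only [ex]
      rw [dif_pos hj]
    · intro y hy
      have h1 := ((hsat x y).1 hy).2
      funext j
      have h2 := h1 j j.2
      simp only [ex] at h2
      rw [dif_pos j.2] at h2
      exact h2
  · intro x hx y hy
    obtain ⟨h1, h2⟩ := (hsat x y).1 hy
    have h3 := h2 i hi
    simp only [ex] at h3
    rw [dif_pos hi, h1, hix x, hx] at h3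
    exact Bool.noConfusion h3

end Pool.Agent.NH
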