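import Pool.Agent.NH.Cnv
import Pool.Agent.NH.Tse
import Pool.Agent.NH.ParU

/-!
# The negation hierarchy: the final theorem, uniform in the number of negations
-/

set_option autoImplicit false

namespace Pool.Agent.NH

open Finset

private lemma fu_mono {V : Type} [DecidableEq V] {k l : ℕ} {L : List (Gate V)}
    (h : IsCircuit k L) (hkl : k ≤ l) : IsCircuit l L := by
  induction h with
  | nil => exact IsCircuit.nil
  | leaf L S f _ hS hf ih => exact IsCircuit.leaf L S f ih (hS.trans hkl) hf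
  | and L a b _ ha hb hd ih => exact IsCircuit.and L a b ih ha hb hd
  | or L a b _ ha hb ih => exact IsCircuit.or L a b ih ha hb
  | detOr L a b _ ha hb h1 h2 hd ih => exact IsCircuit.detOr L a b ih ha hb h1 h2 hd
  | not L a _ ha h1 ih => exact IsCircuit.not L a ih ha h1

/-- the complement of `F` has a small circuit with `t` nested negations -/
def Easy (n t C : ℕ) (F : (Fin n → Bool) → Bool) : Prop :=
  ∃ L : List (Gate (Fin n)), IsCircuit 1 L ∧ L.length ≤ C * n ∧
      ∃ g ∈ L, g.negs ≤ t ∧ g.det = true ∧ ∀ x, g.f x = !F x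

/-- the density of `F` -/
def Dens (n : ℕ) (F : (Fin n → Bool) → Bool) : Prop :=
  2 ^ n ≤ 5 * (univ.filter fun x => F x = true).card ∧
      2 * (univ.filter fun x => F x = true).card ≤ 2 ^ n

/-- circuits with `t` nested negations are far from `F` -/
def HardF (n t : ℕ) (α : ℝ) (F : (Fin n → Bool) → Bool) : Prop :=
  ∀ (k : ℕ) (L : List (Gate (Fin n))), (k : ℝ) ≤ α → IsCircuit k L → ∀ g ∈ L, g.negs ≤ t →
      (g.det = true →
        (2 : ℝ) ^ α *
          ((univ.filter fun x => g.f x = F x).card - (univ.filter fun x => F x = false).card) ≤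
          L.length * 2 ^ n) ∧
      ((∀ x, g.f x = true → F x = true) →
        (2 : ℝ) ^ α * (univ.filter fun x => g.f x = true).card ≤ L.length * 2 ^ n)

private lemma fu_Ex_card {n : ℕ} (f : (Fin n → Bool) → Bool) :
    Ex (fun x => bv (f x)) = ((univ.filter fun x => f x = true).card : ℝ) / 2 ^ n := by
  rw [Ex, Fintype.card_fin]
  congr 1
  rw [Finset.card_filter]
  push_cast
  apply Finset.sum_congr rfl
  intro x _
  cases f x <;> simp [bv]

private lemma fu_card_le {n : ℕ} (p : (Fin n → Bool) → Prop) [DecidablePred p] :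
    ((univ.filter p).card : ℝ) ≤ 2 ^ n := by
  have : (univ.filter p).card ≤ 2 ^ n := by
    refine (card_le_univ _).trans (le_of_eq ?_)
    rw [Fintype.card_fun, Fintype.card_bool, Fintype.card_fin]
  exact_mod_cast this

private lemma fu_main (h2 : St_Outer) (h3 : St_M) {K U : Type} [Fintype K] [DecidableEq K]
    [Fintype U] [DecidableEq U] (σ : Fin 3 → Equiv.Perm K) (h : (U → Bool) → Bool) (t r C : ℕ)
    (hK0 : 0 < Fintype.card K) (hKr : 4 * (r + 3) ≤ Fintype.card K)
    (hUp : UpP (up σ h) t (t + 1) (C * Fintype.card (Bk K U)))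
    (hFair : Fair (up σ h) (top K U))
    (hNP : NP (r + 3) σ h t (2 ^ (r + 3)) ((1 / 2) ^ (4 * (r + 3) + 4)))
    (hRS : RS1 (up σ h) (top K U) ((1 / 2) ^ (4 * (r + 3) + 4)))
    (n : ℕ) (hcn : Fintype.card (Bk K U) ≤ n) (α : ℝ) (hαr : α ≤ r) :
    ∃ F : (Fin n → Bool) → Bool, Easy n t C F ∧ Dens n F ∧ HardF n t α F := by
  obtain ⟨e⟩ : Nonempty (Bk K U ↪ Fin n) :=
    Function.Embedding.nonempty_of_card_le (by rwa [Fintype.card_fin])
  have he := e.injective
  have hmean : 1 / 2 ≤ Ex (fun x => bv (up σ h x)) ∧ Ex (fun x => bv (up σ h x)) ≤ 4 / 5 := by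
    have f1 := hFair ∅ (by simp) fun _ => false
    have f2 : Ex (fun x => bv (up σ h x)) =
        Ex (fun x => bv (up σ h (mix ∅ (fun _ => false) x))) := by
      apply Ex_congr
      intro x
      congr 2
    rw [f2]
    exact f1
  have hmean' : 1 / 2 ≤ Ex (fun x : Fin n → Bool => bv (up σ h fun v => x (e v))) ∧
      Ex (fun x : Fin n → Bool => bv (up σ h fun v => x (e v))) ≤ 4 / 5 := by
    rw [Ex_inj e he (fun y => bv (up σ h y))]
    exact hmean
  have hXr : ((1 : ℝ) / 2) ^ (4 * (r + 3) + 4) = 1 / (2 ^ r) ^ 4 / 65536 := by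
    rw [mul_add, pow_add, pow_add, pow_mul', one_div_pow, one_div_pow]
    norm_num [div_eq_mul_inv]
    ring
  refine ⟨fun x => !(up σ h fun v => x (e v)), ?_, ?_, ?_⟩
  · obtain ⟨L, hL, hlen, _, ⟨g, hg, hgf, hgl⟩, _⟩ := hUp
    obtain ⟨M, hM, hMlen, hall⟩ := hL.circuit e he
    obtain ⟨g', hg', _, a2, a3, a4⟩ := hall g hg
    refine ⟨M, hM, ?_, g', hg', a2.trans hgl, a3, ?_⟩
    · calc M.length ≤ L.length := hMlen
        _ ≤ C * Fintype.card (Bk K U) := hlen
        _ ≤ C * n := Nat.mul_le_mul_left _ hcn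
    · intro x
      rw [a4, hgf, Bool.not_not]
  · have f4 : Ex (fun x : Fin n → Bool => bv (!(up σ h fun v => x (e v)))) =
        1 - Ex (fun x : Fin n → Bool => bv (up σ h fun v => x (e v))) := by
      simp only [bv_not]
      rw [Ex_sub, Ex_const]
    constructor
    · have f5 : 1 / 5 ≤ Ex (fun x : Fin n → Bool => bv (!(up σ h fun v => x (e v)))) := by
        rw [f4]; linarith [hmean'.2]
      rw [fu_Ex_card, le_div_iff₀ (by positivity)] at f5
      have f6 : (2 : ℝ) ^ n ≤ 5 * ((univ.filter fun x : Fin n → Bool =>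
          (!(up σ h fun v => x (e v))) = true).card : ℝ) := by linarith
      exact_mod_cast f6
    · have f5 : Ex (fun x : Fin n → Bool => bv (!(up σ h fun v => x (e v)))) ≤ 1 / 2 := by
        rw [f4]; linarith [hmean'.1]
      rw [fu_Ex_card, div_le_iff₀ (by positivity)] at f5
      have f6 : 2 * ((univ.filter fun x : Fin n → Bool =>
          (!(up σ h fun v => x (e v))) = true).card : ℝ) ≤ (2 : ℝ) ^ n := by linarith
      exact_mod_cast f6
  · intro k L hk hL g hg hgt
    have hL1 : (1 : ℝ) ≤ L.length := by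
      exact_mod_cast List.length_pos_of_mem hg
    have hp : (2 : ℝ) ^ α ≤ 2 ^ r := by
      rw [← Real.rpow_natCast]
      exact Real.rpow_le_rpow_of_exponent_le (by norm_num) hαr
    have hp0 : (0 : ℝ) < 2 ^ α := by positivity
    rcases Nat.lt_or_ge (2 ^ r) L.length with hlt | hle
    · have c2 : (2 : ℝ) ^ r ≤ L.length := by exact_mod_cast hlt.le
      have big : ∀ X : ℝ, X ≤ 2 ^ n → (2 : ℝ) ^ α * X ≤ L.length * 2 ^ n := by
        intro X hX
        calc (2 : ℝ) ^ α * X ≤ (2 : ℝ) ^ α * 2 ^ n := by gcongr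
          _ ≤ 2 ^ r * 2 ^ n := by gcongr
          _ ≤ _ := by gcongr
      constructor
      · intro _
        apply big
        have a1 := fu_card_le fun x => g.f x = !(up σ h fun v => x (e v))
        have a2 : (0 : ℝ) ≤ ((univ.filter fun x : Fin n → Bool =>
          (!(up σ h fun v => x (e v))) = false).card : ℝ) := by positivity
        linarith
      · intro _
        apply big
        exact fu_card_le _
    · have hkr : k ≤ r := by exact_mod_cast hk.trans hαr
      have hL' := fu_mono hL (hkr.trans (Nat.le_add_right _ 3))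
      set X : ℝ := 2 ^ r with hX
      have hX1 : 1 ≤ X := one_le_pow₀ (by norm_num)
      have hX0 : 0 < X := by linarith
      have hXX : X ≤ X ^ 4 := by
        calc X = X ^ 1 := (pow_one X).symm
          _ ≤ X ^ 4 := pow_le_pow_right₀ hX1 (by norm_num)
      have hXX3 : X ≤ X ^ 3 := by
        calc X = X ^ 1 := (pow_one X).symm
          _ ≤ X ^ 3 := pow_le_pow_right₀ hX1 (by norm_num)
      have fin : ∀ Y : ℝ, Y / 2 ^ n ≤ 1 / X → (2 : ℝ) ^ α * Y ≤ L.length * 2 ^ n := by
        intro Y hY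
        rw [div_le_div_iff₀ (by positivity) hX0] at hY
        rcases le_or_gt 0 Y with hY0 | hY0
        · calc (2 : ℝ) ^ α * Y ≤ X * Y := by gcongr
            _ ≤ 1 * 2 ^ n := by linarith
            _ ≤ _ := by gcongr
        · have : (2 : ℝ) ^ α * Y ≤ 0 := mul_nonpos_of_nonneg_of_nonpos hp0.le hY0.le
          have h0 : (0 : ℝ) ≤ L.length * 2 ^ n := by positivity
          linarith
      constructor
      · intro hgd
        have hkc : Kc (r + 3) (t + 1) (2 ^ r) g.f g.vars := hL'.kc hle hg hgd (by omega)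
        have hMP := h3 K σ (r + 3) hK0 hKr U h _ _ t (2 ^ (r + 3)) (by positivity)
          (by positivity) hNP hRS hmean.2 1 (2 ^ r) Nat.one_le_two_pow (by
            rw [pow_one, pow_add]; omega)
        have hb := (hMP (Fin n) Unit (fun p => e p.2) (by
            rintro ⟨⟨⟩, u⟩ ⟨⟨⟩, v⟩ huv
            have huv' : u = v := he huv
            rw [huv']) {()} (by simp) (fun _ => true) g.f ∅ g.vars (fun _ _ _ => rfl)
            (Finset.disjoint_empty_left _) (by simp) hkc).1
        simp only [Finset.prod_singleton, bv_true, one_mul] at hb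
        rw [hXr] at hb
        -- the agreement
        have key : (((univ.filter fun x => g.f x = !(up σ h fun v => x (e v))).card : ℝ) -
            (univ.filter fun x : Fin n → Bool => (!(up σ h fun v => x (e v))) = false).card) /
              2 ^ n = -Ex (fun x => bv (g.f x) * (2 * bv (up σ h fun v => x (e v)) - 1)) := by
          have b1 := fu_Ex_card (fun x => decide (g.f x = !(up σ h fun v => x (e v))))
          have b2 := fu_Ex_card (fun x : Fin n → Bool =>
            decide ((!(up σ h fun v => x (e v))) = false))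
          simp only [decide_eq_true_eq] at b1 b2
          rw [sub_div, ← b1, ← b2, ← Ex_sub, ← Ex_neg]
          apply Ex_congr
          intro x
          cases g.f x <;> cases up σ h (fun v => x (e v)) <;> norm_num [bv]
        apply fin
        rw [key]
        have b3 : (1 / X ^ 4 / 65536 + 3 * (1 / X ^ 4 / 65536)) * (8 * 7 ^ 1 * ((2 ^ r : ℕ) : ℝ)) ^ 1
            ≤ 1 / X := by
          push_cast
          rw [← hX]
          have e2 : (1 / X ^ 4 / 65536 + 3 * (1 / X ^ 4 / 65536)) * (8 * 7 ^ 1 * X) ^ 1 =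
              224 / (65536 * X ^ 3) := by
            field_simp; ring
          rw [e2, div_le_div_iff₀ (by positivity) hX0]
          nlinarith
        have b4 : -Ex (fun x => bv (g.f x) * (2 * bv (up σ h fun v => x (e v)) - 1)) ≤
            (1 / X ^ 4 / 65536 + 3 * (1 / X ^ 4 / 65536)) *
              (8 * 7 ^ 1 * ((2 ^ r : ℕ) : ℝ)) ^ 1 := by linarith
        exact b4.trans b3
      · intro hgF
        have ho := hL'.oprog t (2 ^ (r + 3)) (hle.trans (Nat.pow_le_pow_right (by norm_num)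
          (by omega)))
        have hb := h2 K σ (r + 3) hK0 hKr U h _ _ t (2 ^ (r + 3)) (by positivity)
          (by positivity) hNP hRS
          (Fin n) e he _ ho (by
            rw [List.length_map]
            exact (List.length_filter_le _ _).trans (hle.trans (Nat.pow_le_pow_right (by norm_num)
              (by omega)))) g.toGt
          (List.mem_map_of_mem (List.mem_filter.2 ⟨hg, by simp [hgt]⟩)) (fun x hx => by
            have := hgF x hx
            simpa using this)
        apply fin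
        rw [← fu_Ex_card]
        refine hb.trans ?_
        rw [hXr]
        push_cast
        rw [pow_add, ← hX]
        have e2 : 2 * (X * 2 ^ 3) * (1 / X ^ 4 / 65536 + 3 * (1 / X ^ 4 / 65536)) =
            1 / (1024 * X ^ 3) := by
          field_simp; ring
        rw [e2]
        apply one_div_le_one_div_of_le hX0
        nlinarith

/-- a variable, for small `n` -/
private lemma fu_triv (n t : ℕ) (hn : 1 ≤ n) (α : ℝ) (hα : α ≤ 1) :
    ∃ F : (Fin n → Bool) → Bool, Easy n t 1 F ∧ Dens n F ∧ HardF n t α F := by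
  have hcard : (univ.filter fun x : Fin n → Bool => x ⟨0, hn⟩ = true).card * 2 = 2 ^ n := by
    have h1 := fu_Ex_card (fun x : Fin n → Bool => x ⟨0, hn⟩)
    rw [Ex_bit (V := Fin n) ⟨0, hn⟩ bv, eq_div_iff (by positivity)] at h1
    norm_num [bv] at h1
    have h2 : ((univ.filter fun x : Fin n → Bool => x ⟨0, hn⟩ = true).card : ℝ) * 2 = 2 ^ n := by
      linarith
    exact_mod_cast h2
  have hcard0 : (univ.filter fun x : Fin n → Bool => x ⟨0, hn⟩ = false).card * 2 = 2 ^ n := by
    have h1 := card_filter_add_card_filter_not (s := (univ : Finset (Fin n → Bool)))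
      (fun x => x ⟨0, hn⟩ = true)
    rw [card_univ, Fintype.card_fun, Fintype.card_bool, Fintype.card_fin] at h1
    have h2 : (univ.filter fun x : Fin n → Bool => ¬ x ⟨0, hn⟩ = true) =
        univ.filter fun x : Fin n → Bool => x ⟨0, hn⟩ = false := by
      apply Finset.filter_congr
      intro x _
      simp
    rw [h2] at h1
    omega
  refine ⟨fun x => x ⟨0, hn⟩, ?_, ⟨?_, ?_⟩, ?_⟩
  rotate_left
  · show 2 ^ n ≤ 5 * (univ.filter fun x : Fin n → Bool => x ⟨0, hn⟩ = true).card
    omega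
  · show 2 * (univ.filter fun x : Fin n → Bool => x ⟨0, hn⟩ = true).card ≤ 2 ^ n
    omega
  rotate_left
  · refine ⟨[⟨{⟨0, hn⟩}, 0, true, fun x => !x ⟨0, hn⟩⟩], ?_, by simpa using hn, _,
      List.mem_singleton_self _, Nat.zero_le _, rfl, fun _ => rfl⟩
    refine IsCircuit.leaf [] _ _ IsCircuit.nil (by simp) ?_
    intro x y hxy
    rw [hxy ⟨0, hn⟩ (by simp)]
  · intro k L hk hL g hg hgt
    have hL1 : (1 : ℝ) ≤ L.length := by
      exact_mod_cast List.length_pos_of_mem hg
    have hp : (2 : ℝ) ^ α ≤ 2 := by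
      calc (2 : ℝ) ^ α ≤ 2 ^ (1 : ℝ) := Real.rpow_le_rpow_of_exponent_le (by norm_num) hα
        _ = 2 := Real.rpow_one 2
    have hp0 : (0 : ℝ) < 2 ^ α := by positivity
    have fin : ∀ Y : ℝ, 2 * Y ≤ 2 ^ n → (2 : ℝ) ^ α * Y ≤ L.length * 2 ^ n := by
      intro Y hY
      have h0 : (0 : ℝ) < 2 ^ n := by positivity
      rcases le_or_gt 0 Y with hY0 | hY0
      · calc (2 : ℝ) ^ α * Y ≤ 2 * Y := by gcongr
          _ ≤ 1 * 2 ^ n := by linarith
          _ ≤ _ := by gcongr
      · have : (2 : ℝ) ^ α * Y ≤ 0 := mul_nonpos_of_nonneg_of_nonpos hp0.le hY0.le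
        have h0 : (0 : ℝ) ≤ L.length * 2 ^ n := by positivity
        linarith
    constructor
    · intro _
      apply fin
      have a1 := fu_card_le fun x => g.f x = x ⟨0, hn⟩
      have a2 : ((univ.filter fun x : Fin n → Bool => x ⟨0, hn⟩ = false).card : ℝ) * 2 = 2 ^ n := by
        exact_mod_cast hcard0
      linarith
    · intro hgF
      apply fin
      have a1 : (univ.filter fun x => g.f x = true).card ≤
          (univ.filter fun x : Fin n → Bool => x ⟨0, hn⟩ = true).card := by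
        apply card_le_card
        intro x hx
        simp only [mem_filter, mem_univ, true_and] at hx ⊢
        exact hgF x hx
      have a2 : 2 * (univ.filter fun x => g.f x = true).card ≤ 2 ^ n := by omega
      exact_mod_cast a2

/-- the final statement without the formula -/
theorem fu_final (h1 : St_ParU) (h2 : St_Outer) (h3 : St_M) :
    ∃ (c : ℝ) (C : ℕ), 0 < c ∧ ∀ t n : ℕ, 1 ≤ n → ∃ F : (Fin n → Bool) → Bool,
      Easy n t C F ∧ Dens n F ∧ HardF n t (c * (n : ℝ) ^ (1 / (2 ^ (t + 1) - 1) : ℝ)) F := by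
  obtain ⟨A₀, C, hD⟩ := h1
  -- make `A` positive
  obtain ⟨A, hA, hA1⟩ : ∃ A : ℕ, A₀ ≤ A ∧ 1 ≤ A := ⟨A₀ + 1, by omega, by omega⟩
  have hAR : (1 : ℝ) ≤ A := by exact_mod_cast hA1
  have hA2 : (1 : ℝ) ≤ (A : ℝ) ^ 2 := one_le_pow₀ hAR
  refine ⟨1 / (10 * (A : ℝ) ^ 2), C + 1, by positivity, fun t n hn => ?_⟩
  set e : ℕ := 2 ^ (t + 1) - 1 with he
  have hpow : 2 ≤ 2 ^ (t + 1) := by
    calc 2 = 2 ^ 1 := rfl
      _ ≤ 2 ^ (t + 1) := Nat.pow_le_pow_right (by norm_num) (by omega)
  have he1 : 1 ≤ e := by omega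
  have heR : ((2 : ℝ) ^ (t + 1) - 1) = (e : ℝ) := by
    rw [he, Nat.cast_sub (by omega)]
    push_cast
    ring
  rw [heR]
  have hnR : (1 : ℝ) ≤ n := by exact_mod_cast hn
  set β : ℝ := (n : ℝ) ^ (1 / (e : ℝ)) with hβ
  have hβ1 : 1 ≤ β := Real.one_le_rpow hnR (by positivity)
  have hβe : β ^ e = n := by
    rw [hβ, ← Real.rpow_natCast, ← Real.rpow_mul (by positivity), one_div,
      inv_mul_cancel₀ (by positivity), Real.rpow_one]
  rcases lt_or_ge β (10 * (A : ℝ) ^ 2) with hsmall | hbig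
  · obtain ⟨F, ⟨L, q1, q2, q3⟩, f2, f3⟩ := fu_triv n t hn (1 / (10 * (A : ℝ) ^ 2) * β) (by
      rw [one_div, inv_mul_le_iff₀ (by positivity)]; linarith)
    exact ⟨F, ⟨L, q1, q2.trans (Nat.mul_le_mul_right _ (by omega)), q3⟩, f2, f3⟩
  · -- `r + 4 = ⌊β / A ^ 2⌋`
    set m : ℕ := ⌊β / (A : ℝ) ^ 2⌋₊ with hm
    have hm1 : (m : ℝ) ≤ β / (A : ℝ) ^ 2 := Nat.floor_le (by positivity)
    have hm2 : β / (A : ℝ) ^ 2 < m + 1 := Nat.lt_floor_add_one _
    have hm10 : 10 ≤ m := by
      apply Nat.le_floor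
      rw [le_div_iff₀ (by positivity)]
      exact_mod_cast hbig
    obtain ⟨r, hr⟩ : ∃ r, m = r + 4 := ⟨m - 4, by omega⟩
    obtain ⟨K, U, i1, i2, i3, i4, σ, h, hK0, hKr, hcard, hUp, hFair, hNP, hRS⟩ := hD t (r + 3)
    have hαr : 1 / (10 * (A : ℝ) ^ 2) * β ≤ r := by
      have e1 : 1 / (10 * (A : ℝ) ^ 2) * β = (β / (A : ℝ) ^ 2) / 10 := by
        field_simp
      rw [e1]
      have e2 : (m : ℝ) = r + 4 := by rw [hr]; push_cast; ring
      have e3 : (10 : ℝ) ≤ m := by exact_mod_cast hm10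
      linarith
    have hcn : Fintype.card (Bk K U) ≤ n := by
      have e1 : ((Fintype.card (Bk K U) : ℕ) : ℝ) * m ≤ ((A : ℝ) * m) ^ (e + 1) := by
        have e2 : Fintype.card (Bk K U) * m ≤ (A * m) ^ (e + 1) := by
          have e3 : r + 3 + 1 = m := by omega
          have e4 : 2 ^ (t + 1) = e + 1 := by omega
          rw [e3, e4] at hcard
          exact hcard.trans (Nat.pow_le_pow_left (Nat.mul_le_mul_right _ hA) _)
        exact_mod_cast e2
      have hm0 : (0 : ℝ) < m := by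
        have : (10 : ℝ) ≤ m := by exact_mod_cast hm10
        linarith
      have e5 : ((A : ℝ) * m) ^ (e + 1) = (A * ((A : ℝ) * m) ^ e) * m := by
        rw [pow_succ]; ring
      rw [e5] at e1
      have e6 : ((Fintype.card (Bk K U) : ℕ) : ℝ) ≤ A * ((A : ℝ) * m) ^ e :=
        le_of_mul_le_mul_right e1 hm0
      have e7 : (A : ℝ) * m ≤ β / A := by
        rw [le_div_iff₀ (by positivity)]
        rw [le_div_iff₀ (by positivity)] at hm1
        nlinarith
      have e8 : (A : ℝ) * ((A : ℝ) * m) ^ e ≤ n := by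
        calc (A : ℝ) * ((A : ℝ) * m) ^ e ≤ A * (β / A) ^ e := by gcongr
          _ = A * (n / (A : ℝ) ^ e) := by rw [div_pow, hβe]
          _ ≤ A * (n / A) := by
              have : (A : ℝ) ≤ (A : ℝ) ^ e := by
                calc (A : ℝ) = (A : ℝ) ^ 1 := (pow_one _).symm
                  _ ≤ (A : ℝ) ^ e := pow_le_pow_right₀ hAR he1
              gcongr
          _ = n := by field_simp
      exact_mod_cast e6.trans e8
    obtain ⟨F, ⟨L, q1, q2, q3⟩, f2, f3⟩ := fu_main h2 h3 σ h t r C hK0 hKr hUp hFair hNP hRS n hcn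
      _ hαr
    exact ⟨F, ⟨L, q1, q2.trans (Nat.mul_le_mul_right _ (by omega)), q3⟩, f2, f3⟩

/-- a 3-CNF formula for the complement of a gate -/
private lemma fu_cnf (n C : ℕ) (F : (Fin n → Bool) → Bool)
    (L : List (Gate (Fin n))) (hL : IsCircuit 1 L) (hlen : L.length ≤ C * n) (g : Gate (Fin n))
    (hg : g ∈ L) (hdet : g.det = true) (hF : ∀ x, g.f x = !F x) :
    ∃ (s : ℕ) (φ : CNF (Fin n ⊕ Fin s)), s ≤ C * n + 1 ∧ φ.length ≤ 3 * (C * n) + 4 ∧
      (∀ K ∈ φ, K.length ≤ 3) ∧
      ∀ x, (F x = true → ∃! y : Fin s → Bool, Sat φ (Sum.elim x y)) ∧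
        (F x = false → ∀ y : Fin s → Bool, ¬ Sat φ (Sum.elim x y)) := by
  have hL' := IsCircuit.not L g hL hg hdet
  obtain ⟨φ, p1, p2, p3, p4⟩ := tseitin _ hL' _ List.mem_cons_self
  have e0 : (⟨g.vars, g.negs + 1, true, fun x => !g.f x⟩ :: L).length = L.length + 1 :=
    List.length_cons
  generalize (⟨g.vars, g.negs + 1, true, fun x => !g.f x⟩ :: L).length = s at e0 φ p1 p2 p3 p4
  refine ⟨s, φ, by omega, by omega, p2, fun x => ⟨fun hx => ?_, fun hx => ?_⟩⟩
  · exact p3 x (by show (!g.f x) = true; rw [hF, hx]; rfl)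
  · exact p4 x (by show (!g.f x) = false; rw [hF, hx]; rfl)

/-- the final statement -/
def St_ResultU : Prop :=
  ∃ (c : ℝ) (C : ℕ), 0 < c ∧ ∀ t n : ℕ, 1 ≤ t → 1 ≤ n → ∃ F : (Fin n → Bool) → Bool,
    (∃ L : List (Gate (Fin n)), IsCircuit 1 L ∧ L.length ≤ C * n ∧
      ∃ g ∈ L, g.negs ≤ t ∧ g.det = true ∧ ∀ x, g.f x = !F x) ∧
    (∃ (s : ℕ) (φ : CNF (Fin n ⊕ Fin s)), s ≤ C * n ∧ φ.length ≤ C * n ∧
      (∀ K ∈ φ, K.length ≤ 3) ∧
      ∀ x, (F x = true → ∃! y : Fin s → Bool, Sat φ (Sum.elim x y)) ∧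
        (F x = false → ∀ y : Fin s → Bool, ¬ Sat φ (Sum.elim x y))) ∧
    (2 ^ n ≤ 5 * (univ.filter fun x => F x = true).card ∧
      2 * (univ.filter fun x => F x = true).card ≤ 2 ^ n) ∧
    ∀ (k : ℕ) (L : List (Gate (Fin n))), (k : ℝ) ≤ c * n ^ (1 / (2 ^ (t + 1) - 1) : ℝ) →
      IsCircuit k L → ∀ g ∈ L, g.negs ≤ t →
      (g.det = true →
        (2 : ℝ) ^ (c * n ^ (1 / (2 ^ (t + 1) - 1) : ℝ)) *
          ((univ.filter fun x => g.f x = F x).card - (univ.filter fun x => F x = false).card) ≤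
          L.length * 2 ^ n) ∧
      ((∀ x, g.f x = true → F x = true) →
        (2 : ℝ) ^ (c * n ^ (1 / (2 ^ (t + 1) - 1) : ℝ)) * (univ.filter fun x => g.f x = true).card ≤
          L.length * 2 ^ n)

theorem thm_FinalU (h1 : St_ParU) (h2 : St_Outer) (h3 : St_M) : St_ResultU := by
  obtain ⟨c, C, hc, h⟩ := fu_final h1 h2 h3
  refine ⟨c, 3 * C + 4, hc, fun t n _ hn => ?_⟩
  obtain ⟨F, ⟨L, q1, q2, g, hg, q3, q4, q5⟩, f2, f3⟩ := h t n hn
  obtain ⟨s, φ, r1, r2, r3, r4⟩ := fu_cnf n C F L q1 q2 g hg q4 q5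
  have e1 : C * n ≤ (3 * C + 4) * n := Nat.mul_le_mul_right _ (by omega)
  have e2 : 3 * (C * n) + 4 ≤ (3 * C + 4) * n := by nlinarith
  exact ⟨F, ⟨L, q1, q2.trans e1, g, hg, q3, q4, q5⟩,
    ⟨s, φ, by nlinarith, r2.trans e2, r3, r4⟩, f2, f3⟩

end Pool.Agent.NH
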