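import Pool.Agent.NH.FinalU

/-!
# The negation hierarchy: the final theorem for all `t ≥ 0`
-/

set_option autoImplicit false

namespace Pool.Agent.NH

open Finset

private lemma fz_cnf (n C : ℕ) (F : (Fin n → Bool) → Bool)
    (L : List (Gate (Fin n))) (hL : IsCircuit 1 L) (hlen : L.length ≤ C * n) (g : Gate (Fin n))
    (hg : g ∈ L) (hdet : g.det = true) (hF : ∀ x, g.f x = !F x) :
    ∃ (s : ℕ) (φ : CNF (Fin n ⊕ Fin s)), s ≤ C * n + 1 ∧ φ.length ≤ 3 * (C * n) + 4 ∧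
      (∀ K ∈ φ, K.length ≤ 3) ∧
      ∀ x, (F x = true → ∃! y : Fin s → Bool, Sat φ (Sum.elim x y)) ∧
        (F x = false → ∀ y : Fin s → Bool, ¬ Sat φ (Sum.elim x y)) := by
  have hL' := IsCircuit.not L g hL hg hdet
  obtain ⟨φ, p1, p2, p3, p4⟩ := tseitin _ hL' _ List.mem_cons_self
  have e0 : (⟨g.vars, g.negs + 1, true, fun x => !g.f x⟩ :: L).length = L.length + 1 :=
    List.length_cons
  generalize (⟨g.vars, g.negs + 1, true, fun x => !g.f x⟩ :: L).length = s at e0 φ p1 p2 p3 p4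
  refine ⟨s, φ, by omega, by omega, p2, fun x => ⟨fun hx => ?_, fun hx => ?_⟩⟩
  · exact p3 x (by show (!g.f x) = true; rw [hF, hx]; rfl)
  · exact p4 x (by show (!g.f x) = false; rw [hF, hx]; rfl)

/-- the final statement, for all `t ≥ 0` -/
theorem thm_FinalZ (h1 : St_ParU) (h2 : St_Outer) (h3 : St_M) :
    ∃ (c : ℝ) (C : ℕ), 0 < c ∧ ∀ t n : ℕ, 1 ≤ n → ∃ F : (Fin n → Bool) → Bool,
    (∃ L : List (Gate (Fin n)), IsCircuit 1 L ∧ L.length ≤ C * n ∧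
      ∃ g ∈ L, g.negs ≤ t ∧ g.det = true ∧ ∀ x, g.f x = !F x) ∧
    (∃ (s : ℕ) (φ : CNF (Fin n ⊕ Fin s)), s ≤ C * n ∧ φ.length ≤ C * n ∧
      (∀ K ∈ φ, K.length ≤ 3) ∧
      ∀ x, (F x = true → ∃! y : Fin s → Bool, Sat φ (Sum.elim x y)) ∧
        (F x = false → ∀ y : Fin s → Bool, ¬ Sat φ (Sum.elim x y))) ∧
    (2 ^ n ≤ 5 * (univ.filter fun x => F x = true).card ∧
      2 * (univ.filter fun x => F x = true).card ≤ 2 ^ n) ∧
    ∀ (k : ℕ) (L : List (Gate (Fin n))), (k : ℝ) ≤ c * n ^ (1 / (2 ^ (t + 1) - 1) : ℝ) →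
      IsCircuit k L → ∀ g ∈ L, g.negs ≤ t →
      (g.det = true →
        (2 : ℝ) ^ (c * n ^ (1 / (2 ^ (t + 1) - 1) : ℝ)) *
          ((univ.filter fun x => g.f x = F x).card - (univ.filter fun x => F x = false).card) ≤
          L.length * 2 ^ n) ∧
      ((∀ x, g.f x = true → F x = true) →
        (2 : ℝ) ^ (c * n ^ (1 / (2 ^ (t + 1) - 1) : ℝ)) * (univ.filter fun x => g.f x = true).card ≤
          L.length * 2 ^ n) := by
  obtain ⟨c, C, hc, h⟩ := fu_final h1 h2 h3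
  refine ⟨c, 3 * C + 4, hc, fun t n hn => ?_⟩
  obtain ⟨F, ⟨L, q1, q2, g, hg, q3, q4, q5⟩, f2, f3⟩ := h t n hn
  obtain ⟨s, φ, r1, r2, r3, r4⟩ := fz_cnf n C F L q1 q2 g hg q4 q5
  have e1 : C * n ≤ (3 * C + 4) * n := Nat.mul_le_mul_right _ (by omega)
  have e2 : 3 * (C * n) + 4 ≤ (3 * C + 4) * n := by nlinarith
  exact ⟨F, ⟨L, q1, q2.trans e1, g, hg, q3, q4, q5⟩,
    ⟨s, φ, by nlinarith, r2.trans e2, r3, r4⟩, f2, f3⟩

end Pool.Agent.NH
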