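import Pool.Agent.NH.Defs
import Pool.Agent.NH.Base

/-!
# The negation hierarchy, module Fix: the functions `S` are unbiased if all variables except three
quarters of the top bits are fixed
-/

set_option autoImplicit false

namespace Pool.Agent.NH

open Finset

/-- choice of the edges -/
private theorem fix_edges {K : Type} [Fintype K] [DecidableEq K] (σ : Fin 3 → Equiv.Perm K)
    (hFar : St_Far) (hs : Simple σ) {U : Type} [Fintype U] [DecidableEq U] (c : Fin 3)
    (F : Finset (Bk K U)) (hF : 2 * (top K U ∩ F).card ≤ Fintype.card K) :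
    ∃ Q : Finset K, FarE σ c Q ∧ Fintype.card K ≤ 10 * Q.card ∧
      (∀ i ∈ Q, (Sum.inl (Sum.inl i) : Bk K U) ∉ F) ∧
      ∀ i ∈ Q, (Sum.inl (Sum.inr (σ c i)) : Bk K U) ∉ F := by
  classical
  let N : Finset K := univ.filter fun i => (Sum.inl (Sum.inl i) : Bk K U) ∈ F ∨
    (Sum.inl (Sum.inr (σ c i)) : Bk K U) ∈ F
  let f : K → Bk K U := fun i => if (Sum.inl (Sum.inl i) : Bk K U) ∈ F then Sum.inl (Sum.inl i)
    else Sum.inl (Sum.inr (σ c i))
  have h1 : N.card ≤ (top K U ∩ F).card := by
    apply Finset.card_le_card_of_injOn f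
    · intro i hi
      have hi2 := (Finset.mem_filter.1 hi).2
      show f i ∈ ((top K U ∩ F : Finset (Bk K U)) : Set (Bk K U))
      rw [Finset.mem_coe, Finset.mem_inter]
      by_cases h : (Sum.inl (Sum.inl i) : Bk K U) ∈ F
      · have e : f i = Sum.inl (Sum.inl i) := if_pos h
        rw [e]
        exact ⟨Finset.mem_image_of_mem _ (Finset.mem_univ _), h⟩
      · have e : f i = Sum.inl (Sum.inr (σ c i)) := if_neg h
        rw [e]
        exact ⟨Finset.mem_image_of_mem _ (Finset.mem_univ _), hi2.resolve_left h⟩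
    · intro i _ j _ hij
      by_cases h : (Sum.inl (Sum.inl i) : Bk K U) ∈ F
      · have e : f i = Sum.inl (Sum.inl i) := if_pos h
        by_cases h' : (Sum.inl (Sum.inl j) : Bk K U) ∈ F
        · have e' : f j = Sum.inl (Sum.inl j) := if_pos h'
          rw [e, e'] at hij
          exact Sum.inl.inj (Sum.inl.inj hij)
        · have e' : f j = Sum.inl (Sum.inr (σ c j)) := if_neg h'
          rw [e, e'] at hij
          exact absurd hij (by simp)
      · have e : f i = Sum.inl (Sum.inr (σ c i)) := if_neg h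
        by_cases h' : (Sum.inl (Sum.inl j) : Bk K U) ∈ F
        · have e' : f j = Sum.inl (Sum.inl j) := if_pos h'
          rw [e, e'] at hij
          exact absurd hij (by simp)
        · have e' : f j = Sum.inl (Sum.inr (σ c j)) := if_neg h'
          rw [e, e'] at hij
          exact (σ c).injective (Sum.inr.inj (Sum.inl.inj hij))
  obtain ⟨Q, hQP, hQ, hPQ⟩ := (hFar K σ hs).1 c Nᶜ
  have h2 := Finset.card_add_card_compl N
  have hN : ∀ i ∈ Q, (Sum.inl (Sum.inl i) : Bk K U) ∉ F ∧
      (Sum.inl (Sum.inr (σ c i)) : Bk K U) ∉ F := by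
    intro i hi
    have h3 := Finset.mem_compl.1 (hQP hi)
    refine ⟨fun h => h3 (Finset.mem_filter.2 ⟨Finset.mem_univ _, Or.inl h⟩),
      fun h => h3 (Finset.mem_filter.2 ⟨Finset.mem_univ _, Or.inr h⟩)⟩
  exact ⟨Q, hQ, by omega, fun i hi => (hN i hi).1, fun i hi => (hN i hi).2⟩

private theorem fix_cancel (a b : Bool) : xor (xor a b) a = b := by cases a <;> cases b <;> rfl

private theorem fix_bit {V : Type} [Fintype V] [DecidableEq V] (v : V) (b s : Bool) :
    Ex (fun y : V → Bool => if xor (y v) b = s then (1 : ℝ) else 0) ≤ 1 / 2 := by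
  have h := Ex_bit v (fun t : Bool => if xor t b = s then (1 : ℝ) else 0)
  rw [h]
  cases b <;> cases s <;> norm_num

/-- [Fix] -/
theorem thm_Fix (hCrs : St_Crs) (hFar : St_Far) : St_Fix := by
  classical
  intro K _ _ σ hs U _ _ h F hF z₀ L hL
  obtain ⟨c, hc⟩ := hL
  obtain ⟨Q, hQ, hQc, hp, hq⟩ := fix_edges σ hFar hs c F hF
  let z : (Bk K U → Bool) → Vx K → Bool := fun x => vals h (mix F z₀ x)
  have hz : ∀ x v, z x v = xor (mix F z₀ x (Sum.inl v)) (h fun u => mix F z₀ x (Sum.inr (v, u))) :=
    fun x v => rfl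
  let R : Finset (Bk K U) := Q.image fun i => Sum.inl (Sum.inr (σ c i))
  have hRr : ∀ v, (Sum.inr v : Bk K U) ∉ R := by
    intro v hv
    obtain ⟨i, -, h3⟩ := Finset.mem_image.1 hv
    exact absurd h3 (by simp)
  have hRl : ∀ i, (Sum.inl (Sum.inl i) : Bk K U) ∉ R := by
    intro v hv
    obtain ⟨i, -, h3⟩ := Finset.mem_image.1 hv
    exact absurd h3 (by simp)
  -- the values of two inputs
  have hmix : ∀ (x y : Bk K U → Bool) (v : Bk K U), x v = y v → mix F z₀ x v = mix F z₀ y v := by
    intro x y v hv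
    by_cases h3 : v ∈ F
    · rw [mix_mem h3, mix_mem h3]
    · rw [mix_not_mem h3, mix_not_mem h3, hv]
  have hcr := hCrs K σ c (Bk K U) z Q hQ Sum.inl (fun i => Sum.inr (σ c i))
    (fun i => Sum.inl (Sum.inl i)) R ((1 / 2) ^ Q.card) (fun i _ => Or.inl ⟨rfl, rfl⟩)
    (fun i _ j _ hij => Sum.inl.inj (Sum.inl.inj hij)) (fun i _ => hRl i)
    (fun i hi x y hxy => by
      rw [hz, hz, mix_not_mem (hp i hi), mix_not_mem (hp i hi), fix_cancel, fix_cancel]
      congr 1
      funext u
      apply hmix
      apply hxy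
      intro j _ h3
      exact absurd h3 (by simp))
    (fun v hv x y hxy => by
      rw [hz, hz]
      have h3 : mix F z₀ x (Sum.inl v) = mix F z₀ y (Sum.inl v) := by
        apply hmix
        apply hxy
        intro j hj h4
        exact hv j hj (Sum.inl.inj h4)
      have h4 : (fun u => mix F z₀ x (Sum.inr (v, u))) =
          fun u => mix F z₀ y (Sum.inr (v, u)) := by
        funext u
        apply hmix
        apply hxy
        intro j _ h3
        exact absurd h3 (by simp)
      rw [h3, h4])
    (fun v hv x y hxy => by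
      rw [hz, hz]
      have h3 : mix F z₀ x (Sum.inl v) = mix F z₀ y (Sum.inl v) := by
        apply hmix
        apply hxy
        intro h4
        obtain ⟨i, hi, h5⟩ := Finset.mem_image.1 h4
        exact hv i hi (Sum.inl.inj h5).symm
      have h4 : (fun u => mix F z₀ x (Sum.inr (v, u))) =
          fun u => mix F z₀ y (Sum.inr (v, u)) := by
        funext u
        apply hmix
        exact hxy _ (hRr _)
      rw [h3, h4])
    (fun x s => by
      let κ : K → Bool := fun i => h fun u => mix F z₀ x (Sum.inr (Sum.inr (σ c i), u))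
      let G : K → (Bk K U → Bool) → ℝ := fun i y =>
        if xor (y (Sum.inl (Sum.inr (σ c i)))) (κ i) = s i then 1 else 0
      have e0 : ∀ y, ∀ i ∈ Q, z (mix R y x) (Sum.inr (σ c i)) =
          xor (y (Sum.inl (Sum.inr (σ c i)))) (κ i) := by
        intro y i hi
        have h3 : (Sum.inl (Sum.inr (σ c i)) : Bk K U) ∈ R := Finset.mem_image_of_mem _ hi
        rw [hz, mix_not_mem (hq i hi), mix_mem h3]
        congr 2
        funext u
        apply hmix
        exact mix_not_mem (hRr _)
      have e1 : ∀ y : Bk K U → Bool,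
          (if ∀ i ∈ Q, z (mix R y x) (Sum.inr (σ c i)) = s i then (1 : ℝ) else 0) =
          ∏ i ∈ Q, G i y := by
        intro y
        by_cases h3 : ∀ i ∈ Q, z (mix R y x) (Sum.inr (σ c i)) = s i
        · rw [if_pos h3]
          symm
          refine Finset.prod_eq_one fun i hi => ?_
          have h4 := h3 i hi
          rw [e0 y i hi] at h4
          exact if_pos h4
        · rw [if_neg h3]
          push Not at h3
          obtain ⟨i, hi, h4⟩ := h3
          rw [e0 y i hi] at h4
          symm
          exact Finset.prod_eq_zero hi (if_neg h4)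
      have e2 : ∀ i ∈ Q, DepOn (G i) {Sum.inl (Sum.inr (σ c i))} := by
        intro i hi y y' hyy
        show (if xor (y (Sum.inl (Sum.inr (σ c i)))) (κ i) = s i then (1 : ℝ) else 0) =
          if xor (y' (Sum.inl (Sum.inr (σ c i)))) (κ i) = s i then (1 : ℝ) else 0
        rw [hyy _ (Finset.mem_singleton_self _)]
      have e3 : ∀ i ∈ Q, ∀ j ∈ Q, i ≠ j → Disjoint ({Sum.inl (Sum.inr (σ c i))} : Finset (Bk K U))
          {Sum.inl (Sum.inr (σ c j))} := by
        intro i _ j _ hij
        rw [Finset.disjoint_singleton]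
        intro h3
        exact hij ((σ c).injective (Sum.inr.inj (Sum.inl.inj h3)))
      rw [Ex_congr e1, Ex_prod Q G _ e2 e3, ← Finset.prod_const]
      refine Finset.prod_le_prod (fun i _ => Ex_nonneg fun y => ?_) fun i _ => fix_bit _ _ _
      show (0 : ℝ) ≤ if xor (y (Sum.inl (Sum.inr (σ c i)))) (κ i) = s i then (1 : ℝ) else 0
      split_ifs
      · exact zero_le_one
      · exact le_rfl)
    L hc (fun _ => 1) (fun _ => 1) (fun x => by rw [abs_one]) (fun x => by rw [abs_one])
    (fun x y _ => rfl) (fun x y _ => rfl)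
  have e5 : (fun x => Sg σ L (vals h (mix F z₀ x))) =
      fun x => (1 : ℝ) * 1 * Sg σ L (z x) := by
    funext x
    show _ = 1 * 1 * Sg σ L (vals h (mix F z₀ x))
    ring
  rw [e5]
  refine hcr.trans ?_
  have e6 : Real.sqrt ((1 / 2) ^ Q.card) ≤ (9 / 10) ^ Q.card := by
    rw [Real.sqrt_le_left (by positivity), ← pow_mul, mul_comm, pow_mul]
    exact pow_le_pow_left₀ (by norm_num) (by norm_num) _
  refine e6.trans ?_
  exact pow_le_pow_of_le_one (by norm_num) (by norm_num) (by omega)

end Pool.Agent.NH
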