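import Pool.Agent.NH.Defs

/-!
# The negation hierarchy (MP_4ed1f9_lc): the honeycomb torus

Three disjoint perfect matchings between two copies of `Fin (n * n)` such that every set of vertices
with share between `1 / 16` and `15 / 16` is crossed by at least `n / 32` edges of one colour.
-/

namespace Pool.Agent.NH

open Finset

private lemma hex_rot_const {n : ℕ} (P : Fin n → Prop) (h : ∀ a, P a ↔ P (finRotate n a)) :
    ∀ a b, P a ↔ P b := by
  rcases n with _ | n
  · intro a; exact a.elim0
  have h0 : ∀ k (hk : k < n + 1), P ⟨k, hk⟩ ↔ P 0 := by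
    intro k
    induction k with
    | zero => intro hk; exact Iff.rfl
    | succ k ih =>
      intro hk
      rw [← ih (by omega), h ⟨k, by omega⟩]
      rw [finRotate_of_lt (by omega : k < n)]
  intro a b
  rw [h0 a.1 a.2, h0 b.1 b.2]

private lemma hex_rot_ne {n : ℕ} (hn : 2 ≤ n) (a : Fin n) : finRotate n a ≠ a := by
  obtain ⟨n, rfl⟩ : ∃ k, n = k + 1 := ⟨n - 1, by omega⟩
  rcases Nat.lt_or_ge a.1 n with h | h
  · have : a = ⟨a.1, by omega⟩ := rfl
    rw [this, finRotate_of_lt h]
    intro h'
    have := congrArg Fin.val h'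
    simp at this
  · have ha : a = ⟨n, Nat.lt_succ_self n⟩ := Fin.ext (by have := a.2; simp; omega)
    rw [ha, finRotate_last']
    intro h'
    have := congrArg Fin.val h'
    simp at this
    omega

/-- one direction of the argument, on the grid: `L`, `R` are the two copies -/
private lemma hex_grid {n : ℕ} (hn : 2 ≤ n) (L R : Finset (Fin n × Fin n))
    (X0 X1 X2 : Finset (Fin n × Fin n))
    (h0 : ∀ a b, (a, b) ∉ X0 → ((a, b) ∈ L ↔ (a, b) ∈ R))
    (h1 : ∀ a b, (a, b) ∉ X1 → ((a, b) ∈ L ↔ (finRotate n a, b) ∈ R))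
    (h2 : ∀ a b, (a, b) ∉ X2 → ((a, b) ∈ L ↔ (a, finRotate n b) ∈ R))
    (c0 : 32 * X0.card < n) (c1 : 32 * X1.card < n) (c2 : 32 * X2.card < n) :
    16 * (L.card + R.card) < 2 * (n * n) ∨ 15 * (2 * (n * n)) < 16 * (L.card + R.card) := by
  classical
  -- rows and columns without crossing edges
  set Br := (X0 ∪ X1).image Prod.snd with hBr
  set Bc := (X0 ∪ X2).image Prod.fst with hBc
  have hBr' : 16 * Br.card < n := by
    have a1 : Br.card ≤ (X0 ∪ X1).card := card_image_le
    have a2 := card_union_le X0 X1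
    omega
  have hBc' : 16 * Bc.card < n := by
    have a1 : Bc.card ≤ (X0 ∪ X2).card := card_image_le
    have a2 := card_union_le X0 X2
    omega
  have row : ∀ b, b ∉ Br → ∀ a a', ((a, b) ∈ L ↔ (a', b) ∈ L) ∧ ((a, b) ∈ L ↔ (a', b) ∈ R) := by
    intro b hb
    have n0 : ∀ a, (a, b) ∉ X0 := fun a ha =>
      hb (mem_image.2 ⟨(a, b), mem_union_left _ ha, rfl⟩)
    have n1 : ∀ a, (a, b) ∉ X1 := fun a ha =>
      hb (mem_image.2 ⟨(a, b), mem_union_right _ ha, rfl⟩)
    have key : ∀ a a', (a, b) ∈ R ↔ (a', b) ∈ R := by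
      apply hex_rot_const (fun a => (a, b) ∈ R)
      intro a
      rw [← h0 a b (n0 a), h1 a b (n1 a)]
    intro a a'
    exact ⟨by rw [h0 a b (n0 a), h0 a' b (n0 a'), key a a'], by rw [h0 a b (n0 a), key a a']⟩
  have col : ∀ a, a ∉ Bc → ∀ b b', ((a, b) ∈ L ↔ (a, b') ∈ L) := by
    intro a ha
    have n0 : ∀ b, (a, b) ∉ X0 := fun b hb =>
      ha (mem_image.2 ⟨(a, b), mem_union_left _ hb, rfl⟩)
    have n2 : ∀ b, (a, b) ∉ X2 := fun b hb =>
      ha (mem_image.2 ⟨(a, b), mem_union_right _ hb, rfl⟩)
    have key : ∀ b b', (a, b) ∈ R ↔ (a, b') ∈ R := by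
      apply hex_rot_const (fun b => (a, b) ∈ R)
      intro b
      rw [← h0 a b (n0 b), h2 a b (n2 b)]
    intro b b'
    rw [h0 a b (n0 b), h0 a b' (n0 b'), key b b']
  obtain ⟨a₀, ha₀⟩ : ∃ a, a ∉ Bc := by
    by_contra h
    push Not at h
    have : (univ : Finset (Fin n)).card ≤ Bc.card := card_le_card fun a _ => h a
    rw [card_univ, Fintype.card_fin] at this
    omega
  obtain ⟨b₀, hb₀⟩ : ∃ b, b ∉ Br := by
    by_contra h
    push Not at h
    have : (univ : Finset (Fin n)).card ≤ Br.card := card_le_card fun a _ => h a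
    rw [card_univ, Fintype.card_fin] at this
    omega
  -- a set whose points lie in the bad rows is small
  have small : ∀ T : Finset (Fin n × Fin n), (∀ p ∈ T, p.2 ∈ Br) → T.card ≤ n * Br.card := by
    intro T hT
    calc T.card ≤ ((univ : Finset (Fin n)) ×ˢ Br).card :=
          card_le_card fun p hp => mem_product.2 ⟨mem_univ _, hT p hp⟩
      _ = _ := by rw [card_product, card_univ, Fintype.card_fin]
  have hmul : n * (16 * Br.card) < n * n := Nat.mul_lt_mul_of_pos_left hBr' (by omega)
  by_cases hin : (a₀, b₀) ∈ L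
  · right
    -- every good row is full
    have full : ∀ b, b ∉ Br → ∀ a, (a, b) ∈ L ∧ (a, b) ∈ R := by
      intro b hb a
      have e1 : (a₀, b) ∈ L := (col a₀ ha₀ b₀ b).1 hin
      exact ⟨((row b hb a₀ a).1).1 e1, ((row b hb a₀ a).2).1 e1⟩
    have t1 := small Lᶜ (fun p hp => by
      by_contra hb
      exact (mem_compl.1 hp) (full p.2 hb p.1).1)
    have t2 := small Rᶜ (fun p hp => by
      by_contra hb
      exact (mem_compl.1 hp) (full p.2 hb p.1).2)
    have s1 := card_add_card_compl L
    have s2 := card_add_card_compl R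
    simp only [Fintype.card_prod, Fintype.card_fin] at s1 s2
    nlinarith
  · left
    have empt : ∀ b, b ∉ Br → ∀ a, (a, b) ∉ L ∧ (a, b) ∉ R := by
      intro b hb a
      have e1 : (a₀, b) ∉ L := fun h => hin ((col a₀ ha₀ b b₀).1 h)
      exact ⟨fun h => e1 (((row b hb a₀ a).1).2 h), fun h => e1 (((row b hb a₀ a).2).2 h)⟩
    have t1 := small L (fun p hp => by
      by_contra hb
      exact (empt p.2 hb p.1).1 hp)
    have t2 := small R (fun p hp => by
      by_contra hb
      exact (empt p.2 hb p.1).2 hp)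
    nlinarith

/-- the honeycomb: disjoint matchings and expansion -/
theorem hex_honeycomb (n : ℕ) (hn : 2 ≤ n) : ∃ σ : Fin 3 → Equiv.Perm (Fin (n * n)),
    (∀ c d, c ≠ d → ∀ i, σ c i ≠ σ d i) ∧
    ∀ S : Finset (Fin (n * n) ⊕ Fin (n * n)), 2 * (n * n) ≤ 16 * S.card →
      16 * S.card ≤ 15 * (2 * (n * n)) → ∃ c, n ≤ 32 * (univ.filter fun i : Fin (n * n) =>
        ¬ (Sum.inl i ∈ S ↔ Sum.inr (σ c i) ∈ S)).card := by
  classical
  let e : Fin n × Fin n ≃ Fin (n * n) := finProdFinEquiv
  let r1 : Equiv.Perm (Fin n × Fin n) := Equiv.prodCongr (finRotate n) (Equiv.refl _)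
  let r2 : Equiv.Perm (Fin n × Fin n) := Equiv.prodCongr (Equiv.refl _) (finRotate n)
  let σ : Fin 3 → Equiv.Perm (Fin (n * n)) :=
    ![Equiv.refl _, (e.symm.trans r1).trans e, (e.symm.trans r2).trans e]
  have s0 : ∀ a b, σ 0 (e (a, b)) = e (a, b) := fun a b => rfl
  have s1 : ∀ a b, σ 1 (e (a, b)) = e (finRotate n a, b) := by
    intro a b
    change e (r1 (e.symm (e (a, b)))) = _
    rw [Equiv.symm_apply_apply]; rfl
  have s2 : ∀ a b, σ 2 (e (a, b)) = e (a, finRotate n b) := by
    intro a b
    change e (r2 (e.symm (e (a, b)))) = _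
    rw [Equiv.symm_apply_apply]; rfl
  refine ⟨σ, ?_, ?_⟩
  · intro c d hcd i
    obtain ⟨⟨a, b⟩, rfl⟩ := e.surjective i
    have ra := hex_rot_ne hn a
    have rb := hex_rot_ne hn b
    have key : ∀ c d : Fin 3, c < d → σ c (e (a, b)) ≠ σ d (e (a, b)) := by
      intro c d h
      fin_cases c <;> fin_cases d <;> simp at h
      · change σ 0 _ ≠ σ 1 _
        rw [s0, s1]
        intro h'
        have := e.injective h'
        simp only [Prod.mk.injEq, and_true] at this
        exact ra this.symm
      · change σ 0 _ ≠ σ 2 _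
        rw [s0, s2]
        intro h'
        have := e.injective h'
        simp only [Prod.mk.injEq, true_and] at this
        exact rb this.symm
      · change σ 1 _ ≠ σ 2 _
        rw [s1, s2]
        intro h'
        have := e.injective h'
        simp only [Prod.mk.injEq] at this
        exact ra this.1
    rcases lt_or_gt_of_ne hcd with h | h
    · exact key c d h
    · exact (key d c h).symm
  · intro S hS1 hS2
    by_contra hc
    have hc := fun c => not_le.1 (fun h => hc ⟨c, h⟩)
    let X : Fin 3 → Finset (Fin n × Fin n) := fun c =>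
      univ.filter fun p => ¬ (Sum.inl (e p) ∈ S ↔ Sum.inr (σ c (e p)) ∈ S)
    have hX : ∀ c, 32 * (X c).card < n := by
      intro c
      have : (X c).card = (univ.filter fun i : Fin (n * n) =>
          ¬ (Sum.inl i ∈ S ↔ Sum.inr (σ c i) ∈ S)).card := by
        rw [← card_map e.toEmbedding]
        congr 1
        ext i
        simp only [X, mem_map, mem_filter, mem_univ, true_and, Equiv.coe_toEmbedding]
        constructor
        · rintro ⟨p, hp, rfl⟩; exact hp
        · intro hi; exact ⟨e.symm i, by simpa using hi, by simp⟩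
      rw [this]
      exact hc c
    let L : Finset (Fin n × Fin n) := univ.filter fun p => Sum.inl (e p) ∈ S
    let R : Finset (Fin n × Fin n) := univ.filter fun p => Sum.inr (e p) ∈ S
    have hLR : L.card + R.card = S.card := by
      have h1 : L.card = (univ.filter fun i : Fin (n * n) => Sum.inl i ∈ S).card := by
        rw [← card_map e.toEmbedding]
        congr 1
        ext i
        simp only [L, mem_map, mem_filter, mem_univ, true_and, Equiv.coe_toEmbedding]
        constructor
        · rintro ⟨p, hp, rfl⟩; exact hp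
        · intro hi; exact ⟨e.symm i, by simpa using hi, by simp⟩
      have h2 : R.card = (univ.filter fun i : Fin (n * n) => Sum.inr i ∈ S).card := by
        rw [← card_map e.toEmbedding]
        congr 1
        ext i
        simp only [R, mem_map, mem_filter, mem_univ, true_and, Equiv.coe_toEmbedding]
        constructor
        · rintro ⟨p, hp, rfl⟩; exact hp
        · intro hi; exact ⟨e.symm i, by simpa using hi, by simp⟩
      rw [h1, h2]
      have h3 : S = (univ.filter fun i : Fin (n * n) =>
          (Sum.inl i : Fin (n * n) ⊕ Fin (n * n)) ∈ S).disjSum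
          (univ.filter fun i : Fin (n * n) => (Sum.inr i : Fin (n * n) ⊕ Fin (n * n)) ∈ S) := by
        ext v
        rcases v with i | i <;> simp
      conv_rhs => rw [h3]
      rw [card_disjSum]
    have := hex_grid hn L R (X 0) (X 1) (X 2) ?_ ?_ ?_ (hX 0) (hX 1) (hX 2)
    · rw [hLR] at this
      omega
    · intro a b h
      simp only [X, mem_filter, mem_univ, true_and, not_not, s0] at h
      simpa [L, R] using h
    · intro a b h
      simp only [X, mem_filter, mem_univ, true_and, not_not, s1] at h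
      simpa [L, R] using h
    · intro a b h
      simp only [X, mem_filter, mem_univ, true_and, not_not, s2] at h
      simpa [L, R] using h

theorem thm_Hex : St_Hex := by
  refine ⟨1024, fun k => ?_⟩
  obtain ⟨n, hn⟩ : ∃ n, n = 32 * (k + 1) := ⟨_, rfl⟩
  obtain ⟨σ, h1, h2⟩ := hex_honeycomb n (by omega)
  have hnn : n * n = 1024 * (k + 1) ^ 2 := by rw [hn]; ring
  have hkn : k ≤ n * n := by rw [hnn]; nlinarith
  refine ⟨Fin (n * n), inferInstance, inferInstance, σ, ?_, ?_, h1, ?_⟩
  · rw [Fintype.card_fin]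
    exact hkn
  · rw [Fintype.card_fin, hnn]
  · intro S hS1 hS2
    rw [Fintype.card_sum, Fintype.card_fin, ← two_mul] at hS1 hS2
    obtain ⟨c, hc⟩ := h2 S hS1 hS2
    exact ⟨c, by omega⟩

end Pool.Agent.NH
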