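import Pool.Agent.NH.ParL
import Pool.Agent.NH.Lin1

/-!
# The negation hierarchy: graphs with linear expansion and without parallel edges
-/

set_option autoImplicit false
set_option linter.unusedSectionVars false

namespace Pool.Agent.NH

open Finset

section FixUp

variable {K : Type} [Fintype K] [DecidableEq K]

/-- the coincidences -/
private def lin_T (σ : Fin 3 → Equiv.Perm K) : Finset (Fin 3 × Fin 3 × K) :=
  univ.filter fun t => t.1 ≠ t.2.1 ∧ σ t.1 t.2.2 = σ t.2.1 t.2.2

private lemma lin_mem (σ : Fin 3 → Equiv.Perm K) (a b : Fin 3) (x : K) :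
    (a, b, x) ∈ lin_T σ ↔ a ≠ b ∧ σ a x = σ b x := by
  simp [lin_T]

/-- the swap -/
private def lin_sw (σ : Fin 3 → Equiv.Perm K) (d : Fin 3) (i j : K) : Fin 3 → Equiv.Perm K :=
  Function.update σ d ((Equiv.swap i j).trans (σ d))

private lemma lin_sw_ne (σ : Fin 3 → Equiv.Perm K) (d : Fin 3) (i j : K) {a : Fin 3}
    (ha : a ≠ d) (x : K) : lin_sw σ d i j a x = σ a x := by
  rw [lin_sw, Function.update_of_ne ha]

private lemma lin_sw_i (σ : Fin 3 → Equiv.Perm K) (d : Fin 3) (i j : K) :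
    lin_sw σ d i j d i = σ d j := by
  rw [lin_sw, Function.update_self, Equiv.trans_apply, Equiv.swap_apply_left]

private lemma lin_sw_j (σ : Fin 3 → Equiv.Perm K) (d : Fin 3) (i j : K) :
    lin_sw σ d i j d j = σ d i := by
  rw [lin_sw, Function.update_self, Equiv.trans_apply, Equiv.swap_apply_right]

private lemma lin_sw_of_ne (σ : Fin 3 → Equiv.Perm K) (d : Fin 3) (i j : K) {x : K}
    (h1 : x ≠ i) (h2 : x ≠ j) : lin_sw σ d i j d x = σ d x := by
  rw [lin_sw, Function.update_self, Equiv.trans_apply, Equiv.swap_apply_of_ne_of_ne h1 h2]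

private lemma lin_sub (σ : Fin 3 → Equiv.Perm K) {c d : Fin 3} {i j : K}
    (h1 : ∀ e, e ≠ d → σ d j ≠ σ e i) (h2 : ∀ e, e ≠ d → σ d i ≠ σ e j) :
    lin_T (lin_sw σ d i j) ⊆ (lin_T σ).erase (c, d, i) := by
  rintro ⟨a, b, x⟩ h
  rw [lin_mem] at h
  obtain ⟨hab, h⟩ := h
  rw [mem_erase, lin_mem]
  by_cases ha : a = d
  · subst ha
    rw [lin_sw_ne σ a i j (Ne.symm hab)] at h
    by_cases hxi : x = i
    · subst hxi
      rw [lin_sw_i] at h
      exact absurd h (h1 b (Ne.symm hab))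
    by_cases hxj : x = j
    · subst hxj
      rw [lin_sw_j] at h
      exact absurd h (h2 b (Ne.symm hab))
    rw [lin_sw_of_ne σ a i j hxi hxj] at h
    refine ⟨fun h3 => hxi ?_, hab, h⟩
    simp only [Prod.mk.injEq] at h3
    exact h3.2.2
  by_cases hb : b = d
  · subst hb
    rw [lin_sw_ne σ b i j hab] at h
    by_cases hxi : x = i
    · subst hxi
      rw [lin_sw_i] at h
      exact absurd h.symm (h1 a hab)
    by_cases hxj : x = j
    · subst hxj
      rw [lin_sw_j] at h
      exact absurd h.symm (h2 a hab)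
    rw [lin_sw_of_ne σ b i j hxi hxj] at h
    refine ⟨fun h3 => hxi ?_, hab, h⟩
    simp only [Prod.mk.injEq] at h3
    exact h3.2.2
  · rw [lin_sw_ne σ d i j ha, lin_sw_ne σ d i j hb] at h
    refine ⟨fun h3 => hb ?_, hab, h⟩
    simp only [Prod.mk.injEq] at h3
    exact h3.2.1

private lemma lin_expd {σ : Fin 3 → Equiv.Perm K} {k : ℕ} (h : Expd σ k) (d : Fin 3) (i j : K) :
    Expd (lin_sw σ d i j) (k - 2) := by
  intro S h1 h2
  obtain ⟨c, hc⟩ := h S h1 h2
  refine ⟨c, ?_⟩
  have hsub : ((univ.filter fun x : K => ¬ (Sum.inl x ∈ S ↔ Sum.inr (σ c x) ∈ S)) \ {i, j}) ⊆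
      univ.filter fun x : K => ¬ (Sum.inl x ∈ S ↔ Sum.inr (lin_sw σ d i j c x) ∈ S) := by
    intro x hx
    rw [mem_sdiff, mem_filter, mem_insert, mem_singleton, not_or] at hx
    rw [mem_filter]
    refine ⟨mem_univ _, ?_⟩
    by_cases hcd : c = d
    · subst hcd
      rw [lin_sw_of_ne σ c i j hx.2.1 hx.2.2]
      exact hx.1.2
    · rw [lin_sw_ne σ d i j hcd]
      exact hx.1.2
  have h3 := card_le_card hsub
  have h4 := le_card_sdiff ({i, j} : Finset K)
    (univ.filter fun x : K => ¬ (Sum.inl x ∈ S ↔ Sum.inr (σ c x) ∈ S))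
  have h5 : ({i, j} : Finset K).card ≤ 2 := card_le_two
  omega

private lemma lin_fix (hK : 5 < Fintype.card K) : ∀ (n : ℕ) (σ : Fin 3 → Equiv.Perm K) (k : ℕ),
    (lin_T σ).card ≤ n → Expd σ k → ∃ σ' : Fin 3 → Equiv.Perm K, Simple σ' ∧
      Expd σ' (k - 2 * n) := by
  intro n
  induction n with
  | zero =>
    intro σ k hn hE
    refine ⟨σ, ?_, hE⟩
    intro c d hcd x hx
    have h1 : (c, d, x) ∈ lin_T σ := (lin_mem σ c d x).2 ⟨hcd, hx⟩
    rw [card_eq_zero.1 (Nat.le_zero.1 hn)] at h1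
    exact absurd h1 (notMem_empty _)
  | succ n ih =>
    intro σ k hn hE
    by_cases h0 : lin_T σ = ∅
    · obtain ⟨σ', h1, h2⟩ := ih σ k (by rw [h0]; simp) hE
      refine ⟨σ', h1, ?_⟩
      intro S h3 h4
      obtain ⟨c, hc⟩ := h2 S h3 h4
      exact ⟨c, by omega⟩
    · obtain ⟨⟨c, d, i⟩, ht⟩ := Finset.nonempty_iff_ne_empty.2 h0
      obtain ⟨hcd, hi⟩ := (lin_mem σ c d i).1 ht
      -- the forbidden values
      obtain ⟨j, hj⟩ : ∃ j : K, j ∉ ((univ.filter fun e : Fin 3 => e ≠ d).image fun e =>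
          (σ d).symm (σ e i)) ∪ ((univ.filter fun e : Fin 3 => e ≠ d).image fun e =>
          (σ e).symm (σ d i)) := by
        by_contra h
        push Not at h
        have h1 : (univ : Finset K) ⊆ ((univ.filter fun e : Fin 3 => e ≠ d).image fun e =>
          (σ d).symm (σ e i)) ∪ ((univ.filter fun e : Fin 3 => e ≠ d).image fun e =>
          (σ e).symm (σ d i)) := fun x _ => h x
        have h2 := card_le_card h1
        have h3 : (univ.filter fun e : Fin 3 => e ≠ d).card ≤ 2 := by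
          fin_cases d <;> decide
        have h4 := card_union_le ((univ.filter fun e : Fin 3 => e ≠ d).image fun e =>
          (σ d).symm (σ e i)) ((univ.filter fun e : Fin 3 => e ≠ d).image fun e =>
          (σ e).symm (σ d i))
        have h5 := card_image_le (s := univ.filter fun e : Fin 3 => e ≠ d)
          (f := fun e => (σ d).symm (σ e i))
        have h6 := card_image_le (s := univ.filter fun e : Fin 3 => e ≠ d)
          (f := fun e => (σ e).symm (σ d i))
        rw [card_univ] at h2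
        omega
      rw [mem_union, not_or] at hj
      have h1 : ∀ e, e ≠ d → σ d j ≠ σ e i := by
        intro e he h
        exact hj.1 (mem_image.2 ⟨e, mem_filter.2 ⟨mem_univ _, he⟩, by rw [← h]; simp⟩)
      have h2 : ∀ e, e ≠ d → σ d i ≠ σ e j := by
        intro e he h
        exact hj.2 (mem_image.2 ⟨e, mem_filter.2 ⟨mem_univ _, he⟩, by rw [h]; simp⟩)
      have h3 := card_le_card (lin_sub σ (c := c) h1 h2)
      have h4 := card_erase_lt_of_mem ht
      obtain ⟨σ', h5, h6⟩ := ih (lin_sw σ d i j) (k - 2) (by omega) (lin_expd hE d i j)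
      refine ⟨σ', h5, ?_⟩
      intro S h7 h8
      obtain ⟨e, he⟩ := h6 S h7 h8
      exact ⟨e, by omega⟩

private lemma lin_card (σ : Fin 3 → Equiv.Perm K)
    (h : ∀ c d : Fin 3, c ≠ d → (univ.filter fun i : K => σ d i = σ c i).card < 4) :
    (lin_T σ).card ≤ 27 := by
  have h1 : lin_T σ ⊆ (univ : Finset (Fin 3 × Fin 3)).biUnion fun p =>
      if p.1 ≠ p.2 then (univ.filter fun i : K => σ p.2 i = σ p.1 i).image fun i => (p.1, p.2, i)
      else ∅ := by
    rintro ⟨a, b, x⟩ hx
    rw [lin_mem] at hx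
    rw [mem_biUnion]
    refine ⟨(a, b), mem_univ _, ?_⟩
    rw [if_pos hx.1, mem_image]
    exact ⟨x, mem_filter.2 ⟨mem_univ _, hx.2.symm⟩, rfl⟩
  refine (card_le_card h1).trans (card_biUnion_le.trans ?_)
  have h2 : ∀ p ∈ (univ : Finset (Fin 3 × Fin 3)), (if p.1 ≠ p.2 then
      (univ.filter fun i : K => σ p.2 i = σ p.1 i).image fun i => (p.1, p.2, i)
      else (∅ : Finset (Fin 3 × Fin 3 × K))).card ≤ 3 := by
    intro p _
    by_cases hp : p.1 ≠ p.2
    · rw [if_pos hp]
      have h3 := h p.1 p.2 hp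
      exact card_image_le.trans (by omega)
    · rw [if_neg hp]
      simp
  refine (Finset.sum_le_sum h2).trans ?_
  rw [Finset.sum_const, card_univ]
  simp

end FixUp

/-- graphs with linear expansion -/
theorem thm_Lin : St_Lin := by
  refine ⟨108000, fun k => ?_⟩
  obtain ⟨σ, h1, h2⟩ := lin1 (2000 * (k + 54)) (by omega)
  obtain ⟨σ', h3, h4⟩ := lin_fix (by rw [Fintype.card_fin]; omega) 27 σ _ (lin_card σ h1) h2
  refine ⟨Fin (2000 * (k + 54)), inferInstance, inferInstance, σ', ?_, ?_, h3, ?_⟩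
  · rw [Fintype.card_fin]
    omega
  · rw [Fintype.card_fin]
    omega
  · intro S h5 h6
    obtain ⟨c, hc⟩ := h4 S h5 h6
    refine ⟨c, le_trans ?_ hc⟩
    omega

end Pool.Agent.NH
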