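import Pool.Agent.NH.Base

/-!
# The negation hierarchy: module M (several blocks)
-/

set_option autoImplicit false

namespace Pool.Agent.NH

open Finset

section General

variable {W B : Type} [Fintype W] [DecidableEq W] [Fintype B] [DecidableEq B]

private lemma M_comm (F : (B → Bool) → (W → Bool) → ℝ) :
    Ex (fun z => Ex fun y => F y z) = Ex fun y => Ex fun z => F y z := by
  simp only [Ex]
  rw [← Finset.sum_div, ← Finset.sum_div, Finset.sum_comm]
  ring

/-- the mean over the variables outside the block -/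
private noncomputable def Ph (e : B → W) (Ψ G : (W → Bool) → ℝ) (y : B → Bool) : ℝ :=
  Ex fun z => G (Function.extend e y z) * Ψ z

private lemma M_In (e : B → W) (he : Function.Injective e) (H : (B → Bool) → ℝ)
    (Ψ G : (W → Bool) → ℝ) (hΨ : ∀ y z, Ψ (Function.extend e y z) = Ψ z) :
    Ex (fun x => G x * (H (fun u => x (e u)) * Ψ x)) = Ex fun y => H y * Ph e Ψ G y := by
  rw [Ex_extend e he, M_comm]
  apply Ex_congr
  intro y
  rw [Ph, ← Ex_mul_left]
  apply Ex_congr
  intro z
  rw [hΨ]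
  have : (fun u => Function.extend e y z (e u)) = y := by
    funext u
    rw [he.extend_apply]
  rw [this]
  ring

/-- the factor `H` can be replaced by a function between `0` and `ρ` -/
private def Good (e : B → W) (H ρ : (B → Bool) → ℝ) (Ψ G : (W → Bool) → ℝ) (γ : ℝ) : Prop :=
  ∃ r : (B → Bool) → ℝ, (∀ y, 0 ≤ r y ∧ r y ≤ ρ y) ∧
    |Ex (fun x => G x * (H (fun u => x (e u)) * Ψ x)) - Ex fun y => r y * Ph e Ψ G y| ≤ γ

private lemma M_good (e : B → W) (he : Function.Injective e) (H ρ : (B → Bool) → ℝ)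
    (Ψ G : (W → Bool) → ℝ) (hΨ : ∀ y z, Ψ (Function.extend e y z) = Ψ z)
    (hΨ1 : ∀ z, |Ψ z| ≤ 1) (γ : ℝ) (r : (B → Bool) → ℝ) (hr : ∀ y, 0 ≤ r y ∧ r y ≤ ρ y)
    (hz : ∀ z, |Ex fun y => G (Function.extend e y z) * (H y - r y)| ≤ γ) :
    Good e H ρ Ψ G γ := by
  refine ⟨r, hr, ?_⟩
  rw [M_In e he H Ψ G hΨ, ← Ex_sub]
  have h1 : (fun y => H y * Ph e Ψ G y - r y * Ph e Ψ G y) =
      fun y => Ex fun z => Ψ z * (G (Function.extend e y z) * (H y - r y)) := by
    funext y
    rw [← sub_mul, Ph, ← Ex_mul_left]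
    apply Ex_congr
    intro z
    ring
  rw [h1, ← M_comm (fun y z => Ψ z * (G (Function.extend e y z) * (H y - r y)))]
  apply abs_Ex_le_const
  intro z
  rw [Ex_mul_left, abs_mul]
  calc |Ψ z| * |Ex fun y => G (Function.extend e y z) * (H y - r y)|
      ≤ 1 * γ := mul_le_mul (hΨ1 z) (hz z) (abs_nonneg _) zero_le_one
    _ = γ := one_mul γ

private lemma M_sum_bound {ι : Type} (l : List ι) (f : ι → ℝ) (c : ℝ) (n : ℕ)
    (hn : l.length ≤ n) (hc : 0 ≤ c) (h : ∀ i ∈ l, f i ≤ c) : (l.map f).sum ≤ n * c := by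
  have h1 : (l.map f).sum ≤ l.length * c := by
    clear hn
    induction l with
    | nil => simp
    | cons a l ih =>
      rw [List.map_cons, List.sum_cons, List.length_cons]
      have h2 := ih fun i hi => h i (List.mem_cons_of_mem _ hi)
      have h3 := h a List.mem_cons_self
      push_cast
      linarith
  refine h1.trans (mul_le_mul_of_nonneg_right ?_ hc)
  exact_mod_cast hn

/-- the step of the induction on the number of blocks -/
private lemma M_step {ι : Type} (e : B → W) (H ρ : (B → Bool) → ℝ)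
    (hρ : ∀ y, 0 ≤ ρ y ∧ ρ y ≤ 1) (hρ9 : Ex ρ ≤ 9 / 10) (Ψ G : (W → Bool) → ℝ)
    (Ts : List ι) (F : ι → (W → Bool) → ℝ) (n : ℕ) (hn : Ts.length ≤ n) (γ ω₁ ω₂ q : ℝ)
    (hγ : 0 ≤ γ) (hω : 0 ≤ ω₁) (hq : 0 ≤ q + ω₂) (hG : ∀ x, G x = (Ts.map fun T => F T x).sum)
    (hgood : ∀ T ∈ Ts, Good e H ρ Ψ (F T) γ)
    (hlow : ∀ T ∈ Ts, ∀ y, -ω₁ ≤ Ph e Ψ (F T) y)
    (hup : ∀ y, Ph e Ψ G y ≤ q + ω₂) :
    -(n * (ω₁ + γ)) ≤ Ex (fun x => G x * (H (fun u => x (e u)) * Ψ x)) ∧
      Ex (fun x => G x * (H (fun u => x (e u)) * Ψ x)) ≤ 9 / 10 * (q + ω₂) + n * (ω₁ + γ) := by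
  have hI : Ex (fun x => G x * (H (fun u => x (e u)) * Ψ x)) =
      (Ts.map fun T => Ex (fun x => F T x * (H (fun u => x (e u)) * Ψ x))).sum := by
    rw [← Ex_list_sum]
    apply Ex_congr
    intro x
    rw [hG x, List.sum_map_mul_right]
  have hPh : ∀ y, Ph e Ψ G y = (Ts.map fun T => Ph e Ψ (F T) y).sum := by
    intro y
    simp only [Ph]
    rw [← Ex_list_sum]
    apply Ex_congr
    intro z
    rw [hG, List.sum_map_mul_right]
  rw [hI]
  constructor
  · have h1 : (Ts.map fun T => -Ex (fun x => F T x * (H (fun u => x (e u)) * Ψ x))).sum ≤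
        n * (ω₁ + γ) := by
      apply M_sum_bound Ts _ _ n hn (by linarith)
      intro T hT
      obtain ⟨r, hr, hrI⟩ := hgood T hT
      have h2 : -ω₁ ≤ Ex fun y => r y * Ph e Ψ (F T) y := by
        apply const_le_Ex
        intro y
        have h3 := hlow T hT y
        have h4 := (hr y).1
        have h5 := (hr y).2.trans (hρ y).2
        nlinarith
      have := (abs_le.1 hrI).1
      linarith
    have h6 : (Ts.map fun T => -Ex (fun x => F T x * (H (fun u => x (e u)) * Ψ x))).sum =
        -(Ts.map fun T => Ex (fun x => F T x * (H (fun u => x (e u)) * Ψ x))).sum := by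
      clear h1 hI hPh hgood hlow hG hn
      induction Ts with
      | nil => simp
      | cons a l ih =>
        simp only [List.map_cons, List.sum_cons]
        rw [ih]
        ring
    rw [h6] at h1
    linarith
  · have h1 : (Ts.map fun T => Ex (fun x => F T x * (H (fun u => x (e u)) * Ψ x)) -
        Ex (fun y => ρ y * Ph e Ψ (F T) y)).sum ≤ n * (ω₁ + γ) := by
      apply M_sum_bound Ts _ _ n hn (by linarith)
      intro T hT
      obtain ⟨r, hr, hrI⟩ := hgood T hT
      have h2 : Ex (fun y => r y * Ph e Ψ (F T) y) - Ex (fun y => ρ y * Ph e Ψ (F T) y) ≤ ω₁ := by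
        rw [← Ex_sub]
        apply Ex_le_const
        intro y
        have h3 := hlow T hT y
        have h4 := (hr y).1
        have h5 := (hr y).2
        have h6 := (hρ y).2
        nlinarith
      have := (abs_le.1 hrI).2
      linarith
    have h6 : (Ts.map fun T => Ex (fun x => F T x * (H (fun u => x (e u)) * Ψ x)) -
        Ex (fun y => ρ y * Ph e Ψ (F T) y)).sum =
        (Ts.map fun T => Ex (fun x => F T x * (H (fun u => x (e u)) * Ψ x))).sum -
        (Ts.map fun T => Ex (fun y => ρ y * Ph e Ψ (F T) y)).sum := by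
      clear h1 hI hPh hgood hlow hG hn
      induction Ts with
      | nil => simp
      | cons a l ih =>
        simp only [List.map_cons, List.sum_cons]
        rw [ih]
        ring
    have h7 : (Ts.map fun T => Ex (fun y => ρ y * Ph e Ψ (F T) y)).sum =
        Ex fun y => ρ y * Ph e Ψ G y := by
      rw [← Ex_list_sum]
      apply Ex_congr
      intro y
      rw [hPh, List.sum_map_mul_left]
    have h8 : (Ex fun y => ρ y * Ph e Ψ G y) ≤ 9 / 10 * (q + ω₂) := by
      calc (Ex fun y => ρ y * Ph e Ψ G y) ≤ Ex fun y => ρ y * (q + ω₂) :=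
            Ex_mono fun y => mul_le_mul_of_nonneg_left (hup y) (hρ y).1
        _ = Ex ρ * (q + ω₂) := Ex_mul_right _ _
        _ ≤ 9 / 10 * (q + ω₂) := mul_le_mul_of_nonneg_right hρ9 hq
    rw [h6, h7] at h1
    linarith

end General

section Block

variable {K U W : Type} [Fintype K] [DecidableEq K] [Fintype U] [DecidableEq U] [Fintype W]
  [DecidableEq W]

private lemma M_kc_mono {w t s s' : ℕ} {f : (W → Bool) → Bool} {S : Finset W}
    (h : Kc w t s f S) (hs : s ≤ s') : Kc w t s' f S := by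
  obtain ⟨L, h1, h2, h3, h4⟩ := h
  exact ⟨L, h1, h2.trans hs, h3, h4⟩

/-- the variables of the block which are mapped into `S` -/
private def Xo (e : Bk K U → W) (S : Finset W) : Finset (Bk K U) := univ.filter fun u => e u ∈ S

private lemma M_top_inter (e : Bk K U → W) (S : Finset W) :
    (top K U ∩ Xo e S).card = (univ.filter fun v : Vx K => e (Sum.inl v) ∈ S).card := by
  rw [← Finset.card_image_of_injective (univ.filter fun v : Vx K => e (Sum.inl v) ∈ S)
    (Sum.inl_injective (β := Vx K × U))]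
  congr 1
  ext u
  simp only [top, Xo, mem_inter, mem_image, mem_filter, mem_univ, true_and]
  constructor
  · rintro ⟨⟨v, rfl⟩, h⟩
    exact ⟨v, h, rfl⟩
  · rintro ⟨v, h, rfl⟩
    exact ⟨⟨v, rfl⟩, h⟩

private lemma M_top_sdiff (e : Bk K U → W) (S : Finset W) :
    (top K U \ Xo e S).card = (univ.filter fun v : Vx K => e (Sum.inl v) ∉ S).card := by
  rw [← Finset.card_image_of_injective (univ.filter fun v : Vx K => e (Sum.inl v) ∉ S)
    (Sum.inl_injective (β := Vx K × U))]
  congr 1
  ext u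
  simp only [top, Xo, mem_sdiff, mem_image, mem_filter, mem_univ, true_and]
  constructor
  · rintro ⟨⟨v, rfl⟩, h⟩
    exact ⟨v, h, rfl⟩
  · rintro ⟨v, h, rfl⟩
    exact ⟨⟨v, rfl⟩, h⟩

private lemma M_top_card : (top K U).card = 2 * Fintype.card K := by
  rw [top, Finset.card_image_of_injective _ (Sum.inl_injective), Finset.card_univ,
    Fintype.card_sum]
  ring

/-- the image of the top bits -/
private def Bt (e : Bk K U → W) : Finset W := univ.image fun v : Vx K => e (Sum.inl v)

private lemma M_Bt_inj {e : Bk K U → W} (he : Function.Injective e) :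
    Function.Injective fun v : Vx K => e (Sum.inl v) :=
  fun _ _ h => Sum.inl_injective (he h)

private lemma M_Bt_card {e : Bk K U → W} (he : Function.Injective e) :
    (Bt e).card = 2 * Fintype.card K := by
  rw [Bt, Finset.card_image_of_injective _ (M_Bt_inj he), Finset.card_univ, Fintype.card_sum]
  ring

private lemma M_Bt_inter {e : Bk K U → W} (he : Function.Injective e) (S : Finset W) :
    (Bt e ∩ S).card = (univ.filter fun v : Vx K => e (Sum.inl v) ∈ S).card := by
  rw [← Finset.card_image_of_injective (univ.filter fun v : Vx K => e (Sum.inl v) ∈ S)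
    (M_Bt_inj he)]
  congr 1
  ext u
  simp only [Bt, mem_inter, mem_image, mem_filter, mem_univ, true_and]
  constructor
  · rintro ⟨⟨v, rfl⟩, h⟩
    exact ⟨v, h, rfl⟩
  · rintro ⟨v, h, rfl⟩
    exact ⟨⟨v, rfl⟩, h⟩

private lemma M_Bt_sdiff {e : Bk K U → W} (he : Function.Injective e) (S : Finset W) :
    (Bt e \ S).card = (univ.filter fun v : Vx K => e (Sum.inl v) ∉ S).card := by
  rw [← Finset.card_image_of_injective (univ.filter fun v : Vx K => e (Sum.inl v) ∉ S)
    (M_Bt_inj he)]
  congr 1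
  ext u
  simp only [Bt, mem_sdiff, mem_image, mem_filter, mem_univ, true_and]
  constructor
  · rintro ⟨⟨v, rfl⟩, h⟩
    exact ⟨v, h, rfl⟩
  · rintro ⟨v, h, rfl⟩
    exact ⟨⟨v, rfl⟩, h⟩

omit [Fintype K] [DecidableEq K] [Fintype U] [DecidableEq U] [Fintype W] [DecidableEq W] in
private lemma M_ext_congr {e : Bk K U → W} (he : Function.Injective e) {S : Finset W}
    {y y' : Bk K U → Bool} {z : W → Bool} (h : ∀ u, e u ∈ S → y u = y' u) :
    ∀ v ∈ S, Function.extend e y z v = Function.extend e y' z v := by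
  intro v hv
  by_cases hu : ∃ u, e u = v
  · obtain ⟨u, rfl⟩ := hu
    rw [he.extend_apply, he.extend_apply, h u hv]
  · rw [Function.extend_apply' _ _ _ hu, Function.extend_apply' _ _ _ hu]

private noncomputable def Hf (σ : Fin 3 → Equiv.Perm K) (h : (U → Bool) → Bool)
    (y : Bk K U → Bool) : ℝ := 2 * bv (up σ h y) - 1

private noncomputable def Rf (σ : Fin 3 → Equiv.Perm K) (h : (U → Bool) → Bool)
    (y : Bk K U → Bool) : ℝ := 1 / 2 + 1 / 2 * bv (up σ h y)

private lemma M_rect {σ : Fin 3 → Equiv.Perm K} {h : (U → Bool) → Bool} {η : ℝ}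
    (hRS : RS1 (up σ h) (top K U) η) {e : Bk K U → W} (he : Function.Injective e)
    {Ψ G : (W → Bool) → ℝ} (hΨ : ∀ y z, Ψ (Function.extend e y z) = Ψ z)
    (hΨ1 : ∀ z, |Ψ z| ≤ 1) {S₁ S₂ : Finset W} (hd : Disjoint S₁ S₂)
    {a b : (W → Bool) → ℝ} (ha : ∀ x, |a x| ≤ 1) (hb : ∀ x, |b x| ≤ 1) (hda : DepOn a S₁)
    (hdb : DepOn b S₂) (hG : ∀ x, G x = a x * b x)
    (h1 : (top K U).card ≤ 16 * (top K U ∩ Xo e S₁).card)
    (h2 : (top K U).card ≤ 16 * (top K U \ Xo e S₁).card) :
    Good e (Hf σ h) (Rf σ h) Ψ G η := by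
  obtain ⟨P, E, hPE, hP, hab⟩ := hRS (Xo e S₁) h1 h2
  refine M_good e he _ _ Ψ G hΨ hΨ1 η P (fun y => ⟨(hP y).1, ?_⟩) ?_
  · have := (hP y).2
    have h3 := bv_le_one (up σ h y)
    rw [Rf]
    linarith
  · intro z
    have h3 := hab (fun y => a (Function.extend e y z)) (fun y => b (Function.extend e y z))
      (fun y => ha _) (fun y => hb _) ?_ ?_
    · refine le_trans (le_of_eq ?_) h3
      congr 1
      apply Ex_congr
      intro y
      rw [hG, Hf, hPE y]
      ring
    · intro y y' hy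
      exact hda _ _ (M_ext_congr he fun u hu => hy u (by simp [Xo, hu]))
    · intro y y' hy
      exact hdb _ _ (M_ext_congr he fun u hu => hy u (by
        have : e u ∉ S₁ := fun h => Finset.disjoint_left.1 hd h hu
        simp [Xo, this]))

private lemma M_small (hSub : St_Sub) {σ : Fin 3 → Equiv.Perm K} {h : (U → Bool) → Bool}
    {w t s₀ : ℕ} {δ : ℝ} (hNP : NP w σ h t s₀ δ) {e : Bk K U → W} (he : Function.Injective e)
    {A g : (W → Bool) → Bool} {SA SG : Finset W} (hA : DepOn A SA) (hd : Disjoint SA SG)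
    (hc : 2 * (univ.filter fun v : Vx K => e (Sum.inl v) ∈ SA).card ≤ Fintype.card K)
    (hg : (∀ x, g x = true) ∨ Kc w t s₀ g SG) (z : W → Bool) :
    |Ex fun y => bv (A (Function.extend e y z)) * bv (g (Function.extend e y z)) *
      (Hf σ h y - 1 / 2)| ≤ 3 / 2 * δ := by
  have key : ∀ L : Finset (Fin 3), L.Nonempty →
      |Ex fun y => bv (A (Function.extend e y z)) * bv (g (Function.extend e y z)) *
        Sg σ L (vals h y)| ≤ δ := by
    intro L hL
    have h1 := hNP W e he (fun x => A (Function.extend e (fun u => x (e u)) z))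
      (fun x => g (Function.extend e (fun u => x (e u)) z)) SA SG ?_ hd hc ?_ L hL
    · have h2 := Ex_inj e he (fun y => bv (A (Function.extend e y z)) *
        bv (g (Function.extend e y z)) * Sg σ L (vals h y))
      rw [← h2]
      exact h1
    · intro x x' hx
      exact hA _ _ (M_ext_congr he fun u hu => hx _ hu)
    · rcases hg with hg | hg
      · exact Or.inl fun x => hg _
      · right
        refine (hSub W w t s₀ g SG hg).2 (fun x => Function.extend e (fun u => x (e u)) z) ?_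
        intro v
        by_cases hu : ∃ u, e u = v
        · right
          intro x
          obtain ⟨u, rfl⟩ := hu
          rw [he.extend_apply]
        · left
          refine ⟨z v, fun x => ?_⟩
          rw [Function.extend_apply' _ _ _ hu]
  have e1 : (fun y => bv (A (Function.extend e y z)) * bv (g (Function.extend e y z)) *
      (Hf σ h y - 1 / 2)) = fun y => -(1 / 2) * ((bv (A (Function.extend e y z)) *
        bv (g (Function.extend e y z)) * Sg σ {0, 1} (vals h y) +
        bv (A (Function.extend e y z)) * bv (g (Function.extend e y z)) *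
          Sg σ {1, 2} (vals h y)) +
        bv (A (Function.extend e y z)) * bv (g (Function.extend e y z)) *
          Sg σ {0, 2} (vals h y)) := by
    funext y
    rw [Hf, up, two_bv_nae]
    ring
  rw [e1, Ex_mul_left, Ex_add, Ex_add]
  have k1 := abs_le.1 (key {0, 1} ⟨0, by simp⟩)
  have k2 := abs_le.1 (key {1, 2} ⟨1, by simp⟩)
  have k3 := abs_le.1 (key {0, 2} ⟨0, by simp⟩)
  rw [abs_le]
  constructor <;> linarith [k1.1, k1.2, k2.1, k2.2, k3.1, k3.2]

private lemma M_term (hSub : St_Sub) {σ : Fin 3 → Equiv.Perm K} {h : (U → Bool) → Bool}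
    {w t s s₀ : ℕ} {δ η : ℝ} (hδ : 0 ≤ δ) (hη : 0 ≤ η) (hs : s ≤ s₀) (hNP : NP w σ h t s₀ δ)
    (hRS : RS1 (up σ h) (top K U) η) {e : Bk K U → W} (he : Function.Injective e)
    {Ψ : (W → Bool) → ℝ} (hΨ : ∀ y z, Ψ (Function.extend e y z) = Ψ z)
    (hΨ1 : ∀ z, |Ψ z| ≤ 1) {A T : (W → Bool) → Bool} {SA S : Finset W} (hA : DepOn A SA)
    (hd : Disjoint SA S)
    (hc : 16 * (univ.filter fun v : Vx K => e (Sum.inl v) ∈ SA).card < 2 * Fintype.card K)
    (hT : TermTy w t s (Bt e) S T) :
    Good e (Hf σ h) (Rf σ h) Ψ (fun x => bv (A x) * bv (T x)) (η + 3 * δ) := by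
  have hρ : ∀ y : Bk K U → Bool, (0 : ℝ) ≤ 1 / 2 ∧ 1 / 2 ≤ Rf σ h y := by
    intro y
    have := bv_nonneg (up σ h y)
    rw [Rf]
    constructor <;> linarith
  rcases hT with ⟨S', hS', h1, h2, p, q, hp, hq, rfl⟩ | ⟨S', hS', h1, q, g, hq, hg, rfl⟩ |
    ⟨S', hS', h1, hT⟩
  · have hgood : Good e (Hf σ h) (Rf σ h) Ψ (fun x => bv (A x) * bv (p x && q x)) η := by
      refine M_rect hRS he hΨ hΨ1 (S₁ := S') (S₂ := SA ∪ (S \ S'))
        (a := fun x => bv (p x)) (b := fun x => bv (A x) * bv (q x)) ?_ (fun x => abs_bv_le _) ?_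
        (hp.comp bv) ?_ ?_ ?_ ?_
      · rw [Finset.disjoint_union_right]
        exact ⟨(hd.mono_right hS').symm, Finset.disjoint_sdiff⟩
      · intro x
        show |bv (A x) * bv (q x)| ≤ 1
        rw [← bv_and]
        exact abs_bv_le _
      · exact ((hA.mono Finset.subset_union_left).comp₂ (hq.mono Finset.subset_union_right)
          fun a b => bv a * bv b)
      · intro x
        simp only [bv_and]
        ring
      · rw [M_top_inter, M_top_card, ← M_Bt_inter he, ← M_Bt_card he]
        exact h1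
      · rw [M_top_sdiff, M_top_card, ← M_Bt_sdiff he, ← M_Bt_card he]
        exact h2
    obtain ⟨r, hr, hr2⟩ := hgood
    exact ⟨r, hr, hr2.trans (by linarith)⟩
  · refine M_good e he _ _ Ψ _ hΨ hΨ1 _ (fun _ => 1 / 2) (fun y => hρ y) ?_
    intro z
    have hA' : DepOn (fun x => A x && q x) (SA ∪ (S \ S')) :=
      (hA.mono Finset.subset_union_left).comp₂ (hq.mono Finset.subset_union_right)
        fun a b => a && b
    have hd' : Disjoint (SA ∪ (S \ S')) S' := by
      rw [Finset.disjoint_union_left]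
      exact ⟨hd.mono_right hS', Finset.sdiff_disjoint⟩
    have hc' : 2 * (univ.filter fun v : Vx K => e (Sum.inl v) ∈ SA ∪ (S \ S')).card ≤
        Fintype.card K := by
      have h3 : (univ.filter fun v : Vx K => e (Sum.inl v) ∈ SA ∪ (S \ S')).card ≤
          (univ.filter fun v : Vx K => e (Sum.inl v) ∉ S').card := by
        apply Finset.card_le_card
        intro v hv
        simp only [mem_filter, mem_univ, true_and] at hv ⊢
        exact fun hv' => Finset.disjoint_left.1 hd' hv hv'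
      rw [M_Bt_sdiff he, M_Bt_card he] at h1
      omega
    have k1 := M_small hSub hNP he hA' hd' hc' (Or.inr (M_kc_mono hg hs)) z
    have k2 := M_small hSub hNP he (g := fun _ => true) hA' hd' hc' (Or.inl fun _ => rfl) z
    have e1 : (fun y => bv (A (Function.extend e y z)) *
        bv (q (Function.extend e y z) && !g (Function.extend e y z)) * (Hf σ h y - 1 / 2)) =
        fun y => bv (A (Function.extend e y z) && q (Function.extend e y z)) * bv true *
          (Hf σ h y - 1 / 2) -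
          bv (A (Function.extend e y z) && q (Function.extend e y z)) *
            bv (g (Function.extend e y z)) * (Hf σ h y - 1 / 2) := by
      funext y
      simp only [bv_and, bv_not, bv_true]
      ring
    rw [e1, Ex_sub]
    have k1' := abs_le.1 k1
    have k2' := abs_le.1 k2
    rw [abs_le]
    constructor <;> linarith [k1'.1, k1'.2, k2'.1, k2'.2]
  · refine M_good e he _ _ Ψ _ hΨ hΨ1 _ (fun _ => 1 / 2) (fun y => hρ y) ?_
    intro z
    have hA' : DepOn (fun x => A x && T x) (SA ∪ S') :=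
      (hA.mono Finset.subset_union_left).comp₂ (hT.mono Finset.subset_union_right)
        fun a b => a && b
    have hc' : 2 * (univ.filter fun v : Vx K => e (Sum.inl v) ∈ SA ∪ S').card ≤
        Fintype.card K := by
      have h3 : (univ.filter fun v : Vx K => e (Sum.inl v) ∈ SA ∪ S').card ≤
          (univ.filter fun v : Vx K => e (Sum.inl v) ∈ SA).card +
          (univ.filter fun v : Vx K => e (Sum.inl v) ∈ S').card := by
        refine le_trans (Finset.card_le_card ?_) (card_union_le _ _)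
        intro v hv
        simp only [mem_filter, mem_univ, true_and, mem_union] at hv ⊢
        exact hv
      rw [M_Bt_inter he, M_Bt_card he] at h1
      omega
    have k2 := M_small hSub hNP he (g := fun _ => true) (SG := ∅) hA'
      (Finset.disjoint_empty_right _) hc' (Or.inl fun _ => rfl) z
    have e1 : (fun y => bv (A (Function.extend e y z)) *
        bv (T (Function.extend e y z)) * (Hf σ h y - 1 / 2)) =
        fun y => bv (A (Function.extend e y z) && T (Function.extend e y z)) * bv true *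
          (Hf σ h y - 1 / 2) := by
      funext y
      simp only [bv_and, bv_true]
      ring
    rw [e1]
    exact k2.trans (by linarith)

end Block

private lemma M_err (γ : ℝ) (hγ : 0 ≤ γ) (k s : ℕ) (hs : 1 ≤ s) :
    (0 : ℝ) ≤ γ * ((8 * 7 ^ k * s) ^ k - 1) := by
  have h1 : (1 : ℝ) ≤ (8 * 7 ^ k * (s : ℝ)) := by
    have h7 : (1 : ℝ) ≤ 7 ^ k := one_le_pow₀ (by norm_num)
    have hs' : (1 : ℝ) ≤ s := by exact_mod_cast hs
    nlinarith
  have h2 : (1 : ℝ) ≤ (8 * 7 ^ k * (s : ℝ)) ^ k := one_le_pow₀ h1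
  exact mul_nonneg hγ (by linarith)

private lemma M_rec (γ : ℝ) (hγ : 0 ≤ γ) (k s : ℕ) (hs : 1 ≤ s) :
    γ * ((8 * 7 ^ k * s) ^ k - 1) +
      ((2 * s : ℕ) : ℝ) * (γ * ((8 * 7 ^ k * ((7 * s : ℕ) : ℝ)) ^ k - 1) + γ) ≤
      γ * ((8 * 7 ^ (k + 1) * s) ^ (k + 1) - 1) := by
  have hs' : (1 : ℝ) ≤ s := by exact_mod_cast hs
  have h7 : (1 : ℝ) ≤ 7 ^ k := one_le_pow₀ (by norm_num)
  have e1 : (8 * 7 ^ k * ((7 * s : ℕ) : ℝ)) = 8 * 7 ^ (k + 1) * s := by
    push_cast
    ring
  rw [e1]
  set b : ℝ := 8 * 7 ^ (k + 1) * s with hb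
  have hb1 : 1 + 2 * (s : ℝ) ≤ b := by
    rw [hb, pow_succ]
    nlinarith
  have h0 : (8 * 7 ^ k * (s : ℝ)) ^ k ≤ b ^ k := by
    apply pow_le_pow_left₀ (by positivity)
    rw [hb, pow_succ]
    nlinarith
  have hbk : (0 : ℝ) ≤ b ^ k := by positivity
  have h1 : (1 + 2 * (s : ℝ)) * b ^ k ≤ b ^ (k + 1) := by
    rw [pow_succ, mul_comm (b ^ k)]
    exact mul_le_mul_of_nonneg_right hb1 hbk
  have h2 : (8 * 7 ^ k * (s : ℝ)) ^ k - 1 + ((2 * s : ℕ) : ℝ) * b ^ k ≤ b ^ (k + 1) - 1 := by
    push_cast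
    nlinarith
  calc γ * ((8 * 7 ^ k * (s : ℝ)) ^ k - 1) + ((2 * s : ℕ) : ℝ) * (γ * (b ^ k - 1) + γ)
      = γ * ((8 * 7 ^ k * (s : ℝ)) ^ k - 1 + ((2 * s : ℕ) : ℝ) * b ^ k) := by ring
    _ ≤ γ * (b ^ (k + 1) - 1) := mul_le_mul_of_nonneg_left h2 hγ

private lemma M_claim (hDec : St_Dec) (hSub : St_Sub) {K : Type} [Fintype K] [DecidableEq K]
    (σ : Fin 3 → Equiv.Perm K) (w : ℕ) (hK : 0 < Fintype.card K) (hw : 4 * w ≤ Fintype.card K)
    {U : Type} [Fintype U] [DecidableEq U] (h : (U → Bool) → Bool) (δ η : ℝ) (t s₀ : ℕ)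
    (hδ : 0 ≤ δ) (hη : 0 ≤ η) (hNP : NP w σ h t s₀ δ) (hRS : RS1 (up σ h) (top K U) η)
    (hmean : Ex (fun x => bv (up σ h x)) ≤ 4 / 5) : ∀ k s : ℕ, 1 ≤ s → 7 ^ k * s ≤ s₀ →
    ∀ (W : Type) [Fintype W] [DecidableEq W] (ι : Type) [DecidableEq ι] (e : ι × Bk K U → W),
    Function.Injective e → ∀ (Q : Finset ι), Q.card = k →
    ∀ (A g : (W → Bool) → Bool) (SA SG : Finset W), DepOn A SA → Disjoint SA SG →
    (∀ i ∈ Q, 16 * ((top K U).filter fun u => e (i, u) ∈ SA).card ≤ 15 * (top K U).card) →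
    Kc w (t + 1) s g SG →
    -((η + 3 * δ) * ((8 * 7 ^ k * s) ^ k - 1)) ≤ Ex (fun x => bv (A x) * bv (g x) *
        ∏ i ∈ Q, (2 * bv (up σ h fun u => x (e (i, u))) - 1)) ∧
      Ex (fun x => bv (A x) * bv (g x) *
        ∏ i ∈ Q, (2 * bv (up σ h fun u => x (e (i, u))) - 1)) ≤
        (9 / 10) ^ k + (η + 3 * δ) * ((8 * 7 ^ k * s) ^ k - 1) := by
  have hγ : 0 ≤ η + 3 * δ := by linarith
  intro k
  induction k with
  | zero =>
    intro s hs hs0 W _ _ ι _ e he Q hQ A g SA SG hA hd hcard hg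
    rw [Finset.card_eq_zero] at hQ
    subst hQ
    simp only [Finset.prod_empty, mul_one, pow_zero, sub_self, mul_zero, neg_zero, add_zero]
    constructor
    · exact Ex_nonneg fun x => mul_nonneg (bv_nonneg _) (bv_nonneg _)
    · exact Ex_le_const fun x => by
        rw [← bv_and]
        exact bv_le_one _
  | succ k ih =>
    intro s hs hs0 W _ _ ι _ e he Q hQ A g SA SG hA hd hcard hg
    obtain ⟨i₀, Q', hi₀, rfl, hQ'⟩ := Finset.card_eq_succ.1 hQ
    have hk7 : 7 ^ k * (7 * s) ≤ s₀ := by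
      rw [← mul_assoc, ← pow_succ]
      exact hs0
    have hks : 7 ^ k * s ≤ s₀ := by
      refine le_trans ?_ hk7
      exact Nat.mul_le_mul_left _ (by omega)
    have hss : s ≤ s₀ := by
      refine le_trans ?_ hks
      exact Nat.le_mul_of_pos_left _ (by positivity)
    set e₁ : Bk K U → W := fun u => e (i₀, u) with he₁
    have hinj : Function.Injective e₁ := fun u v huv => (Prod.mk.inj (he huv)).2
    set Ψ : (W → Bool) → ℝ := fun x =>
      ∏ i ∈ Q', (2 * bv (up σ h fun u => x (e (i, u))) - 1) with hΨdef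
    have hout : ∀ i ∈ Q', ∀ u, ∀ (y : Bk K U → Bool) (z : W → Bool),
        Function.extend e₁ y z (e (i, u)) = z (e (i, u)) := by
      intro i hi u y z
      apply Function.extend_apply'
      rintro ⟨u', hu'⟩
      have := (Prod.mk.inj (he hu')).1
      exact hi₀ (this ▸ hi)
    have hΨ : ∀ y z, Ψ (Function.extend e₁ y z) = Ψ z := by
      intro y z
      apply Finset.prod_congr rfl
      intro i hi
      have : (fun u => Function.extend e₁ y z (e (i, u))) = fun u => z (e (i, u)) :=
        funext fun u => hout i hi u y z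
      rw [this]
    have hΨ1 : ∀ z, |Ψ z| ≤ 1 := by
      intro z
      simp only [hΨdef]
      rw [Finset.abs_prod]
      exact Finset.prod_le_one (fun _ _ => abs_nonneg _) fun _ _ => abs_two_bv _
    have hgoal : ∀ x, bv (A x) * bv (g x) *
        ∏ i ∈ insert i₀ Q', (2 * bv (up σ h fun u => x (e (i, u))) - 1) =
        bv (A x) * bv (g x) * (Hf σ h (fun u => x (e₁ u)) * Ψ x) := by
      intro x
      rw [Finset.prod_insert hi₀]
      rfl
    rw [Ex_congr hgoal]
    -- the list of terms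
    obtain ⟨Ts, hTlen, hTK, hTgood, hTsum⟩ : ∃ Ts : List ((W → Bool) → Bool),
        Ts.length ≤ 2 * s ∧ (∀ T ∈ Ts, Kc w (t + 1) (7 * s) T SG) ∧
        (∀ T ∈ Ts, Good e₁ (Hf σ h) (Rf σ h) Ψ (fun x => bv (A x) * bv (T x)) (η + 3 * δ)) ∧
        ∀ x, bv (g x) = (Ts.map fun T => bv (T x)).sum := by
      have hfil : ((top K U).filter fun u => e (i₀, u) ∈ SA).card =
          (univ.filter fun v : Vx K => e₁ (Sum.inl v) ∈ SA).card := by
        rw [← M_top_inter e₁ SA]
        congr 1
        ext u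
        simp only [Xo, mem_filter, mem_inter, mem_univ, true_and, he₁]
      have hc15 := hcard i₀ (Finset.mem_insert_self _ _)
      rw [hfil, M_top_card] at hc15
      by_cases hc1 : 16 * (univ.filter fun v : Vx K => e₁ (Sum.inl v) ∈ SA).card <
          2 * Fintype.card K
      · obtain ⟨Ts, h1, h2, h3⟩ := hDec W w t s g SG (Bt e₁)
          (by rw [M_Bt_card hinj]; omega) (by rw [M_Bt_card hinj]; omega) hg
        exact ⟨Ts, h1, fun T hT => (h2 T hT).1, fun T hT =>
          M_term hSub hδ hη hss hNP hRS hinj hΨ hΨ1 hA hd hc1 (h2 T hT).2, h3⟩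
      · have hgood : Good e₁ (Hf σ h) (Rf σ h) Ψ (fun x => bv (A x) * bv (g x)) η := by
          refine M_rect hRS hinj hΨ hΨ1 (S₁ := SA) (S₂ := SG)
            (a := fun x => bv (A x)) (b := fun x => bv (g x)) hd (fun x => abs_bv_le _)
            (fun x => abs_bv_le _) (hA.comp bv)
            ((hSub W w (t + 1) s g SG hg).1.comp bv) (fun x => rfl) ?_ ?_
          · rw [M_top_inter, M_top_card]
            omega
          · rw [M_top_sdiff, M_top_card]
            have h1 : (univ.filter fun v : Vx K => e₁ (Sum.inl v) ∈ SA).card +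
                (univ.filter fun v : Vx K => e₁ (Sum.inl v) ∉ SA).card =
                2 * Fintype.card K := by
              rw [Finset.card_filter_add_card_filter_not, Finset.card_univ, Fintype.card_sum]
              ring
            omega
        refine ⟨[g], by simp; omega, ?_, ?_, ?_⟩
        · intro T hT
          rw [List.mem_singleton] at hT
          subst hT
          exact M_kc_mono hg (by omega)
        · intro T hT
          rw [List.mem_singleton] at hT
          subst hT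
          obtain ⟨r, hr, hr2⟩ := hgood
          exact ⟨r, hr, hr2.trans (by linarith)⟩
        · intro x
          simp
    -- the induction hypothesis for restrictions
    have hIH : ∀ (s' : ℕ), 1 ≤ s' → 7 ^ k * s' ≤ s₀ → ∀ T : (W → Bool) → Bool,
        Kc w (t + 1) s' T SG → ∀ y,
        -((η + 3 * δ) * ((8 * 7 ^ k * s') ^ k - 1)) ≤
          Ph e₁ Ψ (fun x => bv (A x) * bv (T x)) y ∧
        Ph e₁ Ψ (fun x => bv (A x) * bv (T x)) y ≤
          (9 / 10) ^ k + (η + 3 * δ) * ((8 * 7 ^ k * s') ^ k - 1) := by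
      intro s' hs' hs0' T hT y
      refine ih s' hs' hs0' W ι e he Q' hQ' (fun z => A (Function.extend e₁ y z))
        (fun z => T (Function.extend e₁ y z)) SA SG ?_ hd
        (fun i hi => hcard i (Finset.mem_insert_of_mem hi)) ?_
      · intro z z' hz
        apply hA
        intro v hv
        by_cases hu : ∃ u, e₁ u = v
        · obtain ⟨u, rfl⟩ := hu
          rw [hinj.extend_apply, hinj.extend_apply]
        · rw [Function.extend_apply' _ _ _ hu, Function.extend_apply' _ _ _ hu]
          exact hz v hv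
      · refine (hSub W w (t + 1) s' T SG hT).2 (fun z => Function.extend e₁ y z) ?_
        intro v
        by_cases hu : ∃ u, e₁ u = v
        · left
          obtain ⟨u, rfl⟩ := hu
          exact ⟨y u, fun z => hinj.extend_apply _ _ _⟩
        · right
          intro z
          exact Function.extend_apply' _ _ _ hu
    have hρ : ∀ y : Bk K U → Bool, 0 ≤ Rf σ h y ∧ Rf σ h y ≤ 1 := by
      intro y
      have h1 := bv_nonneg (up σ h y)
      have h2 := bv_le_one (up σ h y)
      rw [Rf]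
      constructor <;> linarith
    have hρ9 : Ex (Rf σ h) ≤ 9 / 10 := by
      have : Ex (Rf σ h) = 1 / 2 + 1 / 2 * Ex fun x => bv (up σ h x) := by
        rw [← Ex_mul_left, ← Ex_const (V := Bk K U) (1 / 2 : ℝ), ← Ex_add]
        simp only [Ex_const]
        rfl
      rw [this]
      linarith
    have hstep := M_step e₁ (Hf σ h) (Rf σ h) hρ hρ9 Ψ (fun x => bv (A x) * bv (g x)) Ts
      (fun T x => bv (A x) * bv (T x)) (2 * s) hTlen (η + 3 * δ)
      ((η + 3 * δ) * ((8 * 7 ^ k * ((7 * s : ℕ) : ℝ)) ^ k - 1))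
      ((η + 3 * δ) * ((8 * 7 ^ k * s) ^ k - 1)) ((9 / 10) ^ k) hγ
      (M_err _ hγ k (7 * s) (by omega))
      (add_nonneg (by positivity) (M_err _ hγ k s hs))
      (fun x => by rw [hTsum x, ← List.sum_map_mul_left]) hTgood
      (fun T hT y => (hIH (7 * s) (by omega) hk7 T (hTK T hT) y).1)
      (fun y => (hIH s hs hks g hg y).2)
    have hrec := M_rec (η + 3 * δ) hγ k s hs
    have herr := M_err (η + 3 * δ) hγ k s hs
    constructor
    · refine le_trans ?_ hstep.1
      linarith
    · refine hstep.2.trans ?_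
      have e9 : (9 / 10 : ℝ) ^ (k + 1) = 9 / 10 * (9 / 10) ^ k := by rw [pow_succ]; ring
      rw [e9]
      linarith

theorem thm_M (hDec : St_Dec) (hSub : St_Sub) : St_M := by
  intro K _ _ σ w hK hw U _ _ h δ η t s₀ hδ hη hNP hRS hmean J s hs hs0 W _ _ ι _ e he Q hQ A g
    SA SG hA hd hcard hg
  have hγ : 0 ≤ η + 3 * δ := by linarith
  have h7 : 7 ^ Q.card * s ≤ s₀ := by
    refine le_trans (Nat.mul_le_mul_right _ ?_) hs0
    exact Nat.pow_le_pow_right (by norm_num) hQ
  have h1 := M_claim hDec hSub σ w hK hw h δ η t s₀ hδ hη hNP hRS hmean Q.card s hs h7 W ι e he Q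
    rfl A g SA SG hA hd hcard hg
  have hs' : (1 : ℝ) ≤ s := by exact_mod_cast hs
  have h2 : (8 * 7 ^ Q.card * (s : ℝ)) ^ Q.card ≤ (8 * 7 ^ J * (s : ℝ)) ^ J := by
    have h3 : (1 : ℝ) ≤ 8 * 7 ^ J * (s : ℝ) := by
      have h7' : (1 : ℝ) ≤ 7 ^ J := one_le_pow₀ (by norm_num)
      nlinarith
    have h4 : (8 * 7 ^ Q.card * (s : ℝ)) ≤ 8 * 7 ^ J * (s : ℝ) := by
      apply mul_le_mul_of_nonneg_right _ (by linarith)
      apply mul_le_mul_of_nonneg_left _ (by norm_num)
      exact pow_le_pow_right₀ (by norm_num) hQ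
    calc (8 * 7 ^ Q.card * (s : ℝ)) ^ Q.card ≤ (8 * 7 ^ J * (s : ℝ)) ^ Q.card :=
          pow_le_pow_left₀ (by positivity) h4 _
      _ ≤ (8 * 7 ^ J * (s : ℝ)) ^ J := pow_le_pow_right₀ h3 hQ
  have h3 : (η + 3 * δ) * ((8 * 7 ^ Q.card * (s : ℝ)) ^ Q.card - 1) ≤
      (η + 3 * δ) * (8 * 7 ^ J * s) ^ J := by
    apply mul_le_mul_of_nonneg_left _ hγ
    linarith
  constructor
  · exact le_trans (neg_le_neg h3) h1.1
  · exact h1.2.trans (by linarith)

end Pool.Agent.NH
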