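import Pool.Agent.NH.St2
import Pool.Agent.NH.Base

/-!
# The negation hierarchy: [N] from its two cases
-/

set_option autoImplicit false

namespace Pool.Agent.NH

open Finset

theorem thm_N (h1 : St_NA) (h2 : St_NB) (h3 : St_Sub) : St_N := by
  classical
  intro U _ _ h T ω w t s J hT hω hs hMP hFair K _ _ σ hσ hJ W _ _ e he A g SA SG hA hd hhalf hg L hL
  by_cases hV : Fintype.card K ≤ (univ.filter fun v : Vx K => Own T e SA v).card
  · exact h1 U h T ω w t s J hω hs hMP K σ hσ hJ W e he A g SA SG hA hd hg hV L hL
  · have hV2 : Fintype.card K ≤ (univ.filter fun v : Vx K => ¬ Own T e SA v).card := by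
      have e1 := card_filter_add_card_filter_not (s := (univ : Finset (Vx K)))
        (fun v : Vx K => Own T e SA v)
      rw [card_univ, Fintype.card_sum] at e1
      omega
    have hgd : DepOn g SG := by
      rcases hg with hg | hg
      · intro x y _
        rw [hg x, hg y]
      · exact (h3 W w (t + 1) s g SG hg).1
    have := h2 U h T J hT hFair K σ hσ hJ W e he A g SA SG hA hgd hd hhalf hV2 L hL
    linarith

end Pool.Agent.NH
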