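import Pool.Agent.NH.Defs
import Pool.Agent.NH.Base

/-!
# The negation hierarchy: the case of a constant `g`
-/

set_option autoImplicit false

namespace Pool.Agent.NH

open Finset

theorem thm_N1 (h1 : St_Fix) : St_N1 := by
  intro K _ _ σ hσ U _ _ h w s W _ _ e he A g SA SG hA hd hcard hg L hL
  have hgt : ∀ x, g x = true := by
    rcases hg with hg | ⟨L', -, -, hlev, g', hg', -, -⟩
    · exact hg
    · exact absurd (hlev g' hg') (Nat.not_lt_zero _)
  classical
  set F : Finset (Bk K U) := univ.filter fun v => e v ∈ SA with hF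
  have hFc : 2 * (top K U ∩ F).card ≤ Fintype.card K := by
    have : top K U ∩ F = (univ.filter fun v : Vx K => e (Sum.inl v) ∈ SA).image Sum.inl := by
      ext v
      simp only [top, hF, mem_inter, mem_image, mem_univ, true_and, mem_filter]
      constructor
      · rintro ⟨⟨a, rfl⟩, hv⟩
        exact ⟨a, hv, rfl⟩
      · rintro ⟨a, ha, rfl⟩
        exact ⟨⟨a, rfl⟩, ha⟩
    rw [this, card_image_of_injective _ Sum.inl_injective]
    exact hcard
  have hmix : ∀ (x z : W → Bool), (fun v => mix SAᶜ x z (e v)) =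
      mix F (fun v => z (e v)) (fun v => x (e v)) := by
    intro x z
    funext v
    by_cases hv : e v ∈ SA
    · rw [mix_not_mem (by simpa using hv), mix_mem (by simpa [hF] using hv)]
    · rw [mix_mem (by simpa using hv), mix_not_mem (by simpa [hF] using hv)]
  rw [Ex_mix SAᶜ]
  refine abs_Ex_le_const fun z => ?_
  have h2 : (fun x : W → Bool => bv (A (mix SAᶜ x z)) * bv (g (mix SAᶜ x z)) *
      Sg σ L (vals h fun v => mix SAᶜ x z (e v))) =
      fun x => bv (A z) * Sg σ L (vals h (mix F (fun v => z (e v)) (fun v => x (e v)))) := by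
    funext x
    rw [hA.mix_right (disjoint_compl_right), hgt, bv_true, mul_one, hmix]
  rw [h2, Ex_mul_left, abs_mul]
  have h3 := Ex_inj e he (fun y : Bk K U → Bool =>
    Sg σ L (vals h (mix F (fun v => z (e v)) y)))
  rw [h3]
  calc |bv (A z)| * |Ex fun y => Sg σ L (vals h (mix F (fun v => z (e v)) y))|
      ≤ 1 * |Ex fun y => Sg σ L (vals h (mix F (fun v => z (e v)) y))| :=
        mul_le_mul_of_nonneg_right (abs_bv_le _) (abs_nonneg _)
    _ ≤ _ := by
        rw [one_mul]
        exact h1 K σ hσ U h F hFc _ L hL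

end Pool.Agent.NH
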