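import Pool.Agent.NH.Defs

/-!
# The negation hierarchy: the two cases of [N]
-/

set_option autoImplicit false

namespace Pool.Agent.NH

open Finset

/-- the scope `SA` contains at most `15 / 16` of the top bits `T` of the copy of `U` at `v` -/
def Own {K U W : Type} [DecidableEq W] (T : Finset U) (e : Bk K U → W) (SA : Finset W) (v : Vx K) :
    Prop :=
  16 * (T.filter fun u => e (Sum.inr (v, u)) ∈ SA).card ≤ 15 * T.card

open Classical in
/-- [NA] case 1 of [N]: half of the copies of `U` are not owned by `A`. -/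
def St_NA : Prop :=
  ∀ (U : Type) [Fintype U] [DecidableEq U] (h : (U → Bool) → Bool) (T : Finset U) (ω : ℝ)
    (w t s J : ℕ), 0 ≤ ω → 1 ≤ s → MP w h T (t + 1) s J ω →
    ∀ (K : Type) [Fintype K] [DecidableEq K] (σ : Fin 3 → Equiv.Perm K), Simple σ →
      20 * J ≤ Fintype.card K →
    ∀ (W : Type) [Fintype W] [DecidableEq W] (e : Bk K U → W), Function.Injective e →
    ∀ (A g : (W → Bool) → Bool) (SA SG : Finset W), DepOn A SA → Disjoint SA SG →
    ((∀ x, g x = true) ∨ Kc w (t + 1) s g SG) →
    Fintype.card K ≤ (univ.filter fun v : Vx K => Own T e SA v).card →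
    ∀ L : Finset (Fin 3), L.Nonempty →
      |Ex fun x => bv (A x) * bv (g x) * Sg σ L (vals h fun v => x (e v))| ≤ (19 / 20) ^ J + ω

open Classical in
/-- [NB] case 2 of [N]: half of the copies of `U` are owned by `A`. -/
def St_NB : Prop :=
  ∀ (U : Type) [Fintype U] [DecidableEq U] (h : (U → Bool) → Bool) (T : Finset U) (J : ℕ),
    T.Nonempty → Fair h T →
    ∀ (K : Type) [Fintype K] [DecidableEq K] (σ : Fin 3 → Equiv.Perm K), Simple σ →
      20 * J ≤ Fintype.card K →
    ∀ (W : Type) [Fintype W] [DecidableEq W] (e : Bk K U → W), Function.Injective e →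
    ∀ (A g : (W → Bool) → Bool) (SA SG : Finset W), DepOn A SA → DepOn g SG → Disjoint SA SG →
    2 * (univ.filter fun v : Vx K => e (Sum.inl v) ∈ SA).card ≤ Fintype.card K →
    Fintype.card K ≤ (univ.filter fun v : Vx K => ¬ Own T e SA v).card →
    ∀ L : Finset (Fin 3), L.Nonempty →
      |Ex fun x => bv (A x) * bv (g x) * Sg σ L (vals h fun v => x (e v))| ≤ (19 / 20) ^ J

end Pool.Agent.NH
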