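import Pool.Agent.NH.Defs
import Pool.Agent.NH.St2
import Pool.Agent.NH.Base

/-!
# The negation hierarchy: case 1 of [N]
-/

set_option autoImplicit false

namespace Pool.Agent.NH

open Finset

/-- adding a fixed pattern is a permutation of the cube -/
private theorem na_xor {V : Type} [Fintype V] [DecidableEq V] (c : V → Bool)
    (G : (V → Bool) → ℝ) : Ex (fun y : V → Bool => G fun v => xor (y v) (c v)) = Ex G := by
  rw [Ex, Ex]
  congr 1
  have hinv : Function.Involutive fun y : V → Bool => fun v => xor (y v) (c v) := by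
    intro y
    funext v
    show xor (xor (y v) (c v)) (c v) = y v
    cases y v <;> cases c v <;> rfl
  exact Fintype.sum_equiv hinv.toPerm _ _ fun y => rfl

/-- the values on the vertices are uniformly distributed -/
private theorem na_vals {K U : Type} [Fintype K] [DecidableEq K] [Fintype U] [DecidableEq U]
    (h : (U → Bool) → Bool) (G : (Vx K → Bool) → ℝ) :
    Ex (fun x : Bk K U → Bool => G (vals h x)) = Ex G := by
  rw [Ex_mix (top K U)]
  have h1 : ∀ z : Bk K U → Bool,
      Ex (fun x : Bk K U → Bool => G (vals h (mix (top K U) x z))) = Ex G := by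
    intro z
    have h2 : ∀ x : Bk K U → Bool, G (vals h (mix (top K U) x z)) =
        (fun y : Vx K → Bool => G fun v => xor (y v) (h fun u => z (Sum.inr (v, u))))
          fun v => x (Sum.inl v) := by
      intro x
      show G _ = G _
      congr 1
      funext v
      show xor (mix (top K U) x z (Sum.inl v)) (h fun u => mix (top K U) x z (Sum.inr (v, u))) = _
      have e1 : mix (top K U) x z (Sum.inl v) = x (Sum.inl v) :=
        mix_mem (Finset.mem_image_of_mem _ (Finset.mem_univ v))
      have e2 : ∀ u, mix (top K U) x z (Sum.inr (v, u)) = z (Sum.inr (v, u)) := by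
        intro u
        refine mix_not_mem fun hm => ?_
        obtain ⟨a, _, ha⟩ := Finset.mem_image.1 hm
        exact absurd ha (by simp)
      rw [e1]
      simp only [e2]
    rw [Ex_congr h2]
    exact (Ex_inj (Sum.inl : Vx K → Bk K U) Sum.inl_injective
      (fun y : Vx K → Bool => G fun v => xor (y v) (h fun u => z (Sum.inr (v, u))))).trans
      (na_xor _ G)
  rw [Ex_congr h1, Ex_const]

private theorem na_nb {K : Type} (σ : Fin 3 → Equiv.Perm K) (c : Fin 3) (i : Vx K) :
    nb σ c i ≠ i := by
  cases i with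
  | inl i => simp [nb]
  | inr j => simp [nb]

theorem thm_NA (h1 : St_Far) (h2 : St_Red) (h3 : St_Avg) (h4 : St_Sub) : St_NA := by
  classical
  intro U _ _ h T ω w t s J hω hs hMP K _ _ σ hσ hJ W _ _ e he A g SA SG hA hD hg hV L hL
  -- the far apart set
  obtain ⟨I₀, hI₀, hF₀, hc₀⟩ := (h1 K σ hσ).2 (univ.filter fun v : Vx K => Own T e SA v)
  have hJI : J ≤ I₀.card := by
    have := hV
    omega
  obtain ⟨I, hI, hIc⟩ := Finset.exists_subset_card_eq hJI
  have hF : FarV σ I := fun i hi j hj hij c d => hF₀ i (hI hi) j (hI hj) hij c d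
  have hOwn : ∀ i ∈ I, Own T e SA i := fun i hi => (Finset.mem_filter.1 (hI₀ (hI hi))).2
  have hnbI : ∀ i ∈ I, ∀ c, nb σ c i ∉ I := by
    intro i hi c hn
    by_cases hin : i = nb σ c i
    · exact na_nb σ c i hin.symm
    · exact (hF i hi _ hn hin c c).2 rfl
  let Rs : Finset W := (I ×ˢ (univ : Finset U)).image fun p => e (Sum.inr (p.1, p.2))
  have hRl : ∀ v : Vx K, e (Sum.inl v) ∉ Rs := by
    intro v hm
    obtain ⟨p, _, hp⟩ := Finset.mem_image.1 hm
    exact absurd (he hp) (by simp)
  have hRr : ∀ (v : Vx K) (u : U), e (Sum.inr (v, u)) ∈ Rs ↔ v ∈ I := by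
    intro v u
    constructor
    · intro hm
      obtain ⟨p, hp1, hp⟩ := Finset.mem_image.1 hm
      have h5 := he hp
      simp only [Sum.inr.injEq, Prod.mk.injEq] at h5
      rw [← h5.1]
      exact (Finset.mem_product.1 hp1).1
    · intro hv
      exact Finset.mem_image.2 ⟨(v, u), Finset.mem_product.2 ⟨hv, Finset.mem_univ u⟩, rfl⟩
  -- the bound for fixed `z`
  have key : ∀ z : W → Bool,
      |Ex fun x => bv (A (mix Rs x z)) * bv (g (mix Rs x z)) *
        Sg σ L (vals h fun v => mix Rs x z (e v))| ≤
      (9 / 10) ^ (odds σ L I (vals h fun v => z (e v))).card + ω := by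
    intro z
    set y0 : Vx K → Bool := vals h fun v => z (e v) with hy0
    set Q : Finset (Vx K) := odds σ L I y0 with hQ
    have hQI : Q ⊆ I := Finset.filter_subset _ _
    -- values outside of `I`
    have hout : ∀ (x : W → Bool) (v : Vx K), v ∉ I →
        vals h (fun v => mix Rs x z (e v)) v = y0 v := by
      intro x v hv
      show xor (mix Rs x z (e (Sum.inl v))) (h fun u => mix Rs x z (e (Sum.inr (v, u)))) =
        xor (z (e (Sum.inl v))) (h fun u => z (e (Sum.inr (v, u))))
      rw [mix_not_mem (hRl v)]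
      have e2 : ∀ u, mix Rs x z (e (Sum.inr (v, u))) = z (e (Sum.inr (v, u))) := fun u =>
        mix_not_mem fun hm => hv ((hRr v u).1 hm)
      simp only [e2]
    have hin : ∀ (x : W → Bool) (i : Vx K), i ∈ I →
        vals h (fun v => mix Rs x z (e v)) i =
          xor (z (e (Sum.inl i))) (h fun u => x (e (Sum.inr (i, u)))) := by
      intro x v hv
      show xor (mix Rs x z (e (Sum.inl v))) (h fun u => mix Rs x z (e (Sum.inr (v, u)))) = _
      rw [mix_not_mem (hRl v)]
      have e2 : ∀ u, mix Rs x z (e (Sum.inr (v, u))) = x (e (Sum.inr (v, u))) := fun u =>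
        mix_mem ((hRr v u).2 hv)
      simp only [e2]
    have hodd : ∀ x : W → Bool, odds σ L I (vals h fun v => mix Rs x z (e v)) = Q := by
      intro x
      rw [hQ]
      unfold odds
      apply Finset.filter_congr
      intro i hi
      have e3 : ∀ c, vals h (fun v => mix Rs x z (e v)) (nb σ c i) = y0 (nb σ c i) := fun c =>
        hout x _ (hnbI i hi c)
      simp only [e3]
    have hmix : ∀ x : W → Bool, mix I (fun _ => false) (vals h fun v => mix Rs x z (e v)) =
        mix I (fun _ => false) y0 := by
      intro x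
      funext v
      by_cases hv : v ∈ I
      · rw [mix_mem hv, mix_mem hv]
      · rw [mix_not_mem hv, mix_not_mem hv, hout x v hv]
    -- the constant factor
    set κ : ℝ := Sg σ L (mix I (fun _ => false) y0) *
      ∏ i ∈ Q, (-sgn (z (e (Sum.inl i)))) with hκ
    have hκ1 : |κ| = 1 := by
      rw [hκ, abs_mul, abs_Sg, Finset.abs_prod, one_mul]
      exact Finset.prod_eq_one fun i _ => by rw [abs_neg, abs_sgn]
    have hSg : ∀ x : W → Bool, Sg σ L (vals h fun v => mix Rs x z (e v)) =
        κ * ∏ i ∈ Q, (2 * bv (h fun u => x (e (Sum.inr (i, u)))) - 1) := by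
      intro x
      rw [h2 K σ I hF L, hodd x, hmix x, hκ, mul_assoc, ← Finset.prod_mul_distrib]
      congr 1
      refine Finset.prod_congr rfl fun i hi => ?_
      rw [hin x i (hQI hi), sgn_xor, sgn_eq (h fun u => x (e (Sum.inr (i, u))))]
      ring
    have hA' : DepOn (fun x => A (mix Rs x z)) SA :=
      (hA.fix Rs z).mono Finset.inter_subset_left
    have hKc : Kc w (t + 1) s (fun x => g (mix Rs x z)) SG := by
      rcases hg with hg | hg
      · refine ⟨[⟨fun _ => true, ∅, 0⟩], Prog.cons Prog.nil (Or.inl ⟨∅, Finset.Subset.refl _,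
          Nat.zero_le _, depOn_const _ _⟩), by simpa using hs, ?_, ⟨fun _ => true, ∅, 0⟩,
          List.mem_singleton.2 rfl, ?_, Finset.empty_subset _⟩
        · intro q hq
          rw [List.mem_singleton.1 hq]
          exact Nat.succ_pos t
        · funext x
          exact (hg _).symm
      · refine (h4 W w (t + 1) s g SG hg).2 (fun x => mix Rs x z) fun v => ?_
        by_cases hv : v ∈ Rs
        · exact Or.inr fun x => mix_mem hv
        · exact Or.inl ⟨z v, fun x => mix_not_mem hv⟩
    have hinj : Function.Injective fun p : Vx K × U => e (Sum.inr p) :=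
      fun p q hpq => Sum.inr_injective (he hpq)
    have hM := hMP W (Vx K) (fun p : Vx K × U => e (Sum.inr p)) hinj Q
      ((Finset.card_le_card hQI).trans hIc.le) (fun x => A (mix Rs x z))
      (fun x => g (mix Rs x z)) SA SG hA' hD (fun i hi => hOwn i (hQI hi)) hKc
    have hEx : (Ex fun x => bv (A (mix Rs x z)) * bv (g (mix Rs x z)) *
        Sg σ L (vals h fun v => mix Rs x z (e v))) =
        κ * Ex fun x => bv (A (mix Rs x z)) * bv (g (mix Rs x z)) *
          ∏ i ∈ Q, (2 * bv (h fun u => x (e (Sum.inr (i, u)))) - 1) := by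
      rw [← Ex_mul_left]
      refine Ex_congr fun x => ?_
      rw [hSg x]
      ring
    rw [hEx, abs_mul, hκ1, one_mul, abs_le]
    have hpos : (0 : ℝ) ≤ (9 / 10) ^ Q.card := by positivity
    exact ⟨by linarith [hM.1], hM.2⟩
  -- the mean over `z`
  rw [Ex_mix Rs]
  refine (abs_Ex_le _).trans ((Ex_mono key).trans ?_)
  rw [Ex_add, Ex_const]
  have h5 : Ex (fun z : W → Bool => ((9 / 10 : ℝ)) ^
      (odds σ L I (vals h fun v => z (e v))).card) ≤ (19 / 20) ^ J := by
    have h6 : Ex (fun z : W → Bool => ((9 / 10 : ℝ)) ^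
        (odds σ L I (vals h fun v => z (e v))).card) =
        Ex (fun y : Vx K → Bool => ((9 / 10 : ℝ)) ^ (odds σ L I y).card) := by
      rw [Ex_inj e he (fun x : Bk K U → Bool => ((9 / 10 : ℝ)) ^ (odds σ L I (vals h x)).card)]
      exact na_vals h fun y => ((9 / 10 : ℝ)) ^ (odds σ L I y).card
    rw [h6]
    refine (h3 K σ I hσ hF L hL (9 / 10) (by norm_num) (by norm_num)).trans ?_
    rw [hIc]
    norm_num
  linarith

end Pool.Agent.NH
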