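import Pool.Agent.NH.St2
import Pool.Agent.NH.Base

/-!
# The negation hierarchy, module NB: half of the copies of `U` are owned by `A`
-/

set_option autoImplicit false

namespace Pool.Agent.NH

open Finset

private theorem nb_invol {K : Type} (σ : Fin 3 → Equiv.Perm K) (c : Fin 3) (v : Vx K) :
    nb σ c (nb σ c v) = v := by
  rcases v with i | j
  · show Sum.inl ((σ c).symm (σ c i)) = Sum.inl i
    rw [Equiv.symm_apply_apply]
  · show Sum.inr (σ c ((σ c).symm j)) = Sum.inr j
    rw [Equiv.apply_symm_apply]

/-- choice of the edges -/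
private theorem edges {K : Type} [Fintype K] [DecidableEq K] (σ : Fin 3 → Equiv.Perm K)
    (hFar : St_Far) (hs : Simple σ) (c : Fin 3) (V2 B : Finset (Vx K))
    (h2 : Fintype.card K ≤ V2.card) (hB : 2 * B.card ≤ Fintype.card K) :
    ∃ (Q : Finset K) (p q : K → Vx K), FarE σ c Q ∧ Fintype.card K ≤ 20 * Q.card ∧
      (∀ i ∈ Q, (p i = Sum.inl i ∧ q i = Sum.inr (σ c i)) ∨
        (q i = Sum.inl i ∧ p i = Sum.inr (σ c i))) ∧
      (∀ i ∈ Q, q i ∈ V2) ∧ ∀ i ∈ Q, p i ∉ B := by
  classical
  let V3 : Finset (Vx K) := V2.filter fun a => nb σ c a ∉ B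
  have h3 : V2.card ≤ V3.card + B.card := by
    have e1 : (V2.filter fun a => ¬ nb σ c a ∉ B).card ≤ B.card := by
      apply Finset.card_le_card_of_injOn (nb σ c)
      · intro a ha
        have := (Finset.mem_filter.1 ha).2
        exact not_not.1 this
      · intro a _ b _ hab
        rw [← nb_invol σ c a, ← nb_invol σ c b]
        exact congrArg (nb σ c) hab
    have e2 := Finset.card_filter_add_card_filter_not (s := V2) (fun a => nb σ c a ∉ B)
    have e3 : V3.card = (V2.filter fun a => nb σ c a ∉ B).card := rfl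
    omega
  let P : Finset K := univ.filter fun i => Sum.inl i ∈ V3 ∨ Sum.inr (σ c i) ∈ V3
  have h4 : V3.card ≤ 2 * P.card := by
    have e1 : V3 ⊆ P.image (fun i => (Sum.inl i : Vx K)) ∪
        P.image fun i => (Sum.inr (σ c i) : Vx K) := by
      intro v hv
      rcases v with i | j
      · refine Finset.mem_union_left _ (Finset.mem_image_of_mem _ ?_)
        exact Finset.mem_filter.2 ⟨Finset.mem_univ _, Or.inl hv⟩
      · refine Finset.mem_union_right _ (Finset.mem_image.2 ⟨(σ c).symm j, ?_, ?_⟩)
        · refine Finset.mem_filter.2 ⟨Finset.mem_univ _, Or.inr ?_⟩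
          rw [Equiv.apply_symm_apply]
          exact hv
        · rw [Equiv.apply_symm_apply]
    have e2 := Finset.card_le_card e1
    have e3 := Finset.card_union_le (P.image (fun i => (Sum.inl i : Vx K)))
      (P.image fun i => (Sum.inr (σ c i) : Vx K))
    have e4 : (P.image (fun i => (Sum.inl i : Vx K))).card ≤ P.card := Finset.card_image_le
    have e5 : (P.image fun i => (Sum.inr (σ c i) : Vx K)).card ≤ P.card := Finset.card_image_le
    omega
  obtain ⟨Q, hQP, hQ, hPQ⟩ := (hFar K σ hs).1 c P
  refine ⟨Q, fun i => if Sum.inl i ∈ V3 then Sum.inr (σ c i) else Sum.inl i,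
    fun i => if Sum.inl i ∈ V3 then Sum.inl i else Sum.inr (σ c i), hQ, by omega, ?_, ?_, ?_⟩
  · intro i _
    by_cases hi : Sum.inl i ∈ V3
    · exact Or.inr ⟨if_pos hi, if_pos hi⟩
    · exact Or.inl ⟨if_neg hi, if_neg hi⟩
  · intro i hi
    show (if Sum.inl i ∈ V3 then Sum.inl i else Sum.inr (σ c i)) ∈ V2
    by_cases hi2 : Sum.inl i ∈ V3
    · rw [if_pos hi2]
      exact (Finset.mem_filter.1 hi2).1
    · rw [if_neg hi2]
      have h5 := (Finset.mem_filter.1 (hQP hi)).2
      exact (Finset.mem_filter.1 (h5.resolve_left hi2)).1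
  · intro i hi
    show (if Sum.inl i ∈ V3 then Sum.inr (σ c i) else Sum.inl i) ∉ B
    by_cases hi2 : Sum.inl i ∈ V3
    · rw [if_pos hi2]
      exact (Finset.mem_filter.1 hi2).2
    · rw [if_neg hi2]
      have h5 := (Finset.mem_filter.1 (hQP hi)).2
      have h6 := (Finset.mem_filter.1 (h5.resolve_left hi2)).2
      have h7 : nb σ c (Sum.inr (σ c i)) = Sum.inl i := by
        show Sum.inl ((σ c).symm (σ c i)) = Sum.inl i
        rw [Equiv.symm_apply_apply]
      rw [h7] at h6
      exact h6

private theorem xor_cancel3 (a b : Bool) : xor (xor a b) a = b := by cases a <;> cases b <;> rfl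

/-- the probability of one value -/
private theorem one_val {U : Type} [Fintype U] [DecidableEq U] (h : (U → Bool) → Bool)
    (T : Finset U) (hF : Fair h T) (F : Finset U) (hTF : 16 * (T ∩ F).card ≤ T.card)
    (z : U → Bool) (b s : Bool) :
    Ex (fun x : U → Bool => if xor b (h (mix F z x)) = s then (1 : ℝ) else 0) ≤ 4 / 5 := by
  obtain ⟨h1, h2⟩ := hF F hTF z
  have key : ∀ x : U → Bool, (if xor b (h (mix F z x)) = s then (1 : ℝ) else 0) =
      if xor b s = true then bv (h (mix F z x)) else 1 - bv (h (mix F z x)) := by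
    intro x
    cases b <;> cases s <;> cases h (mix F z x) <;> simp [bv]
  rw [Ex_congr key]
  by_cases hbs : xor b s = true
  · rw [Ex_congr (fun x : U → Bool => if_pos (c := xor b s = true)
      (t := bv (h (mix F z x))) (e := 1 - bv (h (mix F z x))) hbs)]
    exact h2
  · rw [Ex_congr (fun x : U → Bool => if_neg (c := xor b s = true)
      (t := bv (h (mix F z x))) (e := 1 - bv (h (mix F z x))) hbs), Ex_sub, Ex_const]
    linarith

/-- [NB] -/
theorem thm_NB (hCrs : St_Crs) (hFar : St_Far) : St_NB := by
  classical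
  intro U _ _ h T J hT hFair K _ _ σ hs hJ W _ _ e he A g SA SG hA hg hd hB h2 L hL
  obtain ⟨c, hc⟩ := hL
  obtain ⟨V2, hV2, hV2c⟩ : ∃ V2 : Finset (Vx K), (∀ v ∈ V2, ¬ Own T e SA v) ∧
      Fintype.card K ≤ V2.card := ⟨_, fun v hv => (Finset.mem_filter.1 hv).2, h2⟩
  obtain ⟨Q, p, q, hQ, hQc, hpq, hqV, hpB⟩ := edges σ hFar hs c V2 _ hV2c hB
  have hpA : ∀ i ∈ Q, e (Sum.inl (p i)) ∉ SA := by
    intro i hi hcon
    exact hpB i hi (Finset.mem_filter.2 ⟨Finset.mem_univ _, hcon⟩)
  have hpinj : ∀ i ∈ Q, ∀ j ∈ Q, p i = p j → i = j := by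
    intro i hi j hj hij
    rcases hpq i hi with ⟨h3, -⟩ | ⟨-, h3⟩ <;> rcases hpq j hj with ⟨h4, -⟩ | ⟨-, h4⟩
    · rw [h3, h4] at hij
      exact Sum.inl.inj hij
    · rw [h3, h4] at hij
      exact absurd hij (by simp)
    · rw [h3, h4] at hij
      exact absurd hij (by simp)
    · rw [h3, h4] at hij
      exact (σ c).injective (Sum.inr.inj hij)
  have hqinj : ∀ i ∈ Q, ∀ j ∈ Q, q i = q j → i = j := by
    intro i hi j hj hij
    rcases hpq i hi with ⟨-, h3⟩ | ⟨h3, -⟩ <;> rcases hpq j hj with ⟨-, h4⟩ | ⟨h4, -⟩
    · rw [h3, h4] at hij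
      exact (σ c).injective (Sum.inr.inj hij)
    · rw [h3, h4] at hij
      exact absurd hij (by simp)
    · rw [h3, h4] at hij
      exact absurd hij (by simp)
    · rw [h3, h4] at hij
      exact Sum.inl.inj hij
  let z : (W → Bool) → Vx K → Bool := fun x => vals h fun v => x (e v)
  have hz : ∀ x v, z x v = xor (x (e (Sum.inl v))) (h fun u => x (e (Sum.inr (v, u)))) :=
    fun x v => rfl
  let R : Finset W := univ.filter fun v => v ∈ SA ∧ ∃ i ∈ Q, ∃ u, v = e (Sum.inr (q i, u))
  have hR : ∀ v, v ∈ R ↔ v ∈ SA ∧ ∃ i ∈ Q, ∃ u, v = e (Sum.inr (q i, u)) := by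
    intro v
    simp only [R, Finset.mem_filter, Finset.mem_univ, true_and]
  have hRl : ∀ v, e (Sum.inl v) ∉ R := by
    intro v hv
    obtain ⟨-, i, -, u, h3⟩ := (hR _).1 hv
    exact absurd (he h3) (by simp)
  have hwr : ∀ v u, ∀ j ∈ Q, e (Sum.inr (v, u)) ≠ e (Sum.inl (p j)) := by
    intro v u j _ h3
    exact absurd (he h3) (by simp)
  have hcr := hCrs K σ c W z Q hQ p q (fun i => e (Sum.inl (p i))) R ((4 / 5) ^ Q.card) hpq
    (fun i hi j hj hij => hpinj i hi j hj (Sum.inl.inj (he hij)))
    (fun i _ => hRl _)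
    (fun i hi x y hxy => by
      rw [hz, hz, xor_cancel3, xor_cancel3]
      congr 1
      funext u
      exact hxy _ (hwr _ _))
    (fun v hv x y hxy => by
      rw [hz, hz]
      have h3 : x (e (Sum.inl v)) = y (e (Sum.inl v)) := by
        apply hxy
        intro j hj h4
        exact hv j hj (Sum.inl.inj (he h4))
      have h4 : (fun u => x (e (Sum.inr (v, u)))) = fun u => y (e (Sum.inr (v, u))) := by
        funext u
        exact hxy _ (hwr _ _)
      rw [h3, h4])
    (fun v hv x y hxy => by
      rw [hz, hz]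
      have h3 : x (e (Sum.inl v)) = y (e (Sum.inl v)) := hxy _ (hRl v)
      have h4 : (fun u => x (e (Sum.inr (v, u)))) = fun u => y (e (Sum.inr (v, u))) := by
        funext u
        apply hxy
        intro h5
        obtain ⟨-, i, hi, u', h6⟩ := (hR _).1 h5
        have h7 := he h6
        rw [Sum.inr.injEq, Prod.mk.injEq] at h7
        exact hv i hi h7.1
      rw [h3, h4])
    (fun x s => by
      -- the factors
      let G : K → (W → Bool) → ℝ := fun i y => if z (mix R y x) (q i) = s i then 1 else 0
      have e1 : ∀ y : W → Bool, (if ∀ i ∈ Q, z (mix R y x) (q i) = s i then (1 : ℝ) else 0) =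
          ∏ i ∈ Q, G i y := by
        intro y
        by_cases h3 : ∀ i ∈ Q, z (mix R y x) (q i) = s i
        · rw [if_pos h3]
          symm
          refine Finset.prod_eq_one fun i hi => ?_
          show (if z (mix R y x) (q i) = s i then (1 : ℝ) else 0) = 1
          rw [if_pos (h3 i hi)]
        · rw [if_neg h3]
          push Not at h3
          obtain ⟨i, hi, h4⟩ := h3
          symm
          refine Finset.prod_eq_zero hi ?_
          show (if z (mix R y x) (q i) = s i then (1 : ℝ) else 0) = 0
          rw [if_neg h4]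
      let Si : K → Finset W := fun i => univ.image fun u => e (Sum.inr (q i, u))
      have e2 : ∀ i ∈ Q, DepOn (G i) (Si i) := by
        intro i hi y y' hyy
        have h3 : z (mix R y x) (q i) = z (mix R y' x) (q i) := by
          rw [hz, hz, mix_not_mem (hRl _), mix_not_mem (hRl _)]
          congr 2
          funext u
          by_cases h4 : e (Sum.inr (q i, u)) ∈ R
          · rw [mix_mem h4, mix_mem h4]
            exact hyy _ (Finset.mem_image_of_mem _ (Finset.mem_univ u))
          · rw [mix_not_mem h4, mix_not_mem h4]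
        show (if z (mix R y x) (q i) = s i then (1 : ℝ) else 0) =
          if z (mix R y' x) (q i) = s i then (1 : ℝ) else 0
        rw [h3]
      have e3 : ∀ i ∈ Q, ∀ j ∈ Q, i ≠ j → Disjoint (Si i) (Si j) := by
        intro i hi j hj hij
        rw [Finset.disjoint_left]
        intro v hv hv'
        obtain ⟨u, -, rfl⟩ := Finset.mem_image.1 hv
        obtain ⟨u', -, h3⟩ := Finset.mem_image.1 hv'
        have h4 := he h3
        rw [Sum.inr.injEq, Prod.mk.injEq] at h4
        exact hij (hqinj i hi j hj h4.1.symm)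
      have e4 : ∀ i ∈ Q, Ex (G i) ≤ 4 / 5 := by
        intro i hi
        let F : Finset U := univ.filter fun u => e (Sum.inr (q i, u)) ∉ SA
        have hTF : 16 * (T ∩ F).card ≤ T.card := by
          have h3 := hV2 _ (hqV i hi)
          unfold Own at h3
          have h4 : T ∩ F = T.filter fun u => ¬ e (Sum.inr (q i, u)) ∈ SA := by
            ext u
            simp only [F, Finset.mem_inter, Finset.mem_filter, Finset.mem_univ, true_and]
          have h5 := Finset.card_filter_add_card_filter_not (s := T)
            (fun u => e (Sum.inr (q i, u)) ∈ SA)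
          rw [h4]
          omega
        have h3 : ∀ y : W → Bool, G i y = (fun y' : U → Bool =>
            if xor (x (e (Sum.inl (q i)))) (h (mix F (fun u => x (e (Sum.inr (q i, u)))) y')) = s i
              then (1 : ℝ) else 0) (fun u => y (e (Sum.inr (q i, u)))) := by
          intro y
          show (if z (mix R y x) (q i) = s i then (1 : ℝ) else 0) = if _ then (1 : ℝ) else 0
          have h4 : z (mix R y x) (q i) = xor (x (e (Sum.inl (q i))))
              (h (mix F (fun u => x (e (Sum.inr (q i, u)))) fun u => y (e (Sum.inr (q i, u))))) := by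
            rw [hz, mix_not_mem (hRl _)]
            congr 2
            funext u
            by_cases h5 : e (Sum.inr (q i, u)) ∈ SA
            · have h6 : e (Sum.inr (q i, u)) ∈ R := (hR _).2 ⟨h5, i, hi, u, rfl⟩
              have h7 : u ∉ F := by
                simp only [F, Finset.mem_filter, Finset.mem_univ, true_and, not_not]
                exact h5
              rw [mix_mem h6, mix_not_mem h7]
            · have h6 : e (Sum.inr (q i, u)) ∉ R := fun h => h5 ((hR _).1 h).1
              have h7 : u ∈ F := by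
                simp only [F, Finset.mem_filter, Finset.mem_univ, true_and]
                exact h5
              rw [mix_not_mem h6, mix_mem h7]
          rw [h4]
        have h5 := Ex_inj (fun u => e (Sum.inr (q i, u)))
          (fun u u' huu => by
            have h4 := he huu
            rw [Sum.inr.injEq, Prod.mk.injEq] at h4
            exact h4.2)
          (fun y' : U → Bool =>
            if xor (x (e (Sum.inl (q i)))) (h (mix F (fun u => x (e (Sum.inr (q i, u)))) y')) = s i
              then (1 : ℝ) else 0)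
        rw [(Ex_congr h3).trans h5]
        exact one_val h T hFair F hTF _ _ _
      rw [Ex_congr e1, Ex_prod Q G Si e2 e3, ← Finset.prod_const]
      refine Finset.prod_le_prod (fun i _ => Ex_nonneg fun y => ?_) e4
      show (0 : ℝ) ≤ if z (mix R y x) (q i) = s i then (1 : ℝ) else 0
      split_ifs
      · exact zero_le_one
      · exact le_rfl)
    L hc (fun x => bv (g x)) (fun x => bv (A x)) (fun x => abs_bv_le _) (fun x => abs_bv_le _)
    (fun x y hxy => by
      show bv (g x) = bv (g y)
      rw [hg x y fun v hv => hxy v fun hvR =>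
        Finset.disjoint_left.1 hd ((hR v).1 hvR).1 hv])
    (fun x y hxy => by
      show bv (A x) = bv (A y)
      rw [hA x y fun v hv => hxy v fun j hj h3 => hpA j hj (h3 ▸ hv)])
  have e5 : (fun x => bv (A x) * bv (g x) * Sg σ L (vals h fun v => x (e v))) =
      fun x => bv (g x) * bv (A x) * Sg σ L (z x) := by
    funext x
    show _ = bv (g x) * bv (A x) * Sg σ L (vals h fun v => x (e v))
    ring
  rw [e5]
  refine hcr.trans ?_
  have e6 : Real.sqrt ((4 / 5) ^ Q.card) ≤ (19 / 20) ^ Q.card := by
    rw [Real.sqrt_le_left (by positivity), ← pow_mul, mul_comm, pow_mul]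
    exact pow_le_pow_left₀ (by norm_num) (by norm_num) _
  refine e6.trans ?_
  exact pow_le_pow_of_le_one (by norm_num) (by norm_num) (by omega)

end Pool.Agent.NH
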