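import Mathlib

/-!
# The negation hierarchy: the numbers for the final statement
-/

set_option autoImplicit false

namespace Pool.Agent.NH

theorem numU (A : ℕ) (hA : 1 ≤ A) : ∃ (c : ℝ) (C : ℕ), 0 < c ∧ 0 < C ∧ ∀ t n : ℕ, C ^ 2 ^ t ≤ n →
    ∃ r : ℕ, c * (n : ℝ) ^ (1 / (2 ^ (t + 1) - 1) : ℝ) ≤ r ∧
      ∀ m : ℕ, m * (r + 1) ≤ (A * (r + 1)) ^ 2 ^ (t + 1) → m ≤ n := by
  have hA' : (1 : ℝ) ≤ A := by exact_mod_cast hA
  refine ⟨1 / (2 * A ^ 2), (4 * A ^ 2) ^ 2, by positivity, by positivity, fun t n hn => ?_⟩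
  have h2 : 1 ≤ 2 ^ (t + 1) := Nat.one_le_two_pow
  have h2' : 2 ≤ 2 ^ (t + 1) := by
    rw [pow_succ]
    have : 1 ≤ 2 ^ t := Nat.one_le_two_pow
    omega
  obtain ⟨a, ha⟩ : ∃ a, 2 ^ (t + 1) = a + 1 := ⟨2 ^ (t + 1) - 1, by omega⟩
  have ha1 : 1 ≤ a := by omega
  have haR : (2 : ℝ) ^ (t + 1) - 1 = a := by
    have : ((2 ^ (t + 1) : ℕ) : ℝ) = (a : ℝ) + 1 := by rw [ha]; push_cast; ring
    push_cast at this
    linarith
  rw [haR]
  set y : ℝ := (n : ℝ) ^ (1 / a : ℝ) with hy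
  have hy0 : 0 ≤ y := by positivity
  have hya : y ^ a = n := by
    rw [hy, ← Real.rpow_natCast, ← Real.rpow_mul (by positivity)]
    have : (1 / (a : ℝ)) * a = 1 := by
      field_simp
    rw [this, Real.rpow_one]
  have h4 : (4 * (A : ℝ) ^ 2) ≤ y := by
    have h5 : (4 * A ^ 2) ^ a ≤ n := by
      refine le_trans ?_ hn
      rw [← pow_mul, ← pow_succ', ha]
      exact Nat.pow_le_pow_right (by positivity) (by omega)
    have h6 : (4 * (A : ℝ) ^ 2) ^ a ≤ y ^ a := by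
      rw [hya]
      exact_mod_cast h5
    exact le_of_pow_le_pow_left₀ (by omega) hy0 h6
  set x : ℝ := y / A ^ 2 with hx
  have hA2 : (0 : ℝ) < A ^ 2 := by positivity
  have hx4 : 4 ≤ x := by
    rw [hx, le_div_iff₀ hA2]
    exact h4
  have hf1 : 1 ≤ ⌊x⌋₊ := Nat.le_floor (by push_cast; linarith)
  obtain ⟨r, hr⟩ : ∃ r, ⌊x⌋₊ = r + 1 := ⟨⌊x⌋₊ - 1, by omega⟩
  have hr1 : ((r : ℝ) + 1) ≤ x := by
    have := Nat.floor_le (by linarith : 0 ≤ x)
    rw [hr] at this
    push_cast at this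
    exact this
  have hr2 : x < r + 1 + 1 := by
    have := Nat.lt_floor_add_one x
    rw [hr] at this
    push_cast at this
    exact this
  refine ⟨r, ?_, ?_⟩
  · have : 1 / (2 * (A : ℝ) ^ 2) * y = x / 2 := by
      rw [hx]
      field_simp
    rw [this]
    linarith
  · intro m hm
    have h5 : m ≤ A ^ (a + 1) * (r + 1) ^ a := by
      apply Nat.le_of_mul_le_mul_right _ (by omega : 0 < r + 1)
      refine hm.trans (le_of_eq ?_)
      rw [ha, mul_pow, pow_succ (r + 1) a]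
      ring
    have h6 : ((A : ℝ) ^ (a + 1) * ((r : ℝ) + 1) ^ a) ≤ n := by
      calc ((A : ℝ) ^ (a + 1) * ((r : ℝ) + 1) ^ a) ≤ A ^ (2 * a) * x ^ a := by
            apply mul_le_mul
            · exact pow_le_pow_right₀ hA' (by omega)
            · exact pow_le_pow_left₀ (by positivity) hr1 _
            · positivity
            · positivity
        _ = y ^ a := by
            rw [pow_mul, ← mul_pow, hx]
            congr 1
            field_simp
        _ = n := hya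
    have h7 : ((A ^ (a + 1) * (r + 1) ^ a : ℕ) : ℝ) ≤ n := by
      push_cast
      exact h6
    exact h5.trans (by exact_mod_cast h7)

end Pool.Agent.NH
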