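import Pool.Agent.NH.Base

/-!
# The negation hierarchy: the outermost (non-deterministic) layer (helper66)
-/

set_option autoImplicit false
set_option linter.unusedSectionVars false

namespace Pool.Agent.NH

open Finset

/-! ### Scopes of gates -/

private theorem ou_prog_dep {W : Type} [DecidableEq W] {w : ℕ} {L : List (Gt W)}
    (h : Prog w L) : ∀ g ∈ L, DepOn g.f g.S := by
  induction h with
  | nil => intro g hg; exact absurd hg List.not_mem_nil
  | cons hL hok ih =>
    intro u hu
    rcases List.mem_cons.1 hu with rfl | hu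
    · rcases hok with ⟨S, hS, -, hf⟩ | ⟨p, hp, q, hq, -, hpS, hqS, -, -, hf⟩ |
        ⟨p, hp, q, hq, -, hpS, hqS, -, -, hf⟩ | ⟨p, hp, hpS, -, hf⟩
      · exact hf.mono hS
      · rw [hf]
        exact ((ih p hp).mono hpS).comp₂ ((ih q hq).mono hqS) fun a b => a && b
      · rw [hf]
        exact ((ih p hp).mono hpS).comp₂ ((ih q hq).mono hqS) fun a b => a || b
      · rw [hf]
        exact ((ih p hp).mono hpS).comp fun a => !a
    · exact ih u hu

private theorem ou_kc_dep {W : Type} [DecidableEq W] {w t s : ℕ} {f : (W → Bool) → Bool}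
    {S : Finset W} (h : Kc w t s f S) : DepOn f S := by
  obtain ⟨L, hL, -, -, g, hg, rfl, hgS⟩ := h
  exact (ou_prog_dep hL g hg).mono hgS

private theorem ou_dep {W : Type} [DecidableEq W] {w t s : ℕ} {L : List (Gt W)}
    (h : OProg w t s L) : ∀ g ∈ L, DepOn g.f g.S := by
  induction h with
  | nil => intro g hg; exact absurd hg List.not_mem_nil
  | cons hL hok ih =>
    intro u hu
    rcases List.mem_cons.1 hu with rfl | hu
    · rcases hok with ⟨S, hS, -, hf⟩ | ⟨p, hp, q, hq, -, hpS, hqS, hf⟩ |
        ⟨p, hp, q, hq, hpS, hqS, hf⟩ | ⟨f, hk, hf⟩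
      · exact hf.mono hS
      · rw [hf]
        exact ((ih p hp).mono hpS).comp₂ ((ih q hq).mono hqS) fun a b => a && b
      · rw [hf]
        exact ((ih p hp).mono hpS).comp₂ ((ih q hq).mono hqS) fun a b => a || b
      · rw [hf]
        exact (ou_kc_dep hk).comp fun a => !a
    · exact ih u hu

/-! ### The decomposition into terms -/

section Terms

variable {W : Type} [Fintype W] [DecidableEq W]

/-- the types of the terms -/
private def OTy (w t s : ℕ) (B : Finset W) (T : (W → Bool) → Bool) : Prop :=
  (∃ S' : Finset W, B.card ≤ 16 * (B ∩ S').card ∧ B.card ≤ 16 * (B \ S').card ∧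
    ∃ p q : (W → Bool) → Bool, DepOn p S' ∧ DepOn q S'ᶜ ∧ T = fun x => p x && q x) ∨
  (∃ S' : Finset W, 16 * (B \ S').card < B.card ∧ ∃ q g : (W → Bool) → Bool,
    DepOn q S'ᶜ ∧ Kc w t s g S' ∧ T = fun x => q x && !g x) ∨
  (∃ S' : Finset W, 16 * (B ∩ S').card < 3 * B.card ∧ DepOn T S')

private theorem ou_compl (B S : Finset W) : B ∩ Sᶜ = B \ S := by
  ext v
  simp

/-- the product of a function with a light scope and a context -/
private theorem ou_light {w t s : ℕ} {B : Finset W} {S D : Finset W}
    {f N : (W → Bool) → Bool} (hf : DepOn f S) (hN : DepOn N D) (hDS : Disjoint D S)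
    (hD : 16 * (B ∩ D).card < B.card) (hS : ¬ 16 * (B \ S).card < B.card) :
    OTy w t s B (fun x => f x && N x) := by
  by_cases h : B.card ≤ 16 * (B ∩ S).card
  · left
    refine ⟨S, h, not_lt.1 hS, f, N, hf, hN.mono ?_, rfl⟩
    intro v hv
    rw [Finset.mem_compl]
    exact Finset.disjoint_left.1 hDS hv
  · right; right
    refine ⟨S ∪ D, ?_, ?_⟩
    · have h1 : (B ∩ (S ∪ D)).card ≤ (B ∩ S).card + (B ∩ D).card := by
        rw [Finset.inter_union_distrib_left]
        exact Finset.card_union_le _ _
      omega
    · exact (hf.mono Finset.subset_union_left).comp₂ (hN.mono Finset.subset_union_right)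
        fun a b => a && b

private theorem ou_key {w t s : ℕ} {B : Finset W} (_hB : 0 < B.card) (hw : 8 * w ≤ B.card)
    {L : List (Gt W)} (hL : OProg w t s L) :
    ∀ N : Gt W → (W → Bool) → Bool,
      (∀ u ∈ L, (16 * (B \ u.S).card < B.card ∧ DepOn (N u) u.Sᶜ) ∨ ∀ x, N u x = false) →
      ∃ Ts : List ((W → Bool) → Bool), Ts.length ≤ 2 * L.length ∧ (∀ T ∈ Ts, OTy w t s B T) ∧
        ∀ x, (∃ T ∈ Ts, T x = true) ↔ ∃ u ∈ L, N u x = true ∧ u.f x = true := by
  classical
  induction hL with
  | nil =>
    intro N _
    exact ⟨[], le_rfl, fun T hT => absurd hT List.not_mem_nil, fun x => by simp⟩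
  | @cons L g hL hok ih =>
    intro N hN
    have hdep := ou_dep hL
    have hgd := ou_dep (OProg.cons hL hok) g List.mem_cons_self
    have hNL : ∀ u ∈ L, (16 * (B \ u.S).card < B.card ∧ DepOn (N u) u.Sᶜ) ∨ ∀ x, N u x = false :=
      fun u hu => hN u (List.mem_cons_of_mem _ hu)
    by_cases hgN : ∀ x, N g x = false
    · obtain ⟨Ts, h1, h2, h3⟩ := ih N hNL
      refine ⟨Ts, h1.trans (by rw [List.length_cons]; omega), h2, fun x => ?_⟩
      rw [h3]
      constructor
      · rintro ⟨u, hu, h4⟩
        exact ⟨u, List.mem_cons_of_mem _ hu, h4⟩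
      · rintro ⟨u, hu, h4, h5⟩
        rcases List.mem_cons.1 hu with rfl | hu
        · rw [hgN] at h4
          exact absurd h4 (by simp)
        · exact ⟨u, hu, h4, h5⟩
    obtain ⟨hgh, hgD⟩ := (hN g List.mem_cons_self).resolve_right hgN
    -- one term for the gate `g`
    have one : OTy w t s B (fun x => N g x && g.f x) →
        ∃ Ts : List ((W → Bool) → Bool), Ts.length ≤ 2 * (g :: L).length ∧
          (∀ T ∈ Ts, OTy w t s B T) ∧
          ∀ x, (∃ T ∈ Ts, T x = true) ↔ ∃ u ∈ g :: L, N u x = true ∧ u.f x = true := by
      intro hT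
      obtain ⟨Ts, h1, h2, h3⟩ := ih N hNL
      refine ⟨(fun x => N g x && g.f x) :: Ts, ?_, ?_, fun x => ?_⟩
      · rw [List.length_cons, List.length_cons]
        omega
      · intro T hT'
        rcases List.mem_cons.1 hT' with rfl | hT'
        · exact hT
        · exact h2 T hT'
      · constructor
        · rintro ⟨T, hT', h4⟩
          rcases List.mem_cons.1 hT' with rfl | hT'
          · rw [Bool.and_eq_true] at h4
            exact ⟨g, List.mem_cons_self, h4⟩
          · obtain ⟨u, hu, h5⟩ := (h3 x).1 ⟨T, hT', h4⟩
            exact ⟨u, List.mem_cons_of_mem _ hu, h5⟩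
        · rintro ⟨u, hu, h4, h5⟩
          rcases List.mem_cons.1 hu with rfl | hu
          · exact ⟨_, List.mem_cons_self, by rw [h4, h5]; rfl⟩
          · obtain ⟨T, hT', h6⟩ := (h3 x).2 ⟨u, hu, h4, h5⟩
            exact ⟨T, List.mem_cons_of_mem _ hT', h6⟩
    have hgc : (B ∩ g.Sᶜ).card = (B \ g.S).card := by rw [ou_compl]
    -- a context which passes to one child
    have pass : ∀ p ∈ L, ∀ q : (W → Bool) → Bool, 16 * (B \ p.S).card < B.card →
        p.S ⊆ g.S → DepOn q p.Sᶜ → (∀ x, g.f x = (p.f x && q x)) →
        ∃ Ts : List ((W → Bool) → Bool), Ts.length ≤ 2 * (g :: L).length ∧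
          (∀ T ∈ Ts, OTy w t s B T) ∧
          ∀ x, (∃ T ∈ Ts, T x = true) ↔ ∃ u ∈ g :: L, N u x = true ∧ u.f x = true := by
      intro p hp q hph hpS hq hgf
      obtain ⟨N', hN'⟩ : ∃ N' : Gt W → (W → Bool) → Bool, ∀ u x, N' u x =
          (N u x || (decide (u = p) && (N g x && q x))) := ⟨_, fun _ _ => rfl⟩
      obtain ⟨Ts, h1, h2, h3⟩ := ih N' (by
        intro u hu
        by_cases hup : u = p
        · subst hup
          left
          refine ⟨hph, ?_⟩
          have h4 : DepOn (N u) u.Sᶜ := by
            rcases hNL u hu with h5 | h5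
            · exact h5.2
            · intro x y _
              rw [h5, h5]
          have h6 : DepOn (N g) u.Sᶜ := hgD.mono (Finset.compl_subset_compl.2 hpS)
          intro x y hxy
          rw [hN', hN', h4 x y hxy, h6 x y hxy, hq x y hxy]
        · rcases hNL u hu with h5 | h5
          · left
            refine ⟨h5.1, ?_⟩
            intro x y hxy
            rw [hN', hN', h5.2 x y hxy, decide_eq_false hup, Bool.false_and, Bool.false_and]
          · right
            intro x
            rw [hN', h5, decide_eq_false hup]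
            rfl)
      refine ⟨Ts, h1.trans (by rw [List.length_cons]; omega), h2, fun x => ?_⟩
      rw [h3]
      constructor
      · rintro ⟨u, hu, h4, h5⟩
        rw [hN', Bool.or_eq_true, Bool.and_eq_true, Bool.and_eq_true] at h4
        rcases h4 with h4 | ⟨h4, h6, h7⟩
        · exact ⟨u, List.mem_cons_of_mem _ hu, h4, h5⟩
        · have h8 : u = p := of_decide_eq_true h4
          subst h8
          exact ⟨g, List.mem_cons_self, h6, by rw [hgf, h5, h7]; rfl⟩
      · rintro ⟨u, hu, h4, h5⟩
        rcases List.mem_cons.1 hu with rfl | hu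
        · rw [hgf, Bool.and_eq_true] at h5
          refine ⟨p, hp, ?_, h5.1⟩
          rw [hN', h4, h5.2, decide_eq_true rfl]
          simp
        · refine ⟨u, hu, ?_, h5⟩
          rw [hN', h4]
          rfl
    rcases hok with ⟨S, hS, hSw, hf⟩ | ⟨p, hp, q, hq, hpq, hpS, hqS, hf⟩ |
      ⟨p, hp, q, hq, hpS, hqS, hf⟩ | ⟨f, hk, hf⟩
    · -- leaf
      apply one
      right; right
      refine ⟨g.Sᶜ ∪ S, ?_, ?_⟩
      · have h1 : (B ∩ (g.Sᶜ ∪ S)).card ≤ (B ∩ g.Sᶜ).card + (B ∩ S).card := by
          rw [Finset.inter_union_distrib_left]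
          exact Finset.card_union_le _ _
        have h2 : (B ∩ S).card ≤ S.card := Finset.card_le_card Finset.inter_subset_right
        omega
      · exact (hgD.mono Finset.subset_union_left).comp₂ (hf.mono Finset.subset_union_right)
          fun a b => a && b
    · -- conjunction
      by_cases hph : 16 * (B \ p.S).card < B.card
      · refine pass p hp q.f hph hpS ((hdep q hq).mono ?_) (fun x => by rw [hf])
        intro v hv
        rw [Finset.mem_compl]
        exact Finset.disjoint_right.1 hpq hv
      by_cases hqh : 16 * (B \ q.S).card < B.card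
      · refine pass q hq p.f hqh hqS ((hdep p hp).mono ?_) (fun x => by rw [hf, Bool.and_comm])
        intro v hv
        rw [Finset.mem_compl]
        exact Finset.disjoint_left.1 hpq hv
      apply one
      by_cases h1 : B.card ≤ 16 * (B ∩ p.S).card
      · left
        refine ⟨p.S, h1, not_lt.1 hph, p.f, fun x => N g x && q.f x, hdep p hp, ?_, ?_⟩
        · refine (hgD.mono (Finset.compl_subset_compl.2 hpS)).comp₂ ((hdep q hq).mono ?_)
            fun a b => a && b
          intro v hv
          rw [Finset.mem_compl]
          exact Finset.disjoint_right.1 hpq hv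
        · funext x
          rw [hf]
          show (N g x && (p.f x && q.f x)) = (p.f x && (N g x && q.f x))
          cases N g x <;> cases p.f x <;> cases q.f x <;> rfl
      by_cases h2 : B.card ≤ 16 * (B ∩ q.S).card
      · left
        refine ⟨q.S, h2, not_lt.1 hqh, q.f, fun x => N g x && p.f x, hdep q hq, ?_, ?_⟩
        · refine (hgD.mono (Finset.compl_subset_compl.2 hqS)).comp₂ ((hdep p hp).mono ?_)
            fun a b => a && b
          intro v hv
          rw [Finset.mem_compl]
          exact Finset.disjoint_left.1 hpq hv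
        · funext x
          rw [hf]
          show (N g x && (p.f x && q.f x)) = (q.f x && (N g x && p.f x))
          cases N g x <;> cases p.f x <;> cases q.f x <;> rfl
      right; right
      refine ⟨g.Sᶜ ∪ (p.S ∪ q.S), ?_, ?_⟩
      · have h3 : (B ∩ (g.Sᶜ ∪ (p.S ∪ q.S))).card ≤ (B ∩ g.Sᶜ).card +
            ((B ∩ p.S).card + (B ∩ q.S).card) := by
          rw [Finset.inter_union_distrib_left, Finset.inter_union_distrib_left]
          exact (Finset.card_union_le _ _).trans
            (Nat.add_le_add_left (Finset.card_union_le _ _) _)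
        omega
      · have h4 : DepOn g.f (p.S ∪ q.S) := by
          rw [hf]
          exact ((hdep p hp).mono Finset.subset_union_left).comp₂
            ((hdep q hq).mono Finset.subset_union_right) fun a b => a && b
        exact (hgD.mono Finset.subset_union_left).comp₂ (h4.mono Finset.subset_union_right)
          fun a b => a && b
    · -- disjunction
      obtain ⟨N', hN'⟩ : ∃ N' : Gt W → (W → Bool) → Bool, ∀ u x, N' u x =
          (N u x || (decide ((u = p ∨ u = q) ∧ 16 * (B \ u.S).card < B.card) && N g x)) :=
        ⟨_, fun _ _ => rfl⟩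
      obtain ⟨Ts, h1, h2, h3⟩ := ih N' (by
        intro u hu
        by_cases hup : (u = p ∨ u = q) ∧ 16 * (B \ u.S).card < B.card
        · left
          refine ⟨hup.2, ?_⟩
          have h4 : DepOn (N u) u.Sᶜ := by
            rcases hNL u hu with h5 | h5
            · exact h5.2
            · intro x y _
              rw [h5, h5]
          have huS : u.S ⊆ g.S := by
            rcases hup.1 with rfl | rfl
            · exact hpS
            · exact hqS
          have h6 : DepOn (N g) u.Sᶜ := hgD.mono (Finset.compl_subset_compl.2 huS)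
          intro x y hxy
          rw [hN', hN', h4 x y hxy, h6 x y hxy]
        · rcases hNL u hu with h5 | h5
          · left
            refine ⟨h5.1, ?_⟩
            intro x y hxy
            rw [hN', hN', h5.2 x y hxy, decide_eq_false hup, Bool.false_and, Bool.false_and]
          · right
            intro x
            rw [hN', h5, decide_eq_false hup]
            rfl)
      obtain ⟨As, hAs⟩ : ∃ As : List ((W → Bool) → Bool), As =
          (([p, q].filter fun u => decide (¬ 16 * (B \ u.S).card < B.card)).map
            fun u x => u.f x && N g x) := ⟨_, rfl⟩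
      have hAl : As.length ≤ 2 := by
        rw [hAs, List.length_map]
        exact (List.length_filter_le _ _).trans le_rfl
      refine ⟨As ++ Ts, ?_, ?_, fun x => ?_⟩
      · rw [List.length_append, List.length_cons]
        omega
      · intro T hT
        rcases List.mem_append.1 hT with hT | hT
        · rw [hAs, List.mem_map] at hT
          obtain ⟨u, hu, rfl⟩ := hT
          rw [List.mem_filter] at hu
          obtain ⟨hu1, hu2⟩ := hu
          have hul : ¬ 16 * (B \ u.S).card < B.card := of_decide_eq_true hu2
          have hu3 : u ∈ L ∧ u.S ⊆ g.S := by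
            simp only [List.mem_cons, List.not_mem_nil, or_false] at hu1
            rcases hu1 with rfl | rfl
            · exact ⟨hp, hpS⟩
            · exact ⟨hq, hqS⟩
          refine ou_light (hdep u hu3.1) hgD ?_ (by rw [hgc]; exact hgh) hul
          rw [Finset.disjoint_left]
          intro v hv hv'
          exact (Finset.mem_compl.1 hv) (hu3.2 hv')
        · exact h2 T hT
      · constructor
        · rintro ⟨T, hT, hTx⟩
          rcases List.mem_append.1 hT with hT | hT
          · rw [hAs, List.mem_map] at hT
            obtain ⟨u, hu, rfl⟩ := hT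
            rw [List.mem_filter] at hu
            rw [Bool.and_eq_true] at hTx
            refine ⟨g, List.mem_cons_self, hTx.2, ?_⟩
            have hu1 := hu.1
            simp only [List.mem_cons, List.not_mem_nil, or_false] at hu1
            rw [hf]
            rcases hu1 with rfl | rfl
            · show (u.f x || _) = true
              rw [hTx.1]
              rfl
            · show (_ || u.f x) = true
              rw [hTx.1, Bool.or_true]
          · obtain ⟨u, hu, h4, h5⟩ := (h3 x).1 ⟨T, hT, hTx⟩
            rw [hN', Bool.or_eq_true, Bool.and_eq_true] at h4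
            rcases h4 with h4 | ⟨h4, h6⟩
            · exact ⟨u, List.mem_cons_of_mem _ hu, h4, h5⟩
            · have h7 := (of_decide_eq_true h4).1
              refine ⟨g, List.mem_cons_self, h6, ?_⟩
              rw [hf]
              rcases h7 with rfl | rfl
              · show (u.f x || _) = true
                rw [h5]
                rfl
              · show (_ || u.f x) = true
                rw [h5, Bool.or_true]
        · rintro ⟨u, hu, h4, h5⟩
          rcases List.mem_cons.1 hu with rfl | hu
          · -- the gate itself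
            have h6 : ∃ c ∈ [p, q], c.f x = true := by
              rw [hf] at h5
              have h7 : (p.f x || q.f x) = true := h5
              rw [Bool.or_eq_true] at h7
              rcases h7 with h7 | h7
              · exact ⟨p, by simp, h7⟩
              · exact ⟨q, by simp, h7⟩
            obtain ⟨c, hc, hcx⟩ := h6
            have hcL : c ∈ L := by
              simp only [List.mem_cons, List.not_mem_nil, or_false] at hc
              rcases hc with rfl | rfl
              · exact hp
              · exact hq
            have hc' : c = p ∨ c = q := by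
              simpa using hc
            by_cases hch : 16 * (B \ c.S).card < B.card
            · obtain ⟨T, hT, hTx⟩ := (h3 x).2 ⟨c, hcL, by
                rw [hN', h4, decide_eq_true ⟨hc', hch⟩]
                simp, hcx⟩
              exact ⟨T, List.mem_append_right _ hT, hTx⟩
            · refine ⟨fun x => c.f x && N u x, List.mem_append_left _ ?_, by
                show (c.f x && N u x) = true
                rw [hcx, h4]
                rfl⟩
              rw [hAs, List.mem_map]
              exact ⟨c, List.mem_filter.2 ⟨hc, decide_eq_true hch⟩, rfl⟩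
          · obtain ⟨T, hT, hTx⟩ := (h3 x).2 ⟨u, hu, by rw [hN', h4]; rfl, h5⟩
            exact ⟨T, List.mem_append_right _ hT, hTx⟩
    · -- negation
      apply one
      right; left
      exact ⟨g.S, hgh, N g, f, hgD, hk, by funext x; rw [hf]⟩

/-- a gate of the outermost layer is a disjunction of terms -/
private theorem ou_dec {w t s : ℕ} {B : Finset W} (hB : 0 < B.card) (hw : 8 * w ≤ B.card)
    {L : List (Gt W)} (hL : OProg w t s L) (g : Gt W) (hg : g ∈ L) :
    ∃ Ts : List ((W → Bool) → Bool), Ts.length ≤ 2 * L.length ∧ (∀ T ∈ Ts, OTy w t s B T) ∧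
      ∀ x, (∃ T ∈ Ts, T x = true) ↔ g.f x = true := by
  classical
  have hl : 1 ≤ L.length := by
    rcases L with _ | ⟨a, L⟩
    · exact absurd hg List.not_mem_nil
    · rw [List.length_cons]
      omega
  by_cases hgh : 16 * (B \ g.S).card < B.card
  · obtain ⟨Ts, h1, h2, h3⟩ := ou_key hB hw hL (fun u _ => decide (u = g)) (by
      intro u _
      by_cases hu : u = g
      · subst hu
        left
        exact ⟨hgh, fun x y _ => rfl⟩
      · right
        intro x
        exact decide_eq_false hu)
    refine ⟨Ts, h1, h2, fun x => ?_⟩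
    rw [h3]
    constructor
    · rintro ⟨u, _, h4, h5⟩
      have h6 : u = g := of_decide_eq_true h4
      rwa [h6] at h5
    · intro h4
      exact ⟨g, hg, decide_eq_true rfl, h4⟩
  · refine ⟨[fun x => g.f x && true], ?_, ?_, fun x => ?_⟩
    · rw [List.length_singleton]
      omega
    · intro T hT
      rw [List.mem_singleton] at hT
      subst hT
      refine ou_light (D := ∅) (ou_dep hL g hg) (depOn_const true ∅) (Finset.disjoint_empty_left _)
        ?_ hgh
      rw [Finset.inter_empty, Finset.card_empty]
      omega
    · simp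

end Terms

/-! ### The bounds for the terms -/

section Bounds

variable {K : Type} [Fintype K] [DecidableEq K] {U : Type} [Fintype U] [DecidableEq U]
  {W : Type} [Fintype W] [DecidableEq W]

private theorem ou_card_top : (top K U).card = 2 * Fintype.card K := by
  unfold top
  rw [Finset.card_image_of_injective _ Sum.inl_injective, Finset.card_univ, Fintype.card_sum]
  ring

private theorem ou_card_B (e : Bk K U → W) (he : Function.Injective e) :
    ((top K U).image e).card = 2 * Fintype.card K := by
  rw [Finset.card_image_of_injective _ he, ou_card_top]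

private theorem ou_card_inter (e : Bk K U → W) (he : Function.Injective e) (S : Finset W) :
    ((top K U).image e ∩ S).card = (top K U ∩ (univ.filter fun v => e v ∈ S)).card := by
  rw [← Finset.card_image_of_injective _ he]
  congr 1
  ext v
  simp only [Finset.mem_inter, Finset.mem_image, Finset.mem_filter, Finset.mem_univ, true_and]
  constructor
  · rintro ⟨⟨u, hu, rfl⟩, h⟩
    exact ⟨u, ⟨hu, h⟩, rfl⟩
  · rintro ⟨u, ⟨hu, h⟩, rfl⟩
    exact ⟨⟨u, hu, rfl⟩, h⟩

private theorem ou_card_sdiff (e : Bk K U → W) (he : Function.Injective e) (S : Finset W) :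
    ((top K U).image e \ S).card = (top K U \ (univ.filter fun v => e v ∈ S)).card := by
  rw [← Finset.card_image_of_injective _ he]
  congr 1
  ext v
  simp only [Finset.mem_sdiff, Finset.mem_image, Finset.mem_filter, Finset.mem_univ, true_and]
  constructor
  · rintro ⟨⟨u, hu, rfl⟩, h⟩
    exact ⟨u, ⟨hu, h⟩, rfl⟩
  · rintro ⟨u, ⟨hu, h⟩, rfl⟩
    exact ⟨⟨u, hu, rfl⟩, h⟩

private theorem ou_card_inl (e : Bk K U → W) (S : Finset W) :
    (univ.filter fun v : Vx K => e (Sum.inl v) ∈ S).card =
      (top K U ∩ (univ.filter fun v => e v ∈ S)).card := by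
  rw [← Finset.card_image_of_injective _ (Sum.inl_injective (α := Vx K) (β := Vx K × U))]
  congr 1
  ext v
  unfold top
  simp only [Finset.mem_inter, Finset.mem_image, Finset.mem_filter, Finset.mem_univ, true_and]
  constructor
  · rintro ⟨u, hu, rfl⟩
    exact ⟨⟨u, rfl⟩, hu⟩
  · rintro ⟨⟨u, rfl⟩, h⟩
    exact ⟨u, h, rfl⟩

/-- rectangles -/
private theorem ou_alpha {F : (Bk K U → Bool) → Bool} {η : ℝ} (hR : RS1 F (top K U) η)
    (e : Bk K U → W) (he : Function.Injective e) (S : Finset W)
    (h1 : ((top K U).image e).card ≤ 16 * ((top K U).image e ∩ S).card)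
    (h2 : ((top K U).image e).card ≤ 16 * ((top K U).image e \ S).card)
    (p q : (W → Bool) → Bool) (hp : DepOn p S) (hq : DepOn q Sᶜ) :
    -η ≤ Ex fun x => bv (p x && q x) * (2 * bv (F fun v => x (e v)) - 1) := by
  have hBc : ((top K U).image e).card = (top K U).card := Finset.card_image_of_injective _ he
  rw [hBc, ou_card_inter e he] at h1
  rw [hBc, ou_card_sdiff e he] at h2
  obtain ⟨P, E, hPE, hP, hE⟩ := hR (univ.filter fun v => e v ∈ S) h1 h2
  rw [Ex_extend e he]
  apply const_le_Ex
  intro z
  have h3 : ∀ y : Bk K U → Bool, (fun v => Function.extend e y z (e v)) = y := by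
    intro y
    funext v
    exact he.extend_apply y z v
  have h4 := hE (fun y => bv (p (Function.extend e y z))) (fun y => bv (q (Function.extend e y z)))
    (fun y => abs_bv_le _) (fun y => abs_bv_le _) (by
      intro y y' hy
      show bv (p _) = bv (p _)
      rw [hp (Function.extend e y z) (Function.extend e y' z)]
      intro v hv
      by_cases hv' : ∃ u, e u = v
      · obtain ⟨u, rfl⟩ := hv'
        rw [he.extend_apply, he.extend_apply]
        exact hy u (by rw [Finset.mem_filter]; exact ⟨Finset.mem_univ _, hv⟩)
      · rw [Function.extend_apply' _ _ _ hv', Function.extend_apply' _ _ _ hv']) (by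
      intro y y' hy
      show bv (q _) = bv (q _)
      rw [hq (Function.extend e y z) (Function.extend e y' z)]
      intro v hv
      by_cases hv' : ∃ u, e u = v
      · obtain ⟨u, rfl⟩ := hv'
        rw [he.extend_apply, he.extend_apply]
        refine hy u ?_
        rw [Finset.mem_compl, Finset.mem_filter, not_and]
        exact fun _ => Finset.mem_compl.1 hv
      · rw [Function.extend_apply' _ _ _ hv', Function.extend_apply' _ _ _ hv'])
  have h5 : (Ex fun y => bv (p (Function.extend e y z)) * bv (q (Function.extend e y z)) * E y) ≤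
      Ex fun y => bv (p (Function.extend e y z) && q (Function.extend e y z)) *
        (2 * bv (F fun v => Function.extend e y z (e v)) - 1) := by
    apply Ex_mono
    intro y
    rw [h3, hPE, bv_and, mul_add]
    have h6 : 0 ≤ bv (p (Function.extend e y z)) * bv (q (Function.extend e y z)) * P y :=
      mul_nonneg (mul_nonneg (bv_nonneg _) (bv_nonneg _)) (hP y).1
    linarith
  have h6 := (abs_le.1 h4).1
  linarith

/-- the expansion of `2 bv (up) - 1` -/
private theorem ou_expand (σ : Fin 3 → Equiv.Perm K) (h : (U → Bool) → Bool) (e : Bk K U → W)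
    (F : (W → Bool) → ℝ) :
    (Ex fun x => F x * (2 * bv (up σ h fun v => x (e v)) - 1)) =
      Ex F / 2 - ((Ex fun x => F x * Sg σ {0, 1} (vals h fun v => x (e v))) +
        (Ex fun x => F x * Sg σ {1, 2} (vals h fun v => x (e v))) +
        (Ex fun x => F x * Sg σ {0, 2} (vals h fun v => x (e v)))) / 2 := by
  rw [← Ex_add, ← Ex_add, ← Ex_div, ← Ex_div, ← Ex_sub]
  apply Ex_congr
  intro x
  unfold up
  rw [two_bv_nae]
  ring

/-- the terms have small measure -/
private theorem ou_bound {σ : Fin 3 → Equiv.Perm K} {w : ℕ} {h : (U → Bool) → Bool} {δ η : ℝ}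
    {t s : ℕ} (hδ : 0 ≤ δ) (hη : 0 ≤ η) (hNP : NP w σ h t s δ)
    (hR : RS1 (up σ h) (top K U) η) (e : Bk K U → W) (he : Function.Injective e)
    (T : (W → Bool) → Bool) (hT : OTy w t s ((top K U).image e) T)
    (hup : ∀ x, T x = true → up σ h (fun v => x (e v)) = false) :
    (Ex fun x => bv (T x)) ≤ η + 3 * δ := by
  have h0 : (Ex fun x => bv (T x) * (2 * bv (up σ h fun v => x (e v)) - 1)) =
      -Ex fun x => bv (T x) := by
    rw [← Ex_neg]
    apply Ex_congr
    intro x
    cases hTx : T x with
    | false => simp [bv]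
    | true =>
      rw [hup x hTx]
      norm_num [bv]
  have hB := ou_card_B e he
  have hN := hNP W e he
  rcases hT with ⟨S', h1, h2, p, q, hp, hq, rfl⟩ | ⟨S', h1, q, g, hq, hg, rfl⟩ | ⟨S', h1, hTd⟩
  · have h3 := ou_alpha hR e he S' h1 h2 p q hp hq
    rw [h0] at h3
    linarith
  · have h2 : 2 * (univ.filter fun v : Vx K => e (Sum.inl v) ∈ S'ᶜ).card ≤ Fintype.card K := by
      rw [ou_card_inl, ← ou_card_inter e he, ou_compl]
      omega
    have h3 : ∀ L : Finset (Fin 3), L.Nonempty →
        |Ex fun x => bv (q x && !g x) * Sg σ L (vals h fun v => x (e v))| ≤ 2 * δ := by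
      intro L hL
      have h4 := hN q (fun _ => true) S'ᶜ ∅ hq (Finset.disjoint_empty_right _) h2
        (Or.inl fun _ => rfl) L hL
      have h5 := hN q g S'ᶜ S' hq (by
        rw [Finset.disjoint_left]
        intro v hv
        exact Finset.mem_compl.1 hv) h2 (Or.inr hg) L hL
      have h6 : (Ex fun x => bv (q x && !g x) * Sg σ L (vals h fun v => x (e v))) =
          (Ex fun x => bv (q x) * bv true * Sg σ L (vals h fun v => x (e v))) -
          Ex fun x => bv (q x) * bv (g x) * Sg σ L (vals h fun v => x (e v)) := by
        rw [← Ex_sub]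
        apply Ex_congr
        intro x
        rw [bv_and, bv_not, bv_true]
        ring
      rw [h6]
      have h7 := abs_sub (Ex fun x => bv (q x) * bv true * Sg σ L (vals h fun v => x (e v)))
        (Ex fun x => bv (q x) * bv (g x) * Sg σ L (vals h fun v => x (e v)))
      linarith
    have h4 := (abs_le.1 (h3 {0, 1} ⟨0, by simp⟩)).2
    have h5 := (abs_le.1 (h3 {1, 2} ⟨1, by simp⟩)).2
    have h6 := (abs_le.1 (h3 {0, 2} ⟨0, by simp⟩)).2
    rw [ou_expand σ h e fun x => bv (q x && !g x)] at h0
    linarith
  · have h2 : 2 * (univ.filter fun v : Vx K => e (Sum.inl v) ∈ S').card ≤ Fintype.card K := by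
      rw [ou_card_inl, ← ou_card_inter e he]
      omega
    have h3 : ∀ L : Finset (Fin 3), L.Nonempty →
        |Ex fun x => bv (T x) * Sg σ L (vals h fun v => x (e v))| ≤ δ := by
      intro L hL
      have h4 := hN T (fun _ => true) S' ∅ hTd (Finset.disjoint_empty_right _) h2
        (Or.inl fun _ => rfl) L hL
      have h5 : (Ex fun x => bv (T x) * bv true * Sg σ L (vals h fun v => x (e v))) =
          Ex fun x => bv (T x) * Sg σ L (vals h fun v => x (e v)) := by
        apply Ex_congr
        intro x
        rw [bv_true, mul_one]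
      rwa [h5] at h4
    have h4 := (abs_le.1 (h3 {0, 1} ⟨0, by simp⟩)).2
    have h5 := (abs_le.1 (h3 {1, 2} ⟨1, by simp⟩)).2
    have h6 := (abs_le.1 (h3 {0, 2} ⟨0, by simp⟩)).2
    rw [ou_expand σ h e fun x => bv (T x)] at h0
    linarith

end Bounds

theorem thm_Outer : St_Outer := by
  intro K _ _ σ w hK hw U _ _ h δ η t s hδ hη hNP hR W _ _ e he L hL hLs g hg hup
  have hB := ou_card_B e he
  obtain ⟨Ts, h1, h2, h3⟩ := ou_dec (B := (top K U).image e) (by omega) (by omega) hL g hg
  have h4 : ∀ T ∈ Ts, (Ex fun x => bv (T x)) ≤ η + 3 * δ := fun T hT =>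
    ou_bound hδ hη hNP hR e he T (h2 T hT) fun x hx => hup x ((h3 x).1 ⟨T, hT, hx⟩)
  have h5 : (Ex fun x => bv (g.f x)) ≤ Ex fun x => (Ts.map fun T => bv (T x)).sum := by
    apply Ex_mono
    intro x
    cases hgx : g.f x with
    | false =>
      rw [bv_false]
      apply List.sum_nonneg
      intro a ha
      obtain ⟨T, _, rfl⟩ := List.mem_map.1 ha
      exact bv_nonneg _
    | true =>
      obtain ⟨T, hT, hTx⟩ := (h3 x).2 hgx
      have h6 : bv (T x) ≤ (Ts.map fun T => bv (T x)).sum := by
        apply List.single_le_sum
        · intro a ha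
          obtain ⟨T, _, rfl⟩ := List.mem_map.1 ha
          exact bv_nonneg _
        · exact List.mem_map.2 ⟨T, hT, rfl⟩
      rwa [hTx] at h6
  rw [Ex_list_sum] at h5
  have h6 : (Ts.map fun T => Ex fun x => bv (T x)).sum ≤ Ts.length * (η + 3 * δ) := by
    have h7 := List.sum_le_card_nsmul (Ts.map fun T => Ex fun x => bv (T x)) (η + 3 * δ) (by
      intro a ha
      obtain ⟨T, hT, rfl⟩ := List.mem_map.1 ha
      exact h4 T hT)
    rw [List.length_map, nsmul_eq_mul] at h7
    exact h7
  have h7 : (Ts.length : ℝ) ≤ 2 * s := by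
    have : Ts.length ≤ 2 * s := by omega
    exact_mod_cast this
  have h8 : (Ts.length : ℝ) * (η + 3 * δ) ≤ 2 * s * (η + 3 * δ) :=
    mul_le_mul_of_nonneg_right h7 (by linarith)
  linarith

end Pool.Agent.NH
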