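import Pool.Agent.NH.Base

/-!
# The negation hierarchy [RS]: discrepancy of rectangles which are balanced on the top bits
-/

set_option autoImplicit false

namespace Pool.Agent.NH

open Finset

private theorem rs_card {K U : Type} [Fintype K] [DecidableEq K] [Fintype U] [DecidableEq U]
    (X : Finset (Bk K U)) :
    (top K U).card = Fintype.card (Vx K) ∧
    (top K U ∩ X).card = (univ.filter fun v : Vx K => (Sum.inl v : Bk K U) ∈ X).card ∧
    (top K U \ X).card = (univ.filter fun v : Vx K => ¬ (Sum.inl v : Bk K U) ∈ X).card := by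
  have hinj : Function.Injective (Sum.inl : Vx K → Bk K U) := Sum.inl_injective
  refine ⟨?_, ?_, ?_⟩
  · rw [top, card_image_of_injective _ hinj, card_univ]
  · rw [← card_image_of_injective _ hinj]
    congr 1
    ext v
    simp only [top, mem_inter, mem_image, mem_univ, true_and, mem_filter]
    constructor
    · rintro ⟨⟨a, rfl⟩, h⟩
      exact ⟨a, h, rfl⟩
    · rintro ⟨a, h, rfl⟩
      exact ⟨⟨a, rfl⟩, h⟩
  · rw [← card_image_of_injective _ hinj]
    congr 1
    ext v
    simp only [top, mem_sdiff, mem_image, mem_univ, true_and, mem_filter]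
    constructor
    · rintro ⟨⟨a, rfl⟩, h⟩
      exact ⟨a, h, rfl⟩
    · rintro ⟨a, h, rfl⟩
      exact ⟨⟨a, rfl⟩, h⟩

private theorem rs_sqrt (n : ℕ) : Real.sqrt ((1 / 2) ^ n) ≤ (9 / 10) ^ n := by
  rw [Real.sqrt_le_left (by positivity), ← pow_mul, mul_comm n 2, pow_mul]
  exact pow_le_pow_left₀ (by norm_num) (by norm_num) n

/-- the probability of a pattern of bits -/
private theorem rs_bits {V ι : Type} [Fintype V] [DecidableEq V] [DecidableEq ι] (Q : Finset ι)
    (u : ι → V) (hu : ∀ i ∈ Q, ∀ j ∈ Q, u i = u j → i = j) (t : ι → Bool)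
    (E : (V → Bool) → Prop) (hE : ∀ y, E y ↔ ∀ i ∈ Q, y (u i) = t i) (dec : ∀ y, Decidable (E y)) :
    Ex (fun y : V → Bool => if E y then (1 : ℝ) else 0) = (1 / 2) ^ Q.card := by
  have h1 : ∀ y : V → Bool, (if E y then (1 : ℝ) else 0) =
      ∏ i ∈ Q, (if y (u i) = t i then (1 : ℝ) else 0) := by
    intro y
    split_ifs with h <;> rw [hE] at h
    · exact (Finset.prod_eq_one fun i hi => if_pos (h i hi)).symm
    · push Not at h
      obtain ⟨i, hi, h2⟩ := h
      exact (Finset.prod_eq_zero hi (if_neg h2)).symm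
  rw [Ex_congr h1, Ex_prod Q (fun i y => if y (u i) = t i then (1 : ℝ) else 0) (fun i => {u i})]
  · have h3 : ∀ i ∈ Q, Ex (fun y : V → Bool => if y (u i) = t i then (1 : ℝ) else 0) = 1 / 2 := by
      intro i _
      rw [Ex_bit (u i) (fun b => if b = t i then (1 : ℝ) else 0)]
      cases t i <;> norm_num
    rw [Finset.prod_congr rfl h3, Finset.prod_const]
  · intro i _ x y hxy
    have h4 : x (u i) = y (u i) := hxy _ (Finset.mem_singleton_self _)
    simp only [h4]
  · intro i hi j hj hij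
    rw [Finset.disjoint_singleton]
    exact fun h => hij (hu i hi j hj h)

/-- [RS] -/
theorem thm_RS (h1 : St_Crs) (h2 : St_Far) : St_RS := by
  intro K _ _ σ hσ k hk U _ _ h X hX1 hX2
  obtain ⟨c1, c2, c3⟩ := rs_card X
  have hsum := Finset.card_filter_add_card_filter_not (s := (univ : Finset (Vx K)))
    (fun v : Vx K => (Sum.inl v : Bk K U) ∈ X)
  rw [card_univ] at hsum
  obtain ⟨S, hS⟩ : ∃ S : Finset (Vx K), S = univ.filter fun v : Vx K => (Sum.inl v : Bk K U) ∈ X :=
    ⟨_, rfl⟩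
  have hmem : ∀ v : Vx K, v ∈ S ↔ (Sum.inl v : Bk K U) ∈ X := fun v => by simp [hS]
  rw [c1, c2] at hX1
  rw [c1, c3] at hX2
  rw [← hS] at hX1 hsum
  obtain ⟨c, hc⟩ := hk S hX1 (by omega)
  refine ⟨c, ?_⟩
  obtain ⟨Q, hQ1, hQ2, hQ3⟩ := (h2 K σ hσ).1 c
    (univ.filter fun i : K => ¬ (Sum.inl i ∈ S ↔ Sum.inr (σ c i) ∈ S))
  obtain ⟨p, hp⟩ : ∃ p : K → Vx K, p = fun i => if (Sum.inl i : Vx K) ∈ S then Sum.inl i
    else Sum.inr (σ c i) := ⟨_, rfl⟩
  obtain ⟨q, hq⟩ : ∃ q : K → Vx K, q = fun i => if (Sum.inl i : Vx K) ∈ S then Sum.inr (σ c i)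
    else Sum.inl i := ⟨_, rfl⟩
  have hpq : ∀ i, (p i = Sum.inl i ∧ q i = Sum.inr (σ c i)) ∨
      (q i = Sum.inl i ∧ p i = Sum.inr (σ c i)) := by
    intro i
    rw [hp, hq]
    by_cases h : (Sum.inl i : Vx K) ∈ S
    · left; simp [h]
    · right; simp [h]
  have hpS : ∀ i ∈ Q, p i ∈ S := by
    intro i hi
    have h3 := (mem_filter.1 (hQ1 hi)).2
    rw [hp]
    by_cases h : (Sum.inl i : Vx K) ∈ S
    · simp [h]
    · simp only [h, if_false]
      by_contra h4
      exact h3 (iff_of_false h h4)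
  have hqS : ∀ i ∈ Q, q i ∉ S := by
    intro i hi
    have h3 := (mem_filter.1 (hQ1 hi)).2
    rw [hq]
    by_cases h : (Sum.inl i : Vx K) ∈ S
    · simp only [h, if_true]
      intro h4
      exact h3 (iff_of_true h h4)
    · simp [h]
  have hinj : ∀ f : K → Vx K, (∀ i, f i = Sum.inl i ∨ f i = Sum.inr (σ c i)) →
      ∀ i j, f i = f j → i = j := by
    intro f hf i j hij
    rcases hf i with h3 | h3 <;> rcases hf j with h4 | h4 <;> rw [h3, h4] at hij
    · exact Sum.inl_injective hij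
    · simp at hij
    · simp at hij
    · exact (σ c).injective (Sum.inr_injective hij)
  have hpi : ∀ i j, p i = p j → i = j := hinj p fun i => by
    rcases hpq i with h | h
    · exact Or.inl h.1
    · exact Or.inr h.2
  have hqi : ∀ i j, q i = q j → i = j := hinj q fun i => by
    rcases hpq i with h | h
    · exact Or.inr h.2
    · exact Or.inl h.1
  obtain ⟨R, hR⟩ : ∃ R : Finset (Bk K U), R = Q.image fun i => Sum.inl (q i) := ⟨_, rfl⟩
  have hRm : ∀ v : Vx K, (Sum.inl v : Bk K U) ∈ R ↔ ∃ i ∈ Q, q i = v := by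
    intro v
    rw [hR, mem_image]
    constructor
    · rintro ⟨i, hi, h3⟩
      exact ⟨i, hi, Sum.inl_injective h3⟩
    · rintro ⟨i, hi, rfl⟩
      exact ⟨i, hi, rfl⟩
  have hRr : ∀ u : Vx K × U, (Sum.inr u : Bk K U) ∉ R := by
    intro u hu
    rw [hR, mem_image] at hu
    obtain ⟨i, -, h3⟩ := hu
    simp at h3
  have hRX : ∀ u ∈ R, u ∉ X := by
    intro u hu hX
    rw [hR, mem_image] at hu
    obtain ⟨i, hi, rfl⟩ := hu
    exact hqS i hi ((hmem _).2 hX)
  intro L hL a b ha hb haX hbX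
  have e1 : ∀ i ∈ Q, ∀ x y : Bk K U → Bool,
      (∀ v, (∀ j ∈ Q, v ≠ (Sum.inl (p j) : Bk K U)) → x v = y v) →
      xor (vals h x (p i)) (x (Sum.inl (p i))) = xor (vals h y (p i)) (y (Sum.inl (p i))) := by
    intro i hi x y hxy
    have h3 : (fun u => x (Sum.inr (p i, u))) = fun u => y (Sum.inr (p i, u)) := by
      funext u
      exact hxy _ (fun j _ h4 => Sum.inr_ne_inl h4)
    unfold vals
    rw [h3]
    generalize h (fun u => y (Sum.inr (p i, u))) = b1
    generalize x (Sum.inl (p i)) = b2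
    generalize y (Sum.inl (p i)) = b3
    revert b1 b2 b3
    decide
  have e2 : ∀ v : Vx K, (∀ i ∈ Q, v ≠ p i) → ∀ x y : Bk K U → Bool,
      (∀ u, (∀ j ∈ Q, u ≠ (Sum.inl (p j) : Bk K U)) → x u = y u) → vals h x v = vals h y v := by
    intro v hv x y hxy
    have h3 : (fun u => x (Sum.inr (v, u))) = fun u => y (Sum.inr (v, u)) := by
      funext u
      exact hxy _ (fun j _ h4 => Sum.inr_ne_inl h4)
    have h4 : x (Sum.inl v) = y (Sum.inl v) :=
      hxy _ (fun j hj h5 => hv j hj (Sum.inl_injective h5))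
    unfold vals
    rw [h3, h4]
  have e3 : ∀ v : Vx K, (∀ i ∈ Q, v ≠ q i) → ∀ x y : Bk K U → Bool,
      (∀ u, u ∉ R → x u = y u) → vals h x v = vals h y v := by
    intro v hv x y hxy
    have h3 : (fun u => x (Sum.inr (v, u))) = fun u => y (Sum.inr (v, u)) := by
      funext u
      exact hxy _ (hRr _)
    have h4 : x (Sum.inl v) = y (Sum.inl v) := by
      apply hxy
      intro h5
      obtain ⟨j, hj, h6⟩ := (hRm _).1 h5
      exact hv j hj h6.symm
    unfold vals
    rw [h3, h4]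
  have e4 : ∀ (x : Bk K U → Bool) (s : K → Bool) (y : Bk K U → Bool),
      (∀ i ∈ Q, vals h (mix R y x) (q i) = s i) ↔
        ∀ i ∈ Q, y (Sum.inl (q i)) = xor (s i) (h fun u => x (Sum.inr (q i, u))) := by
    intro x s y
    refine forall₂_congr fun i hi => ?_
    have h5 : (fun u => mix R y x (Sum.inr (q i, u))) = fun u => x (Sum.inr (q i, u)) := by
      funext u
      exact mix_not_mem (hRr _)
    have h6 : mix R y x (Sum.inl (q i)) = y (Sum.inl (q i)) :=
      mix_mem ((hRm _).2 ⟨i, hi, rfl⟩)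
    unfold vals
    rw [h5, h6]
    generalize h (fun u => x (Sum.inr (q i, u))) = b1
    generalize y (Sum.inl (q i)) = b2
    generalize s i = b3
    revert b1 b2 b3
    decide
  have e5 : ∀ i ∈ Q, (Sum.inl (p i) : Bk K U) ∉ R := by
    intro i hi hw
    obtain ⟨j, hj, h3⟩ := (hRm _).1 hw
    exact hqS j hj (h3 ▸ hpS i hi)
  have key := h1 K σ c (Bk K U) (vals h) Q hQ2 p q (fun i => Sum.inl (p i)) R
    ((1 / 2) ^ Q.card) (fun i _ => hpq i)
    (fun i _ j _ hij => hpi i j (Sum.inl_injective hij)) e5 e1 e2 e3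
    (fun x s => (rs_bits Q (fun i => (Sum.inl (q i) : Bk K U))
      (fun i _ j _ hij => hqi i j (Sum.inl_injective hij)) _ _ (e4 x s) _).le)
    L hL a b ha hb
    (fun x y hxy => haX x y fun v hv => hxy v fun h3 => hRX v h3 hv)
    (fun x y hxy => hbX x y fun v hv => hxy v fun j hj h3 => by
      rw [mem_compl, h3] at hv
      exact hv ((hmem _).1 (hpS j hj)))
  refine key.trans ((rs_sqrt _).trans ?_)
  exact pow_le_pow_of_le_one (by norm_num) (by norm_num) (by omega)

end Pool.Agent.NH
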