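import Pool.Agent.NH.Base

/-!
# The negation hierarchy: `Sg` as a product over a far apart set of vertices (module Red)
-/

set_option autoImplicit false

namespace Pool.Agent.NH

open Finset

private theorem Red_sgn_bodd {ι : Type} [DecidableEq ι] (s : Finset ι) (b : ι → Bool) :
    ∏ i ∈ s, sgn (b i) = sgn (Nat.bodd (s.filter fun i => b i = true).card) := by
  induction s using Finset.induction_on with
  | empty => simp [sgn]
  | insert a s ha ih =>
    rw [Finset.prod_insert ha, Finset.filter_insert, ih]
    have ha' : a ∉ s.filter fun i => b i = true := fun h => ha (Finset.mem_filter.1 h).1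
    by_cases h : b a = true
    · rw [if_pos h, Finset.card_insert_of_notMem ha', Nat.bodd_succ, h]
      cases Nat.bodd (s.filter fun i => b i = true).card <;> norm_num [sgn]
    · rw [if_neg h]
      have h' : b a = false := by simpa using h
      rw [h']
      norm_num [sgn]

/-- the number of the edge of colour `c` at the vertex `v` -/
private def Red_en {K : Type} (σ : Fin 3 → Equiv.Perm K) (c : Fin 3) : Vx K → K
  | Sum.inl i => i
  | Sum.inr j => (σ c).symm j

section Graph

variable {K : Type} [Fintype K] [DecidableEq K]

private theorem Red_par (σ : Fin 3 → Equiv.Perm K) (c : Fin 3) (y : Vx K → Bool) :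
    sgn (par σ c y) = ∏ i : K, sgn (y (Sum.inl i) && y (Sum.inr (σ c i))) := by
  rw [Red_sgn_bodd, par]
  congr 3
  ext i
  simp

/-- one vertex, one colour -/
private theorem Red_one (σ : Fin 3 → Equiv.Perm K) (c : Fin 3) (y : Vx K → Bool) (v : Vx K) :
    sgn (par σ c y) = sgn (par σ c (Function.update y v false)) *
      sgn (y v && y (nb σ c v)) := by
  rw [Red_par, Red_par, ← Finset.mul_prod_erase univ _ (Finset.mem_univ (Red_en σ c v)),
    ← Finset.mul_prod_erase univ (fun i => sgn (Function.update y v false (Sum.inl i) &&
      Function.update y v false (Sum.inr (σ c i)))) (Finset.mem_univ (Red_en σ c v))]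
  have h1 : ∏ i ∈ univ.erase (Red_en σ c v), sgn (y (Sum.inl i) && y (Sum.inr (σ c i))) =
      ∏ i ∈ univ.erase (Red_en σ c v), sgn (Function.update y v false (Sum.inl i) &&
        Function.update y v false (Sum.inr (σ c i))) := by
    refine Finset.prod_congr rfl fun i hi => ?_
    have hi' := (Finset.mem_erase.1 hi).1
    cases v with
    | inl k =>
      have hk : i ≠ k := hi'
      rw [Function.update_of_ne (fun h => hk (Sum.inl.inj h)), Function.update_of_ne (by simp)]
    | inr k =>
      have hk : i ≠ (σ c).symm k := hi'
      rw [Function.update_of_ne (by simp), Function.update_of_ne (fun h => hk (by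
        rw [← Sum.inr.inj h, Equiv.symm_apply_apply]))]
  have h2 : sgn (y (Sum.inl (Red_en σ c v)) && y (Sum.inr (σ c (Red_en σ c v)))) =
      sgn (y v && y (nb σ c v)) := by
    cases v with
    | inl k => rfl
    | inr k =>
      show sgn (y (Sum.inl ((σ c).symm k)) && y (Sum.inr (σ c ((σ c).symm k)))) =
        sgn (y (Sum.inr k) && y (Sum.inl ((σ c).symm k)))
      rw [Equiv.apply_symm_apply, Bool.and_comm]
  have h3 : sgn (Function.update y v false (Sum.inl (Red_en σ c v)) &&
      Function.update y v false (Sum.inr (σ c (Red_en σ c v)))) = 1 := by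
    cases v with
    | inl k =>
      show sgn (Function.update y (Sum.inl k) false (Sum.inl k) && _) = 1
      rw [Function.update_self, Bool.false_and]
      norm_num [sgn]
    | inr k =>
      show sgn (_ && Function.update y (Sum.inr k) false (Sum.inr (σ c ((σ c).symm k)))) = 1
      rw [Equiv.apply_symm_apply, Function.update_self, Bool.and_false]
      norm_num [sgn]
  rw [h1, h2, h3]
  ring

private theorem Red_prod (σ : Fin 3 → Equiv.Perm K) (L : Finset (Fin 3)) (y : Vx K → Bool)
    (v : Vx K) : Sg σ L y = Sg σ L (Function.update y v false) *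
      ∏ c ∈ L, sgn (y v && y (nb σ c v)) := by
  rw [Sg, Sg, ← Finset.prod_mul_distrib]
  exact Finset.prod_congr rfl fun c _ => Red_one σ c y v

private theorem Red_far {σ : Fin 3 → Equiv.Perm K} (L : Finset (Fin 3)) (y : Vx K → Bool)
    (I : Finset (Vx K)) : FarV σ I → Sg σ L y = Sg σ L (mix I (fun _ => false) y) *
      ∏ i ∈ I, ∏ c ∈ L, sgn (y i && y (nb σ c i)) := by
  induction I using Finset.induction_on with
  | empty =>
    intro _
    have h : mix ∅ (fun _ => false) y = y := by
      funext v
      simp [mix]
    rw [h, Finset.prod_empty, mul_one]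
  | insert v I hv ih =>
    intro hF
    have hF' : FarV σ I := fun i hi j hj => hF i (Finset.mem_insert_of_mem hi) j
      (Finset.mem_insert_of_mem hj)
    have h1 : mix (insert v I) (fun _ => false) y =
        Function.update (mix I (fun _ => false) y) v false := by
      funext u
      by_cases hu : u = v
      · rw [hu, Function.update_self]
        simp [mix]
      · rw [Function.update_of_ne hu]
        simp [mix, hu]
    have h2 : ∏ c ∈ L, sgn (mix I (fun _ => false) y v && mix I (fun _ => false) y (nb σ c v)) =
        ∏ c ∈ L, sgn (y v && y (nb σ c v)) := by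
      refine Finset.prod_congr rfl fun c _ => ?_
      have h3 : nb σ c v ∉ I := fun h => by
        have h4 := hF v (Finset.mem_insert_self _ _) (nb σ c v) (Finset.mem_insert_of_mem h)
          (fun h5 => by rw [← h5] at h; exact hv h) c c
        exact h4.2 rfl
      rw [mix_not_mem hv, mix_not_mem h3]
    rw [ih hF', Red_prod σ L (mix I (fun _ => false) y) v, h2, ← h1, Finset.prod_insert hv]
    ring

omit [Fintype K] [DecidableEq K] in
private theorem Red_odds (σ : Fin 3 → Equiv.Perm K) (L : Finset (Fin 3)) (y : Vx K → Bool)
    (i : Vx K) : ∏ c ∈ L, sgn (y i && y (nb σ c i)) =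
      if Nat.bodd (L.filter fun c => y (nb σ c i) = true).card = true then sgn (y i) else 1 := by
  cases h : y i with
  | false =>
    have h1 : sgn false = 1 := by norm_num [sgn]
    rw [h1, ite_self]
    refine Finset.prod_eq_one fun c _ => ?_
    rw [Bool.false_and, h1]
  | true =>
    simp only [Bool.true_and]
    rw [Red_sgn_bodd]
    cases Nat.bodd (L.filter fun c => y (nb σ c i) = true).card <;> norm_num [sgn]

end Graph

theorem thm_Red : St_Red := by
  intro K _ _ σ I hF L y
  rw [Red_far L y I hF, odds, Finset.prod_filter]
  congr 1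
  exact Finset.prod_congr rfl fun i _ => Red_odds σ L y i

end Pool.Agent.NH
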