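import Pool.Agent.NH.Defs

/-!
# The negation hierarchy: programs are closed under fixing variables
-/

set_option autoImplicit false

namespace Pool.Agent.NH

open Finset

section Sub

variable {W : Type} [DecidableEq W]

private lemma sub_depOn_mono {β : Type} {f : (W → Bool) → β} {S T : Finset W} (h : DepOn f S)
    (hST : S ⊆ T) : DepOn f T := fun x y hxy => h x y fun v hv => hxy v (hST hv)

/-- every gate depends only on its variables -/
private lemma sub_dep {w : ℕ} {L : List (Gt W)} (h : Prog w L) : ∀ g ∈ L, DepOn g.f g.S := by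
  induction h with
  | nil => intro g hg; exact absurd hg List.not_mem_nil
  | @cons L g hL hok ih =>
    intro g' hg'
    rcases List.mem_cons.mp hg' with rfl | hg'
    · rcases hok with ⟨S, hS, -, hd⟩ | ⟨p, hp, q, hq, -, hpS, hqS, -, -, hf⟩ |
        ⟨p, hp, q, hq, -, hpS, hqS, -, -, hf⟩ | ⟨p, hp, hpS, -, hf⟩
      · exact sub_depOn_mono hd hS
      · intro x y hxy
        rw [hf]
        show (p.f x && q.f x) = (p.f y && q.f y)
        rw [ih p hp x y fun v hv => hxy v (hpS hv), ih q hq x y fun v hv => hxy v (hqS hv)]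
      · intro x y hxy
        rw [hf]
        show (p.f x || q.f x) = (p.f y || q.f y)
        rw [ih p hp x y fun v hv => hxy v (hpS hv), ih q hq x y fun v hv => hxy v (hqS hv)]
      · intro x y hxy
        rw [hf]
        show (!p.f x) = (!p.f y)
        rw [ih p hp x y fun v hv => hxy v (hpS hv)]
    · exact ih g' hg'

/-- the gate after fixing variables -/
private def subG (φ : (W → Bool) → W → Bool) (g : Gt W) : Gt W := ⟨fun x => g.f (φ x), g.S, g.l⟩

private lemma sub_prog {w : ℕ} {L : List (Gt W)} (h : Prog w L) (φ : (W → Bool) → W → Bool)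
    (hφ : ∀ v, (∃ b, ∀ x, φ x v = b) ∨ ∀ x, φ x v = x v) : Prog w (L.map (subG φ)) := by
  induction h with
  | nil => exact Prog.nil
  | @cons L g hL hok ih =>
    rw [List.map_cons]
    refine Prog.cons ih ?_
    rcases hok with ⟨S, hS, hc, hd⟩ | ⟨p, hp, q, hq, hdj, hpS, hqS, hpl, hql, hf⟩ |
        ⟨p, hp, q, hq, hdet, hpS, hqS, hpl, hql, hf⟩ | ⟨p, hp, hpS, hpl, hf⟩
    · refine Or.inl ⟨S, hS, hc, fun x y hxy => hd _ _ fun v hv => ?_⟩
      rcases hφ v with ⟨b, hb⟩ | hv'
      · rw [hb, hb]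
      · rw [hv', hv', hxy v hv]
    · refine Or.inr (Or.inl ⟨subG φ p, List.mem_map_of_mem hp, subG φ q, List.mem_map_of_mem hq,
        hdj, hpS, hqS, hpl, hql, ?_⟩)
      show (fun x => g.f (φ x)) = fun x => p.f (φ x) && q.f (φ x)
      rw [hf]
    · refine Or.inr (Or.inr (Or.inl ⟨subG φ p, List.mem_map_of_mem hp, subG φ q,
        List.mem_map_of_mem hq, fun x => hdet (φ x), hpS, hqS, hpl, hql, ?_⟩))
      show (fun x => g.f (φ x)) = fun x => p.f (φ x) || q.f (φ x)
      rw [hf]
    · refine Or.inr (Or.inr (Or.inr ⟨subG φ p, List.mem_map_of_mem hp, hpS, hpl, ?_⟩))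
      show (fun x => g.f (φ x)) = fun x => !p.f (φ x)
      rw [hf]

end Sub

theorem thm_Sub : St_Sub := by
  intro W _ w t s f S ⟨L, hL, hlen, hlev, g, hg, hgf, hgS⟩
  refine ⟨?_, ?_⟩
  · rw [← hgf]
    exact sub_depOn_mono (sub_dep hL g hg) hgS
  · intro φ hφ
    refine ⟨L.map (subG φ), sub_prog hL φ hφ, by rw [List.length_map]; exact hlen, ?_,
      subG φ g, List.mem_map_of_mem hg, ?_, hgS⟩
    · intro g' hg'
      obtain ⟨g'', hg'', rfl⟩ := List.mem_map.mp hg'
      exact hlev g'' hg''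
    · show (fun x => g.f (φ x)) = _
      rw [hgf]

end Pool.Agent.NH
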