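import Pool.Agent.NH.Defs
import Pool.Agent.NH.Base

/-!
# The negation hierarchy: upper bound, from one level to the next
-/

namespace Pool.Agent.NH

open Finset

private lemma Up_nae {K : Type} [Fintype K] [DecidableEq K] (σ : Fin 3 → Equiv.Perm K)
    (y : Vx K → Bool) : nae σ y = (((par σ 0 y && !par σ 1 y) || (par σ 1 y && !par σ 2 y)) ||
      (par σ 2 y && !par σ 0 y)) := by
  unfold nae
  cases par σ 0 y <;> cases par σ 1 y <;> cases par σ 2 y <;> rfl

theorem thm_Up (h1 : St_Diag) (h2 : St_Comp) : St_Up := by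
  intro K _ _ σ U _ _ h a b s hab hU
  obtain ⟨L₀, hL₀, hlen₀, hlev₀, hC⟩ := h2 K U h a b s hab hU
  have key : ∀ (c d : Fin 3) (L₂ : List (Gt (Bk K U))), Prog 1 (L₂ ++ L₀) →
      (∀ g ∈ L₂, g.l ≤ b) → ∃ L₁ : List (Gt (Bk K U)), Prog 1 (L₁ ++ L₂ ++ L₀) ∧
        L₁.length ≤ 96 * Fintype.card K + 17 ∧ (∀ g ∈ L₁, g.l ≤ b) ∧
        ∃ g ∈ L₁, g.f = fun x => (par σ c (vals h x) && !par σ d (vals h x)) := by
    intro c d L₂ hL₂ hlev₂
    obtain ⟨l, q₀, acc, hl, hnd, hrun⟩ := h1 K σ c d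
    obtain ⟨L₁, a1, a2, a3, g, hg, hgf⟩ := hC L₂ hL₂ hlev₂ 16 l q₀ acc hnd
    refine ⟨L₁, a1, ?_, a3, g, hg, ?_⟩
    · rw [hl] at a2
      omega
    · rw [hgf]
      funext x
      exact hrun _
  obtain ⟨A, hA, hAl, hAv, p, hp, hpf⟩ := key 0 1 [] hL₀ (by simp)
  rw [List.append_nil] at hA
  obtain ⟨B, hB, hBl, hBv, q, hq, hqf⟩ := key 1 2 A hA hAv
  obtain ⟨C, hC', hCl, hCv, r, hr, hrf⟩ := key 2 0 (B ++ A) hB (by
    intro g hg
    rcases List.mem_append.1 hg with hg | hg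
    · exact hBv g hg
    · exact hAv g hg)
  have hpM : p ∈ C ++ (B ++ A) ++ L₀ := by simp [hp]
  have hqM : q ∈ C ++ (B ++ A) ++ L₀ := by simp [hq]
  have hrM : r ∈ C ++ (B ++ A) ++ L₀ := by simp [hr]
  have hlev : ∀ g ∈ C ++ (B ++ A) ++ L₀, g.l ≤ b := by
    intro g hg
    simp only [List.mem_append] at hg
    rcases hg with (hg | hg | hg) | hg
    · exact hCv g hg
    · exact hBv g hg
    · exact hAv g hg
    · exact hlev₀ g hg
  have hlen : (C ++ (B ++ A) ++ L₀).length ≤ 2 * Fintype.card K * s + 304 * Fintype.card K + 51 := by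
    simp only [List.length_append]
    have h3 : 2 * Fintype.card K * (s + 8) = 2 * Fintype.card K * s + 16 * Fintype.card K := by
      ring
    omega
  generalize C ++ (B ++ A) ++ L₀ = M at *
  -- the three new gates
  have h3 : Prog 1 (⟨fun x => p.f x || q.f x, p.S ∪ q.S, b⟩ :: M) := by
    refine Prog.cons hC' (Or.inr (Or.inr (Or.inl ⟨p, hpM, q, hqM, ?_, subset_union_left,
      subset_union_right, hlev p hpM, hlev q hqM, rfl⟩)))
    intro x
    rw [hpf, hqf]
    dsimp only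
    cases par σ 0 (vals h x) <;> cases par σ 1 (vals h x) <;> cases par σ 2 (vals h x) <;> simp
  have h4 : Prog 1 (⟨fun x => (p.f x || q.f x) || r.f x, (p.S ∪ q.S) ∪ r.S, b⟩ ::
      ⟨fun x => p.f x || q.f x, p.S ∪ q.S, b⟩ :: M) := by
    refine Prog.cons h3 (Or.inr (Or.inr (Or.inl ⟨_, List.mem_cons_self, r,
      List.mem_cons_of_mem _ hrM, ?_, subset_union_left, subset_union_right, le_rfl,
      hlev r hrM, rfl⟩)))
    intro x
    dsimp only
    rw [hpf, hqf, hrf]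
    dsimp only
    cases par σ 0 (vals h x) <;> cases par σ 1 (vals h x) <;> cases par σ 2 (vals h x) <;> simp
  have h5 : Prog 1 (⟨fun x => !((p.f x || q.f x) || r.f x), (p.S ∪ q.S) ∪ r.S, b + 1⟩ ::
      ⟨fun x => (p.f x || q.f x) || r.f x, (p.S ∪ q.S) ∪ r.S, b⟩ ::
      ⟨fun x => p.f x || q.f x, p.S ∪ q.S, b⟩ :: M) := by
    exact Prog.cons h4 (Or.inr (Or.inr (Or.inr ⟨_, List.mem_cons_self, subset_refl _,
      Nat.lt_succ_self _, rfl⟩)))
  have hf : (fun x => (p.f x || q.f x) || r.f x) = up σ h := by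
    funext x
    rw [hpf, hqf, hrf]
    exact (Up_nae σ (vals h x)).symm
  refine ⟨_, h5, ?_, ?_, ⟨_, List.mem_cons_of_mem _ List.mem_cons_self, hf, le_rfl⟩,
    ⟨_, List.mem_cons_self, ?_⟩⟩
  · simp only [List.length_cons]
    omega
  · intro g hg
    rcases List.mem_cons.1 hg with rfl | hg
    · exact le_rfl
    rcases List.mem_cons.1 hg with rfl | hg
    · exact Nat.le_succ _
    rcases List.mem_cons.1 hg with rfl | hg
    · exact Nat.le_succ _
    · exact (hlev g hg).trans (Nat.le_succ _)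
  · rw [← hf]

end Pool.Agent.NH
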