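import Pool.Agent.NH.Circ

/-!
# The negation hierarchy: statement of [Tse]
-/

set_option autoImplicit false

namespace Pool.Agent.NH

/-- [Tse] a 3-CNF formula for a circuit, with one auxiliary variable for every gate (Tseitin). -/
def St_Tse : Prop :=
  ∀ (V : Type) [DecidableEq V] (L : List (Gate V)), IsCircuit 1 L →
    ∃ φ : CNF (V ⊕ Fin L.length), φ.length ≤ 3 * L.length ∧ (∀ K ∈ φ, K.length ≤ 3) ∧
      ∀ (x : V → Bool) (y : Fin L.length → Bool),
        Sat φ (Sum.elim x y) ↔ ∀ i, y i = (L.get i).f x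

end Pool.Agent.NH
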